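import Mathlib

/-!
# Signs of the forward differences of powers
-/

set_option autoImplicit false

open Finset fwdDiff

namespace Pool.Agent.Lib.Helper34.SP

/-- the coefficients of the `n`-th forward difference -/
def dc (n k : ℕ) : ℝ := (-1) ^ (n - k) * (n.choose k : ℝ)

theorem fwdDiff_iter_eq_sum (φ : ℝ → ℝ) (n : ℕ) (y : ℝ) :
    (fwdDiff (1 : ℝ))^[n] φ y = ∑ k ∈ range (n + 1), dc n k * φ (y + k) := by
  rw [fwdDiff_iter_eq_sum_shift]
  refine sum_congr rfl fun k _ => ?_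
  simp [dc]

theorem fwdDiff_iter_succ_apply (φ : ℝ → ℝ) (n : ℕ) (y : ℝ) :
    (fwdDiff (1 : ℝ))^[n + 1] φ y = (fwdDiff (1 : ℝ))^[n] φ (y + 1) - (fwdDiff (1 : ℝ))^[n] φ y := by
  rw [Function.iterate_succ_apply', fwdDiff]

theorem hasDerivAt_fwdDiff_iter (q : ℝ) (n : ℕ) {y : ℝ} (hy : 0 < y) :
    HasDerivAt ((fwdDiff (1 : ℝ))^[n] (fun x : ℝ => x ^ q)) (q * (fwdDiff (1 : ℝ))^[n] (fun x : ℝ => x ^ (q - 1)) y) y := by
  have h1 : ((fwdDiff (1 : ℝ))^[n] (fun x : ℝ => x ^ q)) =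
      fun y => ∑ k ∈ range (n + 1), dc n k * (y + k) ^ q := by
    funext y; exact fwdDiff_iter_eq_sum _ _ _
  rw [h1, fwdDiff_iter_eq_sum, mul_sum]
  refine HasDerivAt.fun_sum fun k _ => ?_
  have h2 : HasDerivAt (fun y : ℝ => y + (k : ℝ)) 1 y := by
    simpa using (hasDerivAt_id y).add_const (k : ℝ)
  have h3 : y + (k : ℝ) ≠ 0 := by positivity
  refine ((h2.rpow_const (p := q) (Or.inl h3)).const_mul (dc n k)).congr_deriv ?_
  ring

theorem continuousOn_fwdDiff_iter {q : ℝ} (hq : 0 ≤ q) (n : ℕ) :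
    ContinuousOn ((fwdDiff (1 : ℝ))^[n] (fun x : ℝ => x ^ q)) (Set.Ici 0) := by
  have h1 : ((fwdDiff (1 : ℝ))^[n] (fun x : ℝ => x ^ q)) =
      fun y => ∑ k ∈ range (n + 1), dc n k * (y + k) ^ q := by
    funext y; exact fwdDiff_iter_eq_sum _ _ _
  rw [h1]
  refine Continuous.continuousOn ?_
  refine continuous_finsetSum _ fun k _ => ?_
  exact continuous_const.mul ((continuous_id.add continuous_const).rpow_const
    fun _ => Or.inr hq)

/-- Mean value theorem for forward differences of powers. -/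
theorem exists_fwdDiff_succ {q : ℝ} (hq : 0 ≤ q) (n : ℕ) {y : ℝ} (hy : 0 ≤ y) :
    ∃ z, y < z ∧ (fwdDiff (1 : ℝ))^[n + 1] (fun x : ℝ => x ^ q) y =
      q * (fwdDiff (1 : ℝ))^[n] (fun x : ℝ => x ^ (q - 1)) z := by
  obtain ⟨z, hz, h⟩ := exists_hasDerivAt_eq_slope ((fwdDiff (1 : ℝ))^[n] (fun x : ℝ => x ^ q))
    (fun z => q * (fwdDiff (1 : ℝ))^[n] (fun x : ℝ => x ^ (q - 1)) z) (a := y) (b := y + 1) (by linarith)
    ((continuousOn_fwdDiff_iter hq n).mono fun t ht => hy.trans ht.1)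
    (fun t ht => hasDerivAt_fwdDiff_iter q n (lt_of_le_of_lt hy ht.1))
  refine ⟨z, hz.1, ?_⟩
  rw [fwdDiff_iter_succ_apply]
  rw [h]; simp

theorem exists_fwdDiff_succ' (q : ℝ) (n : ℕ) {y : ℝ} (hy : 0 < y) :
    ∃ z, y < z ∧ (fwdDiff (1 : ℝ))^[n + 1] (fun x : ℝ => x ^ q) y =
      q * (fwdDiff (1 : ℝ))^[n] (fun x : ℝ => x ^ (q - 1)) z := by
  obtain ⟨z, hz, h⟩ := exists_hasDerivAt_eq_slope ((fwdDiff (1 : ℝ))^[n] (fun x : ℝ => x ^ q))
    (fun z => q * (fwdDiff (1 : ℝ))^[n] (fun x : ℝ => x ^ (q - 1)) z) (a := y) (b := y + 1) (by linarith)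
    (fun t ht => (hasDerivAt_fwdDiff_iter q n (lt_of_lt_of_le hy ht.1)).continuousAt.continuousWithinAt)
    (fun t ht => hasDerivAt_fwdDiff_iter q n (lt_of_lt_of_le hy ht.1.le))
  refine ⟨z, hz.1, ?_⟩
  rw [fwdDiff_iter_succ_apply]
  rw [h]; simp

theorem fwdDiff_pos : ∀ (n : ℕ) {q : ℝ}, (n : ℝ) - 1 < q → ∀ {y : ℝ}, 0 < y →
    0 < (fwdDiff (1 : ℝ))^[n] (fun x : ℝ => x ^ q) y
  | 0, q, _, y, hy => by simpa using Real.rpow_pos_of_pos hy q
  | n + 1, q, hq, y, hy => by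
      obtain ⟨z, hz, h⟩ := exists_fwdDiff_succ' q n hy
      rw [h]
      push_cast at hq
      have hq0 : 0 < q := by
        have : (0 : ℝ) ≤ n := Nat.cast_nonneg n
        linarith
      exact mul_pos hq0 (fwdDiff_pos n (by linarith) (hy.trans hz))

theorem fwdDiff_pos_zero {n : ℕ} {q : ℝ} (hn : (n : ℝ) < q) :
    0 < (fwdDiff (1 : ℝ))^[n + 1] (fun x : ℝ => x ^ q) 0 := by
  have hq0 : 0 < q := lt_of_le_of_lt (Nat.cast_nonneg n) hn
  obtain ⟨z, hz, h⟩ := exists_fwdDiff_succ hq0.le n le_rfl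
  rw [h]
  exact mul_pos hq0 (fwdDiff_pos n (by linarith) hz)

theorem fwdDiff_neg : ∀ (n : ℕ) {q : ℝ}, (n : ℝ) - 1 < q → q < n → ∀ {y : ℝ}, 0 < y →
    (fwdDiff (1 : ℝ))^[n + 1] (fun x : ℝ => x ^ q) y < 0
  | 0, q, hq, hq2, y, hy => by
      rw [fwdDiff_iter_succ_apply]
      simp only [Function.iterate_zero, id_eq, sub_neg]
      exact Real.rpow_lt_rpow_of_neg hy (by linarith) (by simpa using hq2)
  | n + 1, q, hq, hq2, y, hy => by
      obtain ⟨z, hz, h⟩ := exists_fwdDiff_succ' q (n + 1) hy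
      rw [h]
      push_cast at hq hq2
      have hq0 : 0 < q := by
        have : (0 : ℝ) ≤ n := Nat.cast_nonneg n
        linarith
      exact mul_neg_of_pos_of_neg hq0 (fwdDiff_neg n (by linarith) (by linarith) (hy.trans hz))

theorem fwdDiff_nonpos {n : ℕ} {q : ℝ} (hq : (n : ℝ) < q) (hq2 : q < n + 1) {y : ℝ}
    (hy : 0 ≤ y) : (fwdDiff (1 : ℝ))^[n + 2] (fun x : ℝ => x ^ q) y ≤ 0 := by
  have hq0 : 0 < q := lt_of_le_of_lt (Nat.cast_nonneg n) hq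
  obtain ⟨z, hz, h⟩ := exists_fwdDiff_succ hq0.le (n + 1) hy
  rw [h]
  have := fwdDiff_neg n (q := q - 1) (by linarith) (by linarith) (lt_of_le_of_lt hy hz)
  exact (mul_neg_of_pos_of_neg hq0 this).le

theorem sum_dc_eq_zero (n : ℕ) : ∑ k ∈ range (n + 2), dc (n + 1) k = 0 := by
  have h := fwdDiff_iter_eq_sum (fun _ => (1 : ℝ)) (n + 1) 0
  have h2 : (fwdDiff (1 : ℝ))^[n + 1] (fun _ : ℝ => (1 : ℝ)) 0 = 0 := by
    have := fwdDiff_iter_pow_eq_zero_of_lt (R := ℝ) (j := 0) (n := n + 1) (by omega)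
    simp only [pow_zero] at this
    rw [this]; rfl
  rw [h2] at h
  simpa using h.symm

/-- The pointwise inequality on the `L_p` side. -/
theorem sum_dc_rpow_nonpos {n : ℕ} {m : ℝ} (hm : (n : ℝ) < m) (hm2 : m < n + 1) {a b : ℝ}
    (ha : 0 ≤ a) (hb : 0 ≤ b) :
    ∑ k ∈ range (n + 3), dc (n + 2) k * (b + k * a) ^ m ≤ 0 := by
  rcases ha.eq_or_lt with rfl | ha
  · simp only [mul_zero, add_zero]
    rw [← sum_mul, sum_dc_eq_zero (n + 1), zero_mul]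
  · have h1 := fwdDiff_nonpos hm hm2 (y := b / a) (by positivity)
    rw [fwdDiff_iter_eq_sum] at h1
    have h2 : ∑ k ∈ range (n + 3), dc (n + 2) k * (b + k * a) ^ m =
        a ^ m * ∑ k ∈ range (n + 2 + 1), dc (n + 2) k * (b / a + k) ^ m := by
      rw [mul_sum]
      refine sum_congr rfl fun k _ => ?_
      have : b + k * a = a * (b / a + k) := by field_simp
      rw [this, Real.mul_rpow ha.le (by positivity)]
      ring
    rw [h2]
    exact mul_nonpos_of_nonneg_of_nonpos (by positivity) h1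

theorem sum_dc_pow_eq_zero {n j : ℕ} (hj : j < n) :
    ∑ k ∈ range (n + 1), dc n k * (k : ℝ) ^ j = 0 := by
  have h := fwdDiff_iter_eq_sum (fun x : ℝ => x ^ j) n 0
  rw [fwdDiff_iter_pow_eq_zero_of_lt hj] at h
  simpa using h.symm

theorem sum_dc_rpow_pos {n : ℕ} {q : ℝ} (hn : (n : ℝ) < q) :
    0 < ∑ k ∈ range (n + 2), dc (n + 1) k * (k : ℝ) ^ q := by
  have h := fwdDiff_pos_zero hn
  rw [fwdDiff_iter_eq_sum] at h
  simpa using h

end Pool.Agent.Lib.Helper34.SP
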