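import Mathlib

/-!
# The norm function of the pair `(1, E₁₂)`

`‖α 1 + E₁₂‖_p^p = s₁^p + s₂^p`, `s₁ - s₂ = 1`, `s₁ s₂ = |α|²`.
-/

set_option autoImplicit false

open Set Finset Filter Topology

namespace Pool.Agent.Lib.Helper34.SP

noncomputable def s1 (y : ℝ) : ℝ := (1 + Real.sqrt (1 + 4 * y)) / 2
noncomputable def s2 (y : ℝ) : ℝ := (Real.sqrt (1 + 4 * y) - 1) / 2
noncomputable def PF (m : ℝ) (y : ℝ) : ℝ := s1 y ^ (2 * m) + s2 y ^ (2 * m)

theorem s1_mul_s2 {y : ℝ} (hy : 0 ≤ y) : s1 y * s2 y = y := by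
  have h := Real.sq_sqrt (show 0 ≤ 1 + 4 * y by linarith)
  unfold s1 s2
  nlinarith

theorem s1_sub_s2 (y : ℝ) : s1 y - s2 y = 1 := by unfold s1 s2; ring

theorem sqrt_one_add {y : ℝ} (hy : 0 ≤ y) : 1 ≤ Real.sqrt (1 + 4 * y) := by
  rw [Real.one_le_sqrt]; linarith

theorem one_le_s1 {y : ℝ} (hy : 0 ≤ y) : 1 ≤ s1 y := by
  have := sqrt_one_add hy
  unfold s1; linarith

theorem s2_nonneg {y : ℝ} (hy : 0 ≤ y) : 0 ≤ s2 y := by
  have := sqrt_one_add hy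
  unfold s2; linarith

theorem s1_pos {y : ℝ} (hy : 0 ≤ y) : 0 < s1 y := by linarith [one_le_s1 hy]

theorem s2_eq {y : ℝ} (hy : 0 ≤ y) : s2 y = y / s1 y := by
  have := s1_pos hy
  rw [eq_div_iff this.ne', mul_comm, s1_mul_s2 hy]

theorem s2_le {y : ℝ} (hy : 0 ≤ y) : s2 y ≤ y := by
  rw [s2_eq hy]
  exact div_le_self hy (one_le_s1 hy)

theorem sq_add_sq {y : ℝ} (hy : 0 ≤ y) : s1 y ^ 2 + s2 y ^ 2 = 1 + 2 * y := by
  have h1 := s1_mul_s2 hy
  have h2 := s1_sub_s2 y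
  have : s1 y ^ 2 + s2 y ^ 2 = (s1 y - s2 y) ^ 2 + 2 * (s1 y * s2 y) := by ring
  rw [this, h1, h2]; ring

theorem continuous_s1 : Continuous s1 := by unfold s1; fun_prop
theorem continuous_s2 : Continuous s2 := by unfold s2; fun_prop

theorem continuous_PF {m : ℝ} (hm : 0 < m) : Continuous (PF m) := by
  unfold PF
  exact (continuous_s1.rpow_const fun y => Or.inr (by linarith)).add
    (continuous_s2.rpow_const fun y => Or.inr (by linarith))

theorem s1_le {y : ℝ} (hy : 0 ≤ y) : s1 y ^ 2 ≤ 1 + 2 * y := by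
  have := sq_add_sq hy
  nlinarith [sq_nonneg (s2 y)]

theorem s1_rpow_le {m y : ℝ} (hm : 0 < m) (hy : 0 ≤ y) : s1 y ^ (2 * m) ≤ (1 + 2 * y) ^ m := by
  rw [Real.rpow_mul (s1_pos hy).le]
  refine Real.rpow_le_rpow (Real.rpow_nonneg (s1_pos hy).le _) ?_ hm.le
  have := s1_le hy
  exact_mod_cast this

theorem s2_rpow_le {m y : ℝ} (hm : 0 < m) (hy : 0 ≤ y) : s2 y ^ (2 * m) ≤ (1 + 2 * y) ^ m := by
  rw [Real.rpow_mul (s2_nonneg hy)]
  refine Real.rpow_le_rpow (Real.rpow_nonneg (s2_nonneg hy) _) ?_ hm.le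
  have := sq_add_sq hy
  have h2 : s2 y ^ 2 ≤ 1 + 2 * y := by nlinarith [sq_nonneg (s1 y)]
  exact_mod_cast h2

theorem PF_nonneg {m y : ℝ} (hy : 0 ≤ y) : 0 ≤ PF m y := by
  have h1 := s1_pos hy
  have h2 := s2_nonneg hy
  unfold PF; positivity

theorem PF_le {m y : ℝ} (hm : 0 < m) (hy : 0 ≤ y) : PF m y ≤ 2 * (1 + 2 * y) ^ m := by
  unfold PF
  linarith [s1_rpow_le hm hy, s2_rpow_le hm hy]

theorem PF_zero {m : ℝ} (hm : 0 < m) : PF m 0 = 1 := by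
  have h1 : s1 0 = 1 := by unfold s1; norm_num
  have h2 : s2 0 = 0 := by unfold s2; norm_num
  unfold PF
  rw [h1, h2, Real.one_rpow, Real.zero_rpow (by linarith), add_zero]

/-- Taylor expansion of `s₁^q` at `0`. -/
theorem s1_expansion (q : ℝ) (n : ℕ) :
    ∃ (T : ℕ → ℝ) (C : ℝ), 0 ≤ C ∧ ∀ y ∈ Icc (0 : ℝ) 1,
      |s1 y ^ q - ∑ j ∈ range (n + 1), T j * y ^ j| ≤ C * y ^ (n + 1) := by
  have hcd : ContDiffOn ℝ (n + 1) (fun y => s1 y ^ q) (Icc 0 1) := by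
    intro y hy
    refine ContDiffAt.contDiffWithinAt ?_
    have h1 : (1 + 4 * y) ≠ 0 := by have := hy.1; linarith
    have h2 : ContDiffAt ℝ (n + 1) s1 y := by
      unfold s1
      refine ContDiffAt.div_const ?_ 2
      refine contDiffAt_const.add ?_
      refine ContDiffAt.sqrt ?_ h1
      fun_prop
    exact h2.rpow_const_of_ne (s1_pos hy.1).ne'
  obtain ⟨C, hC⟩ := exists_taylor_mean_remainder_bound zero_le_one hcd
  refine ⟨fun k => ((k.factorial : ℝ)⁻¹) * iteratedDerivWithin k (fun y => s1 y ^ q) (Icc 0 1) 0,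
    max C 0, le_max_right _ _, fun y hy => ?_⟩
  have h := hC y hy
  rw [taylor_within_apply] at h
  simp only [sub_zero, smul_eq_mul, Real.norm_eq_abs] at h
  have h3 : ∑ k ∈ range (n + 1), ((k.factorial : ℝ)⁻¹) *
      iteratedDerivWithin k (fun y => s1 y ^ q) (Icc 0 1) 0 * y ^ k =
      ∑ k ∈ range (n + 1), (k.factorial : ℝ)⁻¹ * y ^ k *
        iteratedDerivWithin k (fun y => s1 y ^ q) (Icc 0 1) 0 :=
    sum_congr rfl fun k _ => by ring
  rw [h3]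
  refine h.trans ?_
  have := hy.1
  gcongr
  exact le_max_left _ _

end Pool.Agent.Lib.Helper34.SP
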