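import Mathlib

/-!
# The spherical average `∫_ℂ ‖a + ξ b‖^{2m} (1 + |ξ|²)^{-m-2} dξ = κ (|a|² + |b|²)^m`
-/

set_option autoImplicit false

open MeasureTheory Set
open scoped ENNReal

namespace Pool.Agent.Lib.Helper34.SP

/-- Change of variables `η = ω⁻¹` in the plane. -/
theorem lintegral_inv_complex (Φ : ℂ → ℝ≥0∞) :
    ∫⁻ η : ℂ, Φ η = ∫⁻ ω : ℂ, ENNReal.ofReal (‖ω‖⁻¹ ^ 4) * Φ ω⁻¹ := by
  have hs : MeasurableSet ({0}ᶜ : Set ℂ) := (measurableSet_singleton 0).compl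
  have himg : (fun z : ℂ => z⁻¹) '' ({0}ᶜ : Set ℂ) = {0}ᶜ := by
    ext z
    simp only [mem_image, mem_compl_iff, mem_singleton_iff]
    constructor
    · rintro ⟨w, hw, rfl⟩; exact inv_ne_zero hw
    · intro hz; exact ⟨z⁻¹, inv_ne_zero hz, inv_inv z⟩
  have hinj : InjOn (fun z : ℂ => z⁻¹) ({0}ᶜ : Set ℂ) := fun z _ w _ h => inv_injective h
  have hderiv : ∀ z ∈ ({0}ᶜ : Set ℂ), HasFDerivWithinAt (fun z : ℂ => z⁻¹)
      ((ContinuousLinearMap.toSpanSingleton ℂ (-(z ^ 2)⁻¹) : ℂ →L[ℂ] ℂ).restrictScalars ℝ)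
      ({0}ᶜ : Set ℂ) z := by
    intro z hz
    have h := (hasDerivAt_inv (𝕜 := ℂ) (x := z) (by simpa using hz)).hasFDerivAt
    exact (h.restrictScalars ℝ).hasFDerivWithinAt
  have h := lintegral_image_eq_lintegral_abs_det_fderiv_mul volume hs hderiv hinj Φ
  rw [himg] at h
  have h0 : ∀ F : ℂ → ℝ≥0∞, ∫⁻ z, F z = ∫⁻ z in ({0}ᶜ : Set ℂ), F z := by
    intro F
    rw [← lintegral_add_compl F hs]
    simp
  rw [h0 Φ, h, h0 (fun ω : ℂ => ENNReal.ofReal (‖ω‖⁻¹ ^ 4) * Φ ω⁻¹)]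
  refine setLIntegral_congr_fun hs fun z hz => ?_
  congr 2
  simp [ContinuousLinearMap.det, LinearMap.det_restrictScalars,
    Algebra.norm_complex_eq, Complex.normSq_eq_norm_sq, ← pow_mul]

/-- The total mass of the spherical weight. -/
noncomputable def kap (m : ℝ) : ℝ≥0∞ :=
  ∫⁻ ξ : ℂ, ENNReal.ofReal ((1 + ‖ξ‖ ^ 2) ^ (-(m + 2)))

theorem lintegral_comp_smul_complex (F : ℂ → ℝ≥0∞) {R : ℝ} (hR : 0 < R) :
    ∫⁻ z : ℂ, F ((R : ℂ) * z) = ENNReal.ofReal (R⁻¹ ^ 2) * ∫⁻ z : ℂ, F z := by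
  have h : (fun z : ℂ => F ((R : ℂ) * z)) = fun z : ℂ => F (R • z) := by
    funext z; rw [Complex.real_smul]
  rw [h]
  have h1 : ∫⁻ z : ℂ, F (R • z) = ∫⁻ z, F z ∂(Measure.map (fun z : ℂ => R • z) volume) :=
    ((Homeomorph.smulOfNeZero R hR.ne').measurableEmbedding.lintegral_map _).symm
  rw [h1, Measure.map_addHaar_smul volume hR.ne', lintegral_smul_measure]
  simp [Complex.finrank_real_complex]

theorem kernel_aux (c : ℂ) {m : ℝ} (hm : 0 < m) :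
    ∫⁻ ξ : ℂ, ENNReal.ofReal (‖ξ + c‖ ^ (2 * m) * (1 + ‖ξ‖ ^ 2) ^ (-(m + 2))) =
      ENNReal.ofReal ((1 + ‖c‖ ^ 2) ^ m) * kap m := by
  set D : ℝ := 1 + ‖c‖ ^ 2 with hD
  have hDpos : 0 < D := by positivity
  -- translate
  have h1 : ∫⁻ ξ : ℂ, ENNReal.ofReal (‖ξ + c‖ ^ (2 * m) * (1 + ‖ξ‖ ^ 2) ^ (-(m + 2))) =
      ∫⁻ η : ℂ, ENNReal.ofReal (‖η‖ ^ (2 * m) * (1 + ‖η - c‖ ^ 2) ^ (-(m + 2))) := by
    rw [← lintegral_add_right_eq_self (fun η : ℂ => ENNReal.ofReal (‖η‖ ^ (2 * m) *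
      (1 + ‖η - c‖ ^ 2) ^ (-(m + 2)))) c]
    simp
  rw [h1, lintegral_inv_complex]
  -- simplify the integrand
  have h2 : ∀ᵐ ω : ℂ, ENNReal.ofReal (‖ω‖⁻¹ ^ 4) *
      ENNReal.ofReal (‖ω⁻¹‖ ^ (2 * m) * (1 + ‖ω⁻¹ - c‖ ^ 2) ^ (-(m + 2))) =
      ENNReal.ofReal ((D * ‖ω - (starRingEnd ℂ) c / D‖ ^ 2 + D⁻¹) ^ (-(m + 2))) := by
    have : ∀ᵐ ω : ℂ, ω ≠ 0 := by
      rw [ae_iff]; simp
    filter_upwards [this] with ω hω
    have hω' : 0 < ‖ω‖ := norm_pos_iff.2 hω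
    rw [← ENNReal.ofReal_mul (by positivity)]
    congr 1
    have hsq : D * ‖ω - (starRingEnd ℂ) c / D‖ ^ 2 + D⁻¹ = ‖ω‖ ^ 2 * (1 + ‖ω⁻¹ - c‖ ^ 2) := by
      have e1 : ‖ω‖ ^ 2 * ‖ω⁻¹ - c‖ ^ 2 = ‖1 - c * ω‖ ^ 2 := by
        rw [← mul_pow, ← norm_mul]
        congr 2
        field_simp
      have hDc : (D : ℂ) ≠ 0 := by exact_mod_cast hDpos.ne'
      rw [mul_add, mul_one, e1]
      simp only [← Complex.normSq_eq_norm_sq, Complex.normSq_apply] at *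
      have hDre : ((starRingEnd ℂ) c / (D : ℂ)).re = c.re / D := by
        rw [Complex.div_ofReal_re, Complex.conj_re]
      have hDim : ((starRingEnd ℂ) c / (D : ℂ)).im = -c.im / D := by
        rw [Complex.div_ofReal_im, Complex.conj_im]
      simp only [Complex.sub_re, Complex.sub_im, Complex.mul_re, Complex.mul_im, Complex.one_re,
        Complex.one_im, hDre, hDim]
      field_simp
      rw [hD]
      ring
    rw [hsq, Real.mul_rpow (by positivity) (by positivity), norm_inv]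
    have e2 : (‖ω‖ ^ 2) ^ (-(m + 2)) = ‖ω‖⁻¹ ^ 4 * ‖ω‖⁻¹ ^ (2 * m) := by
      rw [← Real.rpow_natCast ‖ω‖⁻¹ 4, ← Real.rpow_add (by positivity), ← Real.rpow_natCast ‖ω‖ 2,
        ← Real.rpow_mul hω'.le, Real.inv_rpow hω'.le, ← Real.rpow_neg hω'.le]
      congr 1
      push_cast; ring
    rw [e2]; ring
  rw [lintegral_congr_ae h2]
  -- translate again
  have h3 : ∫⁻ ω : ℂ, ENNReal.ofReal ((D * ‖ω - (starRingEnd ℂ) c / D‖ ^ 2 + D⁻¹) ^ (-(m + 2))) =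
      ∫⁻ ω : ℂ, ENNReal.ofReal ((D * ‖ω‖ ^ 2 + D⁻¹) ^ (-(m + 2))) := by
    rw [← lintegral_add_right_eq_self _ ((starRingEnd ℂ) c / D)]
    simp
  rw [h3]
  -- scale
  have h4 : ∀ ω : ℂ, ENNReal.ofReal ((D * ‖ω‖ ^ 2 + D⁻¹) ^ (-(m + 2))) =
      ENNReal.ofReal (D ^ (m + 2)) * ENNReal.ofReal ((1 + ‖(D : ℂ) * ω‖ ^ 2) ^ (-(m + 2))) := by
    intro ω
    rw [← ENNReal.ofReal_mul (by positivity)]
    congr 1
    have : D * ‖ω‖ ^ 2 + D⁻¹ = D⁻¹ * (1 + ‖(D : ℂ) * ω‖ ^ 2) := by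
      rw [norm_mul, Complex.norm_real, Real.norm_of_nonneg hDpos.le]
      field_simp
      ring
    rw [this, Real.mul_rpow (by positivity) (by positivity), Real.inv_rpow hDpos.le,
      ← Real.rpow_neg hDpos.le, neg_neg]
  simp_rw [h4]
  rw [lintegral_const_mul' _ _ ENNReal.ofReal_ne_top,
    lintegral_comp_smul_complex (fun z => ENNReal.ofReal ((1 + ‖z‖ ^ 2) ^ (-(m + 2)))) hDpos,
    ← mul_assoc, ← ENNReal.ofReal_mul (by positivity)]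
  unfold kap
  congr 2
  rw [Real.rpow_add hDpos, inv_pow]
  have : D ^ (2 : ℝ) = D ^ 2 := by norm_cast
  rw [this]
  field_simp

theorem kernel (a b : ℂ) {m : ℝ} (hm : 0 < m) :
    ∫⁻ ξ : ℂ, ENNReal.ofReal (‖a + ξ * b‖ ^ (2 * m) * (1 + ‖ξ‖ ^ 2) ^ (-(m + 2))) =
      ENNReal.ofReal ((‖a‖ ^ 2 + ‖b‖ ^ 2) ^ m) * kap m := by
  by_cases hb : b = 0
  · subst hb
    simp only [mul_zero, add_zero, norm_zero]
    simp_rw [ENNReal.ofReal_mul (show 0 ≤ ‖a‖ ^ (2 * m) by positivity)]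
    rw [lintegral_const_mul' _ _ ENNReal.ofReal_ne_top]
    unfold kap
    congr 2
    rw [Real.rpow_mul (norm_nonneg a)]
    norm_num
  · have hb' : 0 < ‖b‖ := norm_pos_iff.2 hb
    have h1 : ∀ ξ : ℂ, ENNReal.ofReal (‖a + ξ * b‖ ^ (2 * m) * (1 + ‖ξ‖ ^ 2) ^ (-(m + 2))) =
        ENNReal.ofReal (‖b‖ ^ (2 * m)) *
          ENNReal.ofReal (‖ξ + a / b‖ ^ (2 * m) * (1 + ‖ξ‖ ^ 2) ^ (-(m + 2))) := by
      intro ξ
      rw [← ENNReal.ofReal_mul (by positivity), ← mul_assoc, ← Real.mul_rpow (by positivity)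
        (by positivity), ← norm_mul]
      congr 4
      field_simp
      ring
    simp_rw [h1]
    rw [lintegral_const_mul' _ _ ENNReal.ofReal_ne_top, kernel_aux _ hm, ← mul_assoc,
      ← ENNReal.ofReal_mul (by positivity)]
    congr 2
    rw [Real.rpow_mul (norm_nonneg b), ← Real.mul_rpow (by positivity) (by positivity)]
    congr 1
    rw [norm_div]
    have : ‖b‖ ^ (2 : ℝ) = ‖b‖ ^ 2 := by norm_cast
    rw [this]
    field_simp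
    ring

end Pool.Agent.Lib.Helper34.SP
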