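import Mathlib
import Pool.Agent.Lib.Helper34.SP.Kernel

/-!
# The spherical average of a radial `L_p` norm function
-/

set_option autoImplicit false

open MeasureTheory Set
open scoped ENNReal

namespace Pool.Agent.Lib.Helper34.SP

theorem integral_radial (φ : ℝ → ℝ) :
    ∫ ξ : ℂ, φ (‖ξ‖ ^ 2) = Real.pi * ∫ u in Ioi (0 : ℝ), φ u := by
  have h1 := integral_fun_norm_addHaar (μ := (volume : Measure ℂ)) (fun r : ℝ => φ (r ^ 2))
  have h2 := integral_comp_rpow_Ioi_of_pos (g := φ) (p := 2) (by norm_num)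
  have h3 : (volume : Measure ℂ).real (Metric.ball 0 1) = Real.pi := by
    simp [Measure.real, Complex.volume_ball]
  rw [h1, h3, ← h2, Complex.finrank_real_complex]
  simp only [smul_eq_mul, nsmul_eq_mul]
  rw [← integral_const_mul, ← integral_const_mul, ← integral_const_mul]
  refine setIntegral_congr_fun measurableSet_Ioi fun u hu => ?_
  have e1 : u ^ (2 : ℝ) = u ^ 2 := by norm_cast
  have e2 : u ^ ((2 : ℝ) - 1) = u := by norm_num
  simp only [e1, e2]
  norm_num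
  ring

theorem weight_hasDerivAt {m : ℝ} (hm : 0 < m) {u : ℝ} (hu : 0 ≤ u) :
    HasDerivAt (fun u : ℝ => -(1 + u) ^ (-(m + 1)) / (m + 1)) ((1 + u) ^ (-(m + 2))) u := by
  have h1 : HasDerivAt (fun u : ℝ => 1 + u) 1 u := by
    simpa using (hasDerivAt_id u).const_add 1
  have h2 := (h1.rpow_const (p := -(m + 1)) (Or.inl (by linarith : (1 : ℝ) + u ≠ 0))).neg.div_const
    (m + 1)
  refine h2.congr_deriv ?_
  rw [show -(m + 1) - 1 = -(m + 2) by ring]
  have : m + 1 ≠ 0 := by linarith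
  field_simp

theorem weight_tendsto {m : ℝ} (hm : 0 < m) :
    Filter.Tendsto (fun u : ℝ => -(1 + u) ^ (-(m + 1)) / (m + 1)) Filter.atTop (nhds 0) := by
  have h1 : Filter.Tendsto (fun u : ℝ => (1 + u) ^ (-(m + 1))) Filter.atTop (nhds 0) :=
    (tendsto_rpow_neg_atTop (by linarith : 0 < m + 1)).comp
      (Filter.tendsto_atTop_add_const_left _ _ Filter.tendsto_id)
  simpa using h1.neg.div_const (m + 1)

theorem integrableOn_weight {m : ℝ} (hm : 0 < m) :
    IntegrableOn (fun u : ℝ => (1 + u) ^ (-(m + 2))) (Ioi 0) := by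
  refine integrableOn_Ioi_deriv_of_nonneg' (fun u hu => weight_hasDerivAt hm hu)
    (fun u hu => ?_) (weight_tendsto hm)
  have : (0 : ℝ) < u := hu
  positivity

theorem integral_weight {m : ℝ} (hm : 0 < m) :
    ∫ u in Ioi (0 : ℝ), (1 + u) ^ (-(m + 2)) = 1 / (m + 1) := by
  rw [integral_Ioi_of_hasDerivAt_of_tendsto' (fun u hu => weight_hasDerivAt hm hu)
    (integrableOn_weight hm) (weight_tendsto hm)]
  simp
  ring

theorem integral_weight_complex {m : ℝ} (hm : 0 < m) :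
    ∫ ξ : ℂ, (1 + ‖ξ‖ ^ 2) ^ (-(m + 2)) = Real.pi / (m + 1) := by
  rw [integral_radial (fun u => (1 + u) ^ (-(m + 2))), integral_weight hm]
  ring

theorem kap_toReal {m : ℝ} (hm : 0 < m) : (kap m).toReal = Real.pi / (m + 1) := by
  rw [← integral_weight_complex hm, integral_eq_lintegral_of_nonneg_ae]
  · rfl
  · exact Filter.Eventually.of_forall fun ξ => by positivity
  · refine Measurable.aestronglyMeasurable ?_
    fun_prop

theorem rep_transform {Ω : Type*} [MeasurableSpace Ω] {μ : Measure Ω} [SFinite μ] {f g : Ω → ℂ}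
    (hf : Measurable f) (hg : Measurable g) {m : ℝ} (hm : 0 < m)
    (hint : ∀ α : ℂ, Integrable (fun t => ‖g t + α * f t‖ ^ (2 * m)) μ)
    (hint2 : ∀ x : ℝ, 0 ≤ x → Integrable (fun t => (‖g t‖ ^ 2 + x * ‖f t‖ ^ 2) ^ m) μ)
    {P : ℝ → ℝ} (hP : ∀ α : ℂ, ∫ t, ‖g t + α * f t‖ ^ (2 * m) ∂μ = P (‖α‖ ^ 2))
    {x : ℝ} (hx : 0 ≤ x) :
    ∫ t, (‖g t‖ ^ 2 + x * ‖f t‖ ^ 2) ^ m ∂μ =
      (m + 1) * ∫ u in Ioi (0 : ℝ), P (x * u) * (1 + u) ^ (-(m + 2)) := by
  have hsx : (Real.sqrt x) ^ 2 = x := Real.sq_sqrt hx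
  have hnorm : ∀ ξ : ℂ, ‖(Real.sqrt x : ℂ) * ξ‖ ^ 2 = x * ‖ξ‖ ^ 2 := by
    intro ξ
    rw [norm_mul, mul_pow, Complex.norm_real, Real.norm_of_nonneg (Real.sqrt_nonneg x), hsx]
  have h1 := integral_radial (fun u => P (x * u) * (1 + u) ^ (-(m + 2)))
  -- the integrand on the plane
  have h2 : ∀ ξ : ℂ, P (x * ‖ξ‖ ^ 2) * (1 + ‖ξ‖ ^ 2) ^ (-(m + 2)) =
      ∫ t, ‖g t + ξ * (Real.sqrt x * f t)‖ ^ (2 * m) * (1 + ‖ξ‖ ^ 2) ^ (-(m + 2)) ∂μ := by
    intro ξ
    rw [integral_mul_const, ← hnorm, ← hP]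
    congr 1
    refine integral_congr_ae (Filter.Eventually.of_forall fun t => ?_)
    simp only
    congr 3
    ring
  have hintξ : ∀ ξ : ℂ, Integrable (fun t => ‖g t + ξ * (Real.sqrt x * f t)‖ ^ (2 * m) *
      (1 + ‖ξ‖ ^ 2) ^ (-(m + 2))) μ := by
    intro ξ
    refine Integrable.mul_const ?_ _
    have := hint (ξ * Real.sqrt x)
    refine this.congr (Filter.Eventually.of_forall fun t => ?_)
    simp only
    congr 3
    ring
  have hmeas : Measurable (fun q : ℂ × Ω => ‖g q.2 + q.1 * (Real.sqrt x * f q.2)‖ ^ (2 * m) *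
      (1 + ‖q.1‖ ^ 2) ^ (-(m + 2))) := by
    have hf' : Measurable fun q : ℂ × Ω => f q.2 := hf.comp measurable_snd
    have hg' : Measurable fun q : ℂ × Ω => g q.2 := hg.comp measurable_snd
    fun_prop
  have h3 : ∫ ξ : ℂ, P (x * ‖ξ‖ ^ 2) * (1 + ‖ξ‖ ^ 2) ^ (-(m + 2)) =
      (∫ t, (‖g t‖ ^ 2 + x * ‖f t‖ ^ 2) ^ m ∂μ) * (Real.pi / (m + 1)) := by
    simp_rw [h2]
    rw [integral_eq_lintegral_of_nonneg_ae]
    · have h4 : ∀ ξ : ℂ, ENNReal.ofReal (∫ t, ‖g t + ξ * (Real.sqrt x * f t)‖ ^ (2 * m) *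
          (1 + ‖ξ‖ ^ 2) ^ (-(m + 2)) ∂μ) = ∫⁻ t, ENNReal.ofReal
          (‖g t + ξ * (Real.sqrt x * f t)‖ ^ (2 * m) * (1 + ‖ξ‖ ^ 2) ^ (-(m + 2))) ∂μ := by
        intro ξ
        exact ofReal_integral_eq_lintegral_ofReal (hintξ ξ)
          (Filter.Eventually.of_forall fun t => by positivity)
      simp_rw [h4]
      rw [lintegral_lintegral_swap (by exact (ENNReal.measurable_ofReal.comp hmeas).aemeasurable)]
      simp_rw [kernel _ _ hm]
      have h5 : ∀ t, ‖(Real.sqrt x : ℂ) * f t‖ ^ 2 = x * ‖f t‖ ^ 2 := fun t => hnorm (f t)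
      simp_rw [h5]
      rw [lintegral_mul_const', ← ofReal_integral_eq_lintegral_ofReal (hint2 x hx)
        (Filter.Eventually.of_forall fun t => by positivity), ENNReal.toReal_mul, kap_toReal hm,
        ENNReal.toReal_ofReal (integral_nonneg fun t => by positivity)]
      intro h
      have := kap_toReal hm
      rw [h, ENNReal.toReal_top] at this
      have h6 : 0 < Real.pi / (m + 1) := by positivity
      linarith
    · exact Filter.Eventually.of_forall fun ξ => integral_nonneg fun t => by positivity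
    · exact (hmeas.stronglyMeasurable.integral_prod_right').aestronglyMeasurable
  rw [h1] at h3
  have hpi := Real.pi_pos
  have hm1 : m + 1 ≠ 0 := by linarith
  field_simp at h3
  linarith

end Pool.Agent.Lib.Helper34.SP
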