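import Mathlib
import Pool.Agent.Lib.Helper34.SP.Transform
import Pool.Agent.Lib.Helper34.SP.Diff
import Pool.Agent.Lib.Helper34.SP.PFun

set_option autoImplicit false

open MeasureTheory Set Filter Topology

namespace Pool.Agent.Lib.Helper34.SP

theorem integrableOn_one_add_rpow {a : ℝ} (ha : a < -1) :
    IntegrableOn (fun u : ℝ => (1 + u) ^ a) (Ioi 0) := by
  have ha1 : a + 1 < 0 := by linarith
  have hderiv : ∀ u ∈ Ici (0 : ℝ), HasDerivAt (fun u : ℝ => (1 + u) ^ (a + 1) / (a + 1))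
      ((1 + u) ^ a) u := by
    intro u hu
    have hu0 : (0 : ℝ) ≤ u := hu
    have h1 : HasDerivAt (fun u : ℝ => 1 + u) 1 u := by
      simpa using (hasDerivAt_id u).const_add 1
    have h2 := (h1.rpow_const (p := a + 1) (Or.inl (by linarith : (1 : ℝ) + u ≠ 0))).div_const
      (a + 1)
    refine h2.congr_deriv ?_
    rw [show a + 1 - 1 = a by ring]
    have : a + 1 ≠ 0 := by linarith
    field_simp
  have htend : Tendsto (fun u : ℝ => (1 + u) ^ (a + 1) / (a + 1)) atTop (nhds 0) := by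
    have h1 : Tendsto (fun u : ℝ => (1 + u) ^ (-(-(a + 1)))) atTop (nhds 0) :=
      (tendsto_rpow_neg_atTop (by linarith : 0 < -(a + 1))).comp
        (tendsto_atTop_add_const_left _ _ tendsto_id)
    simp only [neg_neg] at h1
    simpa using h1.div_const (a + 1)
  refine integrableOn_Ioi_deriv_of_nonneg' hderiv (fun u hu => ?_) htend
  have : (0 : ℝ) < u := hu
  positivity

theorem integrableOn_pow_weight {m : ℝ} {j : ℕ} (hj : (j : ℝ) < m + 1) :
    IntegrableOn (fun u : ℝ => u ^ j * (1 + u) ^ (-(m + 2))) (Ioi 0) := by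
  refine (integrableOn_one_add_rpow (a := j - (m + 2)) (by linarith)).mono' ?_ ?_
  · exact (Measurable.aestronglyMeasurable (by fun_prop))
  · refine (ae_restrict_iff' measurableSet_Ioi).2 (Eventually.of_forall fun u hu => ?_)
    have hu0 : (0 : ℝ) < u := hu
    rw [Real.norm_of_nonneg (by positivity), sub_eq_add_neg, Real.rpow_add (by positivity),
      Real.rpow_natCast]
    gcongr
    linarith

theorem integrableOn_P_weight {m : ℝ} (hm : 0 < m) {P : ℝ → ℝ} (hP : Measurable P) {C : ℝ}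
    (hC : ∀ y, 0 ≤ y → |P y| ≤ C * (1 + y) ^ m) {x : ℝ} (hx : 0 ≤ x) :
    IntegrableOn (fun u : ℝ => P (x * u) * (1 + u) ^ (-(m + 2))) (Ioi 0) := by
  have hC0 : 0 ≤ C := by
    have := (abs_nonneg _).trans (hC 0 le_rfl)
    simpa using this
  refine ((integrableOn_one_add_rpow (a := -2) (by norm_num)).const_mul
    (C * (1 + x) ^ m)).mono' ?_ ?_
  · exact (Measurable.aestronglyMeasurable (by fun_prop))
  · refine (ae_restrict_iff' measurableSet_Ioi).2 (Eventually.of_forall fun u hu => ?_)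
    have hu0 : (0 : ℝ) < u := hu
    rw [norm_mul, Real.norm_eq_abs, Real.norm_of_nonneg (by positivity :
      0 ≤ (1 + u) ^ (-(m + 2)))]
    calc |P (x * u)| * (1 + u) ^ (-(m + 2)) ≤
        (C * (1 + x * u) ^ m) * (1 + u) ^ (-(m + 2)) := by
          gcongr; exact hC _ (by positivity)
      _ ≤ (C * ((1 + x) * (1 + u)) ^ m) * (1 + u) ^ (-(m + 2)) := by
          gcongr; nlinarith
      _ = C * (1 + x) ^ m * (1 + u) ^ (-2 : ℝ) := by
          rw [Real.mul_rpow (by positivity) (by positivity),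
            show (1 + u) ^ (-2 : ℝ) = (1 + u) ^ m * (1 + u) ^ (-(m + 2)) by
              rw [← Real.rpow_add (by positivity)]; congr 1; ring]
          ring

theorem diff_limit {n : ℕ} {m e L : ℝ} (hm : 0 < m) (hnm : (n : ℝ) < m) (he : (n : ℝ) + 1 < e)
    {P ρ Ψ : ℝ → ℝ} {T : ℕ → ℝ}
    (hP : ∀ y, 0 ≤ y → P y = ∑ j ∈ Finset.range (n + 2), T j * y ^ j + ρ y)
    (hρ0 : ρ 0 = 0)
    (hlim : Tendsto (fun h : ℝ => (∫ u in Ioi (0 : ℝ), ρ (h * u) * (1 + u) ^ (-(m + 2))) / h ^ e)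
      (𝓝[>] 0) (𝓝 L)) (hL : 0 < L)
    (hint : ∀ x, 0 ≤ x → IntegrableOn (fun u : ℝ => P (x * u) * (1 + u) ^ (-(m + 2))) (Ioi 0))
    (hΨ : ∀ x, 0 ≤ x → Ψ x = (m + 1) * ∫ u in Ioi (0 : ℝ), P (x * u) * (1 + u) ^ (-(m + 2))) :
    ∃ h : ℝ, 0 < h ∧ 0 < ∑ k ∈ Finset.range (n + 3), dc (n + 2) k * Ψ (k * h) := by
  set R : ℝ → ℝ := fun x => ∫ u in Ioi (0 : ℝ), ρ (x * u) * (1 + u) ^ (-(m + 2)) with hR
  set B : ℕ → ℝ := fun j => ∫ u in Ioi (0 : ℝ), u ^ j * (1 + u) ^ (-(m + 2)) with hB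
  have hjm : ∀ j ∈ Finset.range (n + 2), (j : ℝ) < m + 1 := by
    intro j hj
    have : (j : ℝ) ≤ (n : ℝ) + 1 := by
      have := Finset.mem_range.1 hj
      exact_mod_cast (by omega : j ≤ n + 1)
    linarith
  have hpoly : ∀ x, IntegrableOn (fun u : ℝ => (∑ j ∈ Finset.range (n + 2), T j * (x * u) ^ j) *
      (1 + u) ^ (-(m + 2))) (Ioi 0) := by
    intro x
    have : (fun u : ℝ => (∑ j ∈ Finset.range (n + 2), T j * (x * u) ^ j) * (1 + u) ^ (-(m + 2)))
        = fun u => ∑ j ∈ Finset.range (n + 2), (T j * x ^ j) * (u ^ j * (1 + u) ^ (-(m + 2))) := by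
      funext u
      rw [Finset.sum_mul]
      exact Finset.sum_congr rfl fun j _ => by rw [mul_pow]; ring
    rw [this]
    exact integrable_finsetSum _ fun j hj => (integrableOn_pow_weight (hjm j hj)).const_mul _
  have hΨ2 : ∀ x, 0 ≤ x → Ψ x = (m + 1) * (∑ j ∈ Finset.range (n + 2), T j * x ^ j * B j + R x) := by
    intro x hx
    rw [hΨ x hx]
    congr 1
    have h1 : ∀ u ∈ Ioi (0 : ℝ), ρ (x * u) * (1 + u) ^ (-(m + 2)) =
        P (x * u) * (1 + u) ^ (-(m + 2)) - (∑ j ∈ Finset.range (n + 2), T j * (x * u) ^ j) *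
      (1 + u) ^ (-(m + 2)) := by
      intro u hu
      have hu0 : (0 : ℝ) < u := hu
      rw [hP (x * u) (by positivity)]
      ring
    have h2 : R x = (∫ u in Ioi (0 : ℝ), P (x * u) * (1 + u) ^ (-(m + 2))) -
        ∫ u in Ioi (0 : ℝ), (∑ j ∈ Finset.range (n + 2), T j * (x * u) ^ j) *
          (1 + u) ^ (-(m + 2)) := by
      rw [hR]
      simp only
      rw [setIntegral_congr_fun measurableSet_Ioi h1, integral_sub (hint x hx) (hpoly x)]
    have h3 : ∫ u in Ioi (0 : ℝ), (∑ j ∈ Finset.range (n + 2), T j * (x * u) ^ j) *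
          (1 + u) ^ (-(m + 2)) = ∑ j ∈ Finset.range (n + 2), T j * x ^ j * B j := by
      have : (fun u : ℝ => (∑ j ∈ Finset.range (n + 2), T j * (x * u) ^ j) * (1 + u) ^ (-(m + 2)))
        = fun u => ∑ j ∈ Finset.range (n + 2), (T j * x ^ j) * (u ^ j * (1 + u) ^ (-(m + 2))) := by
        funext u
        rw [Finset.sum_mul]
        exact Finset.sum_congr rfl fun j _ => by rw [mul_pow]; ring
      rw [this, integral_finsetSum _ fun j hj => (integrableOn_pow_weight (hjm j hj)).const_mul _]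
      exact Finset.sum_congr rfl fun j _ => by rw [integral_const_mul]
    rw [h2, h3]; ring
  have hR0 : R 0 = 0 := by simp [hR, hρ0]
  have hsum : ∀ h : ℝ, 0 < h → ∑ k ∈ Finset.range (n + 3), dc (n + 2) k * Ψ (k * h) =
      (m + 1) * ∑ k ∈ Finset.range (n + 3), dc (n + 2) k * R (k * h) := by
    intro h hh
    have h1 : ∀ k ∈ Finset.range (n + 3), dc (n + 2) k * Ψ (k * h) =
        (m + 1) * (∑ j ∈ Finset.range (n + 2), (T j * h ^ j * B j) * (dc (n + 2) k * (k : ℝ) ^ j))
          + (m + 1) * (dc (n + 2) k * R (k * h)) := by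
      intro k _
      rw [hΨ2 (k * h) (by positivity)]
      have : ∑ j ∈ Finset.range (n + 2), T j * (k * h) ^ j * B j * dc (n + 2) k =
          ∑ j ∈ Finset.range (n + 2), (T j * h ^ j * B j) * (dc (n + 2) k * (k : ℝ) ^ j) :=
        Finset.sum_congr rfl fun j _ => by rw [mul_pow]; ring
      rw [← this, ← Finset.sum_mul]
      ring
    rw [Finset.sum_congr rfl h1, Finset.sum_add_distrib, ← Finset.mul_sum, ← Finset.mul_sum,
      Finset.sum_comm]
    have h2 : ∑ j ∈ Finset.range (n + 2), ∑ k ∈ Finset.range (n + 3),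
        (T j * h ^ j * B j) * (dc (n + 2) k * (k : ℝ) ^ j) = 0 := by
      refine Finset.sum_eq_zero fun j hj => ?_
      rw [← Finset.mul_sum, sum_dc_pow_eq_zero (Finset.mem_range.1 hj), mul_zero]
    rw [h2]; ring
  have he0 : 0 < e := by
    have : (0 : ℝ) ≤ n := Nat.cast_nonneg n
    linarith
  have hlim2 : Tendsto (fun h : ℝ => (∑ k ∈ Finset.range (n + 3), dc (n + 2) k * Ψ (k * h)) / h ^ e)
      (𝓝[>] 0) (𝓝 ((m + 1) * ∑ k ∈ Finset.range (n + 3), dc (n + 2) k * ((k : ℝ) ^ e * L))) := by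
    have h1 : Tendsto (fun h : ℝ => (m + 1) * ∑ k ∈ Finset.range (n + 3),
        dc (n + 2) k * (R (k * h) / h ^ e)) (𝓝[>] 0)
        (𝓝 ((m + 1) * ∑ k ∈ Finset.range (n + 3), dc (n + 2) k * ((k : ℝ) ^ e * L))) := by
      refine Tendsto.const_mul _ (tendsto_finsetSum _ fun k _ => Tendsto.const_mul _ ?_)
      rcases Nat.eq_zero_or_pos k with rfl | hk
      · simp [hR0, Real.zero_rpow he0.ne']
      · have hk' : (0 : ℝ) < k := by exact_mod_cast hk
        have h2 : Tendsto (fun h : ℝ => (k : ℝ) * h) (𝓝[>] 0) (𝓝[>] 0) := by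
          refine tendsto_nhdsWithin_iff.2 ⟨?_, ?_⟩
          · have : Tendsto (fun h : ℝ => (k : ℝ) * h) (𝓝 0) (𝓝 ((k : ℝ) * 0)) :=
              (continuous_const.mul continuous_id).tendsto 0
            rw [mul_zero] at this
            exact this.mono_left nhdsWithin_le_nhds
          · filter_upwards [self_mem_nhdsWithin] with h hh
            exact mul_pos hk' hh
        have h3 := (hlim.comp h2).const_mul ((k : ℝ) ^ e)
        refine h3.congr' ?_
        filter_upwards [self_mem_nhdsWithin] with h hh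
        have hh0 : (0 : ℝ) < h := hh
        simp only [Function.comp_apply, hR]
        rw [Real.mul_rpow hk'.le hh0.le]
        field_simp
    refine h1.congr' ?_
    filter_upwards [self_mem_nhdsWithin] with h hh
    rw [hsum h hh, mul_div_assoc, Finset.sum_div]
    congr 1
    exact Finset.sum_congr rfl fun k _ => by ring
  have hpos : 0 < (m + 1) * ∑ k ∈ Finset.range (n + 3), dc (n + 2) k * ((k : ℝ) ^ e * L) := by
    have h1 : ∑ k ∈ Finset.range (n + 3), dc (n + 2) k * ((k : ℝ) ^ e * L) =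
        (∑ k ∈ Finset.range (n + 1 + 2), dc (n + 1 + 1) k * (k : ℝ) ^ e) * L := by
      rw [Finset.sum_mul]
      exact Finset.sum_congr rfl fun k _ => by ring
    rw [h1]
    have h2 := sum_dc_rpow_pos (n := n + 1) (q := e) (by push_cast; linarith)
    positivity
  have hev := hlim2.eventually (lt_mem_nhds hpos)
  obtain ⟨h, hh1, hh2⟩ := (hev.and self_mem_nhdsWithin).exists
  refine ⟨h, hh2, ?_⟩
  have hh0 : (0 : ℝ) < h := hh2
  have h5 : 0 < h ^ e := by positivity
  have := mul_pos hh1 h5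
  rwa [div_mul_cancel₀ _ h5.ne'] at this

end Pool.Agent.Lib.Helper34.SP
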