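import Mathlib

/-!
# Schatten classes: definitions and the trace of `|T|^p` for `2 × 2` blocks

Used for MP_41c25d_an.
-/

set_option autoImplicit false

open MeasureTheory Set
open scoped ENNReal InnerProductSpace

namespace Pool.Agent.Lib.Helper34.SP

variable {ι H : Type*} [NormedAddCommGroup H] [InnerProductSpace ℂ H] [CompleteSpace H]

/-- `tr |T|^p`, computed in the Hilbert basis `b`; here `|T| = (T* T)^{1/2}` and the power are
given by the continuous functional calculus. -/
noncomputable def schattenPow (b : HilbertBasis ι ℂ H) (p : ℝ) (T : H →L[ℂ] H) : ℝ≥0∞ :=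
  ∑' i, ENNReal.ofReal (RCLike.re ⟪b i, (CFC.abs T ^ p) (b i)⟫_ℂ)

/-- Membership of the Schatten class `S_p`: compact operators with `tr |T|^p < ∞`. -/
structure MemSchatten (b : HilbertBasis ι ℂ H) (p : ℝ) (T : H →L[ℂ] H) : Prop where
  compact : IsCompactOperator T
  finite : schattenPow b p T < ∞

/-- The Schatten norm `(tr |T|^p)^{1/p}`. -/
noncomputable def schattenNorm (b : HilbertBasis ι ℂ H) (p : ℝ) (T : H →L[ℂ] H) : ℝ :=
  (schattenPow b p T).toReal ^ (1 / p)

/-- The property of the problem: for every pair `A, B ∈ S_p` there are `f, g ∈ L_p((0,1), ℂ)` with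
`‖α A + β B‖_{S_p} = ‖α f + β g‖_p` for all complex `α, β`. -/
def PairProperty (b : HilbertBasis ι ℂ H) (p : ℝ) : Prop :=
  ∀ A B : H →L[ℂ] H, MemSchatten b p A → MemSchatten b p B →
    ∃ f g : ℝ → ℂ, MemLp f (ENNReal.ofReal p) (volume.restrict (Ioo 0 1)) ∧
      MemLp g (ENNReal.ofReal p) (volume.restrict (Ioo 0 1)) ∧
      ∀ α β : ℂ, schattenNorm b p (α • A + β • B) =
        (∫ t in Ioo (0 : ℝ) 1, ‖α * f t + β * g t‖ ^ p) ^ (1 / p)

end Pool.Agent.Lib.Helper34.SP
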