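import Mathlib
import Pool.Agent.Lib.Helper34.SP.Defs

set_option autoImplicit false
set_option linter.unusedSectionVars false

open scoped ENNReal InnerProductSpace

namespace Pool.Agent.Lib.Helper34.SP

variable {ι H : Type*} [NormedAddCommGroup H] [InnerProductSpace ℂ H] [CompleteSpace H]

/-- `|T|^p = (T* T)^{p/2}`. -/
theorem abs_rpow (T : H →L[ℂ] H) {p : ℝ} (hp : 0 ≤ p) :
    CFC.abs T ^ p = (star T * T) ^ (p / 2) := by
  unfold CFC.abs
  rw [CFC.sqrt_eq_rpow, CFC.rpow_rpow_of_exponent_nonneg _ _ _ (by norm_num) hp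
    (star_mul_self_nonneg T)]
  congr 1; ring

variable {κ : Type*} [Fintype κ]

/-- matrix unit -/
noncomputable def unitOp (e : κ → H) (k l : κ) : H →L[ℂ] H :=
  (innerSL ℂ (e l)).smulRight (e k)

omit [Fintype κ] in
theorem unitOp_apply (e : κ → H) (k l : κ) (x : H) :
    unitOp e k l x = ⟪e l, x⟫_ℂ • e k := by
  simp [unitOp]

/-- The operator with matrix `M` on the span of `e`, zero on the complement. -/
noncomputable def blockOp (e : κ → H) (M : Matrix κ κ ℂ) : H →L[ℂ] H :=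
  ∑ k, ∑ l, M k l • unitOp e k l

theorem blockOp_apply (e : κ → H) (M : Matrix κ κ ℂ) (x : H) :
    blockOp e M x = ∑ k, ∑ l, (M k l * ⟪e l, x⟫_ℂ) • e k := by
  simp [blockOp, unitOp_apply, smul_smul]

theorem blockOp_add (e : κ → H) (M N : Matrix κ κ ℂ) :
    blockOp e (M + N) = blockOp e M + blockOp e N := by
  simp [blockOp, add_smul, Finset.sum_add_distrib]

theorem blockOp_smul (e : κ → H) (c : ℂ) (M : Matrix κ κ ℂ) :
    blockOp e (c • M) = c • blockOp e M := by
  simp [blockOp, Finset.smul_sum, smul_smul]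

theorem blockOp_sub (e : κ → H) (M N : Matrix κ κ ℂ) :
    blockOp e (M - N) = blockOp e M - blockOp e N := by
  simp [blockOp, sub_smul, Finset.sum_sub_distrib]

theorem blockOp_zero (e : κ → H) : blockOp e 0 = 0 := by simp [blockOp]

theorem inner_blockOp {e : κ → H} (he : Orthonormal ℂ e) (M : Matrix κ κ ℂ) (l : κ) (x : H) :
    ⟪e l, blockOp e M x⟫_ℂ = ∑ k, M l k * ⟪e k, x⟫_ℂ := by
  classical
  simp only [blockOp_apply, inner_sum, inner_smul_right, orthonormal_iff_ite.1 he, mul_ite,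
    mul_one, mul_zero]
  rw [Finset.sum_comm]
  simp

theorem blockOp_mul {e : κ → H} (he : Orthonormal ℂ e) (M N : Matrix κ κ ℂ) :
    blockOp e (M * N) = blockOp e M * blockOp e N := by
  ext x
  rw [mul_apply_eq_comp, blockOp_apply e M, blockOp_apply e (M * N)]
  simp only [inner_blockOp he, Matrix.mul_apply, Finset.sum_mul, Finset.sum_smul,
    Finset.mul_sum]
  refine Finset.sum_congr rfl fun k _ => ?_
  rw [Finset.sum_comm]
  refine Finset.sum_congr rfl fun l _ => Finset.sum_congr rfl fun m _ => ?_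
  rw [mul_assoc]

theorem blockOp_star (e : κ → H) (M : Matrix κ κ ℂ) :
    star (blockOp e M) = blockOp e M.conjTranspose := by
  rw [ContinuousLinearMap.star_eq_adjoint]
  symm
  rw [ContinuousLinearMap.eq_adjoint_iff]
  intro x y
  simp only [blockOp_apply, sum_inner, inner_sum, inner_smul_left,
    inner_smul_right, Matrix.conjTranspose_apply, map_mul, RCLike.star_def, Complex.conj_conj,
    inner_conj_symm]
  rw [Finset.sum_comm]
  refine Finset.sum_congr rfl fun k _ => Finset.sum_congr rfl fun m _ => ?_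
  ring

theorem inner_blockOp_self [DecidableEq κ] {e : κ → H} (he : Orthonormal ℂ e)
    (L : Matrix κ κ ℂ) (k l : κ) : ⟪e k, blockOp e L (e l)⟫_ℂ = L k l := by
  rw [inner_blockOp he]
  simp [orthonormal_iff_ite.1 he]

omit [Fintype κ] in
theorem isCompactOperator_unitOp (e : κ → H) (k l : κ) :
    IsCompactOperator (unitOp e k l) := by
  have h : IsCompactOperator (innerSL ℂ (e l)) := by
    refine ⟨Metric.closedBall 0 1, isCompact_closedBall _ _, ?_⟩
    refine (innerSL ℂ (e l)).continuous.continuousAt.preimage_mem_nhds ?_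
    simpa using Metric.closedBall_mem_nhds (0 : ℂ) one_pos
  have h2 := h.clm_comp (ContinuousLinearMap.toSpanSingleton ℂ (e k))
  have h3 : ⇑(unitOp e k l) =
      (⇑(ContinuousLinearMap.toSpanSingleton ℂ (e k)) ∘ ⇑((innerSL ℂ) (e l))) := by
    funext x
    simp [unitOp_apply]
  rw [h3]
  exact h2

theorem isCompactOperator_blockOp (e : Fin 2 → H) (M : Matrix (Fin 2) (Fin 2) ℂ) :
    IsCompactOperator (blockOp e M) := by
  have h : ∀ k l, IsCompactOperator (M k l • unitOp e k l) := fun k l =>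
    (isCompactOperator_unitOp e k l).smul (M k l)
  have : blockOp e M = (M 0 0 • unitOp e 0 0 + M 0 1 • unitOp e 0 1) +
      (M 1 0 • unitOp e 1 0 + M 1 1 • unitOp e 1 1) := by
    simp [blockOp, Fin.sum_univ_two]
  rw [this]
  exact ((h 0 0).add (h 0 1)).add ((h 1 0).add (h 1 1))

theorem exists_interp {f : ℝ → ℝ} (hf0 : f 0 = 0) (x y : ℝ) :
    ∃ u v : ℝ, u * x + v * x ^ 2 = f x ∧ u * y + v * y ^ 2 = f y := by
  by_cases hx : x = 0
  · subst hx
    by_cases hy : y = 0
    · subst hy; exact ⟨0, 0, by simp [hf0], by simp [hf0]⟩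
    · exact ⟨f y / y, 0, by simp [hf0], by field_simp; ring⟩
  · by_cases hy : y = 0
    · subst hy; exact ⟨f x / x, 0, by field_simp; ring, by simp [hf0]⟩
    · by_cases hxy : x = y
      · subst hxy; exact ⟨f x / x, 0, by field_simp; ring, by field_simp; ring⟩
      · have hd : x - y ≠ 0 := sub_ne_zero.2 hxy
        refine ⟨f x / x - (f x / x - f y / y) / (x - y) * x, (f x / x - f y / y) / (x - y), ?_, ?_⟩
        · field_simp; ring
        · field_simp; ring

/-- A power of a positive operator annihilated by `t (t - x) (t - y)`. -/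
theorem rpow_of_cubic {S : H →L[ℂ] H} (hS : 0 ≤ S) {x y m : ℝ} (hm : 0 < m)
    (hcub : S ^ 3 - (x + y) • S ^ 2 + (x * y) • S = 0) {u v : ℝ}
    (hu : u * x + v * x ^ 2 = x ^ m) (hv : u * y + v * y ^ 2 = y ^ m) :
    S ^ m = u • S + v • S ^ 2 := by
  rw [CFC.rpow_eq_cfc_real hS]
  have hsa : IsSelfAdjoint S := IsSelfAdjoint.of_nonneg hS
  have hspec : ∀ t ∈ spectrum ℝ S, t = 0 ∨ t = x ∨ t = y := by
    intro t ht
    set q : Polynomial ℝ := Polynomial.X ^ 3 - Polynomial.C (x + y) * Polynomial.X ^ 2 +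
      Polynomial.C (x * y) * Polynomial.X with hq
    have h1 : Polynomial.eval t q ∈ spectrum ℝ (Polynomial.aeval S q) :=
      spectrum.subset_polynomial_aeval S q ⟨t, ht, rfl⟩
    have h2 : Polynomial.aeval S q = 0 := by
      rw [hq, Polynomial.aeval_add, Polynomial.aeval_sub, Polynomial.aeval_mul,
        Polynomial.aeval_mul, Polynomial.aeval_X_pow, Polynomial.aeval_X_pow, Polynomial.aeval_X,
        Polynomial.aeval_C, Polynomial.aeval_C, ← Algebra.smul_def, ← Algebra.smul_def]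
      exact hcub
    rw [h2] at h1
    have hne : (spectrum ℝ (0 : H →L[ℂ] H)) ⊆ {0} := by
      rcases subsingleton_or_nontrivial (H →L[ℂ] H) with h | h
      · intro z hz
        exact absurd hz (by simp [spectrum.of_subsingleton])
      · rw [spectrum.zero_eq]
    have h3 : Polynomial.eval t q = 0 := hne h1
    simp only [hq, Polynomial.eval_add, Polynomial.eval_sub, Polynomial.eval_mul,
      Polynomial.eval_pow, Polynomial.eval_X, Polynomial.eval_C] at h3
    have h4 : t * ((t - x) * (t - y)) = 0 := by linarith [h3]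
    rcases mul_eq_zero.1 h4 with h | h
    · exact Or.inl h
    · rcases mul_eq_zero.1 h with h | h
      · exact Or.inr (Or.inl (sub_eq_zero.1 h))
      · exact Or.inr (Or.inr (sub_eq_zero.1 h))
  have h5 : cfc (fun t : ℝ => t ^ m) S = cfc (fun t : ℝ => u * t + v * t ^ 2) S := by
    apply cfc_congr
    intro t ht
    rcases hspec t ht with h | h | h
    · subst h; simp [Real.zero_rpow hm.ne']
    · subst h; simp only; rw [hu]
    · subst h; simp only; rw [hv]
  rw [h5, cfc_add S (fun t : ℝ => u * t) (fun t : ℝ => v * t ^ 2), cfc_const_mul_id u S,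
    cfc_const_mul v (fun t : ℝ => t ^ 2) S, cfc_pow_id S 2]

theorem mul_self_two (N : Matrix (Fin 2) (Fin 2) ℂ) :
    N * N = (N 0 0 + N 1 1) • N - (N 0 0 * N 1 1 - N 0 1 * N 1 0) • (1 : Matrix _ _ ℂ) := by
  ext k l
  fin_cases k <;> fin_cases l <;>
    simp [Matrix.mul_apply, Fin.sum_univ_two] <;> ring

theorem orthonormal_pair (b : HilbertBasis ι ℂ H) {i j : ι} (hij : i ≠ j) :
    Orthonormal ℂ (![b i, b j] : Fin 2 → H) := by
  classical
  have hb := orthonormal_iff_ite.1 b.orthonormal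
  have hn := b.orthonormal.1
  rw [orthonormal_iff_ite]
  intro k l
  fin_cases k <;> fin_cases l <;> simp [hb, hn, hij, hij.symm]

theorem schattenPow_blockOp (b : HilbertBasis ι ℂ H) {i j : ι} (hij : i ≠ j) {p : ℝ} (hp : 0 < p)
    (M : Matrix (Fin 2) (Fin 2) ℂ) {x y : ℝ}
    (hsum : x + y = ‖M 0 0‖ ^ 2 + ‖M 0 1‖ ^ 2 + ‖M 1 0‖ ^ 2 + ‖M 1 1‖ ^ 2)
    (hprod : x * y = ‖M 0 0 * M 1 1 - M 0 1 * M 1 0‖ ^ 2) :
    schattenPow b p (blockOp ![b i, b j] M) = ENNReal.ofReal (x ^ (p / 2) + y ^ (p / 2)) := by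
  classical
  set e : Fin 2 → H := ![b i, b j] with he_def
  have he : Orthonormal ℂ e := orthonormal_pair b hij
  have hm : 0 < p / 2 := by positivity
  obtain ⟨u, v, hu, hv⟩ := exists_interp (f := fun t : ℝ => t ^ (p / 2))
    (by simp [Real.zero_rpow hm.ne']) x y
  set N : Matrix (Fin 2) (Fin 2) ℂ := M.conjTranspose * M with hN
  set S : H →L[ℂ] H := blockOp e N with hS
  have hSeq : star (blockOp e M) * blockOp e M = S := by
    rw [blockOp_star, ← blockOp_mul he]
  have hS0 : 0 ≤ S := by rw [← hSeq]; exact star_mul_self_nonneg _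
  have hnsq : ∀ z : ℂ, (starRingEnd ℂ) z * z = ((‖z‖ ^ 2 : ℝ) : ℂ) := by
    intro z
    rw [mul_comm, Complex.mul_conj, Complex.normSq_eq_norm_sq]
  have htr : N 0 0 + N 1 1 = ((x + y : ℝ) : ℂ) := by
    simp only [hN, Matrix.mul_apply, Fin.sum_univ_two, Matrix.conjTranspose_apply,
      RCLike.star_def, hnsq]
    rw [hsum]; push_cast; ring
  have hdet : N 0 0 * N 1 1 - N 0 1 * N 1 0 = ((x * y : ℝ) : ℂ) := by
    rw [hprod]
    rw [← hnsq (M 0 0 * M 1 1 - M 0 1 * M 1 0)]
    simp only [hN, Matrix.mul_apply, Fin.sum_univ_two, Matrix.conjTranspose_apply,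
      RCLike.star_def, map_sub, map_mul]
    ring
  have hNN : N * N = ((x + y : ℝ) : ℂ) • N - ((x * y : ℝ) : ℂ) • (1 : Matrix _ _ ℂ) := by
    rw [mul_self_two N, htr, hdet]
  have hNNN : N * N * N = ((x + y : ℝ) : ℂ) • (N * N) - ((x * y : ℝ) : ℂ) • N := by
    conv_lhs => rw [hNN]
    rw [sub_mul, smul_mul_assoc, smul_mul_assoc, one_mul]
  have hS2 : S ^ 2 = blockOp e (N * N) := by rw [pow_two, blockOp_mul he]
  have hS3 : S ^ 3 = blockOp e (N * N * N) := by
    rw [pow_succ, hS2, ← blockOp_mul he]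
  have hreal : ∀ (r : ℝ) (T : H →L[ℂ] H), r • T = (r : ℂ) • T := fun r T =>
    (Complex.coe_smul r T).symm
  have hcub : S ^ 3 - (x + y) • S ^ 2 + (x * y) • S = 0 := by
    rw [hS3, hNNN, blockOp_sub, blockOp_smul, blockOp_smul, hS2, hreal, hreal, ← hS]
    abel
  have hpow : S ^ (p / 2) = blockOp e ((u : ℂ) • N + (v : ℂ) • (N * N)) := by
    rw [rpow_of_cubic hS0 hm hcub hu hv, blockOp_add, blockOp_smul, blockOp_smul, ← hS2, ← hS,
      hreal, hreal]
  set L : Matrix (Fin 2) (Fin 2) ℂ := (u : ℂ) • N + (v : ℂ) • (N * N) with hL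
  have hpos : 0 ≤ blockOp e L := by rw [← hpow]; exact CFC.rpow_nonneg
  have hpos' : ∀ z, 0 ≤ RCLike.re ⟪z, blockOp e L z⟫_ℂ := by
    intro z
    have := (ContinuousLinearMap.nonneg_iff_isPositive _).1 hpos
    exact this.re_inner_nonneg_right z
  have e0 : e 0 = b i := rfl
  have e1 : e 1 = b j := rfl
  have h0 : RCLike.re ⟪b i, blockOp e L (b i)⟫_ℂ = (L 0 0).re := by
    rw [← e0, inner_blockOp_self he L]; rfl
  have h1 : RCLike.re ⟪b j, blockOp e L (b j)⟫_ℂ = (L 1 1).re := by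
    rw [← e1, inner_blockOp_self he L]; rfl
  have hsumL : (L 0 0).re + (L 1 1).re = x ^ (p / 2) + y ^ (p / 2) := by
    have htr2 : (N * N) 0 0 + (N * N) 1 1 = ((x ^ 2 + y ^ 2 : ℝ) : ℂ) := by
      rw [hNN]
      simp only [Matrix.sub_apply, Matrix.smul_apply, smul_eq_mul, Matrix.one_apply_eq, mul_one]
      have : ((x + y : ℝ) : ℂ) * N 0 0 - ((x * y : ℝ) : ℂ) +
          (((x + y : ℝ) : ℂ) * N 1 1 - ((x * y : ℝ) : ℂ)) =
          ((x + y : ℝ) : ℂ) * (N 0 0 + N 1 1) - 2 * ((x * y : ℝ) : ℂ) := by ring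
      rw [this, htr]
      push_cast; ring
    have : L 0 0 + L 1 1 = ((x ^ (p / 2) + y ^ (p / 2) : ℝ) : ℂ) := by
      simp only [hL, Matrix.add_apply, Matrix.smul_apply, smul_eq_mul]
      have h2 : (u : ℂ) * N 0 0 + (v : ℂ) * (N * N) 0 0 + ((u : ℂ) * N 1 1 + (v : ℂ) * (N * N) 1 1)
        = (u : ℂ) * (N 0 0 + N 1 1) + (v : ℂ) * ((N * N) 0 0 + (N * N) 1 1) := by ring
      rw [h2, htr, htr2, ← hu, ← hv]
      push_cast; ring
    have h3 := congrArg Complex.re this
    simpa using h3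
  unfold schattenPow
  rw [abs_rpow _ hp.le, hSeq, hpow]
  rw [tsum_eq_sum (s := {i, j})]
  · rw [Finset.sum_pair hij, h0, h1, ← ENNReal.ofReal_add, hsumL]
    · rw [← h0]; exact hpos' _
    · rw [← h1]; exact hpos' _
  · intro k hk
    simp only [Finset.mem_insert, Finset.mem_singleton, not_or] at hk
    have hb := orthonormal_iff_ite.1 b.orthonormal
    have : blockOp e L (b k) = 0 := by
      rw [blockOp_apply]
      simp [he_def, Fin.sum_univ_two, hb, Ne.symm hk.1, Ne.symm hk.2]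
    rw [this]; simp

end Pool.Agent.Lib.Helper34.SP
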