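import Mathlib

/-!
# Finite sums of `2m`-th powers of moduli of complex linear forms in two variables
-/

set_option autoImplicit false
set_option linter.unusedSectionVars false
set_option linter.unusedSimpArgs false

open Set Filter Topology MeasureTheory

namespace Pool.Agent.Lib.Helper34.SP

/-- `F` is a sum of `N` functions `‖α v + β w‖^{2m}`. -/
def RepN (m N : ℕ) (F : ℂ → ℂ → ℝ) : Prop :=
  ∃ v w : Fin N → ℂ, ∀ α β, F α β = ∑ i, ‖α * v i + β * w i‖ ^ (2 * m)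

/-- `F` is a finite sum of functions `‖α v + β w‖^{2m}`. -/
def RepFin (m : ℕ) (F : ℂ → ℂ → ℝ) : Prop := ∃ N, RepN m N F

theorem repFin_fintype {m : ℕ} {ν : Type*} [Fintype ν] (v w : ν → ℂ) {F : ℂ → ℂ → ℝ}
    (h : ∀ α β, F α β = ∑ i, ‖α * v i + β * w i‖ ^ (2 * m)) : RepFin m F := by
  let e := Fintype.equivFin ν
  refine ⟨Fintype.card ν, fun i => v (e.symm i), fun i => w (e.symm i), fun α β => ?_⟩
  rw [h]
  exact (Equiv.sum_comp e.symm (fun i => ‖α * v i + β * w i‖ ^ (2 * m))).symm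

theorem RepFin.zero (m : ℕ) : RepFin m (fun _ _ => 0) :=
  ⟨0, fun _ => 0, fun _ => 0, fun _ _ => by simp⟩

theorem RepFin.add {m : ℕ} {F G : ℂ → ℂ → ℝ} (hF : RepFin m F) (hG : RepFin m G) :
    RepFin m (fun α β => F α β + G α β) := by
  obtain ⟨N, v, w, h⟩ := hF
  obtain ⟨N', v', w', h'⟩ := hG
  refine repFin_fintype (ν := Fin N ⊕ Fin N') (Sum.elim v v') (Sum.elim w w') fun α β => ?_
  rw [Fintype.sum_sum_type, h, h']
  rfl

theorem RepFin.congr {m : ℕ} {F G : ℂ → ℂ → ℝ} (hF : RepFin m F) (h : ∀ α β, G α β = F α β) :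
    RepFin m G := by
  have : G = F := by funext α β; exact h α β
  rw [this]; exact hF

theorem RepFin.single (m : ℕ) (v w : ℂ) : RepFin m (fun α β => ‖α * v + β * w‖ ^ (2 * m)) :=
  ⟨1, fun _ => v, fun _ => w, fun _ _ => by simp⟩

/-- coefficient arrays -/
abbrev Arr (m : ℕ) := Fin (m + 1) → Fin (m + 1) → ℂ

/-- the array of the linear form `(v, w)` -/
noncomputable def dl (m : ℕ) (v w : ℂ) : Arr m := fun a b =>
  (w ^ (a : ℕ) * v ^ (m - a : ℕ)) * (starRingEnd ℂ) (w ^ (b : ℕ) * v ^ (m - b : ℕ))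

/-- evaluation of arrays -/
noncomputable def evA (m : ℕ) (α β : ℂ) : Arr m →ₗ[ℝ] ℝ where
  toFun τ := (∑ a : Fin (m + 1), ∑ b : Fin (m + 1),
    ((m.choose a : ℂ) * (m.choose b : ℂ)) * ((β ^ (a : ℕ) * α ^ (m - a : ℕ)) *
      (starRingEnd ℂ) (β ^ (b : ℕ) * α ^ (m - b : ℕ))) * τ a b).re
  map_add' x y := by
    simp only [Pi.add_apply, mul_add, Finset.sum_add_distrib, Complex.add_re]
  map_smul' r x := by
    simp only [Pi.smul_apply, Complex.real_smul, RingHom.id_apply, smul_eq_mul]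
    rw [← Complex.re_ofReal_mul, Finset.mul_sum]
    congr 1
    refine Finset.sum_congr rfl fun a _ => ?_
    rw [Finset.mul_sum]
    refine Finset.sum_congr rfl fun b _ => ?_
    ring

theorem norm_pow_two_mul (z : ℂ) (m : ℕ) :
    ((‖z‖ ^ (2 * m) : ℝ) : ℂ) = z ^ m * (starRingEnd ℂ) (z ^ m) := by
  rw [Complex.mul_conj, Complex.normSq_eq_norm_sq, norm_pow]
  push_cast
  ring

theorem evA_dl (m : ℕ) (α β v w : ℂ) :
    evA m α β (dl m v w) = ‖α * v + β * w‖ ^ (2 * m) := by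
  have h1 : ((‖α * v + β * w‖ ^ (2 * m) : ℝ) : ℂ) =
      ∑ a : Fin (m + 1), ∑ b : Fin (m + 1),
    ((m.choose a : ℂ) * (m.choose b : ℂ)) * ((β ^ (a : ℕ) * α ^ (m - a : ℕ)) *
      (starRingEnd ℂ) (β ^ (b : ℕ) * α ^ (m - b : ℕ))) * dl m v w a b := by
    have h2 : (α * v + β * w) ^ m = ∑ a : Fin (m + 1), (β * w) ^ (a : ℕ) * (α * v) ^ (m - a : ℕ) *
        (m.choose a : ℂ) := by
      rw [add_comm (α * v), add_pow, Finset.sum_range]
    rw [norm_pow_two_mul, h2, map_sum, Finset.sum_mul_sum]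
    refine Finset.sum_congr rfl fun a _ => Finset.sum_congr rfl fun b _ => ?_
    unfold dl
    simp only [map_mul, map_pow, map_natCast, mul_pow]
    ring
  have h3 := congrArg Complex.re h1
  rw [Complex.ofReal_re] at h3
  rw [h3]
  rfl

theorem dl_zero {m : ℕ} (hm : 1 ≤ m) : dl m 0 0 = 0 := by
  funext a b
  unfold dl
  by_cases ha : (a : ℕ) = 0
  · rw [ha]
    simp [zero_pow (show m ≠ 0 by omega)]
  · simp [zero_pow ha]

theorem dl_smul {m : ℕ} (c : ℝ) (v w : ℂ) :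
    dl m ((c : ℂ) * v) ((c : ℂ) * w) = (c ^ (2 * m)) • dl m v w := by
  funext a b
  unfold dl
  simp only [Pi.smul_apply, Complex.real_smul, map_mul, map_pow, mul_pow, Complex.conj_ofReal]
  have ha : (a : ℕ) + (m - a) = m := by omega
  have hb : (b : ℕ) + (m - b) = m := by omega
  have h1 : (((c ^ (2 * m) : ℝ)) : ℂ) = ((c : ℂ) ^ (a : ℕ) * (c : ℂ) ^ (m - a : ℕ)) *
      ((c : ℂ) ^ (b : ℕ) * (c : ℂ) ^ (m - b : ℕ)) := by
    rw [← pow_add, ← pow_add, ha, hb]; push_cast; ring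
  rw [h1]
  ring

theorem exists_dl_smul {m : ℕ} (hm : 1 ≤ m) {r : ℝ} (hr : 0 ≤ r) (v w : ℂ) :
    ∃ v' w' : ℂ, dl m v' w' = r • dl m v w := by
  refine ⟨((r ^ ((1 : ℝ) / ((2 * m : ℕ) : ℝ)) : ℝ) : ℂ) * v, ((r ^ ((1 : ℝ) / ((2 * m : ℕ) : ℝ)) : ℝ) : ℂ) * w, ?_⟩
  rw [dl_smul]
  congr 1
  rw [← Real.rpow_natCast, ← Real.rpow_mul hr, one_div, inv_mul_cancel₀, Real.rpow_one]
  have : (2 * m : ℕ) ≠ 0 := by omega
  exact_mod_cast this

/-- bound for the number of terms -/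
noncomputable def N0 (m : ℕ) : ℕ := Module.finrank ℝ (Arr m) + 1

theorem pad {m : ℕ} (hm : 1 ≤ m) {ν : Type*} [Fintype ν] (v w : ν → ℂ) {K : ℕ}
    (h : Fintype.card ν ≤ K) : ∃ v' w' : Fin K → ℂ, ∑ i, dl m (v' i) (w' i) =
      ∑ i, dl m (v i) (w i) := by
  obtain ⟨k, rfl⟩ := Nat.exists_eq_add_of_le h
  let e := Fintype.equivFin ν
  refine ⟨Fin.append (fun i => v (e.symm i)) (fun _ => 0),
    Fin.append (fun i => w (e.symm i)) (fun _ => 0), ?_⟩
  rw [Fin.sum_univ_add]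
  simp only [Fin.append_left, Fin.append_right, dl_zero hm, Finset.sum_const_zero, add_zero]
  exact Equiv.sum_comp e.symm (fun i => dl m (v i) (w i))

theorem caratheodory_cone {m : ℕ} (hm : 1 ≤ m) {N : ℕ} (v w : Fin N → ℂ) :
    ∃ v' w' : Fin (N0 m) → ℂ, ∑ i, dl m (v' i) (w' i) = ∑ i, dl m (v i) (w i) := by
  rcases Nat.eq_zero_or_pos N with h0 | hN
  · subst h0
    exact pad hm v w (by simp)
  · set s : Set (Arr m) := {x | ∃ v w, x = dl m v w} with hs
    have hmem : ∑ i, dl m (v i) (w i) ∈ convexHull ℝ s := by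
      have h1 : ∑ i, dl m (v i) (w i) = ∑ i : Fin N, ((1 : ℝ) / N) • ((N : ℝ) • dl m (v i) (w i)) := by
        refine Finset.sum_congr rfl fun i _ => ?_
        rw [smul_smul, one_div, inv_mul_cancel₀ (by positivity), one_smul]
      rw [h1]
      refine (convex_convexHull ℝ s).sum_mem (fun i _ => by positivity) ?_ fun i _ => ?_
      · rw [Finset.sum_const, Finset.card_univ, Fintype.card_fin, nsmul_eq_mul]
        field_simp
      · apply subset_convexHull
        obtain ⟨v', w', h⟩ := exists_dl_smul hm (Nat.cast_nonneg N) (v i) (w i)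
        exact ⟨v', w', h.symm⟩
    obtain ⟨ν, _, z, wt, hz, haff, hwt, hsum, hx⟩ := eq_pos_convex_span_of_mem_convexHull hmem
    have hz' : ∀ i, ∃ v w, z i = dl m v w := fun i => hz ⟨i, rfl⟩
    choose zv zw hzvw using hz'
    have hz2 : ∀ i, ∃ v w, dl m v w = wt i • dl m (zv i) (zw i) := fun i =>
      exists_dl_smul hm (hwt i).le _ _
    choose yv yw hy using hz2
    have hcard : Fintype.card ν ≤ N0 m := by
      refine haff.card_le_finrank_succ.trans ?_
      unfold N0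
      gcongr
      exact Submodule.finrank_le _
    obtain ⟨v', w', h⟩ := pad hm yv yw hcard
    refine ⟨v', w', ?_⟩
    rw [h, ← hx]
    refine Finset.sum_congr rfl fun i _ => ?_
    rw [hy, hzvw]

theorem repFin_iff_N0 {m : ℕ} (hm : 1 ≤ m) {F : ℂ → ℂ → ℝ} (h : RepFin m F) :
    RepN m (N0 m) F := by
  obtain ⟨N, v, w, h⟩ := h
  obtain ⟨v', w', h'⟩ := caratheodory_cone hm v w
  refine ⟨v', w', fun α β => ?_⟩
  rw [h]
  have h2 := congrArg (evA m α β) h'
  rw [map_sum, map_sum] at h2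
  simp only [evA_dl] at h2
  exact h2.symm

/-- Closedness with a fixed number of terms. -/
theorem repN_closed {σ : Type*} {l : Filter σ} [l.NeBot] {m N : ℕ} (hm : 1 ≤ m)
    {F : σ → ℂ → ℂ → ℝ} (hF : ∀ s, RepN m N (F s)) {G : ℂ → ℂ → ℝ}
    (hG : ∀ α β, Tendsto (fun s => F s α β) l (𝓝 (G α β))) : RepN m N G := by
  choose v w hvw using hF
  set R : ℝ := max (max (G 1 0 + 1) (G 0 1 + 1)) 1 with hR
  have hR1 : 1 ≤ R := le_max_right _ _
  set K : Set ((Fin N → ℂ) × (Fin N → ℂ)) := Metric.closedBall 0 R with hK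
  have hKc : IsCompact K := isCompact_closedBall _ _
  have hbd : ∀ x : ℝ, 0 ≤ x → x ^ (2 * m) ≤ R → x ≤ R := by
    intro x hx h
    by_contra hc
    push Not at hc
    have h1 : 1 < x := hR1.trans_lt hc
    have h2 : x ≤ x ^ (2 * m) := le_self_pow₀ h1.le (by omega)
    linarith
  have hev : ∀ᶠ s in l, (v s, w s) ∈ K := by
    have h1 := (tendsto_order.1 (hG 1 0)).2 (G 1 0 + 1) (by linarith)
    have h2 := (tendsto_order.1 (hG 0 1)).2 (G 0 1 + 1) (by linarith)
    filter_upwards [h1, h2] with s h1 h2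
    rw [hvw] at h1 h2
    rw [hK, mem_closedBall_zero_iff, Prod.norm_def]
    refine max_le ?_ ?_
    · refine (pi_norm_le_iff_of_nonneg (by linarith)).2 fun i => ?_
      apply hbd _ (norm_nonneg _)
      have h3 : ‖v s i‖ ^ (2 * m) ≤ ∑ i, ‖1 * v s i + 0 * w s i‖ ^ (2 * m) := by
        have := Finset.single_le_sum (f := fun i => ‖1 * v s i + 0 * w s i‖ ^ (2 * m))
          (fun i _ => by positivity) (Finset.mem_univ i)
        simpa using this
      exact h3.trans (h1.le.trans (le_trans (le_max_left _ _) (le_max_left _ _)))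
    · refine (pi_norm_le_iff_of_nonneg (by linarith)).2 fun i => ?_
      apply hbd _ (norm_nonneg _)
      have h3 : ‖w s i‖ ^ (2 * m) ≤ ∑ i, ‖0 * v s i + 1 * w s i‖ ^ (2 * m) := by
        have := Finset.single_le_sum (f := fun i => ‖0 * v s i + 1 * w s i‖ ^ (2 * m))
          (fun i _ => by positivity) (Finset.mem_univ i)
        simpa using this
      exact h3.trans (h2.le.trans (le_trans (le_max_right _ _) (le_max_left _ _)))
  set U : Ultrafilter σ := Ultrafilter.of l with hU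
  have hUl : (U : Filter σ) ≤ l := Ultrafilter.of_le l
  have hUK : K ∈ (U.map fun s => (v s, w s)) := hUl hev
  obtain ⟨x, hxK, hx⟩ := hKc.ultrafilter_le_nhds' _ hUK
  have hx' : Tendsto (fun s => (v s, w s)) U (𝓝 x) := hx
  refine ⟨x.1, x.2, fun α β => ?_⟩
  have h1 : Tendsto (fun s => F s α β) U (𝓝 (G α β)) := (hG α β).mono_left hUl
  have h2 : Tendsto (fun s => F s α β) U (𝓝 (∑ i, ‖α * x.1 i + β * x.2 i‖ ^ (2 * m))) := by
    have hc : Continuous fun y : (Fin N → ℂ) × (Fin N → ℂ) =>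
        ∑ i, ‖α * y.1 i + β * y.2 i‖ ^ (2 * m) := by fun_prop
    have h3 := (hc.tendsto x).comp hx'
    refine h3.congr fun s => ?_
    rw [hvw]; rfl
  exact tendsto_nhds_unique h1 h2

end Pool.Agent.Lib.Helper34.SP
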