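import Mathlib

/-!
# A supporting functional on the boundary of a convex cone
-/

set_option autoImplicit false

open Set Filter Topology

namespace Pool.Agent.Lib.Helper34.SP

theorem exists_support {E : Type*} [NormedAddCommGroup E] [NormedSpace ℝ E] {C : Set E}
    (hconv : Convex ℝ C) (hcl : IsClosed C) (hcone : ∀ r : ℝ, 0 ≤ r → ∀ x ∈ C, r • x ∈ C)
    {l t : E} (hl : l ∈ interior C) (ht : t ∉ C) :
    ∃ s : ℝ, 0 < s ∧ ∃ f : E →L[ℝ] ℝ, (∀ x ∈ C, 0 ≤ f x) ∧ 0 < f l ∧ t + s • l ∈ C ∧
      f (t + s • l) = 0 := by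
  set S : Set ℝ := {s | 0 ≤ s ∧ t + s • l ∈ C} with hS
  have hne : S.Nonempty := by
    obtain ⟨ε, hε, hball⟩ := Metric.isOpen_iff.1 isOpen_interior l hl
    set s : ℝ := ‖t‖ / ε + 1 with hs
    have hs0 : 0 < s := by positivity
    refine ⟨s, hs0.le, ?_⟩
    have h1 : l + s⁻¹ • t ∈ C := by
      refine interior_subset (hball ?_)
      rw [Metric.mem_ball, dist_eq_norm, add_sub_cancel_left, norm_smul, norm_inv,
        Real.norm_eq_abs, abs_of_pos hs0, inv_mul_lt_iff₀ hs0]
      have : s * ε = ‖t‖ + ε := by rw [hs]; field_simp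
      rw [this]; linarith
    have h2 := hcone s hs0.le _ h1
    rwa [smul_add, smul_smul, mul_inv_cancel₀ hs0.ne', one_smul, add_comm] at h2
  have hScl : IsClosed S := by
    have h1 : IsClosed {s : ℝ | t + s • l ∈ C} := hcl.preimage (by fun_prop)
    exact isClosed_Ici.inter h1
  have hbdd : BddBelow S := ⟨0, fun s hs => hs.1⟩
  set s := sInf S with hs
  have hsS : s ∈ S := hScl.csInf_mem hne hbdd
  have hs0 : 0 < s := by
    rcases hsS.1.lt_or_eq with h | h
    · exact h
    · exfalso
      apply ht
      have := hsS.2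
      rw [← h, zero_smul, add_zero] at this
      exact this
  have hnint : t + s • l ∉ interior C := by
    intro hmem
    obtain ⟨ε, hε, hball⟩ := Metric.isOpen_iff.1 isOpen_interior _ hmem
    set r : ℝ := min s (ε / (2 * (‖l‖ + 1))) with hr
    have hr0 : 0 < r := lt_min hs0 (by positivity)
    have hmem2 : t + (s - r) • l ∈ C := by
      refine interior_subset (hball ?_)
      rw [Metric.mem_ball, dist_eq_norm]
      have : t + (s - r) • l - (t + s • l) = -(r • l) := by rw [sub_smul]; abel
      rw [this, norm_neg, norm_smul, Real.norm_eq_abs, abs_of_pos hr0]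
      calc r * ‖l‖ ≤ ε / (2 * (‖l‖ + 1)) * ‖l‖ := by gcongr; exact min_le_right _ _
        _ < ε := by
          rw [div_mul_eq_mul_div, div_lt_iff₀ (by positivity)]
          nlinarith [norm_nonneg l]
    have h3 : s - r ∈ S := ⟨sub_nonneg.2 (min_le_left _ _), hmem2⟩
    have h4 := csInf_le hbdd h3
    rw [← hs] at h4
    linarith
  obtain ⟨f, hf⟩ := geometric_hahn_banach_open_point hconv.interior isOpen_interior hnint
  have hC : ∀ x ∈ C, f x ≤ f (t + s • l) := by
    intro x hx
    have h1 : x ∈ closure (interior C) := by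
      rw [hconv.closure_interior_eq_closure_of_nonempty_interior ⟨l, hl⟩]
      exact subset_closure hx
    have h2 : closure (interior C) ⊆ {y | f y ≤ f (t + s • l)} := by
      refine closure_minimal (fun y hy => (hf y hy).le) ?_
      exact isClosed_le f.continuous continuous_const
    exact h2 h1
  have hneg : ∀ x ∈ C, f x ≤ 0 := by
    intro x hx
    by_contra hc
    push Not at hc
    obtain ⟨n, hn⟩ := exists_nat_gt (f (t + s • l) / f x)
    have h1 := hC _ (hcone n (Nat.cast_nonneg n) x hx)
    rw [map_smul, smul_eq_mul] at h1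
    rw [div_lt_iff₀ hc] at hn
    linarith
  have hzero : f (t + s • l) = 0 := by
    apply le_antisymm (hneg _ hsS.2)
    have h0 : (0 : E) ∈ C := by
      have := hcone 0 le_rfl l (interior_subset hl)
      rwa [zero_smul] at this
    have := hC 0 h0
    rwa [map_zero] at this
  refine ⟨s, hs0, -f, fun x hx => ?_, ?_, hsS.2, ?_⟩
  · have := hneg x hx
    rw [neg_apply]; linarith
  · have := hf l hl
    rw [hzero] at this
    rw [neg_apply]; linarith
  · rw [neg_apply, hzero, neg_zero]

/-- A functional nonnegative on a set and vanishing at an interior point is zero. -/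
theorem eq_zero_of_interior {E : Type*} [NormedAddCommGroup E] [NormedSpace ℝ E] {C : Set E}
    {l : E} (hl : l ∈ interior C) {f : E →ₗ[ℝ] ℝ} (hf : ∀ x ∈ C, 0 ≤ f x) (hl0 : f l = 0) :
    f = 0 := by
  obtain ⟨ε, hε, hball⟩ := Metric.isOpen_iff.1 isOpen_interior l hl
  have key : ∀ x : E, 0 ≤ f x := by
    intro x
    set r : ℝ := ε / (2 * (‖x‖ + 1)) with hr
    have hr0 : 0 < r := by positivity
    have h1 : l + r • x ∈ C := by
      refine interior_subset (hball ?_)
      rw [Metric.mem_ball, dist_eq_norm, add_sub_cancel_left, norm_smul, Real.norm_eq_abs,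
        abs_of_pos hr0, hr, div_mul_eq_mul_div, div_lt_iff₀ (by positivity)]
      nlinarith [norm_nonneg x]
    have h2 := hf _ h1
    rw [map_add, hl0, zero_add, map_smul, smul_eq_mul] at h2
    exact nonneg_of_mul_nonneg_right h2 hr0
  ext x
  have h1 := key x
  have h2 := key (-x)
  rw [map_neg] at h2
  simp only [LinearMap.zero_apply]
  linarith

end Pool.Agent.Lib.Helper34.SP
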