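import Mathlib
import Pool.Agent.Lib.Helper34.SP.Cone
import Pool.Agent.Lib.Helper34.SP.Dual

/-!
# The cone of arrays
-/

set_option autoImplicit false
set_option linter.unusedSectionVars false
set_option linter.unusedSimpArgs false

open Set Filter Topology

namespace Pool.Agent.Lib.Helper34.SP

/-- the cone generated by the arrays `dl m v w` -/
def coneS (m : ℕ) : Set (Arr m) :=
  {τ | ∃ v w : Fin (N0 m) → ℂ, τ = ∑ i, dl m (v i) (w i)}

theorem sum_mem_coneS {m : ℕ} (hm : 1 ≤ m) {ν : Type*} [Fintype ν] (v w : ν → ℂ) :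
    ∑ i, dl m (v i) (w i) ∈ coneS m := by
  let e := Fintype.equivFin ν
  obtain ⟨v', w', h⟩ := caratheodory_cone hm (fun i => v (e.symm i)) (fun i => w (e.symm i))
  refine ⟨v', w', ?_⟩
  rw [h]
  exact (Equiv.sum_comp e.symm (fun i => dl m (v i) (w i))).symm

theorem dl_mem_coneS {m : ℕ} (hm : 1 ≤ m) (v w : ℂ) : dl m v w ∈ coneS m := by
  have := sum_mem_coneS hm (ν := Unit) (fun _ => v) (fun _ => w)
  simpa using this

theorem add_mem_coneS {m : ℕ} (hm : 1 ≤ m) {x y : Arr m} (hx : x ∈ coneS m) (hy : y ∈ coneS m) :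
    x + y ∈ coneS m := by
  obtain ⟨v, w, rfl⟩ := hx
  obtain ⟨v', w', rfl⟩ := hy
  have := sum_mem_coneS hm (ν := Fin (N0 m) ⊕ Fin (N0 m)) (Sum.elim v v') (Sum.elim w w')
  rw [Fintype.sum_sum_type] at this
  exact this

theorem smul_mem_coneS {m : ℕ} (hm : 1 ≤ m) {r : ℝ} (hr : 0 ≤ r) {x : Arr m} (hx : x ∈ coneS m) :
    r • x ∈ coneS m := by
  obtain ⟨v, w, rfl⟩ := hx
  have h : ∀ i, ∃ v' w', dl m v' w' = r • dl m (v i) (w i) := fun i => exists_dl_smul hm hr _ _
  choose v' w' h using h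
  refine ⟨v', w', ?_⟩
  rw [Finset.smul_sum]
  exact Finset.sum_congr rfl fun i _ => (h i).symm

theorem convex_coneS {m : ℕ} (hm : 1 ≤ m) : Convex ℝ (coneS m) := by
  intro x hx y hy a b ha hb _
  exact add_mem_coneS hm (smul_mem_coneS hm ha hx) (smul_mem_coneS hm hb hy)

theorem continuous_dl (m : ℕ) : Continuous fun p : ℂ × ℂ => dl m p.1 p.2 := by
  unfold dl
  refine continuous_pi fun a => continuous_pi fun b => ?_
  fun_prop

theorem isClosed_coneS {m : ℕ} (hm : 1 ≤ m) : IsClosed (coneS m) := by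
  rw [isClosed_iff_ultrafilter]
  intro x u hu hmem
  have hch : ∀ y : Arr m, ∃ v w : Fin (N0 m) → ℂ, y ∈ coneS m → y = ∑ i, dl m (v i) (w i) := by
    intro y
    by_cases h : y ∈ coneS m
    · obtain ⟨v, w, h⟩ := h
      exact ⟨v, w, fun _ => h⟩
    · exact ⟨fun _ => 0, fun _ => 0, fun h' => absurd h' h⟩
  choose v w hvw using hch
  set T : Arr m → ℝ := fun y => evA m 1 0 y + evA m 0 1 y with hT
  have hTc : Continuous T := by
    have h1 : ∀ α β, Continuous (evA m α β) := fun α β =>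
      LinearMap.continuous_of_finiteDimensional _
    exact (h1 1 0).add (h1 0 1)
  set R : ℝ := max (T x + 1) 1 with hR
  have hR1 : 1 ≤ R := le_max_right _ _
  have hbd : ∀ x : ℝ, 0 ≤ x → x ^ (2 * m) ≤ R → x ≤ R := by
    intro x hx h
    by_contra hc
    push Not at hc
    have h1 : 1 < x := hR1.trans_lt hc
    have h2 : x ≤ x ^ (2 * m) := le_self_pow₀ h1.le (by omega)
    linarith
  set K : Set ((Fin (N0 m) → ℂ) × (Fin (N0 m) → ℂ)) := Metric.closedBall 0 R with hK
  have hKc : IsCompact K := isCompact_closedBall _ _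
  have hev : ∀ᶠ y in (u : Filter (Arr m)), (v y, w y) ∈ K := by
    have h1 : ∀ᶠ y in (u : Filter (Arr m)), T y < T x + 1 :=
      hu ((tendsto_order.1 (hTc.tendsto x)).2 (T x + 1) (by linarith))
    have h2 : ∀ᶠ y in (u : Filter (Arr m)), y ∈ coneS m := hmem
    filter_upwards [h1, h2] with y h1 h2
    have h3 := hvw y h2
    have h4 : T y = ∑ i, ‖v y i‖ ^ (2 * m) + ∑ i, ‖w y i‖ ^ (2 * m) := by
      rw [hT]
      simp only
      conv_lhs => rw [h3]
      rw [map_sum, map_sum]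
      simp only [evA_dl, one_mul, zero_mul, add_zero, zero_add]
    rw [h4] at h1
    have h5 : 0 ≤ ∑ i, ‖v y i‖ ^ (2 * m) := by positivity
    have h6 : 0 ≤ ∑ i, ‖w y i‖ ^ (2 * m) := by positivity
    rw [hK, mem_closedBall_zero_iff, Prod.norm_def]
    refine max_le ?_ ?_
    · refine (pi_norm_le_iff_of_nonneg (by linarith)).2 fun i => ?_
      apply hbd _ (norm_nonneg _)
      have := Finset.single_le_sum (f := fun i => ‖v y i‖ ^ (2 * m))
        (fun i _ => by positivity) (Finset.mem_univ i)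
      calc ‖v y i‖ ^ (2 * m) ≤ T x + 1 := by linarith
        _ ≤ R := le_max_left _ _
    · refine (pi_norm_le_iff_of_nonneg (by linarith)).2 fun i => ?_
      apply hbd _ (norm_nonneg _)
      have := Finset.single_le_sum (f := fun i => ‖w y i‖ ^ (2 * m))
        (fun i _ => by positivity) (Finset.mem_univ i)
      calc ‖w y i‖ ^ (2 * m) ≤ T x + 1 := by linarith
        _ ≤ R := le_max_left _ _
  have hUK : K ∈ (u.map fun y => (v y, w y)) := hev
  obtain ⟨z, hzK, hz⟩ := hKc.ultrafilter_le_nhds' _ hUK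
  have hz' : Tendsto (fun y => (v y, w y)) u (𝓝 z) := hz
  refine ⟨z.1, z.2, ?_⟩
  have h1 : Tendsto (fun y : Arr m => y) u (𝓝 x) := hu
  have h2 : Tendsto (fun y : Arr m => y) u (𝓝 (∑ i, dl m (z.1 i) (z.2 i))) := by
    have hc : Continuous fun p : (Fin (N0 m) → ℂ) × (Fin (N0 m) → ℂ) =>
        ∑ i, dl m (p.1 i) (p.2 i) := by
      refine continuous_finsetSum _ fun i _ => ?_
      have h3 : Continuous fun p : (Fin (N0 m) → ℂ) × (Fin (N0 m) → ℂ) => (p.1 i, p.2 i) := by
        fun_prop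
      exact (continuous_dl m).comp h3
    have h3 := (hc.tendsto z).comp hz'
    refine h3.congr' ?_
    have h2 : ∀ᶠ y in (u : Filter (Arr m)), y ∈ coneS m := hmem
    filter_upwards [h2] with y hy
    exact (hvw y hy).symm
  exact tendsto_nhds_unique h1 h2

/-- the real span of the arrays `dl m v w` -/
noncomputable def spanV (m : ℕ) : Submodule ℝ (Arr m) :=
  Submodule.span ℝ (range fun p : ℂ × ℂ => dl m p.1 p.2)

/-- the array `dl m v w` as an element of the span -/
noncomputable def dlV (m : ℕ) (v w : ℂ) : spanV m :=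
  ⟨dl m v w, Submodule.subset_span ⟨(v, w), rfl⟩⟩

/-- the cone inside its span -/
def coneV (m : ℕ) : Set (spanV m) := {x | (x : Arr m) ∈ coneS m}

theorem isClosed_coneV {m : ℕ} (hm : 1 ≤ m) : IsClosed (coneV m) :=
  (isClosed_coneS hm).preimage continuous_subtype_val

theorem convex_coneV {m : ℕ} (hm : 1 ≤ m) : Convex ℝ (coneV m) := by
  intro x hx y hy a b ha hb hab
  exact convex_coneS hm hx hy ha hb hab

theorem interior_coneV {m : ℕ} (hm : 1 ≤ m) : (interior (coneV m)).Nonempty := by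
  rw [(convex_coneV hm).interior_nonempty_iff_affineSpan_eq_top]
  have h0 : (0 : spanV m) ∈ coneV m := by
    have h := dl_mem_coneS hm 0 0
    rw [dl_zero hm] at h
    exact h
  rw [AffineSubspace.affineSpan_eq_top_iff_vectorSpan_eq_top_of_nonempty ℝ (spanV m) (spanV m)
    ⟨0, h0⟩, vectorSpan_eq_span_vsub_set_right ℝ h0]
  have h1 : (fun x : spanV m => x -ᵥ (0 : spanV m)) '' coneV m = coneV m := by
    simp
  rw [h1, eq_top_iff]
  have h2 : Submodule.span ℝ (((↑) : spanV m → Arr m) ⁻¹'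
      (range fun p : ℂ × ℂ => dl m p.1 p.2)) = ⊤ := Submodule.span_span_coe_preimage
  rw [← h2]
  refine Submodule.span_mono ?_
  rintro x ⟨p, hp⟩
  change (x : Arr m) ∈ coneS m
  rw [← hp]
  exact dl_mem_coneS hm _ _

/-- Duality: an array of the span outside the cone. -/
theorem exists_dual {m : ℕ} (hm : 1 ≤ m) {τ : Arr m} (hτ : τ ∈ spanV m) (hτC : τ ∉ coneS m) :
    ∃ (X : Arr m →ₗ[ℝ] ℝ) (s : ℝ) (l : spanV m) (v w : Fin (N0 m) → ℂ), 0 < s ∧
      l ∈ interior (coneV m) ∧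
      (∀ v w, 0 ≤ X (dl m v w)) ∧ (∃ v w, X (dl m v w) ≠ 0) ∧
      τ + s • (l : Arr m) = ∑ i, dl m (v i) (w i) ∧ ∀ i, X (dl m (v i) (w i)) = 0 := by
  obtain ⟨l, hl⟩ := interior_coneV hm
  obtain ⟨s, hs, f, hf, hfl, hmem, hzero⟩ := exists_support (convex_coneV hm) (isClosed_coneV hm)
    (fun r hr x hx => smul_mem_coneS hm hr hx) hl (t := ⟨τ, hτ⟩) hτC
  obtain ⟨X, hX⟩ := LinearMap.exists_extend (f : spanV m →ₗ[ℝ] ℝ)
  have hX' : ∀ x : spanV m, X (x : Arr m) = f x := fun x => LinearMap.congr_fun hX x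
  have hXdl : ∀ v w, X (dl m v w) = f (dlV m v w) := fun v w => hX' (dlV m v w)
  obtain ⟨v, w, hvw⟩ := hmem
  have hpos : ∀ v w, 0 ≤ X (dl m v w) := by
    intro v w
    rw [hXdl]
    exact hf _ (dl_mem_coneS hm v w)
  refine ⟨X, s, l, v, w, hs, hl, hpos, ?_, hvw, ?_⟩
  · by_contra hc
    push Not at hc
    obtain ⟨v', w', h'⟩ := (interior_subset hl : l ∈ coneV m)
    have : X (l : Arr m) = 0 := by
      rw [h', map_sum]
      exact Finset.sum_eq_zero fun i _ => hc _ _
    rw [hX'] at this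
    linarith
  · have h1 : ∑ i, X (dl m (v i) (w i)) = 0 := by
      rw [← map_sum, ← hvw]
      exact (hX' _).trans hzero
    have h2 := (Finset.sum_eq_zero_iff_of_nonneg fun i _ => hpos (v i) (w i)).1 h1
    exact fun i => h2 i (Finset.mem_univ i)

end Pool.Agent.Lib.Helper34.SP
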