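import Mathlib

/-!
# Forms of type `(2,1)` in two complex variables
-/

set_option autoImplicit false
set_option linter.unusedSectionVars false
set_option linter.unusedSimpArgs false

open Complex

namespace Pool.Agent.Lib.Helper34.SP

/-- `(2,1)`-form -/
noncomputable def h21 (x : Fin 6 → ℂ) (v w : ℂ) : ℂ :=
  (x 0 * v ^ 2 + x 1 * (v * w) + x 2 * w ^ 2) * (starRingEnd ℂ) v +
    (x 3 * v ^ 2 + x 4 * (v * w) + x 5 * w ^ 2) * (starRingEnd ℂ) w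

/-- the Hermitian form `K` attached to a `(2,1)`-form -/
noncomputable def kapQ (x : Fin 6 → ℂ) (c0 c1 : ℂ) : ℝ :=
  ‖x 1 / 2 * c0 + x 2 * c1‖ ^ 2 + ‖x 3 * c0 + x 4 / 2 * c1‖ ^ 2 -
    2 * ((x 0 * c0 + x 1 / 2 * c1) * (starRingEnd ℂ) (x 4 / 2 * c0 + x 5 * c1)).re

/-- coefficients after a linear substitution `(v, w) ↦ (a v + b w, c v + d w)` -/
noncomputable def sub21 (x : Fin 6 → ℂ) (a b c d : ℂ) : Fin 6 → ℂ :=
  ![(x 0 * a ^ 2 + x 1 * (a * c) + x 2 * c ^ 2) * (starRingEnd ℂ) a +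
      (x 3 * a ^ 2 + x 4 * (a * c) + x 5 * c ^ 2) * (starRingEnd ℂ) c,
    (2 * a * b * x 0 + (a * d + b * c) * x 1 + 2 * c * d * x 2) * (starRingEnd ℂ) a +
      (2 * a * b * x 3 + (a * d + b * c) * x 4 + 2 * c * d * x 5) * (starRingEnd ℂ) c,
    (x 0 * b ^ 2 + x 1 * (b * d) + x 2 * d ^ 2) * (starRingEnd ℂ) a +
      (x 3 * b ^ 2 + x 4 * (b * d) + x 5 * d ^ 2) * (starRingEnd ℂ) c,
    (x 0 * a ^ 2 + x 1 * (a * c) + x 2 * c ^ 2) * (starRingEnd ℂ) b +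
      (x 3 * a ^ 2 + x 4 * (a * c) + x 5 * c ^ 2) * (starRingEnd ℂ) d,
    (2 * a * b * x 0 + (a * d + b * c) * x 1 + 2 * c * d * x 2) * (starRingEnd ℂ) b +
      (2 * a * b * x 3 + (a * d + b * c) * x 4 + 2 * c * d * x 5) * (starRingEnd ℂ) d,
    (x 0 * b ^ 2 + x 1 * (b * d) + x 2 * d ^ 2) * (starRingEnd ℂ) b +
      (x 3 * b ^ 2 + x 4 * (b * d) + x 5 * d ^ 2) * (starRingEnd ℂ) d]

theorem h21_sub (x : Fin 6 → ℂ) (a b c d v w : ℂ) :
    h21 (sub21 x a b c d) v w = h21 x (a * v + b * w) (c * v + d * w) := by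
  simp only [h21, sub21, Matrix.cons_val, map_add, map_mul]
  ring

theorem h21_scale (x : Fin 6 → ℂ) (t v w : ℂ) :
    h21 x (t * v) (t * w) = t ^ 2 * (starRingEnd ℂ) t * h21 x v w := by
  simp only [h21, map_mul]
  ring

/-- complex version of `kapQ` -/
theorem kapQ_eq (x : Fin 6 → ℂ) (c0 c1 : ℂ) : ((kapQ x c0 c1 : ℝ) : ℂ) =
    (x 1 / 2 * c0 + x 2 * c1) * (starRingEnd ℂ) (x 1 / 2 * c0 + x 2 * c1) +
    (x 3 * c0 + x 4 / 2 * c1) * (starRingEnd ℂ) (x 3 * c0 + x 4 / 2 * c1) -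
    (x 0 * c0 + x 1 / 2 * c1) * (starRingEnd ℂ) (x 4 / 2 * c0 + x 5 * c1) -
    (starRingEnd ℂ) (x 0 * c0 + x 1 / 2 * c1) * (x 4 / 2 * c0 + x 5 * c1) := by
  have h1 : ∀ z : ℂ, ((‖z‖ ^ 2 : ℝ) : ℂ) = z * (starRingEnd ℂ) z := by
    intro z; rw [Complex.mul_conj, Complex.normSq_eq_norm_sq]
  have h2 : ∀ y z : ℂ, (((2 * (y * (starRingEnd ℂ) z).re : ℝ)) : ℂ) =
      y * (starRingEnd ℂ) z + (starRingEnd ℂ) y * z := by
    intro y z
    have := Complex.add_conj (y * (starRingEnd ℂ) z)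
    rw [map_mul, Complex.conj_conj] at this
    rw [← this]
  unfold kapQ
  rw [Complex.ofReal_sub, Complex.ofReal_add, h1, h1, h2]
  ring

theorem kapQ_sub (x : Fin 6 → ℂ) (a b c d c0 c1 : ℂ) :
    kapQ (sub21 x a b c d) c0 c1 =
      ‖a * d - b * c‖ ^ 2 * kapQ x (a * c0 + b * c1) (c * c0 + d * c1) := by
  have h : ((kapQ (sub21 x a b c d) c0 c1 : ℝ) : ℂ) =
      ((‖a * d - b * c‖ ^ 2 * kapQ x (a * c0 + b * c1) (c * c0 + d * c1) : ℝ) : ℂ) := by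
    rw [Complex.ofReal_mul, kapQ_eq, kapQ_eq]
    have h1 : ((‖a * d - b * c‖ ^ 2 : ℝ) : ℂ) = (a * d - b * c) *
        (starRingEnd ℂ) (a * d - b * c) := by
      rw [Complex.mul_conj, Complex.normSq_eq_norm_sq]
    rw [h1]
    simp only [sub21, Matrix.cons_val, map_add, map_mul, map_sub, map_div₀, Complex.conj_conj,
      map_pow, map_ofNat]
    ring
  exact_mod_cast h

theorem real_ineq {T p q s d : ℝ} (hp : 0 ≤ p) (hq : 0 ≤ q) (hs : 0 ≤ s) (hd : 0 ≤ d)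
    (hT0 : 0 ≤ T) (hT : q ^ 2 - 4 * p * s ≤ T) (hds : d ≤ 3 * s) (hdpq : d ≤ p + q) :
    0 ≤ T + 8 * s ^ 2 + p ^ 2 - d ^ 2 := by
  by_cases h : d ^ 2 - 8 * s ^ 2 ≤ p ^ 2
  · nlinarith
  · push Not at h
    have hps : p < s := by nlinarith
    have hdp : p ≤ d := by nlinarith
    have h1 : (d - p) ^ 2 ≤ q ^ 2 := by
      have : d - p ≤ q := by linarith
      have h0 : 0 ≤ d - p := by linarith
      nlinarith
    have h2 : d * p ≤ 3 * s * p := by nlinarith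
    nlinarith [mul_nonneg (sub_nonneg.2 hps.le) (by linarith : (0 : ℝ) ≤ 4 * s - p)]

theorem cubic_three_roots {c0 c1 c2 c3 u1 u2 u3 : ℂ} (h12 : u1 ≠ u2) (h13 : u1 ≠ u3)
    (h23 : u2 ≠ u3) (e1 : c3 * u1 ^ 3 + c2 * u1 ^ 2 + c1 * u1 + c0 = 0)
    (e2 : c3 * u2 ^ 3 + c2 * u2 ^ 2 + c1 * u2 + c0 = 0)
    (e3 : c3 * u3 ^ 3 + c2 * u3 ^ 2 + c1 * u3 + c0 = 0) :
    c1 = c3 * (u1 * u2 + u1 * u3 + u2 * u3) := by
  have f12 : c3 * (u1 ^ 2 + u1 * u2 + u2 ^ 2) + c2 * (u1 + u2) + c1 = 0 := by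
    have : (u1 - u2) * (c3 * (u1 ^ 2 + u1 * u2 + u2 ^ 2) + c2 * (u1 + u2) + c1) = 0 := by
      linear_combination e1 - e2
    exact (mul_eq_zero.1 this).resolve_left (sub_ne_zero.2 h12)
  have f13 : c3 * (u1 ^ 2 + u1 * u3 + u3 ^ 2) + c2 * (u1 + u3) + c1 = 0 := by
    have : (u1 - u3) * (c3 * (u1 ^ 2 + u1 * u3 + u3 ^ 2) + c2 * (u1 + u3) + c1) = 0 := by
      linear_combination e1 - e3
    exact (mul_eq_zero.1 this).resolve_left (sub_ne_zero.2 h13)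
  have f : c3 * (u1 + u2 + u3) + c2 = 0 := by
    have : (u2 - u3) * (c3 * (u1 + u2 + u3) + c2) = 0 := by
      linear_combination f12 - f13
    exact (mul_eq_zero.1 this).resolve_left (sub_ne_zero.2 h23)
  linear_combination f12 - (u1 + u2) * f

/-- the bound `|D| ≤ 3 |S|` -/
theorem D_le {A1 A2 A3 A4 z1 z2 z3 : ℂ} (h1 : z1 ≠ 0) (h2 : z2 ≠ 0) (h3 : z3 ≠ 0)
    (h12 : z1 ≠ z2) (h13 : z1 ≠ z3) (h23 : z2 ≠ z3)
    (e1 : A1 * z1 + A2 * (starRingEnd ℂ) z1 + A3 * z1 ^ 2 + A4 * (z1 * (starRingEnd ℂ) z1) = 0)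
    (e2 : A1 * z2 + A2 * (starRingEnd ℂ) z2 + A3 * z2 ^ 2 + A4 * (z2 * (starRingEnd ℂ) z2) = 0)
    (e3 : A1 * z3 + A2 * (starRingEnd ℂ) z3 + A3 * z3 ^ 2 + A4 * (z3 * (starRingEnd ℂ) z3) = 0) :
    ‖A1 * (starRingEnd ℂ) A4 - (starRingEnd ℂ) (A2 * (starRingEnd ℂ) A4 +
      A1 * (starRingEnd ℂ) A3)‖ ≤ 3 * ‖A2 * (starRingEnd ℂ) A3‖ := by
  -- the quotient `conj z / z`
  have hu : ∀ z : ℂ, z ≠ 0 →
      A1 * z + A2 * (starRingEnd ℂ) z + A3 * z ^ 2 + A4 * (z * (starRingEnd ℂ) z) = 0 →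
      ∃ u : ℂ, ‖u‖ = 1 ∧ (starRingEnd ℂ) z = u * z ∧ A1 + A2 * u + (A3 + A4 * u) * z = 0 ∧
        (A2 * (starRingEnd ℂ) A3) * u ^ 3 + (A1 * (starRingEnd ℂ) A3 + A2 * (starRingEnd ℂ) A4 -
          (starRingEnd ℂ) A1 * A4) * u ^ 2 + (A1 * (starRingEnd ℂ) A4 -
            (starRingEnd ℂ) (A2 * (starRingEnd ℂ) A4 + A1 * (starRingEnd ℂ) A3)) * u +
          (-((starRingEnd ℂ) A2 * A3)) = 0 := by
    intro z hz e
    refine ⟨(starRingEnd ℂ) z / z, ?_, ?_, ?_, ?_⟩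
    · rw [norm_div, RCLike.norm_conj, div_self (norm_ne_zero_iff.2 hz)]
    · field_simp
    · have : z * (A1 + A2 * ((starRingEnd ℂ) z / z) + (A3 + A4 * ((starRingEnd ℂ) z / z)) * z) = 0 := by
        field_simp
        linear_combination e
      exact (mul_eq_zero.1 this).resolve_left hz
    · have e' := congrArg (starRingEnd ℂ) e
      simp only [map_add, map_mul, map_pow, Complex.conj_conj, map_zero] at e'
      simp only [map_add, map_mul, Complex.conj_conj]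
      field_simp
      linear_combination ((starRingEnd ℂ) A3 * (starRingEnd ℂ) z ^ 2 +
        (starRingEnd ℂ) A4 * (z * (starRingEnd ℂ) z)) * e - (A3 * z ^ 2 + A4 * (z * (starRingEnd ℂ) z)) * e'
  obtain ⟨u1, n1, k1, l1, m1⟩ := hu z1 h1 e1
  obtain ⟨u2, n2, k2, l2, m2⟩ := hu z2 h2 e2
  obtain ⟨u3, n3, k3, l3, m3⟩ := hu z3 h3 e3
  -- coincidence of two of the `u`s
  have hco : ∀ u z z' : ℂ, ‖u‖ = 1 → z ≠ z' → A1 + A2 * u + (A3 + A4 * u) * z = 0 →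
      A1 + A2 * u + (A3 + A4 * u) * z' = 0 →
      ‖A1 * (starRingEnd ℂ) A4 - (starRingEnd ℂ) (A2 * (starRingEnd ℂ) A4 +
      A1 * (starRingEnd ℂ) A3)‖ ≤ 3 * ‖A2 * (starRingEnd ℂ) A3‖ := by
    intro u z z' hn hz f f'
    have g1 : A3 + A4 * u = 0 := by
      have : (z - z') * (A3 + A4 * u) = 0 := by linear_combination f - f'
      exact (mul_eq_zero.1 this).resolve_left (sub_ne_zero.2 hz)
    have g2 : A1 + A2 * u = 0 := by rw [g1, zero_mul, add_zero] at f; exact f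
    have a3 : A3 = -(A4 * u) := by linear_combination g1
    have a1 : A1 = -(A2 * u) := by linear_combination g2
    have huu : u * (starRingEnd ℂ) u = 1 := by
      rw [Complex.mul_conj, Complex.normSq_eq_norm_sq, hn]; norm_num
    have hX : A1 * (starRingEnd ℂ) A4 - (starRingEnd ℂ) (A2 * (starRingEnd ℂ) A4 +
      A1 * (starRingEnd ℂ) A3) = -(u * (A2 * (starRingEnd ℂ) A4)) -
        2 * (starRingEnd ℂ) (A2 * (starRingEnd ℂ) A4) := by
      rw [a1, a3]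
      simp only [map_add, map_mul, map_neg, Complex.conj_conj]
      linear_combination (-((starRingEnd ℂ) A2 * A4)) * huu
    have hY : ‖A2 * (starRingEnd ℂ) A3‖ = ‖A2 * (starRingEnd ℂ) A4‖ := by
      rw [a3, map_neg, map_mul, norm_mul, norm_neg, norm_mul, RCLike.norm_conj, RCLike.norm_conj,
        hn, norm_mul, RCLike.norm_conj, mul_one]
    rw [hX, hY]
    calc _ ≤ ‖-(u * (A2 * (starRingEnd ℂ) A4))‖ + ‖2 * (starRingEnd ℂ) (A2 * (starRingEnd ℂ) A4)‖ :=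
          norm_sub_le _ _
      _ = 3 * ‖A2 * (starRingEnd ℂ) A4‖ := by
          rw [norm_neg, norm_mul u, hn, norm_mul 2, RCLike.norm_conj]
          norm_num
          ring
  by_cases c12 : u1 = u2
  · subst c12; exact hco u1 z1 z2 n1 h12 l1 l2
  by_cases c13 : u1 = u3
  · subst c13; exact hco u1 z1 z3 n1 h13 l1 l3
  by_cases c23 : u2 = u3
  · subst c23; exact hco u2 z2 z3 n2 h23 l2 l3
  have := cubic_three_roots c12 c13 c23 m1 m2 m3
  rw [this, norm_mul, mul_comm]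
  gcongr
  calc ‖u1 * u2 + u1 * u3 + u2 * u3‖ ≤ ‖u1 * u2‖ + ‖u1 * u3‖ + ‖u2 * u3‖ := norm_add₃_le
    _ = 3 := by rw [norm_mul, norm_mul, norm_mul, n1, n2, n3]; norm_num

theorem herm_nonneg {a b : ℝ} {k : ℂ} (ha : 0 ≤ a) (hb : 0 ≤ b) (hk : ‖k‖ ^ 2 ≤ a * b) (c0 c1 : ℂ) :
    0 ≤ a * ‖c0‖ ^ 2 + b * ‖c1‖ ^ 2 + 2 * (k * (c1 * (starRingEnd ℂ) c0)).re := by
  have h1 : -(‖k‖ * (‖c1‖ * ‖c0‖)) ≤ (k * (c1 * (starRingEnd ℂ) c0)).re := by
    have := Complex.abs_re_le_norm (k * (c1 * (starRingEnd ℂ) c0))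
    rw [norm_mul, norm_mul, RCLike.norm_conj] at this
    exact (abs_le.1 this).1
  have h2 : ‖k‖ ≤ Real.sqrt a * Real.sqrt b := by
    rw [← Real.sqrt_mul ha]
    exact Real.le_sqrt_of_sq_le hk
  have h3 : 0 ≤ (Real.sqrt a * ‖c0‖ - Real.sqrt b * ‖c1‖) ^ 2 := sq_nonneg _
  have ha' : Real.sqrt a ^ 2 = a := Real.sq_sqrt ha
  have hb' : Real.sqrt b ^ 2 = b := Real.sq_sqrt hb
  have h4 : ‖k‖ * (‖c1‖ * ‖c0‖) ≤ Real.sqrt a * Real.sqrt b * (‖c1‖ * ‖c0‖) := by gcongr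
  nlinarith

/-- `K ≥ 0` for a `(2,1)`-form vanishing at `0`, `∞` and three more points. -/
theorem kapQ_nonneg_normal {x : Fin 6 → ℂ} (hx0 : x 0 = 0) (hx5 : x 5 = 0) {z1 z2 z3 : ℂ}
    (h1 : z1 ≠ 0) (h2 : z2 ≠ 0) (h3 : z3 ≠ 0) (h12 : z1 ≠ z2) (h13 : z1 ≠ z3) (h23 : z2 ≠ z3)
    (e1 : h21 x 1 z1 = 0) (e2 : h21 x 1 z2 = 0) (e3 : h21 x 1 z3 = 0) (c0 c1 : ℂ) :
    0 ≤ kapQ x c0 c1 := by
  have he : ∀ z : ℂ, h21 x 1 z = 0 →
      x 1 * z + x 3 * (starRingEnd ℂ) z + x 2 * z ^ 2 + x 4 * (z * (starRingEnd ℂ) z) = 0 := by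
    intro z hz
    unfold h21 at hz
    rw [hx0, hx5] at hz
    simp only [map_one] at hz
    linear_combination hz
  have hD := D_le h1 h2 h3 h12 h13 h23 (he z1 e1) (he z2 e2) (he z3 e3)
  set A1 := x 1 with hA1
  set A2 := x 3 with hA2
  set A3 := x 2 with hA3
  set A4 := x 4 with hA4
  set P := A1 * (starRingEnd ℂ) A4 with hP
  set q1 := A2 * (starRingEnd ℂ) A4 with hq1
  set q2 := A1 * (starRingEnd ℂ) A3 with hq2
  set S := A2 * (starRingEnd ℂ) A3 with hS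
  have hprod : q1 * q2 = P * S := by rw [hq1, hq2, hP, hS]; ring
  have hT : ‖q1 - q2‖ ^ 2 = ‖(q1 + q2) ^ 2 - 4 * P * S‖ := by
    rw [← norm_pow]
    congr 1
    rw [mul_assoc, ← hprod]; ring
  have key := real_ineq (norm_nonneg P) (norm_nonneg (q1 + q2)) (norm_nonneg S) (norm_nonneg _)
    (sq_nonneg ‖q1 - q2‖) (by
      rw [hT, ← norm_pow]
      have := norm_sub_norm_le ((q1 + q2) ^ 2) (4 * P * S)
      rw [norm_mul, norm_mul] at this
      norm_num at this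
      simpa using this) hD (by
      refine (norm_sub_le _ _).trans ?_
      rw [RCLike.norm_conj])
  -- the entries of `K`
  set a : ℝ := ‖A1‖ ^ 2 / 4 + ‖A2‖ ^ 2 with ha
  set b : ℝ := ‖A3‖ ^ 2 + ‖A4‖ ^ 2 / 4 with hb
  set k : ℂ := A3 * (starRingEnd ℂ) A1 / 2 + A4 * (starRingEnd ℂ) A2 / 2 -
    A1 * (starRingEnd ℂ) A4 / 4 with hk
  have hkap : kapQ x c0 c1 = a * ‖c0‖ ^ 2 + b * ‖c1‖ ^ 2 + 2 * (k * (c1 * (starRingEnd ℂ) c0)).re := by
    unfold kapQ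
    rw [hx0, hx5, ha, hb, hk, ← hA1, ← hA2, ← hA3, ← hA4]
    simp only [← Complex.normSq_eq_norm_sq, Complex.normSq_apply, Complex.add_re, Complex.add_im,
      Complex.sub_re, Complex.sub_im, Complex.mul_re, Complex.mul_im, Complex.conj_re,
      Complex.conj_im, Complex.div_ofNat_re, Complex.div_ofNat_im, Complex.zero_re,
      Complex.zero_im]
    ring
  rw [hkap]
  refine herm_nonneg (by positivity) (by positivity) ?_ c0 c1
  have hid : 16 * (a * b - ‖k‖ ^ 2) = 2 * (‖q1 - q2‖ ^ 2 + 8 * ‖S‖ ^ 2 + ‖P‖ ^ 2 -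
      ‖P - (starRingEnd ℂ) (q1 + q2)‖ ^ 2) := by
    rw [ha, hb, hk, hq1, hq2, hP, hS]
    simp only [← Complex.normSq_eq_norm_sq, Complex.normSq_apply, Complex.add_re, Complex.add_im,
      Complex.sub_re, Complex.sub_im, Complex.mul_re, Complex.mul_im, Complex.conj_re,
      Complex.conj_im, Complex.div_ofNat_re, Complex.div_ofNat_im, map_add, map_mul]
    ring
  linarith

theorem cramer {a b c d : ℂ} (hdet : a * d - b * c ≠ 0) (p q : ℂ) :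
    a * ((p * d - b * q) / (a * d - b * c)) + b * ((a * q - p * c) / (a * d - b * c)) = p ∧
    c * ((p * d - b * q) / (a * d - b * c)) + d * ((a * q - p * c) / (a * d - b * c)) = q := by
  constructor
  · rw [mul_div_assoc', mul_div_assoc', ← add_div, div_eq_iff hdet]; ring
  · rw [mul_div_assoc', mul_div_assoc', ← add_div, div_eq_iff hdet]; ring

/-- non-proportional -/
def NP (v w v' w' : ℂ) : Prop := v * w' - v' * w ≠ 0

/-- `K ≥ 0` for a `(2,1)`-form with five distinct zeros. -/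
theorem kapQ_nonneg {x : Fin 6 → ℂ} (v w : Fin 5 → ℂ) (hnp : ∀ i j, i ≠ j → NP (v i) (w i) (v j) (w j))
    (hz : ∀ i, h21 x (v i) (w i) = 0) (c0 c1 : ℂ) : 0 ≤ kapQ x c0 c1 := by
  set a := v 0 with ha
  set c := w 0 with hc
  set b := v 1 with hb
  set d := w 1 with hd
  have hdet : a * d - b * c ≠ 0 := hnp 0 1 (by decide)
  set y := sub21 x a b c d with hy
  have hy0 : y 0 = 0 := by
    have h1 := h21_sub x a b c d 1 0
    rw [← hy] at h1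
    simp only [mul_one, mul_zero, add_zero] at h1
    rw [hz 0] at h1
    unfold h21 at h1
    simpa using h1
  have hy5 : y 5 = 0 := by
    have h1 := h21_sub x a b c d 0 1
    rw [← hy] at h1
    simp only [mul_one, mul_zero, zero_add] at h1
    rw [hz 1] at h1
    unfold h21 at h1
    simpa using h1
  -- coordinates of the other zeros
  have hco : ∀ i : Fin 5, i ≠ 0 → i ≠ 1 → ∃ s t : ℂ, s ≠ 0 ∧ t ≠ 0 ∧ v i = a * s + b * t ∧
      w i = c * s + d * t := by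
    intro i hi0 hi1
    refine ⟨(v i * d - b * w i) / (a * d - b * c), (a * w i - v i * c) / (a * d - b * c),
      div_ne_zero ?_ hdet, div_ne_zero ?_ hdet, ?_, ?_⟩
    · exact hnp i 1 hi1
    · exact hnp 0 i (Ne.symm hi0)
    · exact (cramer hdet (v i) (w i)).1.symm
    · exact (cramer hdet (v i) (w i)).2.symm
  obtain ⟨s2, t2, hs2, ht2, hv2, hw2⟩ := hco 2 (by decide) (by decide)
  obtain ⟨s3, t3, hs3, ht3, hv3, hw3⟩ := hco 3 (by decide) (by decide)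
  obtain ⟨s4, t4, hs4, ht4, hv4, hw4⟩ := hco 4 (by decide) (by decide)
  have hzero : ∀ (i : Fin 5) (s t : ℂ), s ≠ 0 → v i = a * s + b * t → w i = c * s + d * t →
      h21 y 1 (t / s) = 0 := by
    intro i s t hs hv hw
    have h1 : h21 y (s * 1) (s * (t / s)) = 0 := by
      rw [mul_one, mul_div_cancel₀ _ hs, hy, h21_sub, ← hv, ← hw]
      exact hz i
    rw [h21_scale] at h1
    have h2 : s ^ 2 * (starRingEnd ℂ) s ≠ 0 := by
      refine mul_ne_zero (pow_ne_zero 2 hs) ?_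
      simpa using hs
    exact (mul_eq_zero.1 h1).resolve_left h2
  have hne : ∀ (i j : Fin 5) (s t s' t' : ℂ), i ≠ j → s ≠ 0 → s' ≠ 0 → v i = a * s + b * t →
      w i = c * s + d * t → v j = a * s' + b * t' → w j = c * s' + d * t' → t / s ≠ t' / s' := by
    intro i j s t s' t' hij hs hs' hv hw hv' hw' heq
    have h1 := hnp i j hij
    unfold NP at h1
    apply h1
    rw [div_eq_div_iff hs hs'] at heq
    rw [hv, hw, hv', hw']
    linear_combination (-(a * d) + b * c) * heq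
  have hk : ∀ e0 e1 : ℂ, 0 ≤ kapQ y e0 e1 := fun e0 e1 =>
    kapQ_nonneg_normal hy0 hy5 (div_ne_zero ht2 hs2) (div_ne_zero ht3 hs3) (div_ne_zero ht4 hs4)
      (hne 2 3 s2 t2 s3 t3 (by decide) hs2 hs3 hv2 hw2 hv3 hw3)
      (hne 2 4 s2 t2 s4 t4 (by decide) hs2 hs4 hv2 hw2 hv4 hw4)
      (hne 3 4 s3 t3 s4 t4 (by decide) hs3 hs4 hv3 hw3 hv4 hw4)
      (hzero 2 s2 t2 hs2 hv2 hw2) (hzero 3 s3 t3 hs3 hv3 hw3) (hzero 4 s4 t4 hs4 hv4 hw4) e0 e1
  have h1 := hk ((c0 * d - b * c1) / (a * d - b * c)) ((a * c1 - c0 * c) / (a * d - b * c))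
  rw [hy, kapQ_sub] at h1
  obtain ⟨h2, h3⟩ := cramer hdet c0 c1
  rw [h2, h3] at h1
  have h4 : 0 < ‖a * d - b * c‖ ^ 2 := by
    have := norm_pos_iff.2 hdet
    positivity
  exact nonneg_of_mul_nonneg_right h1 h4

end Pool.Agent.Lib.Helper34.SP
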