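import Mathlib
import Pool.Agent.Lib.Helper34.SP.Form21
import Pool.Agent.Lib.Helper34.SP.Cone

/-!
# The key identity for `p = 6`
-/

set_option autoImplicit false
set_option linter.unusedSectionVars false
set_option linter.unusedSimpArgs false

open Complex

namespace Pool.Agent.Lib.Helper34.SP

/-- pairing of an array with `|h|²` (complex value) -/
noncomputable def Lc (x : Fin 6 → ℂ) (τ : Arr 3) : ℂ :=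
    x 0 * (starRingEnd ℂ) (x 0) * τ 0 0 +
    x 0 * (starRingEnd ℂ) (x 1) * τ 0 1 +
    x 0 * (starRingEnd ℂ) (x 2) * τ 0 2 +
    x 0 * (starRingEnd ℂ) (x 3) * τ 1 0 +
    x 0 * (starRingEnd ℂ) (x 4) * τ 1 1 +
    x 0 * (starRingEnd ℂ) (x 5) * τ 1 2 +
    x 1 * (starRingEnd ℂ) (x 0) * τ 1 0 +
    x 1 * (starRingEnd ℂ) (x 1) * τ 1 1 +
    x 1 * (starRingEnd ℂ) (x 2) * τ 1 2 +
    x 1 * (starRingEnd ℂ) (x 3) * τ 2 0 +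
    x 1 * (starRingEnd ℂ) (x 4) * τ 2 1 +
    x 1 * (starRingEnd ℂ) (x 5) * τ 2 2 +
    x 2 * (starRingEnd ℂ) (x 0) * τ 2 0 +
    x 2 * (starRingEnd ℂ) (x 1) * τ 2 1 +
    x 2 * (starRingEnd ℂ) (x 2) * τ 2 2 +
    x 2 * (starRingEnd ℂ) (x 3) * τ 3 0 +
    x 2 * (starRingEnd ℂ) (x 4) * τ 3 1 +
    x 2 * (starRingEnd ℂ) (x 5) * τ 3 2 +
    x 3 * (starRingEnd ℂ) (x 0) * τ 0 1 +
    x 3 * (starRingEnd ℂ) (x 1) * τ 0 2 +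
    x 3 * (starRingEnd ℂ) (x 2) * τ 0 3 +
    x 3 * (starRingEnd ℂ) (x 3) * τ 1 1 +
    x 3 * (starRingEnd ℂ) (x 4) * τ 1 2 +
    x 3 * (starRingEnd ℂ) (x 5) * τ 1 3 +
    x 4 * (starRingEnd ℂ) (x 0) * τ 1 1 +
    x 4 * (starRingEnd ℂ) (x 1) * τ 1 2 +
    x 4 * (starRingEnd ℂ) (x 2) * τ 1 3 +
    x 4 * (starRingEnd ℂ) (x 3) * τ 2 1 +
    x 4 * (starRingEnd ℂ) (x 4) * τ 2 2 +
    x 4 * (starRingEnd ℂ) (x 5) * τ 2 3 +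
    x 5 * (starRingEnd ℂ) (x 0) * τ 2 1 +
    x 5 * (starRingEnd ℂ) (x 1) * τ 2 2 +
    x 5 * (starRingEnd ℂ) (x 2) * τ 2 3 +
    x 5 * (starRingEnd ℂ) (x 3) * τ 3 1 +
    x 5 * (starRingEnd ℂ) (x 4) * τ 3 2 +
    x 5 * (starRingEnd ℂ) (x 5) * τ 3 3

/-- average over the arrangements with a given number of ones -/
noncomputable def avg (a : Fin 4) (f : Fin 2 → Fin 2 → Fin 2 → ℂ) : ℂ :=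
  ![f 0 0 0, (f 1 0 0 + f 0 1 0 + f 0 0 1) / 3, (f 1 1 0 + f 1 0 1 + f 0 1 1) / 3, f 1 1 1] a

/-- the array of a family of words -/
noncomputable def tauW (W : Fin 2 → Fin 2 → Fin 2 → Fin 2 → Fin 2 → Fin 2 → ℂ) : Arr 3 :=
  fun a b => avg a fun j1 j2 j3 => avg b fun k1 k2 k3 => W j1 k1 j2 k2 j3 k3

theorem key_identity (x : Fin 6 → ℂ)
    (W : Fin 2 → Fin 2 → Fin 2 → Fin 2 → Fin 2 → Fin 2 → ℂ)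
    (hcyc : ∀ j1 k1 j2 k2 j3 k3, W j1 k1 j2 k2 j3 k3 = W j2 k2 j3 k3 j1 k1) :
    Lc x (tauW W) = (
    x 0 * (starRingEnd ℂ) (x 0) * W 0 0 0 0 0 0 +
    x 0 * (starRingEnd ℂ) (x 3) * W 0 0 0 0 1 0 +
    x 0 * (starRingEnd ℂ) ((x 1 / 2)) * W 0 0 0 1 0 0 +
    x 0 * (starRingEnd ℂ) ((x 4 / 2)) * W 0 0 0 1 1 0 +
    x 0 * (starRingEnd ℂ) ((x 1 / 2)) * W 0 0 0 0 0 1 +
    x 0 * (starRingEnd ℂ) ((x 4 / 2)) * W 0 0 0 0 1 1 +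
    x 0 * (starRingEnd ℂ) (x 2) * W 0 0 0 1 0 1 +
    x 0 * (starRingEnd ℂ) (x 5) * W 0 0 0 1 1 1 +
    x 3 * (starRingEnd ℂ) (x 0) * W 0 1 0 0 0 0 +
    x 3 * (starRingEnd ℂ) (x 3) * W 0 1 0 0 1 0 +
    x 3 * (starRingEnd ℂ) ((x 1 / 2)) * W 0 1 0 1 0 0 +
    x 3 * (starRingEnd ℂ) ((x 4 / 2)) * W 0 1 0 1 1 0 +
    x 3 * (starRingEnd ℂ) ((x 1 / 2)) * W 0 1 0 0 0 1 +
    x 3 * (starRingEnd ℂ) ((x 4 / 2)) * W 0 1 0 0 1 1 +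
    x 3 * (starRingEnd ℂ) (x 2) * W 0 1 0 1 0 1 +
    x 3 * (starRingEnd ℂ) (x 5) * W 0 1 0 1 1 1 +
    (x 1 / 2) * (starRingEnd ℂ) (x 0) * W 0 0 1 0 0 0 +
    (x 1 / 2) * (starRingEnd ℂ) (x 3) * W 0 0 1 0 1 0 +
    (x 1 / 2) * (starRingEnd ℂ) ((x 1 / 2)) * W 0 0 1 1 0 0 +
    (x 1 / 2) * (starRingEnd ℂ) ((x 4 / 2)) * W 0 0 1 1 1 0 +
    (x 1 / 2) * (starRingEnd ℂ) ((x 1 / 2)) * W 0 0 1 0 0 1 +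
    (x 1 / 2) * (starRingEnd ℂ) ((x 4 / 2)) * W 0 0 1 0 1 1 +
    (x 1 / 2) * (starRingEnd ℂ) (x 2) * W 0 0 1 1 0 1 +
    (x 1 / 2) * (starRingEnd ℂ) (x 5) * W 0 0 1 1 1 1 +
    (x 4 / 2) * (starRingEnd ℂ) (x 0) * W 0 1 1 0 0 0 +
    (x 4 / 2) * (starRingEnd ℂ) (x 3) * W 0 1 1 0 1 0 +
    (x 4 / 2) * (starRingEnd ℂ) ((x 1 / 2)) * W 0 1 1 1 0 0 +
    (x 4 / 2) * (starRingEnd ℂ) ((x 4 / 2)) * W 0 1 1 1 1 0 +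
    (x 4 / 2) * (starRingEnd ℂ) ((x 1 / 2)) * W 0 1 1 0 0 1 +
    (x 4 / 2) * (starRingEnd ℂ) ((x 4 / 2)) * W 0 1 1 0 1 1 +
    (x 4 / 2) * (starRingEnd ℂ) (x 2) * W 0 1 1 1 0 1 +
    (x 4 / 2) * (starRingEnd ℂ) (x 5) * W 0 1 1 1 1 1 +
    (x 1 / 2) * (starRingEnd ℂ) (x 0) * W 1 0 0 0 0 0 +
    (x 1 / 2) * (starRingEnd ℂ) (x 3) * W 1 0 0 0 1 0 +
    (x 1 / 2) * (starRingEnd ℂ) ((x 1 / 2)) * W 1 0 0 1 0 0 +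
    (x 1 / 2) * (starRingEnd ℂ) ((x 4 / 2)) * W 1 0 0 1 1 0 +
    (x 1 / 2) * (starRingEnd ℂ) ((x 1 / 2)) * W 1 0 0 0 0 1 +
    (x 1 / 2) * (starRingEnd ℂ) ((x 4 / 2)) * W 1 0 0 0 1 1 +
    (x 1 / 2) * (starRingEnd ℂ) (x 2) * W 1 0 0 1 0 1 +
    (x 1 / 2) * (starRingEnd ℂ) (x 5) * W 1 0 0 1 1 1 +
    (x 4 / 2) * (starRingEnd ℂ) (x 0) * W 1 1 0 0 0 0 +
    (x 4 / 2) * (starRingEnd ℂ) (x 3) * W 1 1 0 0 1 0 +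
    (x 4 / 2) * (starRingEnd ℂ) ((x 1 / 2)) * W 1 1 0 1 0 0 +
    (x 4 / 2) * (starRingEnd ℂ) ((x 4 / 2)) * W 1 1 0 1 1 0 +
    (x 4 / 2) * (starRingEnd ℂ) ((x 1 / 2)) * W 1 1 0 0 0 1 +
    (x 4 / 2) * (starRingEnd ℂ) ((x 4 / 2)) * W 1 1 0 0 1 1 +
    (x 4 / 2) * (starRingEnd ℂ) (x 2) * W 1 1 0 1 0 1 +
    (x 4 / 2) * (starRingEnd ℂ) (x 5) * W 1 1 0 1 1 1 +
    x 2 * (starRingEnd ℂ) (x 0) * W 1 0 1 0 0 0 +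
    x 2 * (starRingEnd ℂ) (x 3) * W 1 0 1 0 1 0 +
    x 2 * (starRingEnd ℂ) ((x 1 / 2)) * W 1 0 1 1 0 0 +
    x 2 * (starRingEnd ℂ) ((x 4 / 2)) * W 1 0 1 1 1 0 +
    x 2 * (starRingEnd ℂ) ((x 1 / 2)) * W 1 0 1 0 0 1 +
    x 2 * (starRingEnd ℂ) ((x 4 / 2)) * W 1 0 1 0 1 1 +
    x 2 * (starRingEnd ℂ) (x 2) * W 1 0 1 1 0 1 +
    x 2 * (starRingEnd ℂ) (x 5) * W 1 0 1 1 1 1 +
    x 5 * (starRingEnd ℂ) (x 0) * W 1 1 1 0 0 0 +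
    x 5 * (starRingEnd ℂ) (x 3) * W 1 1 1 0 1 0 +
    x 5 * (starRingEnd ℂ) ((x 1 / 2)) * W 1 1 1 1 0 0 +
    x 5 * (starRingEnd ℂ) ((x 4 / 2)) * W 1 1 1 1 1 0 +
    x 5 * (starRingEnd ℂ) ((x 1 / 2)) * W 1 1 1 0 0 1 +
    x 5 * (starRingEnd ℂ) ((x 4 / 2)) * W 1 1 1 0 1 1 +
    x 5 * (starRingEnd ℂ) (x 2) * W 1 1 1 1 0 1 +
    x 5 * (starRingEnd ℂ) (x 5) * W 1 1 1 1 1 1) + (1 / 3) * (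
    ((x 1 / 2) * (starRingEnd ℂ) ((x 1 / 2)) + x 3 * (starRingEnd ℂ) (x 3) - x 0 * (starRingEnd ℂ) ((x 4 / 2)) - (x 4 / 2) * (starRingEnd ℂ) (x 0)) * (W 0 0 1 1 0 0 - W 0 0 1 0 0 1 - W 1 0 0 1 0 0 + W 1 0 0 0 0 1) +
    (x 2 * (starRingEnd ℂ) ((x 1 / 2)) + (x 4 / 2) * (starRingEnd ℂ) (x 3) - (x 1 / 2) * (starRingEnd ℂ) ((x 4 / 2)) - x 5 * (starRingEnd ℂ) (x 0)) * (W 0 0 1 1 1 0 - W 0 0 1 0 1 1 - W 1 0 0 1 1 0 + W 1 0 0 0 1 1) +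
    ((x 1 / 2) * (starRingEnd ℂ) (x 2) + x 3 * (starRingEnd ℂ) ((x 4 / 2)) - x 0 * (starRingEnd ℂ) (x 5) - (x 4 / 2) * (starRingEnd ℂ) ((x 1 / 2))) * (W 0 1 1 1 0 0 - W 0 1 1 0 0 1 - W 1 1 0 1 0 0 + W 1 1 0 0 0 1) +
    (x 2 * (starRingEnd ℂ) (x 2) + (x 4 / 2) * (starRingEnd ℂ) ((x 4 / 2)) - (x 1 / 2) * (starRingEnd ℂ) (x 5) - x 5 * (starRingEnd ℂ) ((x 1 / 2))) * (W 0 1 1 1 1 0 - W 0 1 1 0 1 1 - W 1 1 0 1 1 0 + W 1 1 0 0 1 1)) := by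
  have e000100 : W 0 0 0 1 0 0 = W 0 0 0 0 0 1 := (hcyc 0 0 0 1 0 0).trans (hcyc 0 1 0 0 0 0)
  have e001000 : W 0 0 1 0 0 0 = W 0 0 0 0 1 0 := (hcyc 0 0 1 0 0 0).trans (hcyc 1 0 0 0 0 0)
  have e001100 : W 0 0 1 1 0 0 = W 0 0 0 0 1 1 := (hcyc 0 0 1 1 0 0).trans (hcyc 1 1 0 0 0 0)
  have e010000 : W 0 1 0 0 0 0 = W 0 0 0 0 0 1 := hcyc 0 1 0 0 0 0
  have e010001 : W 0 1 0 0 0 1 = W 0 0 0 1 0 1 := hcyc 0 1 0 0 0 1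
  have e010010 : W 0 1 0 0 1 0 = W 0 0 1 0 0 1 := hcyc 0 1 0 0 1 0
  have e010011 : W 0 1 0 0 1 1 = W 0 0 1 1 0 1 := hcyc 0 1 0 0 1 1
  have e010100 : W 0 1 0 1 0 0 = W 0 0 0 1 0 1 := (hcyc 0 1 0 1 0 0).trans (hcyc 0 1 0 0 0 1)
  have e011000 : W 0 1 1 0 0 0 = W 0 0 0 1 1 0 := (hcyc 0 1 1 0 0 0).trans (hcyc 1 0 0 0 0 1)
  have e011001 : W 0 1 1 0 0 1 = W 0 1 0 1 1 0 := (hcyc 0 1 1 0 0 1).trans (hcyc 1 0 0 1 0 1)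
  have e011100 : W 0 1 1 1 0 0 = W 0 0 0 1 1 1 := (hcyc 0 1 1 1 0 0).trans (hcyc 1 1 0 0 0 1)
  have e011101 : W 0 1 1 1 0 1 = W 0 1 0 1 1 1 := (hcyc 0 1 1 1 0 1).trans (hcyc 1 1 0 1 0 1)
  have e100000 : W 1 0 0 0 0 0 = W 0 0 0 0 1 0 := hcyc 1 0 0 0 0 0
  have e100001 : W 1 0 0 0 0 1 = W 0 0 0 1 1 0 := hcyc 1 0 0 0 0 1
  have e100010 : W 1 0 0 0 1 0 = W 0 0 1 0 1 0 := hcyc 1 0 0 0 1 0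
  have e100011 : W 1 0 0 0 1 1 = W 0 0 1 1 1 0 := hcyc 1 0 0 0 1 1
  have e100100 : W 1 0 0 1 0 0 = W 0 0 1 0 0 1 := (hcyc 1 0 0 1 0 0).trans (hcyc 0 1 0 0 1 0)
  have e100101 : W 1 0 0 1 0 1 = W 0 1 0 1 1 0 := hcyc 1 0 0 1 0 1
  have e100110 : W 1 0 0 1 1 0 = W 0 1 1 0 1 0 := hcyc 1 0 0 1 1 0
  have e100111 : W 1 0 0 1 1 1 = W 0 1 1 1 1 0 := hcyc 1 0 0 1 1 1
  have e101000 : W 1 0 1 0 0 0 = W 0 0 1 0 1 0 := (hcyc 1 0 1 0 0 0).trans (hcyc 1 0 0 0 1 0)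
  have e101001 : W 1 0 1 0 0 1 = W 0 1 1 0 1 0 := (hcyc 1 0 1 0 0 1).trans (hcyc 1 0 0 1 1 0)
  have e101100 : W 1 0 1 1 0 0 = W 0 0 1 0 1 1 := (hcyc 1 0 1 1 0 0).trans (hcyc 1 1 0 0 1 0)
  have e101101 : W 1 0 1 1 0 1 = W 0 1 1 0 1 1 := (hcyc 1 0 1 1 0 1).trans (hcyc 1 1 0 1 1 0)
  have e101110 : W 1 0 1 1 1 0 = W 1 0 1 0 1 1 := (hcyc 1 0 1 1 1 0).trans (hcyc 1 1 1 0 1 0)
  have e110000 : W 1 1 0 0 0 0 = W 0 0 0 0 1 1 := hcyc 1 1 0 0 0 0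
  have e110001 : W 1 1 0 0 0 1 = W 0 0 0 1 1 1 := hcyc 1 1 0 0 0 1
  have e110010 : W 1 1 0 0 1 0 = W 0 0 1 0 1 1 := hcyc 1 1 0 0 1 0
  have e110011 : W 1 1 0 0 1 1 = W 0 0 1 1 1 1 := hcyc 1 1 0 0 1 1
  have e110100 : W 1 1 0 1 0 0 = W 0 0 1 1 0 1 := (hcyc 1 1 0 1 0 0).trans (hcyc 0 1 0 0 1 1)
  have e110101 : W 1 1 0 1 0 1 = W 0 1 0 1 1 1 := hcyc 1 1 0 1 0 1
  have e110110 : W 1 1 0 1 1 0 = W 0 1 1 0 1 1 := hcyc 1 1 0 1 1 0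
  have e110111 : W 1 1 0 1 1 1 = W 0 1 1 1 1 1 := hcyc 1 1 0 1 1 1
  have e111000 : W 1 1 1 0 0 0 = W 0 0 1 1 1 0 := (hcyc 1 1 1 0 0 0).trans (hcyc 1 0 0 0 1 1)
  have e111001 : W 1 1 1 0 0 1 = W 0 1 1 1 1 0 := (hcyc 1 1 1 0 0 1).trans (hcyc 1 0 0 1 1 1)
  have e111010 : W 1 1 1 0 1 0 = W 1 0 1 0 1 1 := hcyc 1 1 1 0 1 0
  have e111011 : W 1 1 1 0 1 1 = W 1 0 1 1 1 1 := hcyc 1 1 1 0 1 1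
  have e111100 : W 1 1 1 1 0 0 = W 0 0 1 1 1 1 := (hcyc 1 1 1 1 0 0).trans (hcyc 1 1 0 0 1 1)
  have e111101 : W 1 1 1 1 0 1 = W 0 1 1 1 1 1 := (hcyc 1 1 1 1 0 1).trans (hcyc 1 1 0 1 1 1)
  have e111110 : W 1 1 1 1 1 0 = W 1 0 1 1 1 1 := (hcyc 1 1 1 1 1 0).trans (hcyc 1 1 1 0 1 1)
  simp only [Lc, tauW, avg, Matrix.cons_val, map_div₀, map_ofNat]
  simp only [e000100, e001000, e001100, e010000, e010001, e010010, e010011, e010100, e011000, e011001, e011100, e011101, e100000, e100001, e100010, e100011, e100100, e100101, e100110, e100111, e101000, e101001, e101100, e101101, e101110, e110000, e110001, e110010, e110011, e110100, e110101, e110110, e110111, e111000, e111001, e111010, e111011, e111100, e111101, e111110]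
  ring

end Pool.Agent.Lib.Helper34.SP
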