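import Mathlib
import Pool.Agent.Lib.Helper34.SP.Block

/-!
# Reduction of `tr (T* T)^m` to finite matrices, `m = 1, 2, 3`
-/

set_option autoImplicit false
set_option linter.unusedSectionVars false

open Set Filter Topology
open scoped ENNReal InnerProductSpace ComplexOrder

namespace Pool.Agent.Lib.Helper34.SP

variable {ι H : Type*} [NormedAddCommGroup H] [InnerProductSpace ℂ H] [CompleteSpace H]
variable {κ : Type*} [Fintype κ]

/-- matrix coefficients of `T` in a family of vectors -/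
noncomputable def compM (e : κ → H) (T : H →L[ℂ] H) : Matrix κ κ ℂ := fun k l => ⟪e k, T (e l)⟫_ℂ

theorem compM_add (e : κ → H) (S T : H →L[ℂ] H) : compM e (S + T) = compM e S + compM e T := by
  ext k l; simp [compM, inner_add_right]

theorem compM_smul (e : κ → H) (c : ℂ) (T : H →L[ℂ] H) : compM e (c • T) = c • compM e T := by
  ext k l; simp [compM, inner_smul_right]

/-- rotated family -/
noncomputable def rotF (e : κ → H) (U : Matrix κ κ ℂ) : κ → H := fun k => ∑ i, U i k • e i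

theorem compM_rotF (e : κ → H) (U : Matrix κ κ ℂ) (T : H →L[ℂ] H) :
    compM (rotF e U) T = U.conjTranspose * compM e T * U := by
  ext k l
  simp only [compM, rotF, map_sum, map_smul, sum_inner, inner_sum, inner_smul_left,
    inner_smul_right, Matrix.mul_apply, Matrix.conjTranspose_apply, Finset.sum_mul,
    Finset.mul_sum, RCLike.star_def]
  refine Finset.sum_congr rfl fun x _ => Finset.sum_congr rfl fun y _ => ?_
  ring

theorem orthonormal_rotF [DecidableEq κ] {e : κ → H} (he : Orthonormal ℂ e) {U : Matrix κ κ ℂ}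
    (hU : U.conjTranspose * U = 1) : Orthonormal ℂ (rotF e U) := by
  rw [orthonormal_iff_ite]
  intro k l
  have h1 : ⟪rotF e U k, rotF e U l⟫_ℂ = (U.conjTranspose * U) k l := by
    simp only [rotF, sum_inner, inner_sum, inner_smul_left, inner_smul_right,
      orthonormal_iff_ite.1 he, Matrix.mul_apply, Matrix.conjTranspose_apply, RCLike.star_def,
      mul_ite, mul_one, mul_zero, Finset.sum_ite_eq', Finset.sum_ite_eq, Finset.mem_univ, if_true]
    refine Finset.sum_congr rfl fun x _ => ?_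
    ring
  rw [h1, hU, Matrix.one_apply]

/-- `⟨e, (T*T)^m e⟩` for `m ≤ 3`. -/
theorem jensen (T : H →L[ℂ] H) {x : H} (hx : ‖x‖ = 1) :
    RCLike.re ⟪x, (star T * T) x⟫_ℂ = ‖T x‖ ^ 2 ∧
    (‖T x‖ ^ 2) ^ 2 ≤ RCLike.re ⟪x, ((star T * T) ^ 2) x⟫_ℂ ∧
    (‖T x‖ ^ 2) ^ 3 ≤ RCLike.re ⟪x, ((star T * T) ^ 3) x⟫_ℂ := by
  set S := star T * T with hS
  have hadj : ∀ y z : H, ⟪y, S z⟫_ℂ = ⟪T y, T z⟫_ℂ := by
    intro y z
    rw [hS, mul_apply_eq_comp, ContinuousLinearMap.star_eq_adjoint,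
      ContinuousLinearMap.adjoint_inner_right]
  have hself : ∀ y z : H, ⟪S y, z⟫_ℂ = ⟪y, S z⟫_ℂ := by
    intro y z
    rw [hadj, ← inner_conj_symm, hadj, inner_conj_symm]
  have h1 : RCLike.re ⟪x, S x⟫_ℂ = ‖T x‖ ^ 2 := by
    rw [hadj, inner_self_eq_norm_sq]
  have h2 : RCLike.re ⟪x, (S ^ 2) x⟫_ℂ = ‖S x‖ ^ 2 := by
    rw [pow_two, mul_apply_eq_comp, ← hself, inner_self_eq_norm_sq]
  have h3 : RCLike.re ⟪x, (S ^ 3) x⟫_ℂ = ‖T (S x)‖ ^ 2 := by
    rw [pow_succ, pow_two, mul_apply_eq_comp, mul_apply_eq_comp, ← hself, hadj,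
      inner_self_eq_norm_sq]
  have c1 : ‖T x‖ ^ 2 ≤ ‖S x‖ := by
    rw [← h1]
    calc RCLike.re ⟪x, S x⟫_ℂ ≤ ‖⟪x, S x⟫_ℂ‖ := RCLike.re_le_norm _
      _ ≤ ‖x‖ * ‖S x‖ := norm_inner_le_norm _ _
      _ = ‖S x‖ := by rw [hx, one_mul]
  have c2 : ‖S x‖ ^ 2 ≤ ‖T x‖ * ‖T (S x)‖ := by
    have : ‖S x‖ ^ 2 = RCLike.re ⟪T x, T (S x)⟫_ℂ := by
      rw [← hadj, ← hself, inner_self_eq_norm_sq]
    rw [this]
    exact (RCLike.re_le_norm _).trans (norm_inner_le_norm _ _)
  refine ⟨h1, ?_, ?_⟩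
  · rw [h2]
    gcongr
  · rw [h3]
    have h4 : (‖T x‖ ^ 2) ^ 2 ≤ ‖T x‖ * ‖T (S x)‖ := by
      refine le_trans ?_ c2
      gcongr
    rcases (norm_nonneg (T x)).eq_or_lt with h0 | h0
    · rw [← h0]; simp
    · have h5 : ‖T x‖ ^ 3 ≤ ‖T (S x)‖ := by
        have : ‖T x‖ * ‖T x‖ ^ 3 ≤ ‖T x‖ * ‖T (S x)‖ := by
          calc ‖T x‖ * ‖T x‖ ^ 3 = (‖T x‖ ^ 2) ^ 2 := by ring
            _ ≤ _ := h4
        exact le_of_mul_le_mul_left this h0
      calc (‖T x‖ ^ 2) ^ 3 = (‖T x‖ ^ 3) ^ 2 := by ring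
        _ ≤ ‖T (S x)‖ ^ 2 := by gcongr

theorem jensen' (T : H →L[ℂ] H) {x : H} (hx : ‖x‖ = 1) {m : ℕ} (hm1 : 1 ≤ m) (hm : m ≤ 3) :
    (‖T x‖ ^ 2) ^ m ≤ RCLike.re ⟪x, ((star T * T) ^ m) x⟫_ℂ := by
  obtain ⟨h1, h2, h3⟩ := jensen T hx
  interval_cases m
  · rw [pow_one, pow_one, h1]
  · exact h2
  · exact h3

theorem trace_pow_le [DecidableEq κ] {e : κ → H} (he : Orthonormal ℂ e) (T : H →L[ℂ] H) {m : ℕ}
    (hm1 : 1 ≤ m) (hm : m ≤ 3) :
    RCLike.re (((compM e T).conjTranspose * compM e T) ^ m).trace ≤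
      ∑ k, RCLike.re ⟪e k, ((star T * T) ^ m) (e k)⟫_ℂ := by
  set M := compM e T with hM
  set N := M.conjTranspose * M with hN
  have hNh : N.IsHermitian := Matrix.isHermitian_conjTranspose_mul_self M
  set U : Matrix κ κ ℂ := (hNh.eigenvectorUnitary : Matrix κ κ ℂ) with hU
  have hUU : U.conjTranspose * U = 1 := by
    rw [← Matrix.star_eq_conjTranspose]
    exact Unitary.coe_star_mul_self _
  have hUU' : U * U.conjTranspose = 1 := by
    rw [← Matrix.star_eq_conjTranspose]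
    exact Unitary.coe_mul_star_self _
  set D : Matrix κ κ ℂ := Matrix.diagonal (RCLike.ofReal ∘ hNh.eigenvalues) with hD
  have hND : N = U * D * U.conjTranspose := by
    have h := hNh.spectral_theorem
    rw [Unitary.conjStarAlgAut_apply] at h
    exact h
  have hDN : U.conjTranspose * N * U = D := by
    rw [hND]
    calc U.conjTranspose * (U * D * U.conjTranspose) * U =
        (U.conjTranspose * U) * D * (U.conjTranspose * U) := by simp only [Matrix.mul_assoc]
      _ = D := by rw [hUU]; simp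
  set e' := rotF e U with he'd
  have he' : Orthonormal ℂ e' := orthonormal_rotF he hUU
  have hM' : (compM e' T).conjTranspose * compM e' T = D := by
    rw [he'd, compM_rotF, ← hM, ← hDN, hN]
    simp only [Matrix.conjTranspose_mul, Matrix.conjTranspose_conjTranspose]
    calc U.conjTranspose * (M.conjTranspose * U) * (U.conjTranspose * M * U) =
        U.conjTranspose * (M.conjTranspose * (U * U.conjTranspose) * M) * U := by
          simp only [Matrix.mul_assoc]
      _ = _ := by rw [hUU']; simp only [Matrix.mul_one, Matrix.mul_assoc]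
  have hlam : ∀ k, hNh.eigenvalues k ≤ ‖T (e' k)‖ ^ 2 := by
    intro k
    have h1 : ((compM e' T).conjTranspose * compM e' T) k k = (hNh.eigenvalues k : ℂ) := by
      rw [hM', hD, Matrix.diagonal_apply_eq]; rfl
    have h2 : ((compM e' T).conjTranspose * compM e' T) k k =
        ((∑ l, ‖⟪e' l, T (e' k)⟫_ℂ‖ ^ 2 : ℝ) : ℂ) := by
      rw [Matrix.mul_apply]
      push_cast
      refine Finset.sum_congr rfl fun l _ => ?_
      rw [Matrix.conjTranspose_apply, compM, RCLike.star_def, mul_comm, Complex.mul_conj,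
        Complex.normSq_eq_norm_sq]
      push_cast; rfl
    rw [h1] at h2
    have h3 : hNh.eigenvalues k = ∑ l, ‖⟪e' l, T (e' k)⟫_ℂ‖ ^ 2 := by exact_mod_cast h2
    rw [h3]
    exact he'.sum_inner_products_le _
  have hlam0 : ∀ k, 0 ≤ hNh.eigenvalues k := by
    have : N.PosSemidef := Matrix.posSemidef_conjTranspose_mul_self M
    exact this.eigenvalues_nonneg
  have hNpow : N ^ m = U * D ^ m * U.conjTranspose := by
    have : ∀ n : ℕ, N ^ n = U * D ^ n * U.conjTranspose := by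
      intro n
      induction n with
      | zero => simp [hUU']
      | succ n ih =>
        rw [pow_succ, ih, pow_succ]
        conv_lhs => rw [hND]
        calc U * D ^ n * U.conjTranspose * (U * D * U.conjTranspose) =
            U * D ^ n * (U.conjTranspose * U) * D * U.conjTranspose := by
              simp only [Matrix.mul_assoc]
          _ = _ := by rw [hUU]; simp only [Matrix.mul_one, Matrix.mul_assoc]
    exact this m
  have htr : (N ^ m).trace = ((∑ k, hNh.eigenvalues k ^ m : ℝ) : ℂ) := by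
    rw [hNpow, Matrix.trace_mul_comm, ← Matrix.mul_assoc, hUU, Matrix.one_mul, hD,
      Matrix.diagonal_pow, Matrix.trace_diagonal]
    push_cast
    rfl
  have htr2 : ∑ k, RCLike.re ⟪e k, ((star T * T) ^ m) (e k)⟫_ℂ =
      ∑ k, RCLike.re ⟪e' k, ((star T * T) ^ m) (e' k)⟫_ℂ := by
    have h1 : (compM e' ((star T * T) ^ m)).trace = (compM e ((star T * T) ^ m)).trace := by
      rw [he'd, compM_rotF, Matrix.trace_mul_comm, ← Matrix.mul_assoc, hUU', Matrix.one_mul]
    have h2 := congrArg RCLike.re h1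
    simp only [Matrix.trace, Matrix.diag_apply, compM, map_sum] at h2
    exact h2.symm
  rw [htr, htr2]
  have : RCLike.re ((∑ k, hNh.eigenvalues k ^ m : ℝ) : ℂ) = ∑ k, hNh.eigenvalues k ^ m :=
    Complex.ofReal_re _
  rw [this]
  refine Finset.sum_le_sum fun k _ => ?_
  calc hNh.eigenvalues k ^ m ≤ (‖T (e' k)‖ ^ 2) ^ m := by
        gcongr
        · exact hlam0 k
        · exact hlam k
    _ ≤ _ := jensen' T (he'.1 k) hm1 hm

end Pool.Agent.Lib.Helper34.SP
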