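import Mathlib
import Pool.Agent.Lib.Helper34.SP.Red

/-!
# Finite sections: `re tr ((M_J^* M_J)^m) → tr (T^* T)^m`, `m = 1, 2, 3`
-/

set_option autoImplicit false
set_option linter.unusedSectionVars false
set_option linter.unusedSimpArgs false

open Set Filter Topology
open scoped ENNReal InnerProductSpace ComplexOrder

namespace Pool.Agent.Lib.Helper34.SP

variable {ι H : Type*} [NormedAddCommGroup H] [InnerProductSpace ℂ H] [CompleteSpace H]
variable {κ : Type*} [Fintype κ]

/-- strong convergence along a filter, with uniform bound -/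
def StrTendsto {σ : Type*} (F : Filter σ) (A : σ → H →L[ℂ] H) (A0 : H →L[ℂ] H) : Prop :=
  (∃ C : ℝ, ∀ s, ‖A s‖ ≤ C) ∧ ∀ x, Tendsto (fun s => A s x) F (𝓝 (A0 x))

theorem StrTendsto.const {σ : Type*} (F : Filter σ) (A : H →L[ℂ] H) :
    StrTendsto F (fun _ => A) A :=
  ⟨⟨‖A‖, fun _ => le_rfl⟩, fun _ => tendsto_const_nhds⟩

theorem StrTendsto.mul {σ : Type*} {F : Filter σ} {A B : σ → H →L[ℂ] H} {A0 B0 : H →L[ℂ] H}
    (hA : StrTendsto F A A0) (hB : StrTendsto F B B0) :
    StrTendsto F (fun s => A s * B s) (A0 * B0) := by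
  obtain ⟨⟨C, hC⟩, hA'⟩ := hA
  obtain ⟨⟨D, hD⟩, hB'⟩ := hB
  refine ⟨⟨C * D, fun s => ?_⟩, fun x => ?_⟩
  · have h0 : 0 ≤ C := (norm_nonneg _).trans (hC s)
    calc ‖A s * B s‖ ≤ ‖A s‖ * ‖B s‖ := norm_mul_le _ _
      _ ≤ C * D := mul_le_mul (hC s) (hD s) (norm_nonneg _) h0
  · have h1 : Tendsto (fun s => A s (B s x - B0 x)) F (𝓝 0) := by
      have h2 : Tendsto (fun s => C * ‖B s x - B0 x‖) F (𝓝 0) := by
        have := (hB' x).sub_const (B0 x)
        rw [sub_self] at this
        have := this.norm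
        rw [norm_zero] at this
        simpa using this.const_mul C
      refine squeeze_zero_norm (fun s => ?_) h2
      refine (ContinuousLinearMap.le_opNorm _ _).trans ?_
      gcongr
      exact hC s
    have h3 := h1.add (hA' (B0 x))
    rw [zero_add] at h3
    refine h3.congr fun s => ?_
    rw [map_sub, mul_apply_eq_comp]
    abel

theorem StrTendsto.pow {σ : Type*} {F : Filter σ} {A : σ → H →L[ℂ] H} {A0 : H →L[ℂ] H}
    (hA : StrTendsto F A A0) (n : ℕ) : StrTendsto F (fun s => A s ^ n) (A0 ^ n) := by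
  induction n with
  | zero => simp only [pow_zero]; exact StrTendsto.const F 1
  | succ n ih => simp only [pow_succ]; exact ih.mul hA

variable (b : HilbertBasis ι ℂ H)

/-- the finite section projection -/
noncomputable def projF (J : Finset ι) : H →L[ℂ] H := ∑ k ∈ J, unitOp b k k

theorem projF_apply (J : Finset ι) (x : H) : projF b J x = ∑ k ∈ J, ⟪b k, x⟫_ℂ • b k := by
  simp [projF, unitOp_apply]

theorem projF_tendsto : StrTendsto atTop (projF b) 1 := by
  classical
  refine ⟨⟨1, fun J => ?_⟩, fun x => ?_⟩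
  · refine ContinuousLinearMap.opNorm_le_bound _ zero_le_one fun x => ?_
    rw [one_mul]
    have h1 : ‖projF b J x‖ ^ 2 ≤ ‖x‖ ^ 2 := by
      have h2 : ‖projF b J x‖ ^ 2 = ∑ k ∈ J, ‖⟪b k, x⟫_ℂ‖ ^ 2 := by
        rw [projF_apply, ← inner_self_eq_norm_sq (𝕜 := ℂ),
          b.orthonormal.inner_sum (fun k => ⟪b k, x⟫_ℂ) (fun k => ⟪b k, x⟫_ℂ) J]
        rw [map_sum]
        refine Finset.sum_congr rfl fun k _ => ?_
        rw [mul_comm, RCLike.mul_conj]
        norm_cast
      rw [h2]
      exact b.orthonormal.sum_inner_products_le x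
    exact le_of_sq_le_sq h1 (norm_nonneg _)
  · have h := b.hasSum_repr x
    have h2 : (fun J : Finset ι => projF b J x) = fun J => ∑ k ∈ J, b.repr x k • b k := by
      funext J
      rw [projF_apply]
      refine Finset.sum_congr rfl fun k _ => ?_
      rw [b.repr_apply_apply]
    rw [h2]
    exact h

theorem blockOp_compM (J : Finset ι) (T : H →L[ℂ] H) :
    blockOp (fun k : J => b k) (compM (fun k : J => b k) T) = projF b J * T * projF b J := by
  ext x
  rw [blockOp_apply, mul_apply_eq_comp, mul_apply_eq_comp, projF_apply b J x, projF_apply]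
  simp only [map_sum, map_smul, inner_sum, inner_smul_right, Finset.sum_smul, compM]
  rw [← Finset.sum_coe_sort J]
  refine Finset.sum_congr rfl fun k _ => ?_
  rw [← Finset.sum_coe_sort J]
  refine Finset.sum_congr rfl fun l _ => ?_
  rw [mul_comm]

theorem star_projF (J : Finset ι) : star (projF b J) = projF b J := by
  rw [ContinuousLinearMap.star_eq_adjoint]
  symm
  rw [ContinuousLinearMap.eq_adjoint_iff]
  intro x y
  simp only [projF_apply, sum_inner, inner_sum, inner_smul_left, inner_smul_right,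
    inner_conj_symm]
  refine Finset.sum_congr rfl fun k _ => ?_
  ring

theorem section_tendsto (T : H →L[ℂ] H) (m : ℕ) :
    StrTendsto atTop (fun J => (star (projF b J * T * projF b J) * (projF b J * T * projF b J)) ^ m)
      ((star T * T) ^ m) := by
  have hP := projF_tendsto b
  have h1 : StrTendsto atTop (fun J => projF b J * T * projF b J) T := by
    have := (hP.mul (StrTendsto.const atTop T)).mul hP
    rwa [one_mul, mul_one] at this
  have h2 : StrTendsto atTop (fun J => star (projF b J * T * projF b J)) (star T) := by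
    have h3 := (hP.mul (StrTendsto.const atTop (star T))).mul hP
    rw [one_mul, mul_one] at h3
    have h4 : (fun J => star (projF b J * T * projF b J)) =
        fun J => projF b J * star T * projF b J := by
      funext J
      rw [star_mul, star_mul, star_projF, mul_assoc]
    rw [h4]; exact h3
  exact (h2.mul h1).pow m

/-- the finite section of `T` -/
noncomputable def sec (J : Finset ι) (T : H →L[ℂ] H) : Matrix J J ℂ :=
  compM (fun k : J => b k) T

theorem orthonormal_coe (J : Finset ι) : Orthonormal ℂ (fun k : J => b k) :=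
  b.orthonormal.comp _ Subtype.val_injective

theorem blockOp_pow [DecidableEq κ] {e : κ → H} (he : Orthonormal ℂ e) (M : Matrix κ κ ℂ) (n : ℕ) :
    blockOp e (M ^ (n + 1)) = blockOp e M ^ (n + 1) := by
  induction n with
  | zero => simp
  | succ n ih => rw [pow_succ, blockOp_mul he, ih, ← pow_succ]

theorem sec_diag [DecidableEq ι] (J : Finset ι) (T : H →L[ℂ] H) (n : ℕ) (k : J) :
    (((sec b J T).conjTranspose * sec b J T) ^ (n + 1)) k k =
      ⟪b k, ((star (projF b J * T * projF b J) * (projF b J * T * projF b J)) ^ (n + 1))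
        (b k)⟫_ℂ := by
  have he := orthonormal_coe b J
  have h1 := inner_blockOp_self he (((sec b J T).conjTranspose * sec b J T) ^ (n + 1)) k k
  rw [← h1, blockOp_pow he, blockOp_mul he, ← blockOp_star, sec, blockOp_compM]

theorem re_star_mul_pow_nonneg (T : H →L[ℂ] H) (n : ℕ) (x : H) :
    0 ≤ RCLike.re ⟪x, ((star T * T) ^ n) x⟫_ℂ := by
  have h0 : 0 ≤ star T * T := star_mul_self_nonneg T
  have h1 : 0 ≤ (star T * T) ^ n := CStarAlgebra.pow_nonneg h0 n
  have := (ContinuousLinearMap.nonneg_iff_isPositive _).1 h1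
  exact this.re_inner_nonneg_right x

/-- the finite trace functional -/
noncomputable def finTr {κ : Type*} [Fintype κ] [DecidableEq κ] (m : ℕ) (M : Matrix κ κ ℂ) : ℝ :=
  ((M.conjTranspose * M) ^ m).trace.re

theorem schattenPow_two_mul (T : H →L[ℂ] H) (m : ℕ) :
    schattenPow b (2 * m) T =
      ∑' i, ENNReal.ofReal (RCLike.re ⟪b i, ((star T * T) ^ m) (b i)⟫_ℂ) := by
  unfold schattenPow
  have h : CFC.abs T ^ (2 * (m : ℝ)) = (star T * T) ^ m := by
    rw [abs_rpow T (by positivity)]
    rw [mul_div_cancel_left₀ _ (by norm_num : (2 : ℝ) ≠ 0)]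
    exact CFC.rpow_natCast _ m (star_mul_self_nonneg T)
  rw [h]

theorem finTr_le [DecidableEq ι] (T : H →L[ℂ] H) {m : ℕ} (hm1 : 1 ≤ m) (hm : m ≤ 3)
    (hfin : schattenPow b (2 * m) T < ∞) (J : Finset ι) :
    finTr m (sec b J T) ≤ (schattenPow b (2 * m) T).toReal := by
  obtain ⟨n, rfl⟩ : ∃ n, m = n + 1 := ⟨m - 1, by omega⟩
  set f : ι → ℝ := fun i => RCLike.re ⟪b i, ((star T * T) ^ (n + 1)) (b i)⟫_ℂ with hf
  have hf0 : ∀ i, 0 ≤ f i := fun i => re_star_mul_pow_nonneg T (n + 1) (b i)
  have hS : schattenPow b (2 * ((n + 1 : ℕ) : ℝ)) T = ∑' i, ENNReal.ofReal (f i) :=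
    schattenPow_two_mul b T (n + 1)
  rw [hS] at hfin
  rw [hS]
  have hsum : Summable f := by
    have := ENNReal.summable_toReal hfin.ne
    refine this.congr fun i => ?_
    rw [ENNReal.toReal_ofReal (hf0 i)]
  have htot : (∑' i, ENNReal.ofReal (f i)).toReal = ∑' i, f i := by
    rw [ENNReal.tsum_toReal_eq (fun i => ENNReal.ofReal_ne_top)]
    exact tsum_congr fun i => ENNReal.toReal_ofReal (hf0 i)
  rw [htot]
  have h1 := trace_pow_le (orthonormal_coe b J) T hm1 hm
  have h2 : ∑ k : J, f k = ∑ k ∈ J, f k := Finset.sum_coe_sort J f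
  have h3 : ∑ k ∈ J, f k ≤ ∑' i, f i := hsum.sum_le_tsum J (fun i _ => hf0 i)
  unfold finTr sec
  calc _ ≤ _ := h1
    _ = ∑ k : J, f k := rfl
    _ ≤ _ := by rw [h2]; exact h3

theorem finTr_tendsto [DecidableEq ι] (T : H →L[ℂ] H) {m : ℕ} (hm1 : 1 ≤ m) (hm : m ≤ 3)
    (hfin : schattenPow b (2 * m) T < ∞) :
    Tendsto (fun J : Finset ι => finTr m (sec b J T)) atTop
      (𝓝 (schattenPow b (2 * m) T).toReal) := by
  obtain ⟨n, rfl⟩ : ∃ n, m = n + 1 := ⟨m - 1, by omega⟩
  set f : ι → ℝ := fun i => RCLike.re ⟪b i, ((star T * T) ^ (n + 1)) (b i)⟫_ℂ with hf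
  have hf0 : ∀ i, 0 ≤ f i := fun i => re_star_mul_pow_nonneg T (n + 1) (b i)
  have hS : schattenPow b (2 * ((n + 1 : ℕ) : ℝ)) T = ∑' i, ENNReal.ofReal (f i) :=
    schattenPow_two_mul b T (n + 1)
  rw [hS] at hfin
  rw [hS]
  have hsum : Summable f := by
    have := ENNReal.summable_toReal hfin.ne
    refine this.congr fun i => ?_
    rw [ENNReal.toReal_ofReal (hf0 i)]
  have htot : (∑' i, ENNReal.ofReal (f i)).toReal = ∑' i, f i := by
    rw [ENNReal.tsum_toReal_eq (fun i => ENNReal.ofReal_ne_top)]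
    exact tsum_congr fun i => ENNReal.toReal_ofReal (hf0 i)
  rw [htot]
  have hup : ∀ J : Finset ι, finTr (n + 1) (sec b J T) ≤ ∑' i, f i := by
    intro J
    have h1 := trace_pow_le (orthonormal_coe b J) T hm1 hm
    have h2 : ∑ k : J, f k = ∑ k ∈ J, f k := Finset.sum_coe_sort J f
    have h3 : ∑ k ∈ J, f k ≤ ∑' i, f i := hsum.sum_le_tsum J (fun i _ => hf0 i)
    unfold finTr sec
    calc _ ≤ _ := h1
      _ = ∑ k : J, f k := rfl
      _ ≤ _ := by rw [h2]; exact h3
  have hdiag : ∀ k : ι, Tendsto (fun J : Finset ι => RCLike.re ⟪b k,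
      ((star (projF b J * T * projF b J) * (projF b J * T * projF b J)) ^ (n + 1))
        (b k)⟫_ℂ) atTop (𝓝 (f k)) := by
    intro k
    have h1 := (section_tendsto b T (n + 1)).2 (b k)
    have h2 := (tendsto_const_nhds (x := b k)).inner (𝕜 := ℂ) h1
    exact (RCLike.continuous_re.tendsto _).comp h2
  have htrace : ∀ J : Finset ι, finTr (n + 1) (sec b J T) = ∑ k ∈ J, RCLike.re ⟪b k,
      ((star (projF b J * T * projF b J) * (projF b J * T * projF b J)) ^ (n + 1))
        (b k)⟫_ℂ := by
    intro J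
    unfold finTr
    rw [Matrix.trace, Complex.re_sum, ← Finset.sum_coe_sort J]
    refine Finset.sum_congr rfl fun k _ => ?_
    rw [Matrix.diag_apply, sec_diag]
    rfl
  refine tendsto_order.2 ⟨fun a ha => ?_, fun a ha => ?_⟩
  · -- lower bound
    have h1 : ∃ I : Finset ι, a < ∑ k ∈ I, f k := by
      have := (tendsto_order.1 hsum.hasSum).1 a ha
      exact this.exists
    obtain ⟨I, hI⟩ := h1
    have h2 : Tendsto (fun J : Finset ι => ∑ k ∈ I, RCLike.re ⟪b k,
      ((star (projF b J * T * projF b J) * (projF b J * T * projF b J)) ^ (n + 1))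
        (b k)⟫_ℂ) atTop (𝓝 (∑ k ∈ I, f k)) := tendsto_finsetSum I fun k _ => hdiag k
    have h3 := (tendsto_order.1 h2).1 a hI
    filter_upwards [h3, eventually_ge_atTop I] with J hJ hIJ
    refine hJ.trans_le ?_
    rw [htrace]
    refine Finset.sum_le_sum_of_subset_of_nonneg hIJ fun i _ _ => ?_
    exact re_star_mul_pow_nonneg _ _ _
  · exact Eventually.of_forall fun J => (hup J).trans_lt ha

theorem sec_add (J : Finset ι) (A B : H →L[ℂ] H) (α β : ℂ) :
    sec b J (α • A + β • B) = α • sec b J A + β • sec b J B := by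
  unfold sec
  rw [compM_add, compM_smul, compM_smul]

end Pool.Agent.Lib.Helper34.SP
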