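import Mathlib
import Pool.Agent.Lib.Helper34.SP.Cone

/-!
# Realisation of finite sums by step functions on `(0,1)`
-/

set_option autoImplicit false
set_option linter.unusedSectionVars false
set_option linter.unusedSimpArgs false

open Set Filter Topology MeasureTheory

namespace Pool.Agent.Lib.Helper34.SP

/-- index of the dyadic-like cell -/
noncomputable def cell (N : ℕ) [NeZero N] (t : ℝ) : Fin N :=
  ⟨min ⌊(N : ℝ) * t⌋₊ (N - 1), by have := NeZero.pos N; omega⟩

theorem measurable_cell (N : ℕ) [NeZero N] : Measurable (cell N) := by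
  have h1 : Measurable fun t : ℝ => ⌊(N : ℝ) * t⌋₊ :=
    Nat.measurable_floor.comp (measurable_const.mul measurable_id)
  have h2 : Measurable fun n : ℕ => (⟨min n (N - 1), by have := NeZero.pos N; omega⟩ : Fin N) :=
    measurable_from_nat
  exact h2.comp h1

theorem volume_cell (N : ℕ) [NeZero N] (i : Fin N) :
    ((volume.restrict (Ioo (0 : ℝ) 1)).map (cell N)).real {i} = 1 / N := by
  have hN : (0 : ℝ) < N := by exact_mod_cast NeZero.pos N
  have hms : MeasurableSet (cell N ⁻¹' {i}) := measurable_cell N (measurableSet_singleton i)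
  rw [measureReal_def, Measure.map_apply (measurable_cell N) (measurableSet_singleton i),
    Measure.restrict_apply hms]
  have hi : ((i : ℕ) : ℝ) + 1 ≤ N := by
    have := i.2
    exact_mod_cast this
  have hsub1 : Ioo ((i : ℕ) / (N : ℝ)) (((i : ℕ) + 1) / (N : ℝ)) ⊆ cell N ⁻¹' {i} ∩ Ioo 0 1 := by
    intro t ht
    have h1 : ((i : ℕ) : ℝ) < N * t := by
      have := ht.1
      rw [div_lt_iff₀ hN] at this
      linarith
    have h2 : (N : ℝ) * t < (i : ℕ) + 1 := by
      have := ht.2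
      rw [lt_div_iff₀ hN] at this
      linarith
    have ht0 : 0 < t := by
      have : 0 < (N : ℝ) * t := lt_of_le_of_lt (Nat.cast_nonneg _) h1
      by_contra hc
      push Not at hc
      nlinarith
    have ht1 : t < 1 := by
      have : (N : ℝ) * t < N * 1 := by linarith
      exact lt_of_mul_lt_mul_left this hN.le
    refine ⟨?_, ht0, ht1⟩
    have h3 : ⌊(N : ℝ) * t⌋₊ = i := by
      rw [Nat.floor_eq_iff (by positivity)]
      exact ⟨h1.le, h2⟩
    simp only [mem_preimage, mem_singleton_iff, cell]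
    apply Fin.ext
    simp only [h3]
    have := i.2
    omega
  have hsub2 : cell N ⁻¹' {i} ∩ Ioo 0 1 ⊆ Ico ((i : ℕ) / (N : ℝ)) (((i : ℕ) + 1) / (N : ℝ)) := by
    rintro t ⟨ht, ht0, ht1⟩
    simp only [mem_preimage, mem_singleton_iff, cell] at ht
    have h3 := congrArg Fin.val ht
    simp only at h3
    have h4 : ⌊(N : ℝ) * t⌋₊ < N := by
      rw [Nat.floor_lt (by positivity)]
      nlinarith
    have h5 : ⌊(N : ℝ) * t⌋₊ = i := by
      have : ⌊(N : ℝ) * t⌋₊ ≤ N - 1 := by omega
      rw [min_eq_left this] at h3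
      exact h3
    rw [Nat.floor_eq_iff (by positivity)] at h5
    constructor
    · rw [div_le_iff₀ hN]; linarith [h5.1]
    · rw [lt_div_iff₀ hN]; linarith [h5.2]
  have hlen : ((i : ℕ) + 1) / (N : ℝ) - (i : ℕ) / (N : ℝ) = 1 / N := by field_simp; ring
  have hv : volume (cell N ⁻¹' {i} ∩ Ioo 0 1) = ENNReal.ofReal (1 / N) := by
    apply le_antisymm
    · calc volume (cell N ⁻¹' {i} ∩ Ioo 0 1) ≤
          volume (Ico ((i : ℕ) / (N : ℝ)) (((i : ℕ) + 1) / (N : ℝ))) := measure_mono hsub2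
        _ = _ := by rw [Real.volume_Ico, hlen]
    · calc ENNReal.ofReal (1 / N) = volume (Ioo ((i : ℕ) / (N : ℝ)) (((i : ℕ) + 1) / (N : ℝ))) := by
            rw [Real.volume_Ioo, hlen]
        _ ≤ _ := measure_mono hsub1
  rw [hv, ENNReal.toReal_ofReal (by positivity)]

theorem integral_cell (N : ℕ) [NeZero N] (h : Fin N → ℝ) :
    ∫ t in Ioo (0 : ℝ) 1, h (cell N t) = ∑ i, (1 / N : ℝ) * h i := by
  have hfin : IsFiniteMeasure (volume.restrict (Ioo (0 : ℝ) 1)) := ⟨by simp⟩
  have h1 : ∫ t in Ioo (0 : ℝ) 1, h (cell N t) =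
      ∫ i, h i ∂((volume.restrict (Ioo (0 : ℝ) 1)).map (cell N)) := by
    rw [integral_map (measurable_cell N).aemeasurable]
    exact (measurable_of_finite h).aestronglyMeasurable
  have hint : Integrable h ((volume.restrict (Ioo (0 : ℝ) 1)).map (cell N)) :=
    Integrable.of_finite
  rw [h1, integral_fintype hint]
  refine Finset.sum_congr rfl fun i _ => ?_
  rw [volume_cell, smul_eq_mul]

theorem memLp_cell (N : ℕ) [NeZero N] (v : Fin N → ℂ) (q : ENNReal) :
    MemLp (fun t => v (cell N t)) q (volume.restrict (Ioo (0 : ℝ) 1)) := by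
  have hfin : IsFiniteMeasure (volume.restrict (Ioo (0 : ℝ) 1)) := ⟨by simp⟩
  refine MemLp.of_bound (C := ∑ i, ‖v i‖)
    (((measurable_of_finite v).comp (measurable_cell N)).aestronglyMeasurable) ?_
  refine Eventually.of_forall fun t => ?_
  exact Finset.single_le_sum (f := fun i => ‖v i‖) (fun i _ => norm_nonneg _)
    (Finset.mem_univ _)

theorem exists_step {m N : ℕ} (hm : 1 ≤ m) {F : ℂ → ℂ → ℝ} (h : RepN m N F) :
    ∃ f g : ℝ → ℂ, (∀ q, MemLp f q (volume.restrict (Ioo (0 : ℝ) 1))) ∧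
      (∀ q, MemLp g q (volume.restrict (Ioo (0 : ℝ) 1))) ∧
      ∀ α β : ℂ, ∫ t in Ioo (0 : ℝ) 1, ‖α * f t + β * g t‖ ^ (2 * (m : ℝ)) = F α β := by
  obtain ⟨v, w, h⟩ := h
  rcases Nat.eq_zero_or_pos N with h0 | hN
  · subst h0
    refine ⟨fun _ => 0, fun _ => 0, fun q => MemLp.zero' , fun q => MemLp.zero',
      fun α β => ?_⟩
    rw [h]
    have : (2 * (m : ℝ)) ≠ 0 := by positivity
    simp [Real.zero_rpow this]
  · have : NeZero N := ⟨hN.ne'⟩
    have hNr : (0 : ℝ) < N := by exact_mod_cast hN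
    set c : ℝ := (N : ℝ) ^ (1 / (2 * (m : ℝ))) with hc
    have hc0 : 0 ≤ c := by positivity
    have hcp : c ^ (2 * m) = N := by
      rw [hc, ← Real.rpow_natCast, ← Real.rpow_mul hNr.le]
      push_cast
      rw [one_div, inv_mul_cancel₀ (by positivity), Real.rpow_one]
    refine ⟨fun t => (c : ℂ) * v (cell N t), fun t => (c : ℂ) * w (cell N t),
      fun q => memLp_cell N (fun i => (c : ℂ) * v i) q,
      fun q => memLp_cell N (fun i => (c : ℂ) * w i) q, fun α β => ?_⟩
    have h1 := integral_cell N (fun i => ‖α * ((c : ℂ) * v i) + β * ((c : ℂ) * w i)‖ ^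
      (2 * (m : ℝ)))
    rw [h1, h]
    refine Finset.sum_congr rfl fun i _ => ?_
    have h2 : α * ((c : ℂ) * v i) + β * ((c : ℂ) * w i) = (c : ℂ) * (α * v i + β * w i) := by ring
    have h3 : (2 * (m : ℝ)) = ((2 * m : ℕ) : ℝ) := by push_cast; ring
    rw [h2, norm_mul, h3, Real.rpow_natCast, mul_pow, Complex.norm_real, Real.norm_eq_abs,
      abs_of_nonneg hc0, hcp, ← mul_assoc, one_div, inv_mul_cancel₀ hNr.ne', one_mul]

end Pool.Agent.Lib.Helper34.SP
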