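import Mathlib
import Pool.Agent.Lib.Helper34.SP.Red2
import Pool.Agent.Lib.Helper34.SP.Step

/-!
# From finite matrices to `S_p`, `p = 2, 4, 6`
-/

set_option autoImplicit false
set_option linter.unusedSectionVars false
set_option linter.unusedSimpArgs false

open Set Filter Topology MeasureTheory
open scoped ENNReal InnerProductSpace ComplexOrder

namespace Pool.Agent.Lib.Helper34.SP

universe u

variable {ι : Type u} {H : Type*} [NormedAddCommGroup H] [InnerProductSpace ℂ H] [CompleteSpace H]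

theorem schattenPow_lt_top_of_bdd (b : HilbertBasis ι ℂ H) [DecidableEq ι] (T : H →L[ℂ] H) {m : ℕ}
    (hm1 : 1 ≤ m) {C : ℝ} (hC : ∀ J : Finset ι, finTr m (sec b J T) ≤ C) :
    schattenPow b (2 * m) T < ∞ := by
  obtain ⟨n, rfl⟩ : ∃ n, m = n + 1 := ⟨m - 1, by omega⟩
  set f : ι → ℝ := fun i => RCLike.re ⟪b i, ((star T * T) ^ (n + 1)) (b i)⟫_ℂ with hf
  have hf0 : ∀ i, 0 ≤ f i := fun i => re_star_mul_pow_nonneg T (n + 1) (b i)
  have hS : schattenPow b (2 * ((n + 1 : ℕ) : ℝ)) T = ∑' i, ENNReal.ofReal (f i) :=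
    schattenPow_two_mul b T (n + 1)
  rw [hS]
  have hdiag : ∀ k : ι, Tendsto (fun J : Finset ι => RCLike.re ⟪b k,
      ((star (projF b J * T * projF b J) * (projF b J * T * projF b J)) ^ (n + 1))
        (b k)⟫_ℂ) atTop (𝓝 (f k)) := by
    intro k
    have h1 := (section_tendsto b T (n + 1)).2 (b k)
    have h2 := (tendsto_const_nhds (x := b k)).inner (𝕜 := ℂ) h1
    exact (RCLike.continuous_re.tendsto _).comp h2
  have htrace : ∀ J : Finset ι, finTr (n + 1) (sec b J T) = ∑ k ∈ J, RCLike.re ⟪b k,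
      ((star (projF b J * T * projF b J) * (projF b J * T * projF b J)) ^ (n + 1))
        (b k)⟫_ℂ := by
    intro J
    unfold finTr
    rw [Matrix.trace, Complex.re_sum, ← Finset.sum_coe_sort J]
    refine Finset.sum_congr rfl fun k _ => ?_
    rw [Matrix.diag_apply, sec_diag]
    rfl
  have hfin : ∀ I : Finset ι, ∑ k ∈ I, f k ≤ C := by
    intro I
    have h2 : Tendsto (fun J : Finset ι => ∑ k ∈ I, RCLike.re ⟪b k,
      ((star (projF b J * T * projF b J) * (projF b J * T * projF b J)) ^ (n + 1))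
        (b k)⟫_ℂ) atTop (𝓝 (∑ k ∈ I, f k)) := tendsto_finsetSum I fun k _ => hdiag k
    refine le_of_tendsto h2 ?_
    filter_upwards [eventually_ge_atTop I] with J hIJ
    refine le_trans ?_ (hC J)
    rw [htrace]
    refine Finset.sum_le_sum_of_subset_of_nonneg hIJ fun i _ _ => ?_
    exact re_star_mul_pow_nonneg _ _ _
  refine lt_of_le_of_lt ?_ (ENNReal.ofReal_lt_top (r := C))
  rw [ENNReal.tsum_eq_iSup_sum]
  refine iSup_le fun I => ?_
  rw [← ENNReal.ofReal_sum_of_nonneg fun i _ => hf0 i]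
  exact ENNReal.ofReal_le_ofReal (hfin I)

theorem RepN.bound {m N : ℕ} (hm : 1 ≤ m) {F : ℂ → ℂ → ℝ} (h : RepN m N F) (α β : ℂ) :
    F α β ≤ N * ((‖α‖ + ‖β‖) * (F 1 0 + F 0 1 + 1)) ^ (2 * m) := by
  obtain ⟨v, w, h⟩ := h
  have hF10 : ∀ i, ‖v i‖ ^ (2 * m) ≤ F 1 0 := by
    intro i
    rw [h]
    have := Finset.single_le_sum (f := fun i => ‖1 * v i + 0 * w i‖ ^ (2 * m))
      (fun i _ => by positivity) (Finset.mem_univ i)
    simpa using this
  have hF01 : ∀ i, ‖w i‖ ^ (2 * m) ≤ F 0 1 := by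
    intro i
    rw [h]
    have := Finset.single_le_sum (f := fun i => ‖0 * v i + 1 * w i‖ ^ (2 * m))
      (fun i _ => by positivity) (Finset.mem_univ i)
    simpa using this
  have h10 : 0 ≤ F 1 0 := by rw [h]; positivity
  have h01 : 0 ≤ F 0 1 := by rw [h]; positivity
  set R := F 1 0 + F 0 1 + 1 with hR
  have hbd : ∀ x : ℝ, 0 ≤ x → x ^ (2 * m) ≤ R → x ≤ R := by
    intro x hx h
    by_contra hc
    push Not at hc
    have h1 : 1 < x := by linarith
    have h2 : x ≤ x ^ (2 * m) := le_self_pow₀ h1.le (by omega)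
    linarith
  rw [h]
  calc ∑ i, ‖α * v i + β * w i‖ ^ (2 * m) ≤ ∑ _i : Fin N, ((‖α‖ + ‖β‖) * R) ^ (2 * m) := by
        refine Finset.sum_le_sum fun i _ => ?_
        gcongr
        calc ‖α * v i + β * w i‖ ≤ ‖α‖ * ‖v i‖ + ‖β‖ * ‖w i‖ := by
              refine (norm_add_le _ _).trans ?_
              rw [norm_mul, norm_mul]
          _ ≤ ‖α‖ * R + ‖β‖ * R := by
              have h1 := hbd _ (norm_nonneg (v i)) ((hF10 i).trans (by linarith))
              have h2 := hbd _ (norm_nonneg (w i)) ((hF01 i).trans (by linarith))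
              gcongr
          _ = _ := by ring
    _ = _ := by rw [Finset.sum_const, Finset.card_univ, Fintype.card_fin, nsmul_eq_mul]

/-- The finite-dimensional statement implies the property for `p = 2m`. -/
theorem pair_of_fin (b : HilbertBasis ι ℂ H) {m : ℕ} (hm1 : 1 ≤ m) (hm : m ≤ 3)
    (hfin : ∀ (κ : Type u) [Fintype κ] [DecidableEq κ] (A B : Matrix κ κ ℂ),
      RepFin m (fun α β => finTr m (α • A + β • B))) :
    PairProperty b (2 * m) := by
  classical
  intro A B hA hB
  have hrep : ∀ J : Finset ι, RepN m (N0 m)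
      (fun α β => finTr m (sec b J (α • A + β • B))) := by
    intro J
    refine repFin_iff_N0 hm1 ?_
    refine (hfin J (sec b J A) (sec b J B)).congr fun α β => ?_
    rw [sec_add]
  -- bounds
  have hbA : ∀ J : Finset ι, finTr m (sec b J ((1 : ℂ) • A + (0 : ℂ) • B)) ≤
      (schattenPow b (2 * m) A).toReal := by
    intro J
    have h0 : (1 : ℂ) • A + (0 : ℂ) • B = A := by simp
    rw [h0]
    exact finTr_le b A hm1 hm hA.finite J
  have hbB : ∀ J : Finset ι, finTr m (sec b J ((0 : ℂ) • A + (1 : ℂ) • B)) ≤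
      (schattenPow b (2 * m) B).toReal := by
    intro J
    have h0 : (0 : ℂ) • A + (1 : ℂ) • B = B := by simp
    rw [h0]
    exact finTr_le b B hm1 hm hB.finite J
  have hfinite : ∀ α β : ℂ, schattenPow b (2 * m) (α • A + β • B) < ∞ := by
    intro α β
    refine schattenPow_lt_top_of_bdd b _ hm1 (C := (N0 m) * ((‖α‖ + ‖β‖) *
      ((schattenPow b (2 * m) A).toReal + (schattenPow b (2 * m) B).toReal + 1)) ^ (2 * m))
      fun J => ?_
    refine ((hrep J).bound hm1 α β).trans ?_
    have h10 : 0 ≤ finTr m (sec b J ((1 : ℂ) • A + (0 : ℂ) • B)) := by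
      obtain ⟨v, w, h⟩ := hrep J
      have := h 1 0
      simp only at this
      rw [this]; positivity
    have h01 : 0 ≤ finTr m (sec b J ((0 : ℂ) • A + (1 : ℂ) • B)) := by
      obtain ⟨v, w, h⟩ := hrep J
      have := h 0 1
      simp only at this
      rw [this]; positivity
    gcongr
    · exact hbA J
    · exact hbB J
  have hlim : RepN m (N0 m) (fun α β => (schattenPow b (2 * m) (α • A + β • B)).toReal) :=
    repN_closed hm1 hrep fun α β => finTr_tendsto b _ hm1 hm (hfinite α β)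
  obtain ⟨f, g, hf, hg, hfg⟩ := exists_step hm1 hlim
  refine ⟨f, g, hf _, hg _, fun α β => ?_⟩
  unfold schattenNorm
  rw [hfg α β]

end Pool.Agent.Lib.Helper34.SP
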