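import Mathlib
import Pool.Agent.Lib.Helper34.SP.Ident
import Pool.Agent.Lib.Helper34.SP.Pair

/-!
# The array of a pair of matrices
-/

set_option autoImplicit false
set_option linter.unusedSectionVars false
set_option linter.unusedSimpArgs false

open Complex
open scoped Matrix

namespace Pool.Agent.Lib.Helper34.SP

variable {κ : Type*} [Fintype κ] [DecidableEq κ]

/-- traces of words -/
noncomputable def Wd (A : Fin 2 → Matrix κ κ ℂ) (j1 k1 j2 k2 j3 k3 : Fin 2) : ℂ :=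
  (A j1 * ((A k1)ᴴ * (A j2 * ((A k2)ᴴ * (A j3 * (A k3)ᴴ))))).trace

theorem Wd_cyc (A : Fin 2 → Matrix κ κ ℂ) (j1 k1 j2 k2 j3 k3 : Fin 2) :
    Wd A j1 k1 j2 k2 j3 k3 = Wd A j2 k2 j3 k3 j1 k1 := by
  unfold Wd
  have h : A j1 * ((A k1)ᴴ * (A j2 * ((A k2)ᴴ * (A j3 * (A k3)ᴴ)))) =
      (A j1 * (A k1)ᴴ) * (A j2 * ((A k2)ᴴ * (A j3 * (A k3)ᴴ))) := by
    simp only [Matrix.mul_assoc]
  rw [h, Matrix.trace_mul_comm]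
  simp only [Matrix.mul_assoc]

/-- the matrix `X` -/
noncomputable def Xm (x : Fin 6 → ℂ) (A : Fin 2 → Matrix κ κ ℂ) : Matrix κ κ ℂ :=
  x 0 • (A 0 * ((A 0)ᴴ * A 0)) + (x 1 / 2) • (A 0 * ((A 0)ᴴ * A 1)) +
    (x 1 / 2) • (A 1 * ((A 0)ᴴ * A 0)) + x 2 • (A 1 * ((A 0)ᴴ * A 1)) +
  (x 3 • (A 0 * ((A 1)ᴴ * A 0)) + (x 4 / 2) • (A 0 * ((A 1)ᴴ * A 1)) +
    (x 4 / 2) • (A 1 * ((A 1)ᴴ * A 0)) + x 5 • (A 1 * ((A 1)ᴴ * A 1)))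

/-- the matrices `D_m` -/
noncomputable def Dm (A : Fin 2 → Matrix κ κ ℂ) (m : Fin 2) : Matrix κ κ ℂ :=
  A 0 * ((A m)ᴴ * A 1) - A 1 * ((A m)ᴴ * A 0)

theorem trXX (x : Fin 6 → ℂ) (A : Fin 2 → Matrix κ κ ℂ) : (Xm x A * (Xm x A)ᴴ).trace = (
    x 0 * (starRingEnd ℂ) (x 0) * Wd A 0 0 0 0 0 0 +
    x 0 * (starRingEnd ℂ) (x 3) * Wd A 0 0 0 0 1 0 +
    x 0 * (starRingEnd ℂ) ((x 1 / 2)) * Wd A 0 0 0 1 0 0 +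
    x 0 * (starRingEnd ℂ) ((x 4 / 2)) * Wd A 0 0 0 1 1 0 +
    x 0 * (starRingEnd ℂ) ((x 1 / 2)) * Wd A 0 0 0 0 0 1 +
    x 0 * (starRingEnd ℂ) ((x 4 / 2)) * Wd A 0 0 0 0 1 1 +
    x 0 * (starRingEnd ℂ) (x 2) * Wd A 0 0 0 1 0 1 +
    x 0 * (starRingEnd ℂ) (x 5) * Wd A 0 0 0 1 1 1 +
    x 3 * (starRingEnd ℂ) (x 0) * Wd A 0 1 0 0 0 0 +
    x 3 * (starRingEnd ℂ) (x 3) * Wd A 0 1 0 0 1 0 +
    x 3 * (starRingEnd ℂ) ((x 1 / 2)) * Wd A 0 1 0 1 0 0 +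
    x 3 * (starRingEnd ℂ) ((x 4 / 2)) * Wd A 0 1 0 1 1 0 +
    x 3 * (starRingEnd ℂ) ((x 1 / 2)) * Wd A 0 1 0 0 0 1 +
    x 3 * (starRingEnd ℂ) ((x 4 / 2)) * Wd A 0 1 0 0 1 1 +
    x 3 * (starRingEnd ℂ) (x 2) * Wd A 0 1 0 1 0 1 +
    x 3 * (starRingEnd ℂ) (x 5) * Wd A 0 1 0 1 1 1 +
    (x 1 / 2) * (starRingEnd ℂ) (x 0) * Wd A 0 0 1 0 0 0 +
    (x 1 / 2) * (starRingEnd ℂ) (x 3) * Wd A 0 0 1 0 1 0 +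
    (x 1 / 2) * (starRingEnd ℂ) ((x 1 / 2)) * Wd A 0 0 1 1 0 0 +
    (x 1 / 2) * (starRingEnd ℂ) ((x 4 / 2)) * Wd A 0 0 1 1 1 0 +
    (x 1 / 2) * (starRingEnd ℂ) ((x 1 / 2)) * Wd A 0 0 1 0 0 1 +
    (x 1 / 2) * (starRingEnd ℂ) ((x 4 / 2)) * Wd A 0 0 1 0 1 1 +
    (x 1 / 2) * (starRingEnd ℂ) (x 2) * Wd A 0 0 1 1 0 1 +
    (x 1 / 2) * (starRingEnd ℂ) (x 5) * Wd A 0 0 1 1 1 1 +
    (x 4 / 2) * (starRingEnd ℂ) (x 0) * Wd A 0 1 1 0 0 0 +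
    (x 4 / 2) * (starRingEnd ℂ) (x 3) * Wd A 0 1 1 0 1 0 +
    (x 4 / 2) * (starRingEnd ℂ) ((x 1 / 2)) * Wd A 0 1 1 1 0 0 +
    (x 4 / 2) * (starRingEnd ℂ) ((x 4 / 2)) * Wd A 0 1 1 1 1 0 +
    (x 4 / 2) * (starRingEnd ℂ) ((x 1 / 2)) * Wd A 0 1 1 0 0 1 +
    (x 4 / 2) * (starRingEnd ℂ) ((x 4 / 2)) * Wd A 0 1 1 0 1 1 +
    (x 4 / 2) * (starRingEnd ℂ) (x 2) * Wd A 0 1 1 1 0 1 +
    (x 4 / 2) * (starRingEnd ℂ) (x 5) * Wd A 0 1 1 1 1 1 +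
    (x 1 / 2) * (starRingEnd ℂ) (x 0) * Wd A 1 0 0 0 0 0 +
    (x 1 / 2) * (starRingEnd ℂ) (x 3) * Wd A 1 0 0 0 1 0 +
    (x 1 / 2) * (starRingEnd ℂ) ((x 1 / 2)) * Wd A 1 0 0 1 0 0 +
    (x 1 / 2) * (starRingEnd ℂ) ((x 4 / 2)) * Wd A 1 0 0 1 1 0 +
    (x 1 / 2) * (starRingEnd ℂ) ((x 1 / 2)) * Wd A 1 0 0 0 0 1 +
    (x 1 / 2) * (starRingEnd ℂ) ((x 4 / 2)) * Wd A 1 0 0 0 1 1 +
    (x 1 / 2) * (starRingEnd ℂ) (x 2) * Wd A 1 0 0 1 0 1 +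
    (x 1 / 2) * (starRingEnd ℂ) (x 5) * Wd A 1 0 0 1 1 1 +
    (x 4 / 2) * (starRingEnd ℂ) (x 0) * Wd A 1 1 0 0 0 0 +
    (x 4 / 2) * (starRingEnd ℂ) (x 3) * Wd A 1 1 0 0 1 0 +
    (x 4 / 2) * (starRingEnd ℂ) ((x 1 / 2)) * Wd A 1 1 0 1 0 0 +
    (x 4 / 2) * (starRingEnd ℂ) ((x 4 / 2)) * Wd A 1 1 0 1 1 0 +
    (x 4 / 2) * (starRingEnd ℂ) ((x 1 / 2)) * Wd A 1 1 0 0 0 1 +
    (x 4 / 2) * (starRingEnd ℂ) ((x 4 / 2)) * Wd A 1 1 0 0 1 1 +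
    (x 4 / 2) * (starRingEnd ℂ) (x 2) * Wd A 1 1 0 1 0 1 +
    (x 4 / 2) * (starRingEnd ℂ) (x 5) * Wd A 1 1 0 1 1 1 +
    x 2 * (starRingEnd ℂ) (x 0) * Wd A 1 0 1 0 0 0 +
    x 2 * (starRingEnd ℂ) (x 3) * Wd A 1 0 1 0 1 0 +
    x 2 * (starRingEnd ℂ) ((x 1 / 2)) * Wd A 1 0 1 1 0 0 +
    x 2 * (starRingEnd ℂ) ((x 4 / 2)) * Wd A 1 0 1 1 1 0 +
    x 2 * (starRingEnd ℂ) ((x 1 / 2)) * Wd A 1 0 1 0 0 1 +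
    x 2 * (starRingEnd ℂ) ((x 4 / 2)) * Wd A 1 0 1 0 1 1 +
    x 2 * (starRingEnd ℂ) (x 2) * Wd A 1 0 1 1 0 1 +
    x 2 * (starRingEnd ℂ) (x 5) * Wd A 1 0 1 1 1 1 +
    x 5 * (starRingEnd ℂ) (x 0) * Wd A 1 1 1 0 0 0 +
    x 5 * (starRingEnd ℂ) (x 3) * Wd A 1 1 1 0 1 0 +
    x 5 * (starRingEnd ℂ) ((x 1 / 2)) * Wd A 1 1 1 1 0 0 +
    x 5 * (starRingEnd ℂ) ((x 4 / 2)) * Wd A 1 1 1 1 1 0 +
    x 5 * (starRingEnd ℂ) ((x 1 / 2)) * Wd A 1 1 1 0 0 1 +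
    x 5 * (starRingEnd ℂ) ((x 4 / 2)) * Wd A 1 1 1 0 1 1 +
    x 5 * (starRingEnd ℂ) (x 2) * Wd A 1 1 1 1 0 1 +
    x 5 * (starRingEnd ℂ) (x 5) * Wd A 1 1 1 1 1 1) := by
  simp only [Xm, Wd, Matrix.conjTranspose_add, Matrix.conjTranspose_smul,
    Matrix.conjTranspose_mul, Matrix.conjTranspose_conjTranspose, Matrix.add_mul, Matrix.mul_add,
    Matrix.smul_mul, Matrix.mul_smul, Matrix.trace_add, Matrix.trace_smul, Matrix.mul_assoc,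
    smul_smul, smul_add, smul_eq_mul, RCLike.star_def]
  ring

theorem trDD (A : Fin 2 → Matrix κ κ ℂ) (i j : Fin 2) : (Dm A i * (Dm A j)ᴴ).trace =
    (Wd A 0 i 1 1 j 0 - Wd A 0 i 1 0 j 1 - Wd A 1 i 0 1 j 0 + Wd A 1 i 0 0 j 1) := by
  simp only [Dm, Wd, Matrix.conjTranspose_sub, Matrix.conjTranspose_mul,
    Matrix.conjTranspose_conjTranspose, Matrix.sub_mul, Matrix.mul_sub,
    Matrix.trace_sub, Matrix.mul_assoc]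
  ring

theorem sum_kapQ (x : Fin 6 → ℂ) (A : Fin 2 → Matrix κ κ ℂ) :
    ((∑ a, ∑ b, kapQ x ((starRingEnd ℂ) (Dm A 0 a b)) ((starRingEnd ℂ) (Dm A 1 a b)) : ℝ) : ℂ) = (
    ((x 1 / 2) * (starRingEnd ℂ) ((x 1 / 2)) + x 3 * (starRingEnd ℂ) (x 3) - x 0 * (starRingEnd ℂ) ((x 4 / 2)) - (x 4 / 2) * (starRingEnd ℂ) (x 0)) * (Dm A 0 * (Dm A 0)ᴴ).trace +
    (x 2 * (starRingEnd ℂ) ((x 1 / 2)) + (x 4 / 2) * (starRingEnd ℂ) (x 3) - (x 1 / 2) * (starRingEnd ℂ) ((x 4 / 2)) - x 5 * (starRingEnd ℂ) (x 0)) * (Dm A 0 * (Dm A 1)ᴴ).trace +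
    ((x 1 / 2) * (starRingEnd ℂ) (x 2) + x 3 * (starRingEnd ℂ) ((x 4 / 2)) - x 0 * (starRingEnd ℂ) (x 5) - (x 4 / 2) * (starRingEnd ℂ) ((x 1 / 2))) * (Dm A 1 * (Dm A 0)ᴴ).trace +
    (x 2 * (starRingEnd ℂ) (x 2) + (x 4 / 2) * (starRingEnd ℂ) ((x 4 / 2)) - (x 1 / 2) * (starRingEnd ℂ) (x 5) - x 5 * (starRingEnd ℂ) ((x 1 / 2))) * (Dm A 1 * (Dm A 1)ᴴ).trace) := by
  have hT : ∀ i j : Fin 2, (Dm A i * (Dm A j)ᴴ).trace =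
      ∑ a, ∑ b, Dm A i a b * (starRingEnd ℂ) (Dm A j a b) := by
    intro i j
    rw [Matrix.trace]
    refine Finset.sum_congr rfl fun a _ => ?_
    rw [Matrix.diag_apply, Matrix.mul_apply]
    rfl
  simp only [hT, Finset.mul_sum, ← Finset.sum_add_distrib, Complex.ofReal_sum, kapQ_eq]
  refine Finset.sum_congr rfl fun a _ => Finset.sum_congr rfl fun b _ => ?_
  simp only [map_add, map_mul, map_div₀, map_ofNat, Complex.conj_conj]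
  ring

theorem Lc_tau (x : Fin 6 → ℂ) (A : Fin 2 → Matrix κ κ ℂ) :
    Lc x (tauW (Wd A)) = (Xm x A * (Xm x A)ᴴ).trace + (1 / 3) *
      ((∑ a, ∑ b, kapQ x ((starRingEnd ℂ) (Dm A 0 a b)) ((starRingEnd ℂ) (Dm A 1 a b)) : ℝ) : ℂ) := by
  rw [key_identity x (Wd A) (Wd_cyc A), trXX, sum_kapQ]
  simp only [trDD]

theorem Lc_tau_nonneg {x : Fin 6 → ℂ} (hx : ∀ c0 c1, 0 ≤ kapQ x c0 c1)
    (A : Fin 2 → Matrix κ κ ℂ) : 0 ≤ (Lc x (tauW (Wd A))).re := by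
  have h1 : 0 ≤ (Xm x A * (Xm x A)ᴴ).trace.re := by
    rw [Matrix.trace, Complex.re_sum]
    refine Finset.sum_nonneg fun k _ => ?_
    rw [Matrix.diag_apply, Matrix.mul_apply, Complex.re_sum]
    refine Finset.sum_nonneg fun l _ => ?_
    rw [Matrix.conjTranspose_apply, RCLike.star_def, Complex.mul_conj, Complex.ofReal_re]
    exact Complex.normSq_nonneg _
  have h2 : 0 ≤ ∑ a, ∑ b, kapQ x ((starRingEnd ℂ) (Dm A 0 a b)) ((starRingEnd ℂ) (Dm A 1 a b)) :=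
    Finset.sum_nonneg fun a _ => Finset.sum_nonneg fun b _ => hx _ _
  rw [Lc_tau, Complex.add_re]
  have h3 : ((1 / 3 : ℂ) * ((∑ a, ∑ b, kapQ x ((starRingEnd ℂ) (Dm A 0 a b))
      ((starRingEnd ℂ) (Dm A 1 a b)) : ℝ) : ℂ)).re =
      (1 / 3) * ∑ a, ∑ b, kapQ x ((starRingEnd ℂ) (Dm A 0 a b)) ((starRingEnd ℂ) (Dm A 1 a b)) := by
    have : (1 / 3 : ℂ) = ((1 / 3 : ℝ) : ℂ) := by push_cast; ring
    rw [this, ← Complex.ofReal_mul, Complex.ofReal_re]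
  rw [h3]
  positivity

theorem evA_tau (A : Fin 2 → Matrix κ κ ℂ) (α β : ℂ) :
    evA 3 α β (tauW (Wd A)) = finTr 3 (α • A 0 + β • A 1) := by
  have h1 : finTr 3 (α • A 0 + β • A 1) =
      ((α • A 0 + β • A 1) * ((α • A 0 + β • A 1)ᴴ * ((α • A 0 + β • A 1) *
        ((α • A 0 + β • A 1)ᴴ * ((α • A 0 + β • A 1) * (α • A 0 + β • A 1)ᴴ))))).trace.re := by
    unfold finTr
    rw [pow_succ, pow_two]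
    set M := α • A 0 + β • A 1
    have : Mᴴ * M * (Mᴴ * M) * (Mᴴ * M) = Mᴴ * (M * (Mᴴ * (M * (Mᴴ * M)))) := by
      simp only [Matrix.mul_assoc]
    rw [this, Matrix.trace_mul_comm]
    simp only [Matrix.mul_assoc]
  rw [h1]
  have h2 : evA 3 α β (tauW (Wd A)) = (∑ a : Fin 4, ∑ b : Fin 4,
    (((3 : ℕ).choose a : ℂ) * ((3 : ℕ).choose b : ℂ)) * ((β ^ (a : ℕ) * α ^ (3 - a : ℕ)) *
      (starRingEnd ℂ) (β ^ (b : ℕ) * α ^ (3 - b : ℕ))) * tauW (Wd A) a b).re := rfl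
  rw [h2]
  congr 1
  simp only [Matrix.conjTranspose_add, Matrix.conjTranspose_smul, Matrix.add_mul, Matrix.mul_add,
    Matrix.smul_mul, Matrix.mul_smul, Matrix.trace_add, Matrix.trace_smul,
    smul_smul, smul_add, smul_eq_mul, RCLike.star_def]
  have hW : ∀ j1 k1 j2 k2 j3 k3 : Fin 2,
      (A j1 * ((A k1)ᴴ * (A j2 * ((A k2)ᴴ * (A j3 * (A k3)ᴴ))))).trace = Wd A j1 k1 j2 k2 j3 k3 :=
    fun _ _ _ _ _ _ => rfl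
  simp only [hW]
  have c0 : ((3 : ℕ).choose 0 : ℂ) = 1 := by norm_num
  have c1 : ((3 : ℕ).choose 1 : ℂ) = 3 := by norm_num
  have c2 : ((3 : ℕ).choose 2 : ℂ) = 3 := by norm_num [Nat.choose]
  have c3 : ((3 : ℕ).choose 3 : ℂ) = 1 := by norm_num
  simp only [tauW, avg, Fin.sum_univ_four, Matrix.cons_val, Fin.val_zero, Fin.val_one,
    Fin.isValue, Fin.coe_ofNat_eq_mod, Nat.reduceMod, c0, c1, c2, c3, Nat.reduceSub, map_mul,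
    map_pow]
  ring

end Pool.Agent.Lib.Helper34.SP
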