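import Mathlib
import Pool.Agent.Lib.Helper34.SP.ConeCl
import Pool.Agent.Lib.Helper34.SP.Tau

/-!
# Coefficients of `(3,3)`-forms
-/

set_option autoImplicit false
set_option linter.unusedSectionVars false
set_option linter.unusedSimpArgs false

open Set Filter Topology Complex
open scoped Matrix

namespace Pool.Agent.Lib.Helper34.SP

/-- Hermitian arrays -/
def Herm (τ : Arr 3) : Prop := ∀ a b, τ b a = (starRingEnd ℂ) (τ a b)

theorem herm_dl (v w : ℂ) : Herm (dl 3 v w) := by
  intro a b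
  unfold dl
  simp only [map_mul, map_pow, Complex.conj_conj]
  ring

/-- A real functional on Hermitian arrays. -/
theorem exists_coef (X : Arr 3 →ₗ[ℝ] ℝ) : ∃ p : Arr 3, Herm p ∧
    ∀ τ : Arr 3, Herm τ → ((X τ : ℝ) : ℂ) = ∑ a, ∑ b, p a b * τ a b := by
  set e : Fin 4 → Fin 4 → ℂ → Arr 3 := fun a b z => Pi.single a (Pi.single b z) with he
  set ξ : Arr 3 := fun a b => ((X (e a b 1) : ℝ) : ℂ) - Complex.I * ((X (e a b Complex.I) : ℝ) : ℂ)
    with hξ
  have hsum : ∀ τ : Arr 3, τ = ∑ a, ∑ b, e a b (τ a b) := by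
    intro τ
    funext a b
    rw [Finset.sum_apply, Finset.sum_apply, Finset.sum_eq_single a, Finset.sum_apply,
      Finset.sum_apply, Finset.sum_eq_single b]
    · simp [he]
    · intro b' _ hb'
      simp [he, Pi.single_eq_of_ne (Ne.symm hb')]
    · simp
    · intro a' _ ha'
      rw [Finset.sum_apply, Finset.sum_apply]
      refine Finset.sum_eq_zero fun b' _ => ?_
      simp [he, Pi.single_eq_of_ne (Ne.symm ha')]
    · simp
  have hlin : ∀ a b z, e a b z = z.re • e a b 1 + z.im • e a b Complex.I := by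
    intro a b z
    simp only [he, ← Pi.single_smul, ← Pi.single_add, Complex.real_smul, mul_one]
    rw [Complex.re_add_im z]
  have hXe : ∀ a b z, X (e a b z) = (ξ a b * z).re := by
    intro a b z
    rw [hlin, map_add, map_smul, map_smul, hξ]
    simp only [smul_eq_mul, Complex.mul_re, Complex.sub_re, Complex.sub_im, Complex.ofReal_re,
      Complex.ofReal_im, Complex.mul_im, Complex.I_re, Complex.I_im]
    ring
  have hX : ∀ τ : Arr 3, X τ = (∑ a, ∑ b, ξ a b * τ a b).re := by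
    intro τ
    conv_lhs => rw [hsum τ]
    rw [map_sum, Complex.re_sum]
    refine Finset.sum_congr rfl fun a _ => ?_
    rw [map_sum, Complex.re_sum]
    exact Finset.sum_congr rfl fun b _ => hXe a b _
  refine ⟨fun a b => (ξ a b + (starRingEnd ℂ) (ξ b a)) / 2, fun a b => ?_, fun τ hτ => ?_⟩
  · simp only [map_div₀, map_add, Complex.conj_conj, map_ofNat]
    rw [add_comm]
  · have h1 : ∑ a, ∑ b, (ξ a b + (starRingEnd ℂ) (ξ b a)) / 2 * τ a b =
        ((∑ a, ∑ b, ξ a b * τ a b) + (starRingEnd ℂ) (∑ a, ∑ b, ξ a b * τ a b)) / 2 := by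
      have h2 : (starRingEnd ℂ) (∑ a, ∑ b, ξ a b * τ a b) =
          ∑ a, ∑ b, (starRingEnd ℂ) (ξ b a) * τ a b := by
        have h3 : (starRingEnd ℂ) (∑ a, ∑ b, ξ a b * τ a b) =
            ∑ a, ∑ b, (starRingEnd ℂ) (ξ a b) * τ b a := by
          simp only [map_sum, map_mul]
          refine Finset.sum_congr rfl fun a _ => Finset.sum_congr rfl fun b _ => ?_
          rw [hτ a b]
        rw [h3, Finset.sum_comm]
      rw [h2, ← Finset.sum_add_distrib, Finset.sum_div]
      refine Finset.sum_congr rfl fun a _ => ?_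
      rw [← Finset.sum_add_distrib, Finset.sum_div]
      refine Finset.sum_congr rfl fun b _ => ?_
      ring
    rw [h1, Complex.add_conj, hX]
    push_cast
    ring

theorem quartic_coef {c : Fin 4 → ℂ} (h : ∀ s : ℂ, ∑ a, c a * s ^ (a : ℕ) = 0) : ∀ a, c a = 0 := by
  have h0 := h 0
  have h1 := h 1
  have h2 := h (-1)
  have h3 := h 2
  simp only [Fin.sum_univ_four, Fin.isValue, Fin.coe_ofNat_eq_mod, Nat.reduceMod, pow_zero,
    pow_one, mul_one, one_pow] at h0 h1 h2 h3
  norm_num at h0 h1 h2 h3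
  have e1 : c 2 = 0 := by linear_combination (1 / 2) * h1 + (1 / 2) * h2 - h0
  have e2 : c 3 = 0 := by
    linear_combination (1 / 6) * h3 - (1 / 3) * h1 + (1 / 6) * h0 - (1 / 3) * e1
  have e3 : c 1 = 0 := by linear_combination h1 - h0 - e1 - e2
  intro a
  fin_cases a
  · exact h0
  · exact e3
  · exact e1
  · exact e2

theorem poly_conj_zero {p : Arr 3}
    (h : ∀ z : ℂ, ∑ a, ∑ b, p a b * (z ^ (a : ℕ) * (starRingEnd ℂ) z ^ (b : ℕ)) = 0) : p = 0 := by
  have hinf : ∀ G : Polynomial ℂ, (∀ y : ℝ, G.eval (y : ℂ) = 0) → G = 0 := by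
    intro G hG
    refine Polynomial.eq_zero_of_infinite_isRoot G ?_
    exact Set.infinite_of_injective_forall_mem Complex.ofReal_injective hG
  have h1 : ∀ (x : ℝ) (y : ℂ), ∑ a : Fin 4, ∑ b : Fin 4, p a b * (((x : ℂ) + Complex.I * y) ^ (a : ℕ) *
      ((x : ℂ) - Complex.I * y) ^ (b : ℕ)) = 0 := by
    intro x y
    set G : Polynomial ℂ := ∑ a : Fin 4, ∑ b : Fin 4, Polynomial.C (p a b) *
      ((Polynomial.C (x : ℂ) + Polynomial.C Complex.I * Polynomial.X) ^ (a : ℕ) *
      (Polynomial.C (x : ℂ) - Polynomial.C Complex.I * Polynomial.X) ^ (b : ℕ)) with hG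
    have hev : ∀ y : ℂ, G.eval y = ∑ a : Fin 4, ∑ b : Fin 4, p a b *
        (((x : ℂ) + Complex.I * y) ^ (a : ℕ) * ((x : ℂ) - Complex.I * y) ^ (b : ℕ)) := by
      intro y
      simp [hG, Polynomial.eval_finsetSum]
    have h0 : G = 0 := by
      refine hinf G fun y => ?_
      rw [hev]
      have := h ((x : ℂ) + Complex.I * y)
      simpa [sub_eq_add_neg] using this
    rw [← hev, h0, Polynomial.eval_zero]
  have h2 : ∀ (x y : ℂ), ∑ a : Fin 4, ∑ b : Fin 4, p a b * ((x + Complex.I * y) ^ (a : ℕ) *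
      (x - Complex.I * y) ^ (b : ℕ)) = 0 := by
    intro x y
    set G : Polynomial ℂ := ∑ a : Fin 4, ∑ b : Fin 4, Polynomial.C (p a b) *
      ((Polynomial.X + Polynomial.C (Complex.I * y)) ^ (a : ℕ) *
      (Polynomial.X - Polynomial.C (Complex.I * y)) ^ (b : ℕ)) with hG
    have hev : ∀ x : ℂ, G.eval x = ∑ a : Fin 4, ∑ b : Fin 4, p a b *
        ((x + Complex.I * y) ^ (a : ℕ) * (x - Complex.I * y) ^ (b : ℕ)) := by
      intro x
      simp [hG, Polynomial.eval_finsetSum]
    have h0 : G = 0 := by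
      refine hinf G fun x => ?_
      rw [hev]
      exact h1 x y
    rw [← hev, h0, Polynomial.eval_zero]
  have h3 : ∀ s t : ℂ, ∑ b : Fin 4, (∑ a : Fin 4, p a b * s ^ (a : ℕ)) * t ^ (b : ℕ) = 0 := by
    intro s t
    have := h2 ((s + t) / 2) ((s - t) / (2 * Complex.I))
    have e1 : (s + t) / 2 + Complex.I * ((s - t) / (2 * Complex.I)) = s := by
      field_simp; ring
    have e2 : (s + t) / 2 - Complex.I * ((s - t) / (2 * Complex.I)) = t := by
      field_simp; ring
    rw [e1, e2, Finset.sum_comm] at this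
    rw [← this]
    refine Finset.sum_congr rfl fun b _ => ?_
    rw [Finset.sum_mul]
    refine Finset.sum_congr rfl fun a _ => ?_
    ring
  funext a b
  have h4 : ∀ s : ℂ, ∑ a : Fin 4, p a b * s ^ (a : ℕ) = 0 := fun s => quartic_coef (h3 s) b
  exact quartic_coef (c := fun a => p a b) h4 a

/-- Hermitian arrays lie in the span of the arrays of points. -/
theorem mem_spanV {τ : Arr 3} (hτ : Herm τ) : τ ∈ spanV 3 := by
  by_contra hc
  obtain ⟨X, hX, hker⟩ := Submodule.exists_le_ker_of_notMem hc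
  obtain ⟨p, hp, hXp⟩ := exists_coef X
  have h0 : ∀ v w, X (dl 3 v w) = 0 := by
    intro v w
    have : dl 3 v w ∈ spanV 3 := Submodule.subset_span ⟨(v, w), rfl⟩
    exact hker this
  have hp0 : p = 0 := by
    refine poly_conj_zero fun z => ?_
    have h1 := hXp _ (herm_dl 1 z)
    rw [h0] at h1
    rw [Complex.ofReal_zero] at h1
    rw [h1]
    refine Finset.sum_congr rfl fun a _ => Finset.sum_congr rfl fun b _ => ?_
    simp [dl]
  apply hX
  have h1 := hXp τ hτ
  rw [hp0] at h1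
  simpa using h1

theorem herm_tau {κ : Type*} [Fintype κ] [DecidableEq κ] (A : Fin 2 → Matrix κ κ ℂ) :
    Herm (tauW (Wd A)) := by
  have hW : ∀ j1 k1 j2 k2 j3 k3 : Fin 2, (starRingEnd ℂ) (Wd A j1 k1 j2 k2 j3 k3) =
      Wd A k3 j3 k2 j2 k1 j1 := by
    intro j1 k1 j2 k2 j3 k3
    unfold Wd
    have := Matrix.trace_conjTranspose
      (A j1 * ((A k1)ᴴ * (A j2 * ((A k2)ᴴ * (A j3 * (A k3)ᴴ)))))
    rw [RCLike.star_def] at this
    rw [← this]
    simp only [Matrix.conjTranspose_mul, Matrix.conjTranspose_conjTranspose, Matrix.mul_assoc]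
  have hcyc := Wd_cyc A
  intro a b
  fin_cases a <;> fin_cases b <;>
    simp only [tauW, avg, Fin.zero_eta, Fin.mk_one, Fin.reduceFinMk, Matrix.cons_val, map_div₀,
      map_add, map_ofNat, hW] <;> ring

theorem tau_mem_spanV {κ : Type*} [Fintype κ] [DecidableEq κ] (A : Fin 2 → Matrix κ κ ℂ) :
    tauW (Wd A) ∈ spanV 3 := mem_spanV (herm_tau A)

end Pool.Agent.Lib.Helper34.SP
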