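import Mathlib
import Pool.Agent.Lib.Helper34.SP.Asym

set_option autoImplicit false

open MeasureTheory Set Filter Topology

namespace Pool.Agent.Lib.Helper34.SP

theorem poly_limit (D : Polynomial ℝ) {q L : ℝ} (hq : ∀ k : ℕ, (k : ℝ) ≠ q)
    (h : Tendsto (fun ε : ℝ => D.eval ε * ε ^ (-q)) (𝓝[>] 0) (𝓝 L)) : L = 0 := by
  by_cases hD : D = 0
  · subst hD
    simp only [Polynomial.eval_zero, zero_mul] at h
    exact (tendsto_nhds_unique h tendsto_const_nhds)
  · obtain ⟨E, hE, hndvd⟩ := Polynomial.exists_eq_pow_rootMultiplicity_mul_and_not_dvd D hD 0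
    set k := Polynomial.rootMultiplicity 0 D with hk
    have hE0 : E.eval 0 ≠ 0 := by
      intro h0
      exact hndvd (Polynomial.dvd_iff_isRoot.2 h0)
    have hEc : Tendsto (fun ε : ℝ => E.eval ε) (𝓝[>] 0) (𝓝 (E.eval 0)) :=
      (E.continuous.tendsto 0).mono_left nhdsWithin_le_nhds
    have hDeval : ∀ ε : ℝ, D.eval ε = ε ^ k * E.eval ε := by
      intro ε
      conv_lhs => rw [hE]
      simp
    rcases lt_or_gt_of_ne (hq k) with hlt | hgt
    · -- k < q : contradiction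
      exfalso
      have h1 : Tendsto (fun ε : ℝ => ε ^ (q - k)) (𝓝[>] 0) (𝓝 0) := by
        have : ContinuousAt (fun ε : ℝ => ε ^ (q - k)) 0 :=
          (Real.continuousAt_rpow_const 0 (q - k) (Or.inr (by linarith)))
        have h2 := this.tendsto.mono_left (nhdsWithin_le_nhds (s := Ioi (0 : ℝ)))
        rwa [Real.zero_rpow (by linarith)] at h2
      have h2 := h.mul h1
      rw [mul_zero] at h2
      have h3 : Tendsto (fun ε : ℝ => E.eval ε) (𝓝[>] 0) (𝓝 0) := by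
        refine h2.congr' ?_
        filter_upwards [self_mem_nhdsWithin] with ε hε
        have hε0 : (0 : ℝ) < ε := hε
        rw [hDeval]
        have : ε ^ k * Polynomial.eval ε E * ε ^ (-q) * ε ^ (q - k) =
            (ε ^ (k : ℝ) * ε ^ (-q) * ε ^ (q - k)) * Polynomial.eval ε E := by
          rw [Real.rpow_natCast]; ring
        rw [this, ← Real.rpow_add hε0, ← Real.rpow_add hε0]
        have : (k : ℝ) + -q + (q - k) = 0 := by ring
        rw [this, Real.rpow_zero, one_mul]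
      exact hE0 (tendsto_nhds_unique hEc h3)
    · -- q < k : limit zero
      have h1 : Tendsto (fun ε : ℝ => ε ^ ((k : ℝ) - q)) (𝓝[>] 0) (𝓝 0) := by
        have : ContinuousAt (fun ε : ℝ => ε ^ ((k : ℝ) - q)) 0 :=
          (Real.continuousAt_rpow_const 0 ((k : ℝ) - q) (Or.inr (by linarith)))
        have h2 := this.tendsto.mono_left (nhdsWithin_le_nhds (s := Ioi (0 : ℝ)))
        rwa [Real.zero_rpow (by linarith)] at h2
      have h2 := h1.mul hEc
      rw [zero_mul] at h2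
      have h3 : Tendsto (fun ε : ℝ => D.eval ε * ε ^ (-q)) (𝓝[>] 0) (𝓝 0) := by
        refine h2.congr' ?_
        filter_upwards [self_mem_nhdsWithin] with ε hε
        have hε0 : (0 : ℝ) < ε := hε
        rw [hDeval, sub_eq_add_neg, Real.rpow_add hε0, Real.rpow_natCast]
        ring
      exact tendsto_nhds_unique h h3

/-- The antiderivative of `P(y) y^{-m-2}`. -/
noncomputable def aF (m y : ℝ) : ℝ :=
  -(s1 y ^ (2 * m + 2) + s2 y ^ (2 * m + 2)) / (m + 1) +
    y ^ 2 * (s1 y ^ (2 * m - 2) + s2 y ^ (2 * m - 2)) / (m - 1)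

theorem s2_pos {y : ℝ} (hy : 0 < y) : 0 < s2 y := by
  rw [s2_eq hy.le]
  exact div_pos hy (s1_pos hy.le)

theorem hasDerivAt_sqrt_aux {y : ℝ} (hy : 0 ≤ y) :
    HasDerivAt (fun y : ℝ => Real.sqrt (1 + 4 * y)) (2 / (s1 y + s2 y)) y := by
  have h1 : HasDerivAt (fun y : ℝ => 1 + 4 * y) 4 y := by
    simpa using ((hasDerivAt_id y).const_mul (4 : ℝ)).const_add 1
  have h2 := h1.sqrt (by linarith : (1 : ℝ) + 4 * y ≠ 0)
  refine h2.congr_deriv ?_
  have : s1 y + s2 y = Real.sqrt (1 + 4 * y) := by unfold s1 s2; ring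
  rw [this]
  have h3 := sqrt_one_add hy
  field_simp
  norm_num

theorem hasDerivAt_s1 {y : ℝ} (hy : 0 ≤ y) : HasDerivAt s1 (1 / (s1 y + s2 y)) y := by
  have h := ((hasDerivAt_sqrt_aux hy).const_add 1).div_const 2
  refine h.congr_deriv ?_
  ring

theorem hasDerivAt_s2 {y : ℝ} (hy : 0 ≤ y) : HasDerivAt s2 (1 / (s1 y + s2 y)) y := by
  have h := ((hasDerivAt_sqrt_aux hy).sub_const 1).div_const 2
  refine h.congr_deriv ?_
  ring

theorem hasDerivAt_theta {m y : ℝ} (hm : 1 < m) (hy : 0 < y) :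
    HasDerivAt (fun y : ℝ => y ^ (-(m + 1)) * aF m y) (PF m y * y ^ (-(m + 2))) y := by
  have hs := s1_pos hy.le
  have ht := s2_pos hy
  have hst := s1_mul_s2 hy.le
  have hsub := s1_sub_s2 y
  have hD : 0 < s1 y + s2 y := by positivity
  have hm1 : m - 1 ≠ 0 := by linarith
  have hm2 : m + 1 ≠ 0 := by linarith
  have d1 := hasDerivAt_s1 hy.le
  have d2 := hasDerivAt_s2 hy.le
  have e1 := d1.rpow_const (p := 2 * m + 2) (Or.inl hs.ne')
  have e2 := d2.rpow_const (p := 2 * m + 2) (Or.inl ht.ne')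
  have e3 := d1.rpow_const (p := 2 * m - 2) (Or.inl hs.ne')
  have e4 := d2.rpow_const (p := 2 * m - 2) (Or.inl ht.ne')
  have e5 : HasDerivAt (fun y : ℝ => y ^ 2) (2 * y) y := by
    simpa using hasDerivAt_pow 2 y
  have e6 : HasDerivAt (fun y : ℝ => y ^ (-(m + 1))) (-(m + 1) * y ^ (-(m + 1) - 1)) y :=
    Real.hasDerivAt_rpow_const (Or.inl hy.ne')
  have e7 := (((e1.add e2).neg.div_const (m + 1)).add ((e5.mul (e3.add e4)).div_const (m - 1)))
  have e8 := e6.mul e7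
  refine e8.congr_deriv ?_
  -- powers
  have p1 : s1 y ^ (2 * m + 2) = s1 y ^ (2 * m) * s1 y ^ 2 := by
    rw [Real.rpow_add hs]; norm_cast
  have p2 : s2 y ^ (2 * m + 2) = s2 y ^ (2 * m) * s2 y ^ 2 := by
    rw [Real.rpow_add ht]; norm_cast
  have p3 : s1 y ^ (2 * m + 2 - 1) = s1 y ^ (2 * m) * s1 y := by
    rw [show 2 * m + 2 - 1 = 2 * m + 1 by ring, Real.rpow_add hs, Real.rpow_one]
  have p4 : s2 y ^ (2 * m + 2 - 1) = s2 y ^ (2 * m) * s2 y := by
    rw [show 2 * m + 2 - 1 = 2 * m + 1 by ring, Real.rpow_add ht, Real.rpow_one]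
  have p5 : s1 y ^ (2 * m - 2) = s1 y ^ (2 * m) / s1 y ^ 2 := by
    rw [Real.rpow_sub hs]; norm_cast
  have p6 : s2 y ^ (2 * m - 2) = s2 y ^ (2 * m) / s2 y ^ 2 := by
    rw [Real.rpow_sub ht]; norm_cast
  have p7 : s1 y ^ (2 * m - 2 - 1) = s1 y ^ (2 * m) / s1 y ^ 3 := by
    rw [show 2 * m - 2 - 1 = 2 * m - 3 by ring, Real.rpow_sub hs]; norm_cast
  have p8 : s2 y ^ (2 * m - 2 - 1) = s2 y ^ (2 * m) / s2 y ^ 3 := by
    rw [show 2 * m - 2 - 1 = 2 * m - 3 by ring, Real.rpow_sub ht]; norm_cast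
  have p9 : y ^ (-(m + 1) - 1) = y ^ (-(m + 2)) := by
    rw [show -(m + 1) - 1 = -(m + 2) by ring]
  have p10 : y ^ (-(m + 1)) = y ^ (-(m + 2)) * y := by
    rw [show -(m + 1) = -(m + 2) + 1 by ring, Real.rpow_add hy, Real.rpow_one]
  simp only [Pi.add_apply, Pi.neg_apply, Pi.mul_apply, p1, p2, p3, p4, p5, p6, p7, p8, p9, p10, PF]
  generalize s1 y ^ (2 * m) = U at *
  generalize s2 y ^ (2 * m) = V at *
  generalize y ^ (-(m + 2)) = W at *
  generalize s1 y = s at *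
  generalize s2 y = t at *
  have hs' : s = t + 1 := by linarith
  subst hst hs'
  have ht0 : t ≠ 0 := ht.ne'
  have ht1 : t + 1 ≠ 0 := hs.ne'
  have ht2 : t + 1 + t ≠ 0 := hD.ne'
  field_simp
  ring

theorem tendsto_s2_atTop : Tendsto s2 atTop atTop := by
  unfold s2
  refine Tendsto.atTop_div_const (by norm_num) (tendsto_atTop_add_const_right _ (-1) ?_)
  refine Real.tendsto_sqrt_atTop.comp ?_
  exact tendsto_atTop_add_const_left _ _ (Tendsto.const_mul_atTop (by norm_num) tendsto_id)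

theorem tendsto_ratio1 : Tendsto (fun y => s1 y ^ 2 / y) atTop (𝓝 1) := by
  have h1 : Tendsto (fun y => 1 + (s2 y)⁻¹) atTop (𝓝 (1 + 0)) :=
    tendsto_const_nhds.add (tendsto_inv_atTop_zero.comp tendsto_s2_atTop)
  rw [add_zero] at h1
  refine h1.congr' ?_
  filter_upwards [eventually_gt_atTop 0] with y hy
  have ht := s2_pos hy
  have hst := s1_mul_s2 hy.le
  have hs := s1_pos hy.le
  have hsub := s1_sub_s2 y
  have h5 : s1 y ^ 2 / y = s1 y / s2 y := by
    rw [div_eq_div_iff hy.ne' ht.ne', pow_two, mul_assoc, hst]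
  rw [h5]
  have : s1 y = s2 y + 1 := by linarith
  rw [this]
  field_simp

theorem tendsto_ratio2 : Tendsto (fun y => s2 y ^ 2 / y) atTop (𝓝 1) := by
  have h := tendsto_ratio1.inv₀ one_ne_zero
  rw [inv_one] at h
  refine h.congr' ?_
  filter_upwards [eventually_gt_atTop 0] with y hy
  have ht := s2_pos hy
  have hst := s1_mul_s2 hy.le
  have hs := s1_pos hy.le
  have h2 : y ^ 2 = s1 y ^ 2 * s2 y ^ 2 := by rw [← mul_pow, hst]
  field_simp
  exact h2

theorem tendsto_theta_atTop {m : ℝ} (hm : 1 < m) :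
    Tendsto (fun y : ℝ => y ^ (-(m + 1)) * aF m y) atTop (𝓝 (4 / ((m - 1) * (m + 1)))) := by
  have h1 : ∀ c : ℝ, Tendsto (fun y => (s1 y ^ 2 / y) ^ c) atTop (𝓝 1) := by
    intro c
    have := tendsto_ratio1.rpow_const (p := c) (Or.inl one_ne_zero)
    rwa [Real.one_rpow] at this
  have h2 : ∀ c : ℝ, Tendsto (fun y => (s2 y ^ 2 / y) ^ c) atTop (𝓝 1) := by
    intro c
    have := tendsto_ratio2.rpow_const (p := c) (Or.inl one_ne_zero)
    rwa [Real.one_rpow] at this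
  have h3 : Tendsto (fun y => -((s1 y ^ 2 / y) ^ (m + 1) + (s2 y ^ 2 / y) ^ (m + 1)) / (m + 1) +
      ((s1 y ^ 2 / y) ^ (m - 1) + (s2 y ^ 2 / y) ^ (m - 1)) / (m - 1)) atTop
      (𝓝 (-(1 + 1) / (m + 1) + (1 + 1) / (m - 1))) :=
    (((h1 _).add (h2 _)).neg.div_const _).add (((h1 _).add (h2 _)).div_const _)
  have h4 : -(1 + 1 : ℝ) / (m + 1) + (1 + 1) / (m - 1) = 4 / ((m - 1) * (m + 1)) := by
    have : m - 1 ≠ 0 := by linarith
    have : m + 1 ≠ 0 := by linarith
    field_simp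
    ring
  rw [h4] at h3
  refine h3.congr' ?_
  filter_upwards [eventually_gt_atTop 0] with y hy
  have ht := s2_pos hy
  have hs := s1_pos hy.le
  have q1 : ∀ {s : ℝ}, 0 < s → (s ^ 2 / y) ^ (m + 1) = y ^ (-(m + 1)) * s ^ (2 * m + 2) := by
    intro s hs
    rw [Real.div_rpow (by positivity) hy.le, ← Real.rpow_natCast s 2, ← Real.rpow_mul hs.le,
      Real.rpow_neg hy.le]
    have : ((2 : ℕ) : ℝ) * (m + 1) = 2 * m + 2 := by push_cast; ring
    rw [this]; field_simp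
  have q2 : ∀ {s : ℝ}, 0 < s → (s ^ 2 / y) ^ (m - 1) =
      y ^ (-(m + 1)) * (y ^ 2 * s ^ (2 * m - 2)) := by
    intro s hs
    rw [Real.div_rpow (by positivity) hy.le, ← Real.rpow_natCast s 2, ← Real.rpow_mul hs.le]
    have e1 : ((2 : ℕ) : ℝ) * (m - 1) = 2 * m - 2 := by push_cast; ring
    have e2 : y ^ (-(m + 1)) * y ^ 2 = (y ^ (m - 1))⁻¹ := by
      rw [← Real.rpow_natCast y 2, ← Real.rpow_add hy, ← Real.rpow_neg hy.le]
      congr 1; push_cast; ring
    rw [e1, ← mul_assoc, e2]; field_simp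
  rw [q1 hs, q1 ht, q2 hs, q2 ht]
  unfold aF
  ring

end Pool.Agent.Lib.Helper34.SP
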