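import Mathlib
import Pool.Agent.Lib.Helper34.SP.FinitePart

set_option autoImplicit false

open MeasureTheory Set Filter Topology

namespace Pool.Agent.Lib.Helper34.SP

theorem s2_rpow_le_rpow {y c : ℝ} (hy : 0 ≤ y) (hc : 0 ≤ c) : s2 y ^ c ≤ y ^ c :=
  Real.rpow_le_rpow (s2_nonneg hy) (s2_le hy) hc

theorem rho_small {n : ℕ} {m C : ℝ} (hm : 0 < m) {T : ℕ → ℝ}
    (hC : ∀ y ∈ Icc (0 : ℝ) 1,
      |s1 y ^ (2 * m) - ∑ j ∈ Finset.range (n + 2), T j * y ^ j| ≤ C * y ^ (n + 2))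
    (hC0 : 0 ≤ C) {q : ℝ} (hq1 : q ≤ n + 2) (hq2 : q ≤ 2 * m) {y : ℝ} (hy : 0 < y) (hy1 : y ≤ 1) :
    |PF m y - ∑ j ∈ Finset.range (n + 2), T j * y ^ j| ≤ (C + 1) * y ^ q := by
  have h1 := hC y ⟨hy.le, hy1⟩
  have h2 := s2_rpow_le_rpow hy.le (by linarith : 0 ≤ 2 * m)
  have h3 : 0 ≤ s2 y ^ (2 * m) := Real.rpow_nonneg (s2_nonneg hy.le) _
  have h4 : y ^ (2 * m) ≤ y ^ q := Real.rpow_le_rpow_of_exponent_ge hy hy1 hq2
  have h5 : y ^ (n + 2) ≤ y ^ q := by
    have : y ^ ((n + 2 : ℕ) : ℝ) ≤ y ^ q :=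
      Real.rpow_le_rpow_of_exponent_ge hy hy1 (by push_cast; exact hq1)
    rwa [Real.rpow_natCast] at this
  have h6 : PF m y - ∑ j ∈ Finset.range (n + 2), T j * y ^ j =
      (s1 y ^ (2 * m) - ∑ j ∈ Finset.range (n + 2), T j * y ^ j) + s2 y ^ (2 * m) := by
    unfold PF; ring
  rw [h6]
  calc |(s1 y ^ (2 * m) - ∑ j ∈ Finset.range (n + 2), T j * y ^ j) + s2 y ^ (2 * m)| ≤
      |s1 y ^ (2 * m) - ∑ j ∈ Finset.range (n + 2), T j * y ^ j| + |s2 y ^ (2 * m)| :=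
        abs_add_le _ _
    _ ≤ C * y ^ (n + 2) + y ^ (2 * m) := by
        rw [abs_of_nonneg h3]; exact add_le_add h1 h2
    _ ≤ C * y ^ q + y ^ q := add_le_add (mul_le_mul_of_nonneg_left h5 hC0) h4
    _ = (C + 1) * y ^ q := by ring

theorem rho_large {n : ℕ} {m : ℝ} (hm : 0 < m) (hmn : m ≤ n + 1) (T : ℕ → ℝ) :
    ∃ C2 : ℝ, 0 ≤ C2 ∧ ∀ y, 1 ≤ y →
      |PF m y - ∑ j ∈ Finset.range (n + 2), T j * y ^ j| ≤ C2 * y ^ (n + 1) := by
  refine ⟨2 * 3 ^ m + ∑ j ∈ Finset.range (n + 2), |T j|, by positivity, fun y hy => ?_⟩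
  have hy0 : 0 < y := by linarith
  have h1 : PF m y ≤ 2 * 3 ^ m * y ^ (n + 1) := by
    refine (PF_le hm hy0.le).trans ?_
    rw [mul_assoc]
    refine mul_le_mul_of_nonneg_left ?_ (by norm_num)
    calc (1 + 2 * y) ^ m ≤ (3 * y) ^ m := Real.rpow_le_rpow (by positivity) (by linarith) hm.le
      _ = 3 ^ m * y ^ m := Real.mul_rpow (by norm_num) hy0.le
      _ ≤ 3 ^ m * y ^ (n + 1) := by
          refine mul_le_mul_of_nonneg_left ?_ (by positivity)
          have : y ^ m ≤ y ^ ((n + 1 : ℕ) : ℝ) :=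
            Real.rpow_le_rpow_of_exponent_le hy (by push_cast; exact hmn)
          rwa [Real.rpow_natCast] at this
  have h2 : |∑ j ∈ Finset.range (n + 2), T j * y ^ j| ≤
      (∑ j ∈ Finset.range (n + 2), |T j|) * y ^ (n + 1) := by
    refine (Finset.abs_sum_le_sum_abs _ _).trans ?_
    rw [Finset.sum_mul]
    refine Finset.sum_le_sum fun j hj => ?_
    rw [abs_mul, abs_of_nonneg (by positivity : 0 ≤ y ^ j)]
    have : j ≤ n + 1 := by have := Finset.mem_range.1 hj; omega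
    gcongr
  calc |PF m y - ∑ j ∈ Finset.range (n + 2), T j * y ^ j| ≤
      |PF m y| + |∑ j ∈ Finset.range (n + 2), T j * y ^ j| := abs_sub _ _
    _ ≤ 2 * 3 ^ m * y ^ (n + 1) + (∑ j ∈ Finset.range (n + 2), |T j|) * y ^ (n + 1) := by
        rw [abs_of_nonneg (PF_nonneg hy0.le)]; exact add_le_add h1 h2
    _ = _ := by ring

theorem integrableOn_rho {n : ℕ} {m C : ℝ} (hm : 1 < m) (hn : (n : ℝ) < m) (hmn : m < n + 1)
    {T : ℕ → ℝ} (hC : ∀ y ∈ Icc (0 : ℝ) 1,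
      |s1 y ^ (2 * m) - ∑ j ∈ Finset.range (n + 2), T j * y ^ j| ≤ C * y ^ (n + 2))
    (hC0 : 0 ≤ C) :
    IntegrableOn (fun y => (PF m y - ∑ j ∈ Finset.range (n + 2), T j * y ^ j) * y ^ (-(m + 2)))
      (Ioi 0) := by
  have hm0 : 0 < m := by linarith
  have hmeas : Measurable (fun y => (PF m y - ∑ j ∈ Finset.range (n + 2), T j * y ^ j) *
      y ^ (-(m + 2))) := by
    have := (continuous_PF hm0).measurable
    fun_prop
  rw [← Ioc_union_Ioi_eq_Ioi (zero_le_one' ℝ)]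
  refine IntegrableOn.union ?_ ?_
  · set q : ℝ := min (n + 2) (2 * m) with hq
    have hq3 : m + 1 < q := lt_min (by linarith) (by linarith)
    have hint : IntegrableOn (fun y : ℝ => (C + 1) * y ^ (q - (m + 2))) (Ioc 0 1) := by
      have := (intervalIntegral.intervalIntegrable_rpow' (a := 0) (b := 1)
        (r := q - (m + 2)) (by linarith)).const_mul (C + 1)
      rwa [intervalIntegrable_iff_integrableOn_Ioc_of_le zero_le_one] at this
    refine hint.mono' hmeas.aestronglyMeasurable ?_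
    refine (ae_restrict_iff' measurableSet_Ioc).2 (Eventually.of_forall fun y hy => ?_)
    have hy0 : (0 : ℝ) < y := hy.1
    rw [norm_mul, Real.norm_eq_abs, Real.norm_of_nonneg (by positivity : 0 ≤ y ^ (-(m + 2))),
      sub_eq_add_neg q, Real.rpow_add hy0, ← mul_assoc]
    gcongr
    exact rho_small hm0 hC hC0 (min_le_left _ _) (min_le_right _ _) hy0 hy.2
  · obtain ⟨C2, hC2, hb⟩ := rho_large hm0 hmn.le T
    have hint : IntegrableOn (fun y : ℝ => C2 * y ^ ((n : ℝ) + 1 - (m + 2))) (Ioi 1) :=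
      (integrableOn_Ioi_rpow_of_lt (by linarith) one_pos).const_mul C2
    refine hint.mono' hmeas.aestronglyMeasurable ?_
    refine (ae_restrict_iff' measurableSet_Ioi).2 (Eventually.of_forall fun y hy => ?_)
    have hy1 : (1 : ℝ) < y := hy
    have hy0 : (0 : ℝ) < y := by linarith
    rw [norm_mul, Real.norm_eq_abs, Real.norm_of_nonneg (by positivity : 0 ≤ y ^ (-(m + 2))),
      sub_eq_add_neg ((n : ℝ) + 1), Real.rpow_add hy0, ← mul_assoc]
    gcongr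
    have := hb y hy1.le
    have e : y ^ ((n : ℝ) + 1) = y ^ (n + 1) := by exact_mod_cast Real.rpow_natCast y (n + 1)
    rwa [e]

/-- `Θ_ρ`, the antiderivative of `ρ(y) y^{-m-2}`. -/
noncomputable def thetaR (m : ℝ) (n : ℕ) (T : ℕ → ℝ) (y : ℝ) : ℝ :=
  y ^ (-(m + 1)) * aF m y -
    ∑ j ∈ Finset.range (n + 2), T j * (y ^ ((j : ℝ) - (m + 1)) / ((j : ℝ) - (m + 1)))

theorem hasDerivAt_thetaR {m : ℝ} (hm : 1 < m) {n : ℕ} (hn : (n : ℝ) < m) (T : ℕ → ℝ) {y : ℝ}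
    (hy : 0 < y) : HasDerivAt (thetaR m n T)
      ((PF m y - ∑ j ∈ Finset.range (n + 2), T j * y ^ j) * y ^ (-(m + 2))) y := by
  have h1 := hasDerivAt_theta hm hy
  have h2 : HasDerivAt (fun y : ℝ => ∑ j ∈ Finset.range (n + 2),
      T j * (y ^ ((j : ℝ) - (m + 1)) / ((j : ℝ) - (m + 1))))
      (∑ j ∈ Finset.range (n + 2), T j * (y ^ j * y ^ (-(m + 2)))) y := by
    refine HasDerivAt.fun_sum fun j hj => HasDerivAt.const_mul (T j) ?_
    have hj1 : (j : ℝ) ≤ (n : ℝ) + 1 := by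
      have := Finset.mem_range.1 hj
      exact_mod_cast (by omega : j ≤ n + 1)
    have hj2 : (j : ℝ) - (m + 1) ≠ 0 := by linarith
    refine ((Real.hasDerivAt_rpow_const (p := (j : ℝ) - (m + 1)) (Or.inl hy.ne')).div_const
      ((j : ℝ) - (m + 1))).congr_deriv ?_
    have e1 : ((j : ℝ) - (m + 1)) * y ^ ((j : ℝ) - (m + 1) - 1) / ((j : ℝ) - (m + 1)) =
        y ^ ((j : ℝ) - (m + 1) - 1) := by field_simp
    rw [e1, ← Real.rpow_natCast, ← Real.rpow_add hy]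
    congr 1; ring
  refine (h1.sub h2).congr_deriv ?_
  rw [sub_mul, Finset.sum_mul]
  congr 1
  exact Finset.sum_congr rfl fun j _ => by ring

theorem tendsto_thetaR_atTop {m : ℝ} (hm : 1 < m) {n : ℕ} (hn : (n : ℝ) < m) (T : ℕ → ℝ) :
    Tendsto (thetaR m n T) atTop (𝓝 (4 / ((m - 1) * (m + 1)))) := by
  have h1 := tendsto_theta_atTop hm
  have h2 : Tendsto (fun y : ℝ => ∑ j ∈ Finset.range (n + 2),
      T j * (y ^ ((j : ℝ) - (m + 1)) / ((j : ℝ) - (m + 1)))) atTop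
      (𝓝 (∑ j ∈ Finset.range (n + 2), T j * (0 / ((j : ℝ) - (m + 1))))) := by
    refine tendsto_finsetSum _ fun j hj => Tendsto.const_mul (T j) (Tendsto.div_const ?_ _)
    have hj1 : (j : ℝ) ≤ (n : ℝ) + 1 := by
      have := Finset.mem_range.1 hj
      exact_mod_cast (by omega : j ≤ n + 1)
    have h3 := tendsto_rpow_neg_atTop (y := (m + 1) - (j : ℝ)) (by linarith)
    simpa using h3
  have h3 := h1.sub h2
  simp only [zero_div, mul_zero, Finset.sum_const_zero, sub_zero] at h3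
  exact h3

theorem integral_rho_Ioi {n : ℕ} {m C : ℝ} (hm : 1 < m) (hn : (n : ℝ) < m) (hmn : m < n + 1)
    {T : ℕ → ℝ} (hC : ∀ y ∈ Icc (0 : ℝ) 1,
      |s1 y ^ (2 * m) - ∑ j ∈ Finset.range (n + 2), T j * y ^ j| ≤ C * y ^ (n + 2))
    (hC0 : 0 ≤ C) {ε : ℝ} (hε : 0 < ε) :
    ∫ y in Ioi ε, (PF m y - ∑ j ∈ Finset.range (n + 2), T j * y ^ j) * y ^ (-(m + 2)) =
      4 / ((m - 1) * (m + 1)) - thetaR m n T ε := by
  refine integral_Ioi_of_hasDerivAt_of_tendsto' (fun y hy => ?_) ?_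
    (tendsto_thetaR_atTop hm hn T)
  · exact hasDerivAt_thetaR hm hn T (lt_of_lt_of_le hε hy)
  · exact (integrableOn_rho hm hn hmn hC hC0).mono_set (Ioi_subset_Ioi hε.le)

theorem tendsto_thetaR_zero {n : ℕ} {m C : ℝ} (hm : 1 < m) (hn : (n : ℝ) < m) (hmn : m < n + 1)
    {T : ℕ → ℝ} (hC : ∀ y ∈ Icc (0 : ℝ) 1,
      |s1 y ^ (2 * m) - ∑ j ∈ Finset.range (n + 2), T j * y ^ j| ≤ C * y ^ (n + 2))
    (hC0 : 0 ≤ C) :
    Tendsto (thetaR m n T) (𝓝[>] 0) (𝓝 (4 / ((m - 1) * (m + 1)) -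
      ∫ y in Ioi (0 : ℝ), (PF m y - ∑ j ∈ Finset.range (n + 2), T j * y ^ j) *
        y ^ (-(m + 2)))) := by
  set F : ℝ → ℝ := fun y => (PF m y - ∑ j ∈ Finset.range (n + 2), T j * y ^ j) * y ^ (-(m + 2))
    with hF
  have hint := integrableOn_rho hm hn hmn hC hC0
  have h1 : Tendsto (fun ε : ℝ => ∫ y in Ioi (0 : ℝ), (Ioi ε).indicator F y) (𝓝[>] 0)
      (𝓝 (∫ y in Ioi (0 : ℝ), F y)) := by
    refine tendsto_integral_filter_of_dominated_convergence (fun y => ‖F y‖) ?_ ?_ hint.norm ?_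
    · exact Eventually.of_forall fun ε => hint.aestronglyMeasurable.indicator measurableSet_Ioi
    · exact Eventually.of_forall fun ε => Eventually.of_forall fun y => norm_indicator_le_norm_self _ _
    · refine (ae_restrict_iff' measurableSet_Ioi).2 (Eventually.of_forall fun y hy => ?_)
      refine tendsto_const_nhds.congr' ?_
      have hy0 : (0 : ℝ) < y := hy
      filter_upwards [nhdsWithin_le_nhds (Iio_mem_nhds hy0)] with ε hε
      rw [indicator_of_mem]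
      exact hε
  have h2 : ∀ᶠ ε : ℝ in 𝓝[>] 0, ∫ y in Ioi (0 : ℝ), (Ioi ε).indicator F y =
      4 / ((m - 1) * (m + 1)) - thetaR m n T ε := by
    filter_upwards [self_mem_nhdsWithin] with ε hε
    have hε0 : (0 : ℝ) < ε := hε
    rw [← integral_rho_Ioi hm hn hmn hC hC0 hε0, setIntegral_indicator measurableSet_Ioi]
    congr 2
    ext y
    simp only [mem_inter_iff, mem_Ioi]
    constructor
    · exact fun h => h.2
    · exact fun h => ⟨hε0.trans h, h⟩
  have h3 := (h1.congr' h2)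
  have h4 := h3.const_sub (4 / ((m - 1) * (m + 1)))
  refine h4.congr fun ε => ?_
  ring

/-- The finite part integral equals `4 / ((m - 1)(m + 1))`. -/
theorem finite_part {n : ℕ} {m C : ℝ} (hm : 1 < m) (hn : (n : ℝ) < m) (hmn : m < n + 1)
    {T : ℕ → ℝ} (hC : ∀ y ∈ Icc (0 : ℝ) 1,
      |s1 y ^ (2 * m) - ∑ j ∈ Finset.range (n + 2), T j * y ^ j| ≤ C * y ^ (n + 2))
    (hC0 : 0 ≤ C) :
    ∫ y in Ioi (0 : ℝ), (PF m y - ∑ j ∈ Finset.range (n + 2), T j * y ^ j) * y ^ (-(m + 2)) =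
      4 / ((m - 1) * (m + 1)) := by
  have hm0 : 0 < m := by linarith
  have hm1 : m - 1 ≠ 0 := by linarith
  have hm2 : m + 1 ≠ 0 := by linarith
  have hlim := tendsto_thetaR_zero hm hn hmn hC hC0
  set K := ∫ y in Ioi (0 : ℝ), (PF m y - ∑ j ∈ Finset.range (n + 2), T j * y ^ j) * y ^ (-(m + 2))
    with hK
  obtain ⟨A, CA, hCA, hA⟩ := s1_expansion (2 * m + 2) (n + 1)
  obtain ⟨B, CB, hCB, hB⟩ := s1_expansion (2 * m - 2) (n + 1)
  -- the polynomial
  set D : Polynomial ℝ := -(Polynomial.C (1 / (m + 1)) *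
      ∑ j ∈ Finset.range (n + 2), Polynomial.C (A j) * Polynomial.X ^ j) +
    Polynomial.C (1 / (m - 1)) * (Polynomial.X ^ 2 *
      ∑ j ∈ Finset.range (n + 2), Polynomial.C (B j) * Polynomial.X ^ j) -
    ∑ j ∈ Finset.range (n + 2), Polynomial.C (T j / ((j : ℝ) - (m + 1))) * Polynomial.X ^ j with hD
  have hDe : ∀ ε : ℝ, D.eval ε = -(1 / (m + 1) * ∑ j ∈ Finset.range (n + 2), A j * ε ^ j) +
      1 / (m - 1) * (ε ^ 2 * ∑ j ∈ Finset.range (n + 2), B j * ε ^ j) -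
      ∑ j ∈ Finset.range (n + 2), T j / ((j : ℝ) - (m + 1)) * ε ^ j := by
    intro ε
    simp [hD, Polynomial.eval_finsetSum]
  set q : ℝ := min (n + 2) (2 * m) with hq
  have hq3 : m + 1 < q := lt_min (by linarith) (by linarith)
  set C3 : ℝ := CA / (m + 1) + CB / (m - 1) + 1 / (m + 1) + 1 / (m - 1) with hC3
  have hdiff : ∀ ε ∈ Ioc (0 : ℝ) 1,
      |D.eval ε * ε ^ (-(m + 1)) - thetaR m n T ε| ≤ C3 * ε ^ (q - (m + 1)) := by
    intro ε hε
    have hε0 : (0 : ℝ) < ε := hε.1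
    have hεI : ε ∈ Icc (0 : ℝ) 1 := ⟨hε0.le, hε.2⟩
    have e1 : thetaR m n T ε = ε ^ (-(m + 1)) * (aF m ε -
        ∑ j ∈ Finset.range (n + 2), T j / ((j : ℝ) - (m + 1)) * ε ^ j) := by
      unfold thetaR
      rw [mul_sub, Finset.mul_sum]
      congr 1
      refine Finset.sum_congr rfl fun j _ => ?_
      rw [sub_eq_add_neg, Real.rpow_add hε0, Real.rpow_natCast]
      ring
    have e2 : D.eval ε * ε ^ (-(m + 1)) - thetaR m n T ε = ε ^ (-(m + 1)) *
        ((s1 ε ^ (2 * m + 2) - ∑ j ∈ Finset.range (n + 2), A j * ε ^ j) / (m + 1) +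
          s2 ε ^ (2 * m + 2) / (m + 1) -
          ε ^ 2 * (s1 ε ^ (2 * m - 2) - ∑ j ∈ Finset.range (n + 2), B j * ε ^ j) / (m - 1) -
          ε ^ 2 * s2 ε ^ (2 * m - 2) / (m - 1)) := by
      rw [e1, hDe]
      unfold aF
      ring
    have hmm1 : 0 < m - 1 := by linarith
    have hε2 : ε ^ 2 ≤ 1 := pow_le_one₀ hε0.le hε.2
    have hpn : ε ^ (n + 2) ≤ ε ^ q := by
      have : ε ^ ((n + 2 : ℕ) : ℝ) ≤ ε ^ q :=
        Real.rpow_le_rpow_of_exponent_ge hε0 hε.2 (by push_cast; exact min_le_left _ _)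
      rwa [Real.rpow_natCast] at this
    have hp2m : ε ^ (2 * m) ≤ ε ^ q :=
      Real.rpow_le_rpow_of_exponent_ge hε0 hε.2 (min_le_right _ _)
    have b1 : |(s1 ε ^ (2 * m + 2) - ∑ j ∈ Finset.range (n + 2), A j * ε ^ j) / (m + 1)| ≤
        CA / (m + 1) * ε ^ q := by
      rw [abs_div, abs_of_pos (by linarith : 0 < m + 1), div_mul_eq_mul_div]
      gcongr
      exact (hA ε hεI).trans (by gcongr)
    have b2 : |s2 ε ^ (2 * m + 2) / (m + 1)| ≤ 1 / (m + 1) * ε ^ q := by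
      rw [abs_div, abs_of_pos (by linarith : 0 < m + 1), div_mul_eq_mul_div, one_mul,
        abs_of_nonneg (Real.rpow_nonneg (s2_nonneg hε0.le) _)]
      gcongr
      refine (s2_rpow_le_rpow hε0.le (by linarith)).trans ?_
      exact Real.rpow_le_rpow_of_exponent_ge hε0 hε.2 (by linarith [min_le_right ((n : ℝ) + 2) (2 * m)])
    have b3 : |ε ^ 2 * (s1 ε ^ (2 * m - 2) - ∑ j ∈ Finset.range (n + 2), B j * ε ^ j) / (m - 1)| ≤
        CB / (m - 1) * ε ^ q := by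
      rw [abs_div, abs_of_pos hmm1, div_mul_eq_mul_div, abs_mul,
        abs_of_nonneg (by positivity : 0 ≤ ε ^ 2)]
      refine div_le_div_of_nonneg_right ?_ hmm1.le
      calc ε ^ 2 * |s1 ε ^ (2 * m - 2) - ∑ j ∈ Finset.range (n + 2), B j * ε ^ j| ≤
          1 * (CB * ε ^ (n + 2)) := by
            gcongr
            exact hB ε hεI
        _ ≤ CB * ε ^ q := by rw [one_mul]; gcongr
    have b4 : |ε ^ 2 * s2 ε ^ (2 * m - 2) / (m - 1)| ≤ 1 / (m - 1) * ε ^ q := by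
      rw [abs_div, abs_of_pos hmm1, div_mul_eq_mul_div, one_mul, abs_mul,
        abs_of_nonneg (by positivity : 0 ≤ ε ^ 2),
        abs_of_nonneg (Real.rpow_nonneg (s2_nonneg hε0.le) _)]
      gcongr
      refine le_trans (mul_le_mul_of_nonneg_left
        (s2_rpow_le_rpow hε0.le (by linarith : 0 ≤ 2 * m - 2)) (by positivity)) ?_
      rw [← Real.rpow_natCast ε 2, ← Real.rpow_add hε0]
      push_cast
      rw [show (2 : ℝ) + (2 * m - 2) = 2 * m by ring]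
      exact hp2m
    rw [e2, abs_mul, abs_of_pos (by positivity : 0 < ε ^ (-(m + 1))), sub_eq_add_neg q,
      Real.rpow_add hε0, ← mul_assoc, mul_comm]
    gcongr
    refine (abs_sub _ _).trans ?_
    refine (add_le_add (abs_sub _ _) le_rfl).trans ?_
    refine (add_le_add (add_le_add (abs_add_le _ _) le_rfl) le_rfl).trans ?_
    rw [hC3]
    linarith
  have hDlim : Tendsto (fun ε : ℝ => D.eval ε * ε ^ (-(m + 1))) (𝓝[>] 0)
      (𝓝 (4 / ((m - 1) * (m + 1)) - K)) := by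
    have h0 : Tendsto (fun ε : ℝ => D.eval ε * ε ^ (-(m + 1)) - thetaR m n T ε) (𝓝[>] 0)
        (𝓝 0) := by
      have h1 : Tendsto (fun ε : ℝ => C3 * ε ^ (q - (m + 1))) (𝓝[>] 0) (𝓝 0) := by
        have : ContinuousAt (fun ε : ℝ => ε ^ (q - (m + 1))) 0 :=
          (Real.continuousAt_rpow_const 0 (q - (m + 1)) (Or.inr (by linarith)))
        have h2 := this.tendsto.mono_left (nhdsWithin_le_nhds (s := Ioi (0 : ℝ)))
        rw [Real.zero_rpow (by linarith)] at h2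
        simpa using h2.const_mul C3
      refine squeeze_zero_norm' ?_ h1
      filter_upwards [Ioc_mem_nhdsGT (zero_lt_one' ℝ)] with ε hε
      exact hdiff ε hε
    have h2 := h0.add hlim
    rw [zero_add] at h2
    refine h2.congr fun ε => ?_
    ring
  have hnat : ∀ k : ℕ, (k : ℝ) ≠ m + 1 := by
    intro k hk
    have h1 : ((n + 1 : ℕ) : ℝ) < (k : ℝ) := by rw [hk]; push_cast; linarith
    have h2 : (k : ℝ) < ((n + 2 : ℕ) : ℝ) := by rw [hk]; push_cast; linarith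
    have h1' : n + 1 < k := by exact_mod_cast h1
    have h2' : k < n + 2 := by exact_mod_cast h2
    omega
  have := poly_limit D hnat hDlim
  linarith

end Pool.Agent.Lib.Helper34.SP
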