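import Mathlib
import Pool.Agent.Lib.Helper34.SP.FinitePart2

set_option autoImplicit false

open MeasureTheory Set Filter Topology

namespace Pool.Agent.Lib.Helper34.SP

theorem tendsto_R {ρ : ℝ → ℝ} {m : ℝ} (hm : 0 < m) (hρ : Measurable ρ)
    (hint : IntegrableOn (fun y => ρ y * y ^ (-(m + 2))) (Ioi 0)) :
    Tendsto (fun h : ℝ => (∫ u in Ioi (0 : ℝ), ρ (h * u) * (1 + u) ^ (-(m + 2))) / h ^ (m + 1))
      (𝓝[>] 0) (𝓝 (∫ y in Ioi (0 : ℝ), ρ y * y ^ (-(m + 2)))) := by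
  have h1 : Tendsto (fun h : ℝ => ∫ y in Ioi (0 : ℝ), ρ y * (h + y) ^ (-(m + 2)))
      (𝓝[>] 0) (𝓝 (∫ y in Ioi (0 : ℝ), ρ y * y ^ (-(m + 2)))) := by
    refine tendsto_integral_filter_of_dominated_convergence
      (fun y => ‖ρ y * y ^ (-(m + 2))‖) ?_ ?_ hint.norm ?_
    · exact Eventually.of_forall fun h => (Measurable.aestronglyMeasurable (by fun_prop))
    · filter_upwards [self_mem_nhdsWithin] with h hh
      have hh0 : (0 : ℝ) < h := hh
      refine (ae_restrict_iff' measurableSet_Ioi).2 (Eventually.of_forall fun y hy => ?_)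
      have hy0 : (0 : ℝ) < y := hy
      rw [norm_mul, norm_mul]
      refine mul_le_mul_of_nonneg_left ?_ (norm_nonneg _)
      rw [Real.norm_of_nonneg (by positivity), Real.norm_of_nonneg (by positivity)]
      exact Real.rpow_le_rpow_of_nonpos hy0 (by linarith) (by linarith)
    · refine (ae_restrict_iff' measurableSet_Ioi).2 (Eventually.of_forall fun y hy => ?_)
      have hy0 : (0 : ℝ) < y := hy
      refine Tendsto.const_mul _ ?_
      have h2 : Tendsto (fun h : ℝ => (h + y) ^ (-(m + 2))) (𝓝 0) (𝓝 ((0 + y) ^ (-(m + 2)))) := by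
        have : ContinuousAt (fun h : ℝ => (h + y) ^ (-(m + 2))) 0 :=
          (continuousAt_id.add continuousAt_const).rpow_const (Or.inl (by simp [hy0.ne']))
        exact this.tendsto
      rw [zero_add] at h2
      exact h2.mono_left nhdsWithin_le_nhds
  refine h1.congr' ?_
  filter_upwards [self_mem_nhdsWithin] with h hh
  have hh0 : (0 : ℝ) < h := hh
  have h3 := integral_comp_mul_left_Ioi (fun y : ℝ => ρ y * (1 + y / h) ^ (-(m + 2))) 0 hh0
  simp only [mul_zero, smul_eq_mul] at h3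
  have h4 : ∫ u in Ioi (0 : ℝ), ρ (h * u) * (1 + u) ^ (-(m + 2)) =
      ∫ u in Ioi (0 : ℝ), ρ (h * u) * (1 + h * u / h) ^ (-(m + 2)) := by
    refine setIntegral_congr_fun measurableSet_Ioi fun u _ => ?_
    rw [mul_div_cancel_left₀ _ hh0.ne']
  rw [h4, h3, eq_div_iff (by positivity), ← integral_mul_const, ← integral_const_mul]
  refine setIntegral_congr_fun measurableSet_Ioi fun y hy => ?_
  have hy0 : (0 : ℝ) < y := hy
  have h5 : 1 + y / h = (h + y) * h⁻¹ := by field_simp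
  rw [h5, Real.mul_rpow (by positivity) (by positivity), Real.inv_rpow hh0.le,
    Real.rpow_neg hh0.le, inv_inv, show m + 2 = m + 1 + 1 by ring, Real.rpow_add hh0 (m + 1) 1,
    Real.rpow_one]
  field_simp

/-- The `L_p` side of the difference inequality. -/
theorem sum_dc_integral_nonpos {Ω : Type*} [MeasurableSpace Ω] {μ : Measure Ω} {f g : Ω → ℂ}
    {n : ℕ} {m : ℝ} (hm : (n : ℝ) < m) (hm2 : m < n + 1)
    (hint2 : ∀ x : ℝ, 0 ≤ x → Integrable (fun t => (‖g t‖ ^ 2 + x * ‖f t‖ ^ 2) ^ m) μ)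
    {h : ℝ} (hh : 0 ≤ h) :
    ∑ k ∈ Finset.range (n + 3), dc (n + 2) k * ∫ t, (‖g t‖ ^ 2 + (k * h) * ‖f t‖ ^ 2) ^ m ∂μ
      ≤ 0 := by
  have h1 : ∑ k ∈ Finset.range (n + 3),
      dc (n + 2) k * ∫ t, (‖g t‖ ^ 2 + (k * h) * ‖f t‖ ^ 2) ^ m ∂μ =
      ∫ t, ∑ k ∈ Finset.range (n + 3),
        dc (n + 2) k * (‖g t‖ ^ 2 + k * (h * ‖f t‖ ^ 2)) ^ m ∂μ := by
    rw [integral_finsetSum]
    · refine Finset.sum_congr rfl fun k _ => ?_
      rw [integral_const_mul]
      simp only [mul_assoc]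
    · intro k _
      have := (hint2 (k * h) (by positivity)).const_mul (dc (n + 2) k)
      simpa only [mul_assoc] using this
  rw [h1]
  refine integral_nonpos fun t => ?_
  exact sum_dc_rpow_nonpos hm hm2 (by positivity) (by positivity)

theorem integrable_mix {Ω : Type*} [MeasurableSpace Ω] {μ : Measure Ω} {f g : Ω → ℂ}
    (hf : Measurable f) (hg : Measurable g) {m : ℝ} (hm : 0 < m)
    (hfi : Integrable (fun t => ‖f t‖ ^ (2 * m)) μ) (hgi : Integrable (fun t => ‖g t‖ ^ (2 * m)) μ)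
    {x : ℝ} (hx : 0 ≤ x) :
    Integrable (fun t => (‖g t‖ ^ 2 + x * ‖f t‖ ^ 2) ^ m) μ := by
  refine ((hgi.add (hfi.const_mul (x ^ m))).const_mul (2 ^ m)).mono'
    (Measurable.aestronglyMeasurable (by fun_prop)) (Eventually.of_forall fun t => ?_)
  rw [Real.norm_of_nonneg (by positivity)]
  simp only [Pi.add_apply]
  have e1 : ∀ z : ℝ, 0 ≤ z → (z ^ 2) ^ m = z ^ (2 * m) := by
    intro z hz
    rw [← Real.rpow_natCast z 2, ← Real.rpow_mul hz]; norm_num
  rcases le_total (‖g t‖ ^ 2) (x * ‖f t‖ ^ 2) with h | h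
  · calc (‖g t‖ ^ 2 + x * ‖f t‖ ^ 2) ^ m ≤ (2 * (x * ‖f t‖ ^ 2)) ^ m := by
          refine Real.rpow_le_rpow (by positivity) (by linarith) hm.le
      _ = 2 ^ m * (x ^ m * ‖f t‖ ^ (2 * m)) := by
          rw [Real.mul_rpow (by norm_num) (by positivity), Real.mul_rpow hx (by positivity),
            e1 _ (norm_nonneg _)]
      _ ≤ 2 ^ m * (‖g t‖ ^ (2 * m) + x ^ m * ‖f t‖ ^ (2 * m)) := by
          gcongr
          have : 0 ≤ ‖g t‖ ^ (2 * m) := by positivity
          linarith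
  · calc (‖g t‖ ^ 2 + x * ‖f t‖ ^ 2) ^ m ≤ (2 * (‖g t‖ ^ 2)) ^ m := by
          refine Real.rpow_le_rpow (by positivity) (by linarith) hm.le
      _ = 2 ^ m * ‖g t‖ ^ (2 * m) := by
          rw [Real.mul_rpow (by norm_num) (by positivity), e1 _ (norm_nonneg _)]
      _ ≤ 2 ^ m * (‖g t‖ ^ (2 * m) + x ^ m * ‖f t‖ ^ (2 * m)) := by
          gcongr
          have : 0 ≤ x ^ m * ‖f t‖ ^ (2 * m) := by positivity
          linarith

theorem integrable_comb {Ω : Type*} [MeasurableSpace Ω] {μ : Measure Ω} {f g : Ω → ℂ}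
    (hf : Measurable f) (hg : Measurable g) {m : ℝ} (hm : 0 < m)
    (hfi : Integrable (fun t => ‖f t‖ ^ (2 * m)) μ) (hgi : Integrable (fun t => ‖g t‖ ^ (2 * m)) μ)
    (α : ℂ) : Integrable (fun t => ‖g t + α * f t‖ ^ (2 * m)) μ := by
  have h := integrable_mix hf hg hm hfi hgi (x := ‖α‖ ^ 2) (by positivity)
  refine (h.const_mul (2 ^ m)).mono' (Measurable.aestronglyMeasurable (by fun_prop))
    (Eventually.of_forall fun t => ?_)
  rw [Real.norm_of_nonneg (by positivity), ← Real.mul_rpow (by norm_num) (by positivity),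
    Real.rpow_mul (norm_nonneg _)]
  refine Real.rpow_le_rpow (by positivity) ?_ hm.le
  have h1 : ‖g t + α * f t‖ ≤ ‖g t‖ + ‖α‖ * ‖f t‖ := by
    rw [← norm_mul]; exact norm_add_le _ _
  have h2 : ‖g t + α * f t‖ ^ 2 ≤ (‖g t‖ + ‖α‖ * ‖f t‖) ^ 2 := by gcongr
  have h3 : ‖g t + α * f t‖ ^ (2 : ℝ) = ‖g t + α * f t‖ ^ 2 := by norm_cast
  rw [h3]
  nlinarith [sq_nonneg (‖g t‖ - ‖α‖ * ‖f t‖)]

/-- No representation for non-integer `m > 1`. -/
theorem no_rep_gt {Ω : Type*} [MeasurableSpace Ω] {μ : Measure Ω} [SFinite μ] {f g : Ω → ℂ}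
    (hf : Measurable f) (hg : Measurable g) {m : ℝ} (hm : 1 < m) (hnat : ∀ k : ℕ, (k : ℝ) ≠ m)
    (hfi : Integrable (fun t => ‖f t‖ ^ (2 * m)) μ) (hgi : Integrable (fun t => ‖g t‖ ^ (2 * m)) μ)
    (hP : ∀ α : ℂ, ∫ t, ‖g t + α * f t‖ ^ (2 * m) ∂μ = PF m (‖α‖ ^ 2)) : False := by
  have hm0 : 0 < m := by linarith
  set n := ⌊m⌋₊ with hn
  have hnm : (n : ℝ) < m := lt_of_le_of_ne (Nat.floor_le hm0.le) (hnat n)
  have hmn : m < n + 1 := Nat.lt_floor_add_one m
  obtain ⟨T, C, hC0, hC⟩ := s1_expansion (2 * m) (n + 1)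
  set ρ : ℝ → ℝ := fun y => PF m y - ∑ j ∈ Finset.range (n + 2), T j * y ^ j with hρ
  have hρm : Measurable ρ := by
    have := (continuous_PF hm0).measurable
    fun_prop
  have hρ0 : ρ 0 = 0 := by
    have h1 := hC 0 ⟨le_rfl, zero_le_one⟩
    simp only [ne_eq, Nat.add_eq_zero_iff, one_ne_zero, and_false, not_false_eq_true, zero_pow,
      mul_zero] at h1
    have h2 := abs_nonpos_iff.1 h1
    have h3 : s2 0 = 0 := by unfold s2; norm_num
    rw [hρ]
    simp only [PF, h3, Real.zero_rpow (by linarith : 2 * m ≠ 0), add_zero]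
    exact h2
  have hint2 := fun x (hx : (0 : ℝ) ≤ x) => integrable_mix hf hg hm0 hfi hgi hx
  have hΨ := fun x (hx : (0 : ℝ) ≤ x) => rep_transform hf hg hm0
    (integrable_comb hf hg hm0 hfi hgi) hint2 hP hx
  have hlim := tendsto_R hm0 hρm (integrableOn_rho hm hnm hmn hC hC0)
  rw [finite_part hm hnm hmn hC hC0] at hlim
  have hPm : ∀ y, 0 ≤ y → |PF m y| ≤ (2 * 2 ^ m) * (1 + y) ^ m := by
    intro y hy
    rw [abs_of_nonneg (PF_nonneg hy)]
    refine (PF_le hm0 hy).trans ?_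
    rw [mul_assoc, ← Real.mul_rpow (by norm_num) (by positivity)]
    gcongr
    linarith
  obtain ⟨h, hh, hpos⟩ := diff_limit hm0 hnm (e := m + 1) (by linarith)
    (P := PF m) (ρ := ρ) (T := T) (Ψ := fun x => ∫ t, (‖g t‖ ^ 2 + x * ‖f t‖ ^ 2) ^ m ∂μ)
    (fun y _ => by simp [hρ]) hρ0 hlim
    (div_pos (by norm_num) (mul_pos (by linarith) (by linarith)))
    (fun x hx => integrableOn_P_weight hm0 (continuous_PF hm0).measurable hPm hx) hΨ
  exact absurd (sum_dc_integral_nonpos hnm hmn hint2 hh.le) (not_le.2 hpos)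

theorem integrableOn_rpow_weight {m q : ℝ} (hq0 : 0 ≤ q) (hq : q < m + 1) :
    IntegrableOn (fun u : ℝ => u ^ q * (1 + u) ^ (-(m + 2))) (Ioi 0) := by
  refine (integrableOn_one_add_rpow (a := q - (m + 2)) (by linarith)).mono' ?_ ?_
  · exact (Measurable.aestronglyMeasurable (by fun_prop))
  · refine (ae_restrict_iff' measurableSet_Ioi).2 (Eventually.of_forall fun u hu => ?_)
    have hu0 : (0 : ℝ) < u := hu
    rw [Real.norm_of_nonneg (by positivity), sub_eq_add_neg, Real.rpow_add (by positivity)]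
    gcongr
    linarith

theorem rho_bound_lt {m : ℝ} (hm : 1 / 2 < m) (hm1 : m < 1) {T : ℕ → ℝ} {C : ℝ} (hC0 : 0 ≤ C)
    (hC : ∀ y ∈ Icc (0 : ℝ) 1,
      |s1 y ^ (2 * m) - ∑ j ∈ Finset.range 2, T j * y ^ j| ≤ C * y ^ 2) :
    ∃ C4 : ℝ, 0 ≤ C4 ∧ ∀ y, 0 < y →
      |PF m y - ∑ j ∈ Finset.range 2, T j * y ^ j - y ^ (2 * m)| ≤ C4 * y ^ ((3 * m + 1) / 2) := by
  have hm0 : 0 < m := by linarith
  obtain ⟨T', C', hC'0, hC'⟩ := s1_expansion (-(2 * m)) 0
  have hT' : T' 0 = 1 := by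
    have h1 := hC' 0 ⟨le_rfl, zero_le_one⟩
    have h3 : s1 0 = 1 := by unfold s1; norm_num
    simp only [h3, Real.one_rpow, zero_add, Finset.sum_range_one, pow_zero, mul_one, pow_one,
      mul_zero] at h1
    have := abs_nonpos_iff.1 h1
    linarith
  obtain ⟨C2, hC2, hb⟩ := rho_large (n := 0) hm0 (by simpa using hm1.le) T
  refine ⟨max (C + C') (C2 + 1), le_max_of_le_left (by positivity), fun y hy => ?_⟩
  rcases le_or_gt y 1 with hy1 | hy1
  · have h1 := hC y ⟨hy.le, hy1⟩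
    have h2 := hC' y ⟨hy.le, hy1⟩
    simp only [zero_add, Finset.sum_range_one, pow_zero, mul_one, pow_one, hT'] at h2
    have hs := s1_pos hy.le
    have h3 : s2 y ^ (2 * m) = y ^ (2 * m) * s1 y ^ (-(2 * m)) := by
      rw [s2_eq hy.le, Real.div_rpow hy.le hs.le, Real.rpow_neg hs.le]
      rfl
    have h4 : PF m y - ∑ j ∈ Finset.range 2, T j * y ^ j - y ^ (2 * m) =
        (s1 y ^ (2 * m) - ∑ j ∈ Finset.range 2, T j * y ^ j) +
          y ^ (2 * m) * (s1 y ^ (-(2 * m)) - 1) := by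
      unfold PF; rw [h3]; ring
    rw [h4]
    have hq : y ^ 2 ≤ y ^ ((3 * m + 1) / 2) := by
      have : y ^ ((2 : ℕ) : ℝ) ≤ y ^ ((3 * m + 1) / 2) :=
        Real.rpow_le_rpow_of_exponent_ge hy hy1 (by push_cast; linarith)
      rwa [Real.rpow_natCast] at this
    have hq2 : y ^ (2 * m) * y ≤ y ^ ((3 * m + 1) / 2) := by
      have : y ^ (2 * m) * y = y ^ (2 * m + 1) := by rw [Real.rpow_add hy, Real.rpow_one]
      rw [this]
      exact Real.rpow_le_rpow_of_exponent_ge hy hy1 (by linarith)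
    calc |(s1 y ^ (2 * m) - ∑ j ∈ Finset.range 2, T j * y ^ j) +
          y ^ (2 * m) * (s1 y ^ (-(2 * m)) - 1)| ≤
          |s1 y ^ (2 * m) - ∑ j ∈ Finset.range 2, T j * y ^ j| +
          |y ^ (2 * m) * (s1 y ^ (-(2 * m)) - 1)| := abs_add_le _ _
      _ ≤ C * y ^ 2 + y ^ (2 * m) * (C' * y) := by
          rw [abs_mul, abs_of_nonneg (by positivity : 0 ≤ y ^ (2 * m))]
          gcongr
      _ ≤ C * y ^ ((3 * m + 1) / 2) + C' * y ^ ((3 * m + 1) / 2) := by
          have : y ^ (2 * m) * (C' * y) = C' * (y ^ (2 * m) * y) := by ring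
          rw [this]
          gcongr
      _ = (C + C') * y ^ ((3 * m + 1) / 2) := by ring
      _ ≤ _ := by gcongr; exact le_max_left _ _
  · have h1 := hb y hy1.le
    simp only [zero_add, pow_one] at h1
    have hq : y ≤ y ^ ((3 * m + 1) / 2) := by
      have : y ^ (1 : ℝ) ≤ y ^ ((3 * m + 1) / 2) :=
        Real.rpow_le_rpow_of_exponent_le hy1.le (by linarith)
      rwa [Real.rpow_one] at this
    have hq2 : y ^ (2 * m) ≤ y ^ ((3 * m + 1) / 2) :=
      Real.rpow_le_rpow_of_exponent_le hy1.le (by linarith)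
    calc |PF m y - ∑ j ∈ Finset.range 2, T j * y ^ j - y ^ (2 * m)| ≤
          |PF m y - ∑ j ∈ Finset.range 2, T j * y ^ j| + |y ^ (2 * m)| := abs_sub _ _
      _ ≤ C2 * y + y ^ (2 * m) := by
          rw [abs_of_nonneg (by positivity : 0 ≤ y ^ (2 * m))]
          gcongr
      _ ≤ C2 * y ^ ((3 * m + 1) / 2) + y ^ ((3 * m + 1) / 2) := by gcongr
      _ = (C2 + 1) * y ^ ((3 * m + 1) / 2) := by ring
      _ ≤ _ := by gcongr; exact le_max_right _ _

/-- No representation for `1/2 < m < 1`. -/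
theorem no_rep_lt {Ω : Type*} [MeasurableSpace Ω] {μ : Measure Ω} [SFinite μ] {f g : Ω → ℂ}
    (hf : Measurable f) (hg : Measurable g) {m : ℝ} (hm : 1 / 2 < m) (hm1 : m < 1)
    (hfi : Integrable (fun t => ‖f t‖ ^ (2 * m)) μ) (hgi : Integrable (fun t => ‖g t‖ ^ (2 * m)) μ)
    (hP : ∀ α : ℂ, ∫ t, ‖g t + α * f t‖ ^ (2 * m) ∂μ = PF m (‖α‖ ^ 2)) : False := by
  have hm0 : 0 < m := by linarith
  obtain ⟨T, C, hC0, hC⟩ := s1_expansion (2 * m) 1
  obtain ⟨C4, hC4, hb⟩ := rho_bound_lt hm hm1 hC0 hC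
  set ρ : ℝ → ℝ := fun y => PF m y - ∑ j ∈ Finset.range (0 + 2), T j * y ^ j with hρ
  have hρm : Measurable ρ := by
    have := (continuous_PF hm0).measurable
    fun_prop
  have hρ0 : ρ 0 = 0 := by
    have h1 := hC 0 ⟨le_rfl, zero_le_one⟩
    simp only [ne_eq, Nat.add_eq_zero_iff, one_ne_zero, and_false, not_false_eq_true, zero_pow,
      mul_zero] at h1
    have h2 := abs_nonpos_iff.1 h1
    have h3 : s2 0 = 0 := by unfold s2; norm_num
    rw [hρ]
    simp only [PF, h3, Real.zero_rpow (by linarith : 2 * m ≠ 0), add_zero]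
    exact h2
  set q : ℝ := (3 * m + 1) / 2 with hq
  have hq1 : 2 * m < q := by rw [hq]; linarith
  have hq2 : q < m + 1 := by rw [hq]; linarith
  set B : ℝ := ∫ u in Ioi (0 : ℝ), u ^ (2 * m) * (1 + u) ^ (-(m + 2)) with hB
  set Bq : ℝ := ∫ u in Ioi (0 : ℝ), u ^ q * (1 + u) ^ (-(m + 2)) with hBq
  have iB := integrableOn_rpow_weight (m := m) (q := 2 * m) (by linarith) (by linarith)
  have iBq := integrableOn_rpow_weight (m := m) (q := q) (by linarith) hq2
  have hBpos : 0 < B := by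
    rw [hB]
    refine (setIntegral_pos_iff_support_of_nonneg_ae ?_ iB).2 ?_
    · refine (ae_restrict_iff' measurableSet_Ioi).2 (Eventually.of_forall fun u hu => ?_)
      have hu0 : (0 : ℝ) < u := hu
      simp only [Pi.zero_apply]
      positivity
    · have : (Function.support fun u : ℝ => u ^ (2 * m) * (1 + u) ^ (-(m + 2))) ∩ Ioi 0 =
          Ioi 0 := by
        ext u
        simp only [mem_inter_iff, Function.mem_support, mem_Ioi, and_iff_right_iff_imp]
        intro hu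
        positivity
      rw [this]
      simp
  have hlim : Tendsto (fun h : ℝ => (∫ u in Ioi (0 : ℝ), ρ (h * u) * (1 + u) ^ (-(m + 2))) /
      h ^ (2 * m)) (𝓝[>] 0) (𝓝 B) := by
    have h1 : Tendsto (fun h : ℝ => C4 * Bq * h ^ (q - 2 * m)) (𝓝[>] 0) (𝓝 0) := by
      have : ContinuousAt (fun ε : ℝ => ε ^ (q - 2 * m)) 0 :=
        (Real.continuousAt_rpow_const 0 (q - 2 * m) (Or.inr (by linarith)))
      have h2 := this.tendsto.mono_left (nhdsWithin_le_nhds (s := Ioi (0 : ℝ)))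
      rw [Real.zero_rpow (by linarith)] at h2
      simpa using h2.const_mul (C4 * Bq)
    have h2 : Tendsto (fun h : ℝ => (∫ u in Ioi (0 : ℝ), ρ (h * u) * (1 + u) ^ (-(m + 2))) /
      h ^ (2 * m) - B) (𝓝[>] 0) (𝓝 0) := by
      refine squeeze_zero_norm' ?_ h1
      filter_upwards [self_mem_nhdsWithin] with h hh
      have hh0 : (0 : ℝ) < h := hh
      have hbd : ∀ u ∈ Ioi (0 : ℝ), ‖(ρ (h * u) - (h * u) ^ (2 * m)) * (1 + u) ^ (-(m + 2))‖ ≤
          (C4 * h ^ q) * (u ^ q * (1 + u) ^ (-(m + 2))) := by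
        intro u hu
        have hu0 : (0 : ℝ) < u := hu
        rw [norm_mul, Real.norm_of_nonneg (by positivity : 0 ≤ (1 + u) ^ (-(m + 2)))]
        calc ‖ρ (h * u) - (h * u) ^ (2 * m)‖ * (1 + u) ^ (-(m + 2)) ≤
            (C4 * (h * u) ^ q) * (1 + u) ^ (-(m + 2)) := by
              gcongr
              exact hb (h * u) (by positivity)
          _ = _ := by rw [Real.mul_rpow hh0.le hu0.le]; ring
      have hI2 : IntegrableOn (fun u : ℝ => (ρ (h * u) - (h * u) ^ (2 * m)) *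
          (1 + u) ^ (-(m + 2))) (Ioi 0) := by
        refine (iBq.const_mul (C4 * h ^ q)).mono' (Measurable.aestronglyMeasurable (by fun_prop)) ?_
        exact (ae_restrict_iff' measurableSet_Ioi).2 (Eventually.of_forall hbd)
      have hI1 : IntegrableOn (fun u : ℝ => (h * u) ^ (2 * m) * (1 + u) ^ (-(m + 2))) (Ioi 0) := by
        refine IntegrableOn.congr_fun (iB.const_mul (h ^ (2 * m))) (fun u hu => ?_)
          measurableSet_Ioi
        have hu0 : (0 : ℝ) < u := hu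
        rw [Real.mul_rpow hh0.le hu0.le]; ring
      have e1 : ∫ u in Ioi (0 : ℝ), ρ (h * u) * (1 + u) ^ (-(m + 2)) =
          (∫ u in Ioi (0 : ℝ), (ρ (h * u) - (h * u) ^ (2 * m)) * (1 + u) ^ (-(m + 2))) +
          ∫ u in Ioi (0 : ℝ), (h * u) ^ (2 * m) * (1 + u) ^ (-(m + 2)) := by
        rw [← integral_add hI2 hI1]
        congr 1
        funext u
        ring
      have e2 : ∫ u in Ioi (0 : ℝ), (h * u) ^ (2 * m) * (1 + u) ^ (-(m + 2)) =
          h ^ (2 * m) * B := by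
        rw [hB, ← integral_const_mul]
        refine setIntegral_congr_fun measurableSet_Ioi fun u hu => ?_
        have hu0 : (0 : ℝ) < u := hu
        rw [Real.mul_rpow hh0.le hu0.le]; ring
      have e3 : ‖∫ u in Ioi (0 : ℝ), (ρ (h * u) - (h * u) ^ (2 * m)) * (1 + u) ^ (-(m + 2))‖ ≤
          (C4 * h ^ q) * Bq := by
        rw [hBq, ← integral_const_mul]
        exact norm_integral_le_of_norm_le (iBq.const_mul _)
          ((ae_restrict_iff' measurableSet_Ioi).2 (Eventually.of_forall hbd))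
      have e4 : (∫ u in Ioi (0 : ℝ), ρ (h * u) * (1 + u) ^ (-(m + 2))) / h ^ (2 * m) - B =
          (∫ u in Ioi (0 : ℝ), (ρ (h * u) - (h * u) ^ (2 * m)) * (1 + u) ^ (-(m + 2))) /
            h ^ (2 * m) := by
        rw [e1, e2]
        have : 0 < h ^ (2 * m) := by positivity
        field_simp
        ring
      rw [e4, norm_div, Real.norm_of_nonneg (by positivity : 0 ≤ h ^ (2 * m)),
        div_le_iff₀ (by positivity)]
      refine e3.trans (le_of_eq ?_)
      rw [mul_assoc (C4 * Bq), ← Real.rpow_add hh0, show q - 2 * m + 2 * m = q by ring]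
      ring
    have h3 := h2.add_const B
    simpa using h3
  have hint2 := fun x (hx : (0 : ℝ) ≤ x) => integrable_mix hf hg hm0 hfi hgi hx
  have hΨ := fun x (hx : (0 : ℝ) ≤ x) => rep_transform hf hg hm0
    (integrable_comb hf hg hm0 hfi hgi) hint2 hP hx
  have hPm : ∀ y, 0 ≤ y → |PF m y| ≤ (2 * 2 ^ m) * (1 + y) ^ m := by
    intro y hy
    rw [abs_of_nonneg (PF_nonneg hy)]
    refine (PF_le hm0 hy).trans ?_
    rw [mul_assoc, ← Real.mul_rpow (by norm_num) (by positivity)]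
    gcongr
    linarith
  obtain ⟨h, hh, hpos⟩ := diff_limit (n := 0) hm0 (by simpa using hm0) (e := 2 * m)
    (by push_cast; linarith)
    (P := PF m) (ρ := ρ) (T := T) (Ψ := fun x => ∫ t, (‖g t‖ ^ 2 + x * ‖f t‖ ^ 2) ^ m ∂μ)
    (fun y _ => by simp [hρ]) hρ0 hlim hBpos
    (fun x hx => integrableOn_P_weight hm0 (continuous_PF hm0).measurable hPm hx) hΨ
  exact absurd (sum_dc_integral_nonpos (by simpa using hm0) (by simpa using hm1) hint2 hh.le)
    (not_le.2 hpos)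

end Pool.Agent.Lib.Helper34.SP
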