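import Mathlib
import Pool.Agent.Lib.Helper34.SP.NegGen

set_option autoImplicit false

open MeasureTheory Set Filter Topology

namespace Pool.Agent.Lib.Helper34.SP

theorem beta_rec {m j : ℕ} (hj : j + 1 ≤ m) :
    ((j : ℝ) + 1) * ∫ u in Ioi (0 : ℝ), u ^ j * (1 + u) ^ (-((m : ℝ) + 2)) =
      ((m : ℝ) - j) * ∫ u in Ioi (0 : ℝ), u ^ (j + 1) * (1 + u) ^ (-((m : ℝ) + 2)) := by
  have hjm : ((j : ℝ) + 1) ≤ m := by exact_mod_cast hj
  have i0 := integrableOn_pow_weight (m := (m : ℝ)) (j := j) (by linarith)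
  have i1 := integrableOn_pow_weight (m := (m : ℝ)) (j := j + 1) (by push_cast; linarith)
  have hderiv : ∀ u ∈ Ici (0 : ℝ), HasDerivAt (fun u : ℝ => u ^ (j + 1) * (1 + u) ^ (-((m : ℝ) + 1)))
      (((j : ℝ) + 1) * (u ^ j * (1 + u) ^ (-((m : ℝ) + 2))) -
        ((m : ℝ) - j) * (u ^ (j + 1) * (1 + u) ^ (-((m : ℝ) + 2)))) u := by
    intro u hu
    have hu0 : (0 : ℝ) ≤ u := hu
    have h1 : HasDerivAt (fun u : ℝ => 1 + u) 1 u := by
      simpa using (hasDerivAt_id u).const_add 1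
    have h2 := h1.rpow_const (p := -((m : ℝ) + 1)) (Or.inl (by linarith : (1 : ℝ) + u ≠ 0))
    have h3 : HasDerivAt (fun u : ℝ => u ^ (j + 1)) (((j : ℝ) + 1) * u ^ j) u := by
      simpa using hasDerivAt_pow (j + 1) u
    refine (h3.mul h2).congr_deriv ?_
    have e1 : (1 + u) ^ (-((m : ℝ) + 1)) = (1 + u) ^ (-((m : ℝ) + 2)) * (1 + u) := by
      rw [show -((m : ℝ) + 1) = -((m : ℝ) + 2) + 1 by ring, Real.rpow_add (by linarith),
        Real.rpow_one]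
    have e2 : -((m : ℝ) + 1) - 1 = -((m : ℝ) + 2) := by ring
    rw [e1, e2]
    ring
  have hlim : Tendsto (fun u : ℝ => u ^ (j + 1) * (1 + u) ^ (-((m : ℝ) + 1))) atTop (𝓝 0) := by
    have h1 : Tendsto (fun u : ℝ => (1 + u) ^ (-((m : ℝ) - j))) atTop (𝓝 0) :=
      (tendsto_rpow_neg_atTop (by linarith : 0 < (m : ℝ) - j)).comp
        (tendsto_atTop_add_const_left _ _ tendsto_id)
    refine squeeze_zero_norm' ?_ h1
    filter_upwards [eventually_ge_atTop 0] with u hu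
    rw [Real.norm_of_nonneg (by positivity)]
    have : (1 + u) ^ (-((m : ℝ) - j)) = (1 + u) ^ (j + 1) * (1 + u) ^ (-((m : ℝ) + 1)) := by
      rw [← Real.rpow_natCast (1 + u) (j + 1), ← Real.rpow_add (by linarith)]
      congr 1; push_cast; ring
    rw [this]
    gcongr
    linarith
  have hint : IntegrableOn (fun u : ℝ => ((j : ℝ) + 1) * (u ^ j * (1 + u) ^ (-((m : ℝ) + 2))) -
        ((m : ℝ) - j) * (u ^ (j + 1) * (1 + u) ^ (-((m : ℝ) + 2)))) (Ioi 0) :=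
    (i0.const_mul _).sub (i1.const_mul _)
  have h := integral_Ioi_of_hasDerivAt_of_tendsto' hderiv hint hlim
  rw [integral_sub (i0.const_mul _) (i1.const_mul _), integral_const_mul, integral_const_mul] at h
  simp only [ne_eq, Nat.add_eq_zero_iff, one_ne_zero, and_false, not_false_eq_true, zero_pow,
    zero_mul, sub_zero] at h
  linarith

theorem beta_int {m : ℕ} (hm : 0 < m) : ∀ {j : ℕ}, j ≤ m →
    ((m : ℝ) + 1) * ∫ u in Ioi (0 : ℝ), u ^ j * (1 + u) ^ (-((m : ℝ) + 2)) =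
      1 / (m.choose j : ℝ)
  | 0, _ => by
      have := integral_weight (m := (m : ℝ)) (by exact_mod_cast hm)
      simp only [pow_zero, one_mul]
      rw [this]
      have : (m : ℝ) + 1 ≠ 0 := by positivity
      field_simp
      simp
  | j + 1, hj => by
      have h1 := beta_rec hj
      have h2 := beta_int hm (j := j) (by omega)
      have hc : ((m.choose (j + 1) : ℕ) : ℝ) * ((j : ℝ) + 1) = (m.choose j : ℝ) * ((m : ℝ) - j) := by
        have := Nat.choose_succ_right_eq m j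
        have h3 : ((m - j : ℕ) : ℝ) = (m : ℝ) - j := by
          rw [Nat.cast_sub (by omega)]
        rw [← h3]
        exact_mod_cast this
      have p1 : (0 : ℝ) < m.choose j := by exact_mod_cast Nat.choose_pos (by omega)
      have p2 : (0 : ℝ) < m.choose (j + 1) := by exact_mod_cast Nat.choose_pos hj
      have p3 : (0 : ℝ) < (m : ℝ) - j := by
        have : ((j + 1 : ℕ) : ℝ) ≤ m := by exact_mod_cast hj
        push_cast at this; linarith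
      set I := ∫ u in Ioi (0 : ℝ), u ^ j * (1 + u) ^ (-((m : ℝ) + 2))
      set J := ∫ u in Ioi (0 : ℝ), u ^ (j + 1) * (1 + u) ^ (-((m : ℝ) + 2))
      rw [eq_div_iff p1.ne'] at h2
      rw [eq_div_iff p2.ne']
      have h4 : ((m : ℝ) + 1) * J * (m.choose (j + 1) : ℝ) * ((m : ℝ) - j) * ((m : ℝ) - j) =
          ((m : ℝ) - j) * ((m : ℝ) - j) := by
        calc ((m : ℝ) + 1) * J * (m.choose (j + 1) : ℝ) * ((m : ℝ) - j) * ((m : ℝ) - j)
            = ((m : ℝ) + 1) * (((m : ℝ) - j) * J) * (m.choose (j + 1) : ℝ) * ((m : ℝ) - j) := by ring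
          _ = ((m : ℝ) + 1) * (((j : ℝ) + 1) * I) * (m.choose (j + 1) : ℝ) * ((m : ℝ) - j) := by
              rw [h1]
          _ = ((m : ℝ) + 1) * I * ((m.choose (j + 1) : ℝ) * ((j : ℝ) + 1)) * ((m : ℝ) - j) := by
              ring
          _ = ((m : ℝ) + 1) * I * (m.choose j : ℝ) * (((m : ℝ) - j) * ((m : ℝ) - j)) := by
              rw [hc]; ring
          _ = _ := by rw [h2, one_mul]
      have h5 : ((m : ℝ) - j) * ((m : ℝ) - j) ≠ 0 := by positivity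
      have h6 : (((m : ℝ) + 1) * J * (m.choose (j + 1) : ℝ)) * (((m : ℝ) - j) * ((m : ℝ) - j)) =
          1 * (((m : ℝ) - j) * ((m : ℝ) - j)) := by linarith
      exact mul_right_cancel₀ h5 h6

theorem coeff_eq_of_eval {m : ℕ} {a c : ℕ → ℝ}
    (h : ∀ x : ℝ, 0 ≤ x → ∑ j ∈ Finset.range (m + 1), a j * x ^ j =
      ∑ j ∈ Finset.range (m + 1), c j * x ^ j) {j : ℕ} (hj : j ≤ m) : a j = c j := by
  set p : Polynomial ℝ := ∑ j ∈ Finset.range (m + 1), Polynomial.C (a j) * Polynomial.X ^ j with hp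
  set q : Polynomial ℝ := ∑ j ∈ Finset.range (m + 1), Polynomial.C (c j) * Polynomial.X ^ j with hq
  have hpq : p = q := by
    refine Polynomial.eq_of_infinite_eval_eq p q ((Set.Ici_infinite (0 : ℝ)).mono ?_)
    intro x hx
    have := h x hx
    simpa [hp, hq, Polynomial.eval_finsetSum] using this
  have h1 := congrArg (fun r => Polynomial.coeff r j) hpq
  simpa [hp, hq, Polynomial.finsetSum_coeff, Polynomial.coeff_X_pow, Nat.lt_succ_of_le hj] using h1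

theorem mul_pow_le_add {a b : ℝ} (ha : 0 ≤ a) (hb : 0 ≤ b) {m j : ℕ} (hj : j ≤ m) :
    a ^ j * b ^ (m - j) ≤ a ^ m + b ^ m := by
  rcases le_total a b with h | h
  · calc a ^ j * b ^ (m - j) ≤ b ^ j * b ^ (m - j) := by gcongr
      _ = b ^ m := by rw [← pow_add, Nat.add_sub_cancel' hj]
      _ ≤ a ^ m + b ^ m := by have := pow_nonneg ha m; linarith
  · calc a ^ j * b ^ (m - j) ≤ a ^ j * a ^ (m - j) := by gcongr
      _ = a ^ m := by rw [← pow_add, Nat.add_sub_cancel' hj]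
      _ ≤ a ^ m + b ^ m := by have := pow_nonneg hb m; linarith

theorem rpow_two_mul_nat {z : ℝ} (_hz : 0 ≤ z) (m : ℕ) : z ^ (2 * (m : ℝ)) = (z ^ 2) ^ m := by
  rw [← pow_mul, ← Real.rpow_natCast z (2 * m)]
  push_cast
  rfl

theorem integrable_moment {Ω : Type*} [MeasurableSpace Ω] {μ : Measure Ω} {f g : Ω → ℂ}
    (hf : Measurable f) (hg : Measurable g) {m : ℕ}
    (hfi : Integrable (fun t => ‖f t‖ ^ (2 * (m : ℝ))) μ)
    (hgi : Integrable (fun t => ‖g t‖ ^ (2 * (m : ℝ))) μ) {j : ℕ} (hj : j ≤ m) :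
    Integrable (fun t => (‖f t‖ ^ 2) ^ j * (‖g t‖ ^ 2) ^ (m - j)) μ := by
  refine (hfi.add hgi).mono' (Measurable.aestronglyMeasurable (by fun_prop))
    (Eventually.of_forall fun t => ?_)
  rw [Real.norm_of_nonneg (by positivity)]
  simp only [Pi.add_apply]
  rw [rpow_two_mul_nat (norm_nonneg _), rpow_two_mul_nat (norm_nonneg _)]
  exact mul_pow_le_add (by positivity) (by positivity) hj

/-- Moments from a polynomial norm function. -/
theorem even_moments {Ω : Type*} [MeasurableSpace Ω] {μ : Measure Ω} [SFinite μ] {f g : Ω → ℂ}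
    (hf : Measurable f) (hg : Measurable g) {m : ℕ} (hm : 0 < m)
    (hfi : Integrable (fun t => ‖f t‖ ^ (2 * (m : ℝ))) μ)
    (hgi : Integrable (fun t => ‖g t‖ ^ (2 * (m : ℝ))) μ) {c : ℕ → ℝ}
    (hP : ∀ α : ℂ, ∫ t, ‖g t + α * f t‖ ^ (2 * (m : ℝ)) ∂μ =
      ∑ j ∈ Finset.range (m + 1), c j * (‖α‖ ^ 2) ^ j) {j : ℕ} (hj : j ≤ m) :
    (m.choose j : ℝ) ^ 2 * ∫ t, (‖f t‖ ^ 2) ^ j * (‖g t‖ ^ 2) ^ (m - j) ∂μ = c j := by
  have hm0 : (0 : ℝ) < (m : ℝ) := by exact_mod_cast hm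
  have hint2 := fun x (hx : (0 : ℝ) ≤ x) => integrable_mix hf hg hm0 hfi hgi hx
  have hΨ := fun x (hx : (0 : ℝ) ≤ x) => rep_transform (P := fun y =>
    ∑ j ∈ Finset.range (m + 1), c j * y ^ j) hf hg hm0
    (integrable_comb hf hg hm0 hfi hgi) hint2 hP hx
  set φ : ℕ → ℝ := fun j => ∫ t, (‖f t‖ ^ 2) ^ j * (‖g t‖ ^ 2) ^ (m - j) ∂μ with hφ
  have hL : ∀ x : ℝ, ∫ t, (‖g t‖ ^ 2 + x * ‖f t‖ ^ 2) ^ (m : ℝ) ∂μ =
      ∑ j ∈ Finset.range (m + 1), ((m.choose j : ℝ) * φ j) * x ^ j := by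
    intro x
    have h1 : ∀ t, (‖g t‖ ^ 2 + x * ‖f t‖ ^ 2) ^ (m : ℝ) = ∑ j ∈ Finset.range (m + 1),
        (x ^ j * (m.choose j : ℝ)) * ((‖f t‖ ^ 2) ^ j * (‖g t‖ ^ 2) ^ (m - j)) := by
      intro t
      rw [Real.rpow_natCast, add_comm, add_pow]
      refine Finset.sum_congr rfl fun j _ => ?_
      rw [mul_pow]; ring
    simp_rw [h1]
    rw [integral_finsetSum]
    · refine Finset.sum_congr rfl fun j _ => ?_
      rw [integral_const_mul]
      ring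
    · intro j hj
      exact (integrable_moment hf hg hfi hgi (by have := Finset.mem_range.1 hj; omega)).const_mul _
  have hR : ∀ x : ℝ, ((m : ℝ) + 1) * ∫ u in Ioi (0 : ℝ),
      (∑ j ∈ Finset.range (m + 1), c j * (x * u) ^ j) * (1 + u) ^ (-((m : ℝ) + 2)) =
      ∑ j ∈ Finset.range (m + 1), (c j / (m.choose j : ℝ)) * x ^ j := by
    intro x
    have h1 : (fun u : ℝ => (∑ j ∈ Finset.range (m + 1), c j * (x * u) ^ j) *
        (1 + u) ^ (-((m : ℝ) + 2))) = fun u => ∑ j ∈ Finset.range (m + 1),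
        (c j * x ^ j) * (u ^ j * (1 + u) ^ (-((m : ℝ) + 2))) := by
      funext u
      rw [Finset.sum_mul]
      exact Finset.sum_congr rfl fun j _ => by rw [mul_pow]; ring
    rw [h1, integral_finsetSum, Finset.mul_sum]
    · refine Finset.sum_congr rfl fun j hj => ?_
      have h2 := beta_int hm (j := j) (by have := Finset.mem_range.1 hj; omega)
      rw [integral_const_mul]
      calc ((m : ℝ) + 1) * (c j * x ^ j * ∫ u in Ioi (0 : ℝ), u ^ j * (1 + u) ^ (-((m : ℝ) + 2)))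
          = (c j * x ^ j) * (((m : ℝ) + 1) *
            ∫ u in Ioi (0 : ℝ), u ^ j * (1 + u) ^ (-((m : ℝ) + 2))) := by ring
        _ = _ := by rw [h2]; ring
    · intro j hj
      refine (integrableOn_pow_weight ?_).const_mul _
      have := Finset.mem_range.1 hj
      exact_mod_cast this
  have hkey := coeff_eq_of_eval (m := m) (a := fun j => (m.choose j : ℝ) * φ j)
    (c := fun j => c j / (m.choose j : ℝ)) (fun x hx => by
      have := hΨ x hx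
      rw [hL x, hR x] at this
      exact this) hj
  have hpos : (0 : ℝ) < m.choose j := by exact_mod_cast Nat.choose_pos hj
  rw [eq_div_iff hpos.ne'] at hkey
  rw [← hkey]; ring

theorem nonneg_comb {Ω : Type*} [MeasurableSpace Ω] {μ : Measure Ω} (s : Finset ℕ)
    {F : ℕ → Ω → ℝ} (hF : ∀ i ∈ s, Integrable (F i) μ) (c : ℕ → ℝ)
    (h : ∀ t, 0 ≤ ∑ i ∈ s, c i * F i t) : 0 ≤ ∑ i ∈ s, c i * ∫ t, F i t ∂μ := by
  have h1 : ∑ i ∈ s, c i * ∫ t, F i t ∂μ = ∫ t, ∑ i ∈ s, c i * F i t ∂μ := by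
    rw [integral_finsetSum _ fun i hi => (hF i hi).const_mul _]
    exact Finset.sum_congr rfl fun i _ => by rw [integral_const_mul]
  rw [h1]
  exact integral_nonneg h

/-- Positivity of moments: `∫ A^r (v₀ A² + v₁ A B + v₂ B²)² B^{m-r-4} ≥ 0`. -/
theorem hankel_nonneg {Ω : Type*} [MeasurableSpace Ω] {μ : Measure Ω} {f g : Ω → ℂ}
    (hf : Measurable f) (hg : Measurable g) {m : ℕ}
    (hfi : Integrable (fun t => ‖f t‖ ^ (2 * (m : ℝ))) μ)
    (hgi : Integrable (fun t => ‖g t‖ ^ (2 * (m : ℝ))) μ) (r : ℕ) (hr : r + 4 ≤ m)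
    (v0 v1 v2 : ℝ) :
    0 ≤ v2 ^ 2 * (∫ t, (‖f t‖ ^ 2) ^ r * (‖g t‖ ^ 2) ^ (m - r) ∂μ) +
      2 * v1 * v2 * (∫ t, (‖f t‖ ^ 2) ^ (r + 1) * (‖g t‖ ^ 2) ^ (m - (r + 1)) ∂μ) +
      (v1 ^ 2 + 2 * v0 * v2) * (∫ t, (‖f t‖ ^ 2) ^ (r + 2) * (‖g t‖ ^ 2) ^ (m - (r + 2)) ∂μ) +
      2 * v0 * v1 * (∫ t, (‖f t‖ ^ 2) ^ (r + 3) * (‖g t‖ ^ 2) ^ (m - (r + 3)) ∂μ) +
      v0 ^ 2 * (∫ t, (‖f t‖ ^ 2) ^ (r + 4) * (‖g t‖ ^ 2) ^ (m - (r + 4)) ∂μ) := by
  have h := nonneg_comb (μ := μ) (Finset.range 5)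
    (F := fun i t => (‖f t‖ ^ 2) ^ (r + i) * (‖g t‖ ^ 2) ^ (m - (r + i)))
    (fun i hi => integrable_moment hf hg hfi hgi (by have := Finset.mem_range.1 hi; omega))
    (fun i => if i = 0 then v2 ^ 2 else if i = 1 then 2 * v1 * v2 else if i = 2 then
      v1 ^ 2 + 2 * v0 * v2 else if i = 3 then 2 * v0 * v1 else v0 ^ 2)
    (fun t => by
      have e : ∀ i, i ≤ 4 → (‖g t‖ ^ 2) ^ (m - (r + i)) =
          (‖g t‖ ^ 2) ^ (m - (r + 4)) * (‖g t‖ ^ 2) ^ (4 - i) := by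
        intro i hi
        rw [← pow_add]; congr 1; omega
      simp only [Finset.sum_range_succ, Finset.sum_range_zero, zero_add]
      rw [e 0 (by norm_num), e 1 (by norm_num), e 2 (by norm_num), e 3 (by norm_num)]
      norm_num
      have : v2 ^ 2 * ((‖f t‖ ^ 2) ^ r * ((‖g t‖ ^ 2) ^ (m - (r + 4)) * (‖g t‖ ^ 2) ^ 4)) +
          2 * v1 * v2 * ((‖f t‖ ^ 2) ^ (r + 1) * ((‖g t‖ ^ 2) ^ (m - (r + 4)) * (‖g t‖ ^ 2) ^ 3)) +
          (v1 ^ 2 + 2 * v0 * v2) * ((‖f t‖ ^ 2) ^ (r + 2) *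
            ((‖g t‖ ^ 2) ^ (m - (r + 4)) * (‖g t‖ ^ 2) ^ 2)) +
          2 * v0 * v1 * ((‖f t‖ ^ 2) ^ (r + 3) * ((‖g t‖ ^ 2) ^ (m - (r + 4)) * ‖g t‖ ^ 2)) +
          v0 ^ 2 * ((‖f t‖ ^ 2) ^ (r + 4) * (‖g t‖ ^ 2) ^ (m - (r + 4))) =
          (‖f t‖ ^ 2) ^ r * (‖g t‖ ^ 2) ^ (m - (r + 4)) *
            (v0 * (‖f t‖ ^ 2) ^ 2 + v1 * (‖f t‖ ^ 2) * (‖g t‖ ^ 2) + v2 * (‖g t‖ ^ 2) ^ 2) ^ 2 := by
        ring
      rw [this]
      positivity)
  simp only [Finset.sum_range_succ, Finset.sum_range_zero, zero_add] at h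
  norm_num at h
  exact h

/-- `m ≥ 6`: contradiction from the first three moments. -/
theorem no_rep_ge_six {Ω : Type*} [MeasurableSpace Ω] {μ : Measure Ω} [SFinite μ] {f g : Ω → ℂ}
    (hf : Measurable f) (hg : Measurable g) {m : ℕ} (hm : 6 ≤ m)
    (hfi : Integrable (fun t => ‖f t‖ ^ (2 * (m : ℝ))) μ)
    (hgi : Integrable (fun t => ‖g t‖ ^ (2 * (m : ℝ))) μ) {d : ℕ → ℝ}
    (hd0 : d 0 = 2) (hd1 : d 1 = (m : ℝ) ^ 2) (hd2 : d 2 = (m : ℝ) ^ 2 * ((m : ℝ) ^ 2 - 1) / 12)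
    (hP : ∀ β : ℂ, ∫ t, ‖f t + β * g t‖ ^ (2 * (m : ℝ)) ∂μ =
      ∑ j ∈ Finset.range (m + 1), d j * (‖β‖ ^ 2) ^ j) : False := by
  have hm0 : 0 < m := by omega
  have h0 := even_moments hg hf hm0 hgi hfi hP (j := 0) (by omega)
  have h1 := even_moments hg hf hm0 hgi hfi hP (j := 1) (by omega)
  have h2 := even_moments hg hf hm0 hgi hfi hP (j := 2) (by omega)
  have hpos := hankel_nonneg hg hf hgi hfi 0 (by omega) 0 (-1) (1 / 2)
  simp only [zero_add, pow_zero, one_mul] at hpos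
  simp only [pow_zero, one_mul] at h0
  set φ0 := ∫ t, (‖f t‖ ^ 2) ^ (m - 0) ∂μ with hφ0
  set φ1 := ∫ t, (‖g t‖ ^ 2) ^ 1 * (‖f t‖ ^ 2) ^ (m - 1) ∂μ with hφ1
  set φ2 := ∫ t, (‖g t‖ ^ 2) ^ 2 * (‖f t‖ ^ 2) ^ (m - 2) ∂μ with hφ2
  have hm6 : (6 : ℝ) ≤ m := by exact_mod_cast hm
  have c2 : ((m.choose 2 : ℕ) : ℝ) = (m : ℝ) * ((m : ℝ) - 1) / 2 := by
    rw [Nat.cast_choose_two]
  rw [hd0] at h0
  rw [hd1] at h1
  rw [hd2, c2] at h2
  simp only [Nat.choose_zero_right, Nat.cast_one, one_pow, one_mul, Nat.choose_one_right] at h0 h1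
  have hm1 : (0 : ℝ) < m - 1 := by linarith
  have hmp : (0 : ℝ) < (m : ℝ) := by linarith
  have k1 : φ1 = 1 := by
    have : (m : ℝ) ^ 2 ≠ 0 := by positivity
    exact mul_left_cancel₀ this (by linarith)
  have k2 : φ2 = ((m : ℝ) + 1) / (3 * (m - 1)) := by
    have h3 : ((m : ℝ) * ((m : ℝ) - 1) / 2) ^ 2 ≠ 0 := by positivity
    refine mul_left_cancel₀ h3 ?_
    rw [h2]
    field_simp
    ring
  rw [h0, k1, k2] at hpos
  have : ((m : ℝ) + 1) / (3 * (m - 1)) < 1 / 2 := by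
    rw [div_lt_div_iff₀ (by positivity) (by norm_num)]
    linarith
  linarith

theorem no_rep_four {Ω : Type*} [MeasurableSpace Ω] {μ : Measure Ω} [SFinite μ] {f g : Ω → ℂ}
    (hf : Measurable f) (hg : Measurable g)
    (hfi : Integrable (fun t => ‖f t‖ ^ (2 * ((4 : ℕ) : ℝ))) μ)
    (hgi : Integrable (fun t => ‖g t‖ ^ (2 * ((4 : ℕ) : ℝ))) μ)
    (hP : ∀ α : ℂ, ∫ t, ‖g t + α * f t‖ ^ (2 * ((4 : ℕ) : ℝ)) ∂μ =
      1 + 8 * (‖α‖ ^ 2) + 20 * (‖α‖ ^ 2) ^ 2 + 16 * (‖α‖ ^ 2) ^ 3 + 2 * (‖α‖ ^ 2) ^ 4) :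
    False := by
  set c : ℕ → ℝ := fun j => if j = 0 then 1 else if j = 1 then 8 else if j = 2 then 20 else
    if j = 3 then 16 else 2 with hc
  have hP' : ∀ α : ℂ, ∫ t, ‖g t + α * f t‖ ^ (2 * ((4 : ℕ) : ℝ)) ∂μ =
      ∑ j ∈ Finset.range (4 + 1), c j * (‖α‖ ^ 2) ^ j := by
    intro α
    rw [hP α]
    simp [Finset.sum_range_succ, hc]
  have h0 := even_moments hf hg (by norm_num) hfi hgi hP' (j := 0) (by norm_num)
  have h1 := even_moments hf hg (by norm_num) hfi hgi hP' (j := 1) (by norm_num)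
  have h2 := even_moments hf hg (by norm_num) hfi hgi hP' (j := 2) (by norm_num)
  have h3 := even_moments hf hg (by norm_num) hfi hgi hP' (j := 3) (by norm_num)
  have h4 := even_moments hf hg (by norm_num) hfi hgi hP' (j := 4) (by norm_num)
  have hpos := hankel_nonneg hf hg hfi hgi 0 (by norm_num) (-3) 7 (-2)
  have b1 : Nat.choose 4 1 = 4 := rfl
  have b2 : Nat.choose 4 2 = 6 := rfl
  have b3 : Nat.choose 4 3 = 4 := rfl
  have b4 : Nat.choose 4 4 = 1 := rfl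
  have b0 : Nat.choose 4 0 = 1 := rfl
  simp only [hc, b0, b1, b2, b3, b4] at h0 h1 h2 h3 h4
  norm_num at h0 h1 h2 h3 h4 hpos
  nlinarith [h0, h1, h2, h3, h4, hpos]

theorem no_rep_five {Ω : Type*} [MeasurableSpace Ω] {μ : Measure Ω} [SFinite μ] {f g : Ω → ℂ}
    (hf : Measurable f) (hg : Measurable g)
    (hfi : Integrable (fun t => ‖f t‖ ^ (2 * ((5 : ℕ) : ℝ))) μ)
    (hgi : Integrable (fun t => ‖g t‖ ^ (2 * ((5 : ℕ) : ℝ))) μ)
    (hP : ∀ α : ℂ, ∫ t, ‖g t + α * f t‖ ^ (2 * ((5 : ℕ) : ℝ)) ∂μ =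
      1 + 10 * (‖α‖ ^ 2) + 35 * (‖α‖ ^ 2) ^ 2 + 50 * (‖α‖ ^ 2) ^ 3 + 25 * (‖α‖ ^ 2) ^ 4 +
        2 * (‖α‖ ^ 2) ^ 5) :
    False := by
  set c : ℕ → ℝ := fun j => if j = 0 then 1 else if j = 1 then 10 else if j = 2 then 35 else
    if j = 3 then 50 else if j = 4 then 25 else 2 with hc
  have hP' : ∀ α : ℂ, ∫ t, ‖g t + α * f t‖ ^ (2 * ((5 : ℕ) : ℝ)) ∂μ =
      ∑ j ∈ Finset.range (5 + 1), c j * (‖α‖ ^ 2) ^ j := by
    intro α
    rw [hP α]
    simp [Finset.sum_range_succ, hc]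
  have h1 := even_moments hf hg (by norm_num) hfi hgi hP' (j := 1) (by norm_num)
  have h2 := even_moments hf hg (by norm_num) hfi hgi hP' (j := 2) (by norm_num)
  have h3 := even_moments hf hg (by norm_num) hfi hgi hP' (j := 3) (by norm_num)
  have h4 := even_moments hf hg (by norm_num) hfi hgi hP' (j := 4) (by norm_num)
  have h5 := even_moments hf hg (by norm_num) hfi hgi hP' (j := 5) (by norm_num)
  have hpos := hankel_nonneg hf hg hfi hgi 1 (by norm_num) (-1) 3 (-1)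
  have b1 : Nat.choose 5 1 = 5 := rfl
  have b2 : Nat.choose 5 2 = 10 := rfl
  have b3 : Nat.choose 5 3 = 10 := rfl
  have b4 : Nat.choose 5 4 = 5 := rfl
  have b5 : Nat.choose 5 5 = 1 := rfl
  simp only [hc, b1, b2, b3, b4, b5] at h1 h2 h3 h4 h5
  norm_num at h1 h2 h3 h4 h5 hpos
  nlinarith [h1, h2, h3, h4, h5, hpos]

end Pool.Agent.Lib.Helper34.SP
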