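import Mathlib

/-!
# `p = 1`: the pair `E₁₁`, `[[0,1],[1,1]]`
-/

set_option autoImplicit false

open MeasureTheory Set Filter Topology

namespace Pool.Agent.Lib.Helper34.SP

/-- `D(u) = |1+u| + |1-u|` -/
theorem two_le_D (u : ℂ) : 2 ≤ ‖1 + u‖ + ‖1 - u‖ := by
  have h := norm_add_le (1 + u) (1 - u)
  have : (1 + u) + (1 - u) = 2 := by ring
  rw [this] at h
  simpa using h

theorem D_le_one (u : ℂ) : ‖1 + u‖ + ‖1 - u‖ ≤ 2 + 2 * ‖u‖ := by
  have h1 := norm_add_le (1 : ℂ) u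
  have h2 := norm_sub_le (1 : ℂ) u
  simp only [norm_one] at h1 h2
  linarith

theorem normsq_add (u : ℂ) : ‖1 + u‖ ^ 2 = 1 + 2 * u.re + ‖u‖ ^ 2 := by
  rw [← Complex.normSq_eq_norm_sq, ← Complex.normSq_eq_norm_sq, Complex.normSq_apply,
    Complex.normSq_apply]
  simp
  ring

theorem normsq_sub (u : ℂ) : ‖1 - u‖ ^ 2 = 1 - 2 * u.re + ‖u‖ ^ 2 := by
  rw [← Complex.normSq_eq_norm_sq, ← Complex.normSq_eq_norm_sq, Complex.normSq_apply,
    Complex.normSq_apply]
  simp
  ring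

theorem D_le_two (u : ℂ) : ‖1 + u‖ + ‖1 - u‖ ≤ 2 + ‖u‖ ^ 2 := by
  have h1 := normsq_add u
  have h2 := normsq_sub u
  have h3 : (‖1 + u‖ + ‖1 - u‖) ^ 2 ≤ (2 + ‖u‖ ^ 2) ^ 2 := by
    nlinarith [sq_nonneg (‖1 + u‖ - ‖1 - u‖), sq_nonneg (‖u‖ ^ 2)]
  exact abs_le_of_sq_le_sq' h3 (by positivity) |>.2

theorem D_ge (u : ℂ) : 2 * Real.sqrt (1 + u.im ^ 2) ≤ ‖1 + u‖ + ‖1 - u‖ := by
  have e1 : ‖1 + u‖ ^ 2 = (1 + u.re) ^ 2 + u.im ^ 2 := by
    rw [← Complex.normSq_eq_norm_sq, Complex.normSq_apply]; simp; ring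
  have e2 : ‖1 - u‖ ^ 2 = (1 - u.re) ^ 2 + u.im ^ 2 := by
    rw [← Complex.normSq_eq_norm_sq, Complex.normSq_apply]; simp; ring
  have hs := Real.sq_sqrt (show 0 ≤ 1 + u.im ^ 2 by positivity)
  have hs0 := Real.sqrt_nonneg (1 + u.im ^ 2)
  -- `|1+u| |1-u| ≥ |1 - Re² + Im²|...`
  have h3 : 1 - u.re ^ 2 + u.im ^ 2 ≤ ‖1 + u‖ * ‖1 - u‖ := by
    have h4 : (1 - u.re ^ 2 + u.im ^ 2) ^ 2 ≤ (‖1 + u‖ * ‖1 - u‖) ^ 2 := by
      rw [mul_pow, e1, e2]
      nlinarith [sq_nonneg (u.re * u.im)]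
    exact abs_le_of_sq_le_sq' h4 (by positivity) |>.2
  have h5 : (2 * Real.sqrt (1 + u.im ^ 2)) ^ 2 ≤ (‖1 + u‖ + ‖1 - u‖) ^ 2 := by
    nlinarith
  exact abs_le_of_sq_le_sq' h5 (by positivity) |>.2

/-- the odd part -/
theorem odd_bound (u : ℂ) :
    |(‖1 + u‖ - ‖1 - u‖) / 2 - u.re| ≤ ‖u‖ * ((‖1 + u‖ + ‖1 - u‖) - 2) / 2 := by
  have hD := two_le_D u
  set D := ‖1 + u‖ + ‖1 - u‖ with hDd
  have h1 := normsq_add u
  have h2 := normsq_sub u
  have h3 : (‖1 + u‖ - ‖1 - u‖) * D = 4 * u.re := by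
    rw [hDd]; nlinarith
  have h4 : ‖1 + u‖ - ‖1 - u‖ = 4 * u.re / D := by
    rw [eq_div_iff (by linarith)]; exact h3
  have h5 : (‖1 + u‖ - ‖1 - u‖) / 2 - u.re = -(u.re * (D - 2) / D) := by
    rw [h4]
    have : D ≠ 0 := by linarith
    field_simp
    ring
  rw [h5, abs_neg, abs_div, abs_mul, abs_of_pos (by linarith : 0 < D),
    abs_of_nonneg (by linarith : 0 ≤ D - 2)]
  rw [div_le_div_iff₀ (by linarith) (by norm_num)]
  have h6 : |u.re| ≤ ‖u‖ := Complex.abs_re_le_norm u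
  nlinarith [mul_nonneg (norm_nonneg u) (by linarith : 0 ≤ D - 2), abs_nonneg u.re,
    mul_le_mul_of_nonneg_right h6 (by linarith : 0 ≤ D - 2)]

theorem factor_norm (a b : ℂ) (r : ℂ) (ha : a ≠ 0) : ‖a + r * b‖ = ‖a‖ * ‖1 + r * (b / a)‖ := by
  rw [← norm_mul]
  congr 1
  field_simp

theorem factor_norm' (a b : ℂ) (r : ℂ) (ha : a ≠ 0) : ‖a - r * b‖ = ‖a‖ * ‖1 - r * (b / a)‖ := by
  rw [← norm_mul]
  congr 1
  field_simp

theorem no_rep_one {Ω : Type*} [MeasurableSpace Ω] {μ : Measure Ω} {f g : Ω → ℂ}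
    (hf : Measurable f) (hg : Measurable g) (hfi : Integrable (fun t => ‖f t‖) μ)
    (hgi : Integrable (fun t => ‖g t‖) μ)
    (hN0 : ∫ t, ‖f t‖ ∂μ = 1)
    (hN1 : ∀ r : ℝ, 0 < r → r ≤ 1 / 2 → ∫ t, ‖f t + (r : ℂ) * g t‖ ∂μ = 1 + r)
    (hN2 : ∀ r : ℝ, 0 < r → r ≤ 1 / 2 → 1 + r + r ^ 2 ≤ ∫ t, ‖f t - (r : ℂ) * g t‖ ∂μ ∧
      ∫ t, ‖f t - (r : ℂ) * g t‖ ∂μ ≤ 1 + r + 2 * r ^ 2)
    (hN3 : ∀ r : ℝ, 0 < r → r ≤ 1 / 2 →
      ∫ t, ‖f t + (r * Complex.I : ℂ) * g t‖ ∂μ ≤ 1 + r + 2 * r ^ 2)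
    (hN4 : ∀ r : ℝ, 0 < r → r ≤ 1 / 2 →
      ∫ t, ‖f t - (r * Complex.I : ℂ) * g t‖ ∂μ ≤ 1 + r + 2 * r ^ 2) : False := by
  have hev : ∀ᶠ r : ℝ in 𝓝[>] 0, 0 < r ∧ r ≤ 1 / 2 := by
    filter_upwards [Ioc_mem_nhdsGT (show (0 : ℝ) < 1 / 2 by norm_num)] with r hr
    exact ⟨hr.1, hr.2⟩
  have icomb : ∀ c : ℂ, Integrable (fun t => ‖f t + c * g t‖) μ := by
    intro c
    refine (hfi.add (hgi.const_mul ‖c‖)).mono' (Measurable.aestronglyMeasurable (by fun_prop))
      (Eventually.of_forall fun t => ?_)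
    rw [norm_norm, Pi.add_apply, ← norm_mul]
    exact norm_add_le _ _
  have icomb' : ∀ c : ℂ, Integrable (fun t => ‖f t - c * g t‖) μ := by
    intro c
    have := icomb (-c)
    refine this.congr (Eventually.of_forall fun t => ?_)
    simp only
    congr 1
    ring
  -- Step 1
  set c0 : ℝ := ∫ t, {t | f t = 0}.indicator (fun t => ‖g t‖) t ∂μ with hc0
  have hS : MeasurableSet {t | f t = 0} := hf (measurableSet_singleton 0)
  have hc0i : Integrable ({t | f t = 0}.indicator (fun t => ‖g t‖)) μ := hgi.indicator hS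
  have hlim1 : Tendsto (fun r : ℝ => ∫ t, ((‖f t + (r : ℂ) * g t‖ + ‖f t - (r : ℂ) * g t‖) / 2 -
      ‖f t‖) / r ∂μ) (𝓝[>] 0) (𝓝 c0) := by
    refine tendsto_integral_filter_of_dominated_convergence (fun t => ‖g t‖) ?_ ?_ hgi ?_
    · exact Eventually.of_forall fun r => (Measurable.aestronglyMeasurable (by fun_prop))
    · filter_upwards [hev] with r hr
      refine Eventually.of_forall fun t => ?_
      have h1 := norm_add_le (f t) ((r : ℂ) * g t)
      have h2 := norm_sub_le (f t) ((r : ℂ) * g t)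
      have h3 := norm_add_le (f t + (r : ℂ) * g t) (f t - (r : ℂ) * g t)
      have h4 : (f t + (r : ℂ) * g t) + (f t - (r : ℂ) * g t) = 2 * f t := by ring
      rw [h4, norm_mul] at h3
      have h5 : ‖(r : ℂ) * g t‖ = r * ‖g t‖ := by
        rw [norm_mul, Complex.norm_real, Real.norm_of_nonneg hr.1.le]
      have h6 : ‖(2 : ℂ)‖ = 2 := by simp
      rw [h5] at h1 h2
      rw [h6] at h3
      rw [Real.norm_of_nonneg (div_nonneg (by linarith) hr.1.le), div_le_iff₀ hr.1]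
      linarith
    · refine Eventually.of_forall fun t => ?_
      by_cases ht : f t = 0
      · rw [indicator_of_mem (show t ∈ {t | f t = 0} from ht)]
        refine tendsto_const_nhds.congr' ?_
        filter_upwards [hev] with r hr
        rw [ht]
        simp only [zero_add, zero_sub, norm_neg, norm_zero, sub_zero, norm_mul, Complex.norm_real,
          Real.norm_of_nonneg hr.1.le]
        have := hr.1
        field_simp
        ring
      · rw [indicator_of_notMem (show t ∉ {t | f t = 0} from ht)]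
        have h0 : Tendsto (fun r : ℝ => ‖f t‖ * (r * ‖g t / f t‖ ^ 2 / 2)) (𝓝[>] 0) (𝓝 0) := by
          have : Tendsto (fun r : ℝ => ‖f t‖ * (r * ‖g t / f t‖ ^ 2 / 2)) (𝓝 0)
              (𝓝 (‖f t‖ * (0 * ‖g t / f t‖ ^ 2 / 2))) := by
            refine Continuous.tendsto ?_ 0
            fun_prop
          simp only [zero_mul, zero_div, mul_zero] at this
          exact this.mono_left nhdsWithin_le_nhds
        refine squeeze_zero_norm' ?_ h0
        filter_upwards [hev] with r hr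
        rw [factor_norm _ _ _ ht, factor_norm' _ _ _ ht]
        have h1 := two_le_D ((r : ℂ) * (g t / f t))
        have h2 := D_le_two ((r : ℂ) * (g t / f t))
        rw [norm_mul (r : ℂ), Complex.norm_real, Real.norm_of_nonneg hr.1.le, mul_pow] at h2
        have h3 : ((‖f t‖ * ‖1 + (r : ℂ) * (g t / f t)‖ + ‖f t‖ * ‖1 - (r : ℂ) * (g t / f t)‖) / 2
            - ‖f t‖) / r = ‖f t‖ * ((‖1 + (r : ℂ) * (g t / f t)‖ + ‖1 - (r : ℂ) * (g t / f t)‖
              - 2) / 2 / r) := by ring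
        rw [h3, Real.norm_of_nonneg (mul_nonneg (norm_nonneg _)
          (div_nonneg (by linarith) hr.1.le))]
        refine mul_le_mul_of_nonneg_left ?_ (norm_nonneg _)
        rw [div_le_iff₀ hr.1]
        nlinarith
  have hc0ge : 1 ≤ c0 := by
    refine ge_of_tendsto hlim1 ?_
    filter_upwards [hev] with r hr
    have h0 : ∫ t, ((‖f t + (r : ℂ) * g t‖ + ‖f t - (r : ℂ) * g t‖) / 2 - ‖f t‖) ∂μ =
        (∫ t, ‖f t + (r : ℂ) * g t‖ ∂μ + ∫ t, ‖f t - (r : ℂ) * g t‖ ∂μ) / 2 -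
          ∫ t, ‖f t‖ ∂μ := by
      rw [integral_sub, integral_div, integral_add]
      · exact icomb _
      · exact icomb' _
      · exact ((icomb _).add (icomb' _)).div_const 2
      · exact hfi
    rw [integral_div, h0, hN0, hN1 r hr.1 hr.2, le_div_iff₀ hr.1]
    have := (hN2 r hr.1 hr.2).1
    nlinarith [hr.1, sq_nonneg r]
  -- Step 2 : second moment
  have hfz : Measurable fun t => g t / f t := hg.div hf
  have hM : Integrable (fun t => ‖f t‖ * ‖g t / f t‖ ^ 2) μ := by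
    set G : ℝ → Ω → ℝ := fun r t => ‖f t‖ * (((g t / f t).im ^ 2 /
      (1 + Real.sqrt (1 + r ^ 2 * (g t / f t).im ^ 2)) + (g t / f t).re ^ 2 /
      (1 + Real.sqrt (1 + r ^ 2 * (g t / f t).re ^ 2))) / 2) with hG
    set E : ℝ → Ω → ℝ := fun r t => (‖f t + (r : ℂ) * g t‖ + ‖f t - (r : ℂ) * g t‖ +
      ‖f t + (r * Complex.I : ℂ) * g t‖ + ‖f t - (r * Complex.I : ℂ) * g t‖) / 4 - ‖f t‖ -
      r * {t | f t = 0}.indicator (fun t => ‖g t‖) t with hE
    have hGE : ∀ r : ℝ, 0 < r → ∀ t, r ^ 2 * G r t ≤ E r t := by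
      intro r hr t
      by_cases ht : f t = 0
      · simp only [hG, hE, indicator_of_mem (show t ∈ {t | f t = 0} from ht), ht]
        simp only [zero_add, zero_sub, norm_neg, norm_zero, sub_zero, norm_mul, Complex.norm_real,
          Real.norm_of_nonneg hr.le, Complex.norm_I, zero_mul, mul_zero, mul_one]
        apply le_of_eq
        ring
      · simp only [hG, hE, indicator_of_notMem (show t ∉ {t | f t = 0} from ht)]
        rw [factor_norm _ _ _ ht, factor_norm' _ _ _ ht, factor_norm _ _ _ ht,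
          factor_norm' _ _ _ ht]
        have h1 := D_ge ((r : ℂ) * (g t / f t))
        have h2 := D_ge ((r * Complex.I : ℂ) * (g t / f t))
        set z := g t / f t with hz
        have e1 : ((r : ℂ) * z).im = r * z.im := by simp
        have e2 : ((r * Complex.I : ℂ) * z).im = r * z.re := by
          simp [mul_assoc]
        rw [e1, mul_pow] at h1
        rw [e2, mul_pow] at h2
        have key : ∀ a : ℝ, r ^ 2 * (a ^ 2 / (1 + Real.sqrt (1 + r ^ 2 * a ^ 2))) =
            Real.sqrt (1 + r ^ 2 * a ^ 2) - 1 := by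
          intro a
          have hs := Real.sq_sqrt (show 0 ≤ 1 + r ^ 2 * a ^ 2 by positivity)
          have hs0 := Real.sqrt_nonneg (1 + r ^ 2 * a ^ 2)
          have : 1 + Real.sqrt (1 + r ^ 2 * a ^ 2) ≠ 0 := by positivity
          field_simp
          nlinarith
        have h3 : r ^ 2 * (‖f t‖ * ((z.im ^ 2 / (1 + Real.sqrt (1 + r ^ 2 * z.im ^ 2)) +
            z.re ^ 2 / (1 + Real.sqrt (1 + r ^ 2 * z.re ^ 2))) / 2)) =
            ‖f t‖ * ((r ^ 2 * (z.im ^ 2 / (1 + Real.sqrt (1 + r ^ 2 * z.im ^ 2))) +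
            r ^ 2 * (z.re ^ 2 / (1 + Real.sqrt (1 + r ^ 2 * z.re ^ 2)))) / 2) := by ring
        rw [h3, key, key]
        have h4 : (‖f t‖ * ‖1 + (r : ℂ) * z‖ + ‖f t‖ * ‖1 - (r : ℂ) * z‖ +
            ‖f t‖ * ‖1 + (r * Complex.I : ℂ) * z‖ + ‖f t‖ * ‖1 - (r * Complex.I : ℂ) * z‖) / 4 -
            ‖f t‖ - r * 0 = ‖f t‖ * (((‖1 + (r : ℂ) * z‖ + ‖1 - (r : ℂ) * z‖) +
            (‖1 + (r * Complex.I : ℂ) * z‖ + ‖1 - (r * Complex.I : ℂ) * z‖)) / 4 - 1) := by ring
        rw [h4]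
        refine mul_le_mul_of_nonneg_left ?_ (norm_nonneg _)
        linarith
    have hG0 : ∀ r t, 0 ≤ G r t := by
      intro r t
      simp only [hG]
      positivity
    have hEi : ∀ r : ℝ, Integrable (E r) μ := by
      intro r
      exact ((((((icomb _).add (icomb' _)).add (icomb _)).add (icomb' _)).div_const 4).sub
        hfi).sub (hc0i.const_mul r)
    have hEint : ∀ r : ℝ, 0 < r → r ≤ 1 / 2 → ∫ t, E r t ∂μ ≤ 3 / 2 * r ^ 2 := by
      intro r hr hr2
      have h1 : ∫ t, E r t ∂μ = (∫ t, ‖f t + (r : ℂ) * g t‖ ∂μ + ∫ t, ‖f t - (r : ℂ) * g t‖ ∂μ +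
          ∫ t, ‖f t + (r * Complex.I : ℂ) * g t‖ ∂μ +
          ∫ t, ‖f t - (r * Complex.I : ℂ) * g t‖ ∂μ) / 4 - ∫ t, ‖f t‖ ∂μ - r * c0 := by
        simp only [hE]
        rw [integral_sub, integral_sub, integral_div, integral_add, integral_add, integral_add,
          integral_const_mul]
        · exact icomb _
        · exact icomb' _
        · exact (icomb _).add (icomb' _)
        · exact icomb _
        · exact ((icomb _).add (icomb' _)).add (icomb _)
        · exact icomb' _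
        · exact ((((icomb _).add (icomb' _)).add (icomb _)).add (icomb' _)).div_const 4
        · exact hfi
        · exact (((((icomb _).add (icomb' _)).add (icomb _)).add (icomb' _)).div_const 4).sub hfi
        · exact hc0i.const_mul r
      rw [h1, hN0, hN1 r hr hr2]
      have h2 := (hN2 r hr hr2).2
      have h3 := hN3 r hr hr2
      have h4 := hN4 r hr hr2
      nlinarith
    have hGi : ∀ r : ℝ, 0 < r → r ≤ 1 / 2 → ∫⁻ t, ENNReal.ofReal (G r t) ∂μ ≤
        ENNReal.ofReal (3 / 2) := by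
      intro r hr hr2
      have h1 : ∀ t, G r t ≤ (r ^ 2)⁻¹ * E r t := by
        intro t
        rw [← div_eq_inv_mul, le_div_iff₀ (by positivity), mul_comm]
        exact hGE r hr t
      calc ∫⁻ t, ENNReal.ofReal (G r t) ∂μ ≤ ∫⁻ t, ENNReal.ofReal ((r ^ 2)⁻¹ * E r t) ∂μ :=
            lintegral_mono fun t => ENNReal.ofReal_le_ofReal (h1 t)
        _ = ENNReal.ofReal (∫ t, (r ^ 2)⁻¹ * E r t ∂μ) :=
            (ofReal_integral_eq_lintegral_ofReal ((hEi r).const_mul _)
              (Eventually.of_forall fun t => (hG0 r t).trans (h1 t))).symm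
        _ ≤ ENNReal.ofReal (3 / 2) := by
            refine ENNReal.ofReal_le_ofReal ?_
            rw [integral_const_mul, inv_mul_le_iff₀ (by positivity)]
            have := hEint r hr hr2
            linarith
    -- Fatou
    set rn : ℕ → ℝ := fun n => 1 / ((n : ℝ) + 2) with hrn
    have hrn1 : ∀ n, 0 < rn n ∧ rn n ≤ 1 / 2 := by
      intro n
      refine ⟨by simp only [hrn]; positivity, ?_⟩
      simp only [hrn]
      rw [div_le_div_iff₀ (by positivity) (by norm_num)]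
      have : (0 : ℝ) ≤ n := Nat.cast_nonneg n
      linarith
    have hrnt : Tendsto rn atTop (𝓝 0) := by
      have h1 : Tendsto (fun n : ℕ => ((n : ℝ) + 2)) atTop atTop :=
        tendsto_atTop_add_const_right _ _ tendsto_natCast_atTop_atTop
      refine (tendsto_inv_atTop_zero.comp h1).congr fun n => ?_
      simp [hrn]
    have hpt : ∀ t, Tendsto (fun n => ENNReal.ofReal (G (rn n) t)) atTop
        (𝓝 (ENNReal.ofReal (‖f t‖ * ‖g t / f t‖ ^ 2 / 4))) := by
      intro t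
      have h1 : Continuous fun r : ℝ => G r t := by
        simp only [hG]
        refine continuous_const.mul (Continuous.div_const (Continuous.add ?_ ?_) 2)
        · refine continuous_const.div (by fun_prop) fun r => by positivity
        · refine continuous_const.div (by fun_prop) fun r => by positivity
      have h2 : G 0 t = ‖f t‖ * ‖g t / f t‖ ^ 2 / 4 := by
        simp only [hG]
        rw [← Complex.normSq_eq_norm_sq, Complex.normSq_apply]
        norm_num
        ring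
      rw [← h2]
      exact (ENNReal.continuous_ofReal.comp h1).tendsto 0 |>.comp hrnt
    have hfat : ∫⁻ t, ENNReal.ofReal (‖f t‖ * ‖g t / f t‖ ^ 2 / 4) ∂μ ≤ ENNReal.ofReal (3 / 2) := by
      calc ∫⁻ t, ENNReal.ofReal (‖f t‖ * ‖g t / f t‖ ^ 2 / 4) ∂μ =
          ∫⁻ t, liminf (fun n => ENNReal.ofReal (G (rn n) t)) atTop ∂μ := by
            refine lintegral_congr fun t => ?_
            rw [(hpt t).liminf_eq]
        _ ≤ liminf (fun n => ∫⁻ t, ENNReal.ofReal (G (rn n) t) ∂μ) atTop := by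
            refine lintegral_liminf_le fun n => ?_
            simp only [hG]
            fun_prop
        _ ≤ ENNReal.ofReal (3 / 2) := by
            refine liminf_le_of_le (by isBoundedDefault) fun b hb => ?_
            obtain ⟨n, hn⟩ := hb.exists
            exact hn.trans (hGi _ (hrn1 n).1 (hrn1 n).2)
    have h4 : Integrable (fun t => ‖f t‖ * ‖g t / f t‖ ^ 2 / 4) μ := by
      refine ⟨(Measurable.aestronglyMeasurable (by fun_prop)), ?_⟩
      rw [hasFiniteIntegral_iff_ofReal (Eventually.of_forall fun t => by positivity)]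
      exact hfat.trans_lt ENNReal.ofReal_lt_top
    have h5 := h4.const_mul 4
    refine h5.congr (Eventually.of_forall fun t => ?_)
    simp only
    ring
  -- Step 3 : odd part
  set H : ℝ → Ω → ℝ := fun r t => (‖f t + (r : ℂ) * g t‖ - ‖f t - (r : ℂ) * g t‖) / 2 -
    r * (‖f t‖ * (g t / f t).re) with hH
  have hbd : ∀ r : ℝ, 0 < r → ∀ t, |H r t| ≤
      ‖f t‖ * (r * ‖g t / f t‖ * ((‖1 + (r : ℂ) * (g t / f t)‖ + ‖1 - (r : ℂ) * (g t / f t)‖) - 2)
        / 2) := by
    intro r hr t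
    by_cases ht : f t = 0
    · simp [hH, ht]
    · simp only [hH]
      rw [factor_norm _ _ _ ht, factor_norm' _ _ _ ht]
      have h1 := odd_bound ((r : ℂ) * (g t / f t))
      set z := g t / f t with hz
      have e1 : ((r : ℂ) * z).re = r * z.re := by simp
      have e2 : ‖(r : ℂ) * z‖ = r * ‖z‖ := by
        rw [norm_mul, Complex.norm_real, Real.norm_of_nonneg hr.le]
      rw [e1, e2] at h1
      have h3 : (‖f t‖ * ‖1 + (r : ℂ) * z‖ - ‖f t‖ * ‖1 - (r : ℂ) * z‖) / 2 -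
          r * (‖f t‖ * z.re) = ‖f t‖ * ((‖1 + (r : ℂ) * z‖ - ‖1 - (r : ℂ) * z‖) / 2 - r * z.re) := by
        ring
      rw [h3, abs_mul, abs_of_nonneg (norm_nonneg (f t))]
      exact mul_le_mul_of_nonneg_left h1 (norm_nonneg _)
  have hbd2 : ∀ r : ℝ, 0 < r → ∀ t, |H r t| ≤ r ^ 2 * (‖f t‖ * ‖g t / f t‖ ^ 2) := by
    intro r hr t
    refine (hbd r hr t).trans ?_
    have h1 := D_le_one ((r : ℂ) * (g t / f t))
    rw [norm_mul (r : ℂ), Complex.norm_real, Real.norm_of_nonneg hr.le] at h1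
    have h2 : r * ‖g t / f t‖ * ((‖1 + (r : ℂ) * (g t / f t)‖ + ‖1 - (r : ℂ) * (g t / f t)‖) - 2)
        / 2 ≤ r ^ 2 * ‖g t / f t‖ ^ 2 := by
      have h3 : 0 ≤ r * ‖g t / f t‖ := by positivity
      nlinarith
    calc _ ≤ ‖f t‖ * (r ^ 2 * ‖g t / f t‖ ^ 2) := mul_le_mul_of_nonneg_left h2 (norm_nonneg _)
      _ = _ := by ring
  have hbd3 : ∀ r : ℝ, 0 < r → ∀ t, |H r t| ≤ r ^ 3 * (‖f t‖ * ‖g t / f t‖ ^ 3) := by
    intro r hr t
    refine (hbd r hr t).trans ?_
    have h1 := D_le_two ((r : ℂ) * (g t / f t))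
    rw [norm_mul (r : ℂ), Complex.norm_real, Real.norm_of_nonneg hr.le] at h1
    have h2 : r * ‖g t / f t‖ * ((‖1 + (r : ℂ) * (g t / f t)‖ + ‖1 - (r : ℂ) * (g t / f t)‖) - 2)
        / 2 ≤ r ^ 3 * ‖g t / f t‖ ^ 3 := by
      have h3 : 0 ≤ r * ‖g t / f t‖ := by positivity
      have h4 : 0 ≤ r ^ 3 * ‖g t / f t‖ ^ 3 := by positivity
      nlinarith [mul_le_mul_of_nonneg_left h1 h3]
    calc _ ≤ ‖f t‖ * (r ^ 3 * ‖g t / f t‖ ^ 3) := mul_le_mul_of_nonneg_left h2 (norm_nonneg _)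
      _ = _ := by ring
  have hLi : Integrable (fun t => ‖f t‖ * (g t / f t).re) μ := by
    refine hgi.mono' (Measurable.aestronglyMeasurable ?_) (Eventually.of_forall fun t => ?_)
    · exact (by fun_prop : Measurable fun t => ‖f t‖ * (g t / f t).re)
    · by_cases ht : f t = 0
      · simp [ht]
      · rw [norm_mul, norm_norm, Real.norm_eq_abs]
        calc ‖f t‖ * |(g t / f t).re| ≤ ‖f t‖ * ‖g t / f t‖ :=
              mul_le_mul_of_nonneg_left (Complex.abs_re_le_norm _) (norm_nonneg _)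
          _ = ‖g t‖ := by
              rw [norm_div]
              have : ‖f t‖ ≠ 0 := norm_ne_zero_iff.2 ht
              field_simp
  set L : ℝ := ∫ t, ‖f t‖ * (g t / f t).re ∂μ with hL
  set M : ℝ := ∫ t, ‖f t‖ * ‖g t / f t‖ ^ 2 ∂μ with hMd
  have hHi : ∀ r : ℝ, Integrable (H r) μ := fun r =>
    (((icomb _).sub (icomb' _)).div_const 2).sub (hLi.const_mul r)
  have hHint : ∀ r : ℝ, ∫ t, H r t ∂μ =
      (∫ t, ‖f t + (r : ℂ) * g t‖ ∂μ - ∫ t, ‖f t - (r : ℂ) * g t‖ ∂μ) / 2 - r * L := by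
    intro r
    simp only [hH]
    rw [integral_sub, integral_div, integral_sub, integral_const_mul]
    · exact icomb _
    · exact icomb' _
    · exact ((icomb _).sub (icomb' _)).div_const 2
    · exact hLi.const_mul r
  have hHM : ∀ r : ℝ, 0 < r → |∫ t, H r t ∂μ| ≤ r ^ 2 * M := by
    intro r hr
    rw [hMd, ← integral_const_mul]
    exact norm_integral_le_of_norm_le (f := H r) (hM.const_mul (r ^ 2))
      (Eventually.of_forall fun t => hbd2 r hr t)
  have hL0 : L = 0 := by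
    by_contra hne
    have hpos : 0 < |L| := abs_pos.2 hne
    -- |r L| ≤ r² (M + 1)
    have h1 : ∀ r : ℝ, 0 < r → r ≤ 1 / 2 → |L| ≤ r * (M + 1) := by
      intro r hr hr2
      have h2 := hHM r hr
      rw [hHint r, hN1 r hr hr2] at h2
      have h3 := hN2 r hr hr2
      have h4 : |r * L| ≤ r ^ 2 * (M + 1) := by
        rw [abs_le] at h2 ⊢
        constructor <;> nlinarith [sq_nonneg r]
      rw [abs_mul, abs_of_pos hr] at h4
      have h5 : r * |L| ≤ r * (r * (M + 1)) := by linarith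
      exact le_of_mul_le_mul_left h5 hr
    have hM0 : 0 ≤ M := integral_nonneg fun t => by positivity
    have h6 := h1 (min (1 / 2) (|L| / (2 * (M + 1)))) (by positivity) (min_le_left _ _)
    have h7 : min (1 / 2) (|L| / (2 * (M + 1))) * (M + 1) ≤ |L| / 2 := by
      calc min (1 / 2) (|L| / (2 * (M + 1))) * (M + 1) ≤ (|L| / (2 * (M + 1))) * (M + 1) :=
            mul_le_mul_of_nonneg_right (min_le_right _ _) (by linarith)
        _ = |L| / 2 := by field_simp
    linarith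
  have hlim3 : Tendsto (fun r : ℝ => ∫ t, H r t / r ^ 2 ∂μ) (𝓝[>] 0) (𝓝 (∫ _t : Ω, (0 : ℝ) ∂μ)) := by
    refine tendsto_integral_filter_of_dominated_convergence
      (fun t => ‖f t‖ * ‖g t / f t‖ ^ 2) ?_ ?_ hM ?_
    · exact Eventually.of_forall fun r => ((hHi r).div_const _).aestronglyMeasurable
    · filter_upwards [hev] with r hr
      refine Eventually.of_forall fun t => ?_
      have hr0 := hr.1
      rw [norm_div, Real.norm_eq_abs, Real.norm_of_nonneg (by positivity), div_le_iff₀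
        (by positivity)]
      have := hbd2 r hr.1 t
      linarith
    · refine Eventually.of_forall fun t => ?_
      have h0 : Tendsto (fun r : ℝ => r * (‖f t‖ * ‖g t / f t‖ ^ 3)) (𝓝[>] 0) (𝓝 0) := by
        have : Tendsto (fun r : ℝ => r * (‖f t‖ * ‖g t / f t‖ ^ 3)) (𝓝 0)
            (𝓝 (0 * (‖f t‖ * ‖g t / f t‖ ^ 3))) := by
          refine Continuous.tendsto ?_ 0
          fun_prop
        rw [zero_mul] at this
        exact this.mono_left nhdsWithin_le_nhds
      refine squeeze_zero_norm' ?_ h0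
      filter_upwards [hev] with r hr
      have hr0 := hr.1
      rw [norm_div, Real.norm_eq_abs, Real.norm_of_nonneg (by positivity), div_le_iff₀
        (by positivity)]
      have := hbd3 r hr.1 t
      nlinarith
  rw [integral_zero] at hlim3
  have hle : (0 : ℝ) ≤ -(1 / 2) := by
    refine le_of_tendsto hlim3 ?_
    filter_upwards [hev] with r hr
    have hr0 := hr.1
    rw [integral_div, hHint r, hL0, hN1 r hr.1 hr.2, div_le_iff₀ (by positivity)]
    have := (hN2 r hr.1 hr.2).1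
    nlinarith
  norm_num at hle

end Pool.Agent.Lib.Helper34.SP
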