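import Mathlib
import Pool.Agent.Lib.Helper34.SP.Block
import Pool.Agent.Lib.Helper34.SP.NegGen
import Pool.Agent.Lib.Helper34.SP.NegEven
import Pool.Agent.Lib.Helper34.SP.NegOne

set_option autoImplicit false
set_option linter.unusedSectionVars false

open MeasureTheory Set Filter Topology
open scoped ENNReal

namespace Pool.Agent.Lib.Helper34.SP

variable {ι H : Type*} [NormedAddCommGroup H] [InnerProductSpace ℂ H] [CompleteSpace H]

theorem exists_roots {s q : ℝ} (hq : 0 ≤ q) (hs : 2 * q ≤ s) :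
    ∃ x y : ℝ, 0 ≤ x ∧ 0 ≤ y ∧ x + y = s ∧ x * y = q ^ 2 := by
  have hd : 0 ≤ s ^ 2 - 4 * q ^ 2 := by nlinarith
  have h1 := Real.sq_sqrt hd
  have h0 := Real.sqrt_nonneg (s ^ 2 - 4 * q ^ 2)
  have h2 : Real.sqrt (s ^ 2 - 4 * q ^ 2) ≤ s := by
    rw [Real.sqrt_le_left (by linarith)]
    nlinarith [sq_nonneg q]
  refine ⟨(s + Real.sqrt (s ^ 2 - 4 * q ^ 2)) / 2, (s - Real.sqrt (s ^ 2 - 4 * q ^ 2)) / 2,
    by linarith, by linarith, by ring, by nlinarith⟩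

theorem two_det_le (M : Matrix (Fin 2) (Fin 2) ℂ) :
    2 * ‖M 0 0 * M 1 1 - M 0 1 * M 1 0‖ ≤
      ‖M 0 0‖ ^ 2 + ‖M 0 1‖ ^ 2 + ‖M 1 0‖ ^ 2 + ‖M 1 1‖ ^ 2 := by
  have h := norm_sub_le (M 0 0 * M 1 1) (M 0 1 * M 1 0)
  rw [norm_mul, norm_mul] at h
  nlinarith [sq_nonneg (‖M 0 0‖ - ‖M 1 1‖), sq_nonneg (‖M 0 1‖ - ‖M 1 0‖)]

theorem schattenPow_blockOp_exists (b : HilbertBasis ι ℂ H) {i j : ι} (hij : i ≠ j) {p : ℝ}
    (hp : 0 < p) (M : Matrix (Fin 2) (Fin 2) ℂ) :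
    ∃ x y : ℝ, 0 ≤ x ∧ 0 ≤ y ∧
      x + y = ‖M 0 0‖ ^ 2 + ‖M 0 1‖ ^ 2 + ‖M 1 0‖ ^ 2 + ‖M 1 1‖ ^ 2 ∧
      x * y = ‖M 0 0 * M 1 1 - M 0 1 * M 1 0‖ ^ 2 ∧
      schattenPow b p (blockOp ![b i, b j] M) = ENNReal.ofReal (x ^ (p / 2) + y ^ (p / 2)) := by
  obtain ⟨x, y, hx, hy, h1, h2⟩ := exists_roots (norm_nonneg _) (two_det_le M)
  exact ⟨x, y, hx, hy, h1, h2, schattenPow_blockOp b hij hp M h1 h2⟩

theorem memSchatten_blockOp (b : HilbertBasis ι ℂ H) {i j : ι} (hij : i ≠ j) {p : ℝ}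
    (hp : 0 < p) (M : Matrix (Fin 2) (Fin 2) ℂ) : MemSchatten b p (blockOp ![b i, b j] M) := by
  refine ⟨isCompactOperator_blockOp _ _, ?_⟩
  obtain ⟨x, y, _, _, _, _, h⟩ := schattenPow_blockOp_exists b hij hp M
  rw [h]
  exact ENNReal.ofReal_lt_top

theorem exists_rep {b : HilbertBasis ι ℂ H} {p : ℝ} (hp : 0 < p) (h : PairProperty b p)
    {A B : H →L[ℂ] H} (hA : MemSchatten b p A) (hB : MemSchatten b p B) :
    ∃ f g : ℝ → ℂ, Measurable f ∧ Measurable g ∧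
      Integrable (fun t => ‖f t‖ ^ p) (volume.restrict (Ioo 0 1)) ∧
      Integrable (fun t => ‖g t‖ ^ p) (volume.restrict (Ioo 0 1)) ∧
      ∀ α β : ℂ, ∫ t in Ioo (0 : ℝ) 1, ‖α * f t + β * g t‖ ^ p =
        (schattenPow b p (α • A + β • B)).toReal := by
  obtain ⟨f, g, hf, hg, hfg⟩ := h A B hA hB
  set μ : Measure ℝ := volume.restrict (Ioo 0 1) with hμ
  have hfm := hf.aestronglyMeasurable
  have hgm := hg.aestronglyMeasurable
  have hpt : (ENNReal.ofReal p).toReal = p := ENNReal.toReal_ofReal hp.le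
  have hfi : Integrable (fun t => ‖f t‖ ^ p) μ := by
    have := hf.integrable_norm_rpow (by simpa using hp) ENNReal.ofReal_ne_top
    rwa [hpt] at this
  have hgi : Integrable (fun t => ‖g t‖ ^ p) μ := by
    have := hg.integrable_norm_rpow (by simpa using hp) ENNReal.ofReal_ne_top
    rwa [hpt] at this
  refine ⟨hfm.mk f, hgm.mk g, hfm.stronglyMeasurable_mk.measurable,
    hgm.stronglyMeasurable_mk.measurable, ?_, ?_, ?_⟩
  · refine hfi.congr ?_
    filter_upwards [hfm.ae_eq_mk] with t ht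
    rw [ht]
  · refine hgi.congr ?_
    filter_upwards [hgm.ae_eq_mk] with t ht
    rw [ht]
  · intro α β
    have h1 : ∫ t in Ioo (0 : ℝ) 1, ‖α * hfm.mk f t + β * hgm.mk g t‖ ^ p =
        ∫ t in Ioo (0 : ℝ) 1, ‖α * f t + β * g t‖ ^ p := by
      refine integral_congr_ae ?_
      filter_upwards [hfm.ae_eq_mk, hgm.ae_eq_mk] with t ht1 ht2
      rw [ht1, ht2]
    have h2 := hfg α β
    unfold schattenNorm at h2
    rw [h1]
    have h3 : 0 ≤ ∫ t in Ioo (0 : ℝ) 1, ‖α * f t + β * g t‖ ^ p :=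
      integral_nonneg fun t => by positivity
    have h4 : 1 / p ≠ 0 := by positivity
    exact ((Real.rpow_left_inj ENNReal.toReal_nonneg h3 h4).1 h2).symm

/-- The matrices of the first pair. -/
def MA : Matrix (Fin 2) (Fin 2) ℂ := !![1, 0; 0, 1]
def MB : Matrix (Fin 2) (Fin 2) ℂ := !![0, 1; 0, 0]

theorem comb_MA_MB (e : Fin 2 → H) (α β : ℂ) :
    α • blockOp e MA + β • blockOp e MB = blockOp e !![α, β; 0, α] := by
  rw [← blockOp_smul, ← blockOp_smul, ← blockOp_add]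
  congr 1
  ext k l
  fin_cases k <;> fin_cases l <;> simp [MA, MB]

/-- The representation of the first pair. -/
theorem rep_first {b : HilbertBasis ι ℂ H} {i j : ι} (hij : i ≠ j) {m : ℝ} (hm : 0 < m)
    (h : PairProperty b (2 * m)) :
    ∃ f g : ℝ → ℂ, Measurable f ∧ Measurable g ∧
      Integrable (fun t => ‖f t‖ ^ (2 * m)) (volume.restrict (Ioo 0 1)) ∧
      Integrable (fun t => ‖g t‖ ^ (2 * m)) (volume.restrict (Ioo 0 1)) ∧
      (∀ α β : ℂ, ∀ x y : ℝ, 0 ≤ x → 0 ≤ y → x + y = 2 * ‖α‖ ^ 2 + ‖β‖ ^ 2 → x * y = ‖α‖ ^ 4 →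
        ∫ t in Ioo (0 : ℝ) 1, ‖α * f t + β * g t‖ ^ (2 * m) = x ^ m + y ^ m) := by
  have hp : 0 < 2 * m := by positivity
  obtain ⟨f, g, hf, hg, hfi, hgi, hfg⟩ := exists_rep hp h (memSchatten_blockOp b hij hp MA)
    (memSchatten_blockOp b hij hp MB)
  refine ⟨f, g, hf, hg, hfi, hgi, fun α β x y hx hy hsum hprod => ?_⟩
  rw [hfg α β, comb_MA_MB, schattenPow_blockOp b hij hp _ (x := x) (y := y)]
  · rw [ENNReal.toReal_ofReal (by positivity)]
    congr 2 <;> ring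
  · rw [hsum]; simp; ring
  · rw [hprod]; simp; ring

theorem not_pair_nonint {b : HilbertBasis ι ℂ H} {i j : ι} (hij : i ≠ j) {m : ℝ}
    (hm : 1 / 2 < m) (hnat : ∀ k : ℕ, (k : ℝ) ≠ m) (h : PairProperty b (2 * m)) : False := by
  have hm0 : 0 < m := by linarith
  obtain ⟨f, g, hf, hg, hfi, hgi, hfg⟩ := rep_first hij hm0 h
  have hP : ∀ α : ℂ, ∫ t in Ioo (0 : ℝ) 1, ‖g t + α * f t‖ ^ (2 * m) = PF m (‖α‖ ^ 2) := by
    intro α
    have hy : (0 : ℝ) ≤ ‖α‖ ^ 2 := by positivity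
    have h1 := hfg α 1 (s1 (‖α‖ ^ 2) ^ 2) (s2 (‖α‖ ^ 2) ^ 2) (by positivity) (by positivity)
      (by rw [sq_add_sq hy]; simp; ring) (by rw [← mul_pow, s1_mul_s2 hy]; ring)
    have h2 : ∀ t, α * f t + 1 * g t = g t + α * f t := fun t => by ring
    simp_rw [h2] at h1
    rw [h1]
    unfold PF
    rw [Real.rpow_mul (s1_pos hy).le, Real.rpow_mul (s2_nonneg hy)]
    norm_num
  rcases lt_trichotomy m 1 with hlt | heq | hgt
  · exact no_rep_lt hf hg hm hlt hfi hgi hP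
  · exact hnat 1 (by rw [heq]; norm_num)
  · exact no_rep_gt hf hg hgt hnat hfi hgi hP

/-- The polynomials `Q_k(b) = x^k + y^k`, `x + y = 2 + b`, `x y = 1`. -/
noncomputable def Qp : ℕ → Polynomial ℝ
  | 0 => Polynomial.C 2
  | 1 => Polynomial.X + Polynomial.C 2
  | (k + 2) => (Polynomial.X + Polynomial.C 2) * Qp (k + 1) - Qp k

theorem Qp_eval {b x y : ℝ} (hs : x + y = 2 + b) (hp : x * y = 1) :
    ∀ k : ℕ, (Qp k).eval b = x ^ k + y ^ k
  | 0 => by simp [Qp]; norm_num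
  | 1 => by simp [Qp]; linarith
  | (k + 2) => by
      rw [Qp, Polynomial.eval_sub, Polynomial.eval_mul, Qp_eval hs hp (k + 1), Qp_eval hs hp k]
      simp only [Polynomial.eval_add, Polynomial.eval_X, Polynomial.eval_C]
      have : b + 2 = x + y := by linarith
      rw [this]
      have h2 : x ^ (k + 2) + y ^ (k + 2) = (x + y) * (x ^ (k + 1) + y ^ (k + 1)) -
          (x * y) * (x ^ k + y ^ k) := by ring
      rw [h2, hp]; ring

theorem Qp_natDegree : ∀ k : ℕ, (Qp k).natDegree ≤ k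
  | 0 => by simp [Qp]
  | 1 => by
      rw [Qp]
      exact (Polynomial.natDegree_add_C).le.trans Polynomial.natDegree_X_le
  | (k + 2) => by
      rw [Qp]
      refine (Polynomial.natDegree_sub_le _ _).trans (max_le ?_ ?_)
      · refine (Polynomial.natDegree_mul_le).trans ?_
        have h1 := Qp_natDegree (k + 1)
        have h2 : (Polynomial.X + Polynomial.C (2 : ℝ)).natDegree ≤ 1 :=
          (Polynomial.natDegree_add_C).le.trans Polynomial.natDegree_X_le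
        omega
      · have := Qp_natDegree k
        omega

theorem Qp_coeff : ∀ k : ℕ, (Qp k).coeff 0 = 2 ∧ (Qp k).coeff 1 = (k : ℝ) ^ 2 ∧
    (Qp k).coeff 2 = (k : ℝ) ^ 2 * ((k : ℝ) ^ 2 - 1) / 12
  | 0 => by simp [Qp, Polynomial.coeff_C]
  | 1 => by simp [Qp, Polynomial.coeff_C, Polynomial.coeff_X]
  | (k + 2) => by
      obtain ⟨a0, a1, a2⟩ := Qp_coeff k
      obtain ⟨b0, b1, b2⟩ := Qp_coeff (k + 1)
      rw [Qp]
      simp only [add_mul, Polynomial.coeff_sub, Polynomial.coeff_add, Polynomial.coeff_C_mul,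
        Polynomial.coeff_X_mul, Polynomial.mul_coeff_zero, Polynomial.coeff_X_zero, zero_mul,
        a0, a1, a2, b0, b1, b2]
      push_cast
      refine ⟨by norm_num, by ring, by ring⟩

theorem not_pair_ge_six {b : HilbertBasis ι ℂ H} {i j : ι} (hij : i ≠ j) {m : ℕ}
    (hm : 6 ≤ m) (h : PairProperty b (2 * (m : ℝ))) : False := by
  have hm0 : (0 : ℝ) < m := by
    have : 0 < m := by omega
    exact_mod_cast this
  obtain ⟨f, g, hf, hg, hfi, hgi, hfg⟩ := rep_first hij hm0 h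
  obtain ⟨c0, c1, c2⟩ := Qp_coeff m
  refine no_rep_ge_six hf hg hm hfi hgi (d := (Qp m).coeff) c0 c1 c2 fun β => ?_
  obtain ⟨x, y, hx, hy, hs, hp⟩ := exists_roots (s := 2 + ‖β‖ ^ 2) (q := 1) (by norm_num)
    (by nlinarith [sq_nonneg ‖β‖])
  have h1 := hfg 1 β x y hx hy (by rw [hs]; simp) (by rw [hp]; simp)
  simp only [one_mul] at h1
  rw [h1, Real.rpow_natCast, Real.rpow_natCast, ← Qp_eval hs (by rw [hp]; ring) m,
    Polynomial.eval_eq_sum_range' (Nat.lt_succ_of_le (Qp_natDegree m))]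

theorem not_pair_four {b : HilbertBasis ι ℂ H} {i j : ι} (hij : i ≠ j)
    (h : PairProperty b (2 * ((4 : ℕ) : ℝ))) : False := by
  obtain ⟨f, g, hf, hg, hfi, hgi, hfg⟩ := rep_first hij (by norm_num) h
  refine no_rep_four hf hg hfi hgi fun α => ?_
  have hY : (0 : ℝ) ≤ ‖α‖ ^ 2 := by positivity
  obtain ⟨x, y, hx, hy, hs, hp⟩ := exists_roots (s := 1 + 2 * ‖α‖ ^ 2) (q := ‖α‖ ^ 2) hY
    (by linarith)
  have h1 := hfg α 1 x y hx hy (by rw [hs]; simp; ring) (by rw [hp]; ring)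
  have h2 : ∀ t, α * f t + 1 * g t = g t + α * f t := fun t => by ring
  simp_rw [h2] at h1
  rw [h1, Real.rpow_natCast, Real.rpow_natCast]
  generalize ‖α‖ ^ 2 = Y at *
  have e : x ^ 4 + y ^ 4 = ((x + y) ^ 2 - 2 * (x * y)) ^ 2 - 2 * (x * y) ^ 2 := by ring
  rw [e, hs, hp]; ring

theorem not_pair_five {b : HilbertBasis ι ℂ H} {i j : ι} (hij : i ≠ j)
    (h : PairProperty b (2 * ((5 : ℕ) : ℝ))) : False := by
  obtain ⟨f, g, hf, hg, hfi, hgi, hfg⟩ := rep_first hij (by norm_num) h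
  refine no_rep_five hf hg hfi hgi fun α => ?_
  have hY : (0 : ℝ) ≤ ‖α‖ ^ 2 := by positivity
  obtain ⟨x, y, hx, hy, hs, hp⟩ := exists_roots (s := 1 + 2 * ‖α‖ ^ 2) (q := ‖α‖ ^ 2) hY
    (by linarith)
  have h1 := hfg α 1 x y hx hy (by rw [hs]; simp; ring) (by rw [hp]; ring)
  have h2 : ∀ t, α * f t + 1 * g t = g t + α * f t := fun t => by ring
  simp_rw [h2] at h1
  rw [h1, Real.rpow_natCast, Real.rpow_natCast]
  generalize ‖α‖ ^ 2 = Y at *
  have e : x ^ 5 + y ^ 5 = (x + y) ^ 5 - 5 * (x * y) * (x + y) ^ 3 +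
      5 * (x * y) ^ 2 * (x + y) := by ring
  rw [e, hs, hp]; ring

/-- The matrices of the pair for `p = 1`. -/
def MA1 : Matrix (Fin 2) (Fin 2) ℂ := !![1, 0; 0, 0]
def MB1 : Matrix (Fin 2) (Fin 2) ℂ := !![0, 1; 1, 1]

theorem comb_MA1_MB1 (e : Fin 2 → H) (α β : ℂ) :
    α • blockOp e MA1 + β • blockOp e MB1 = blockOp e !![α, β; β, β] := by
  rw [← blockOp_smul, ← blockOp_smul, ← blockOp_add]
  congr 1
  ext k l
  fin_cases k <;> fin_cases l <;> simp [MA1, MB1]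

theorem not_pair_one {b : HilbertBasis ι ℂ H} {i j : ι} (hij : i ≠ j)
    (h : PairProperty b 1) : False := by
  obtain ⟨f, g, hf, hg, hfi, hgi, hfg⟩ := exists_rep one_pos h
    (memSchatten_blockOp b hij one_pos MA1) (memSchatten_blockOp b hij one_pos MB1)
  simp only [Real.rpow_one] at hfi hgi hfg
  have hN : ∀ ζ : ℂ, 0 ≤ ∫ t in Ioo (0 : ℝ) 1, ‖f t + ζ * g t‖ ∧
      (∫ t in Ioo (0 : ℝ) 1, ‖f t + ζ * g t‖) ^ 2 = 1 + 3 * ‖ζ‖ ^ 2 + 2 * ‖ζ - ζ * ζ‖ := by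
    intro ζ
    have h1 := hfg 1 ζ
    simp only [one_mul] at h1
    rw [h1, comb_MA1_MB1]
    obtain ⟨x, y, hx, hy, hs, hp, hxy⟩ := schattenPow_blockOp_exists b hij one_pos !![1, ζ; ζ, ζ]
    rw [hxy, ENNReal.toReal_ofReal (by positivity)]
    refine ⟨by positivity, ?_⟩
    have e1 : ∀ z : ℝ, 0 ≤ z → (z ^ ((1 : ℝ) / 2)) ^ 2 = z := by
      intro z hz
      rw [← Real.rpow_natCast, ← Real.rpow_mul hz]; norm_num
    have e2 : x ^ ((1 : ℝ) / 2) * y ^ ((1 : ℝ) / 2) = ‖ζ - ζ * ζ‖ := by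
      rw [← Real.mul_rpow hx hy, hp, ← Real.rpow_natCast, ← Real.rpow_mul (norm_nonneg _)]
      norm_num
    rw [add_sq, e1 x hx, e1 y hy, mul_assoc, e2]
    have : x + y = 1 + 3 * ‖ζ‖ ^ 2 := by rw [hs]; simp; ring
    linarith
  have key : ∀ (a B c : ℝ), 0 ≤ a → 0 ≤ B → a ^ 2 ≤ B ^ 2 → a ≤ B := fun a B c _ hB h =>
    abs_le_of_sq_le_sq' h hB |>.2
  refine no_rep_one hf hg hfi hgi ?_ ?_ ?_ ?_ ?_
  · obtain ⟨h1, h2⟩ := hN 0
    simp only [zero_mul, add_zero, norm_zero, sub_zero] at h1 h2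
    nlinarith
  · intro r hr hr2
    obtain ⟨h1, h2⟩ := hN (r : ℂ)
    have h3 : ‖(r : ℂ) - r * r‖ = r - r ^ 2 := by
      rw [show (r : ℂ) - r * r = ((r - r ^ 2 : ℝ) : ℂ) by push_cast; ring, Complex.norm_real,
        Real.norm_of_nonneg (by nlinarith)]
    rw [h3, Complex.norm_real, Real.norm_of_nonneg hr.le] at h2
    have h4 : (∫ t in Ioo (0 : ℝ) 1, ‖f t + (r : ℂ) * g t‖) ^ 2 = (1 + r) ^ 2 := by
      rw [h2]; ring
    exact (sq_eq_sq₀ h1 (by linarith)).1 h4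
  · intro r hr hr2
    obtain ⟨h1, h2⟩ := hN (-(r : ℂ))
    have h3 : ‖-(r : ℂ) - -(r : ℂ) * -(r : ℂ)‖ = r + r ^ 2 := by
      rw [show -(r : ℂ) - -(r : ℂ) * -(r : ℂ) = ((-(r + r ^ 2) : ℝ) : ℂ) by push_cast; ring,
        Complex.norm_real, norm_neg, Real.norm_of_nonneg (by positivity)]
    rw [h3, norm_neg, Complex.norm_real, Real.norm_of_nonneg hr.le] at h2
    have h5 : ∀ t, f t + -(r : ℂ) * g t = f t - (r : ℂ) * g t := fun t => by ring
    simp_rw [h5] at h1 h2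
    constructor
    · refine key _ _ 0 (by positivity) h1 ?_
      rw [h2]; nlinarith [pow_pos hr 3, pow_pos hr 2, pow_pos hr 4]
    · refine key _ _ 0 h1 (by positivity) ?_
      rw [h2]; nlinarith [pow_pos hr 3, pow_pos hr 2, pow_pos hr 4]
  · intro r hr hr2
    obtain ⟨h1, h2⟩ := hN ((r : ℂ) * Complex.I)
    have h3 : ‖(r : ℂ) * Complex.I - (r : ℂ) * Complex.I * ((r : ℂ) * Complex.I)‖ ≤ r + r ^ 2 := by
      refine (norm_sub_le _ _).trans ?_
      simp [abs_of_pos hr]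
      nlinarith
    have h4 : ‖(r : ℂ) * Complex.I‖ = r := by simp [abs_of_pos hr]
    rw [h4] at h2
    refine key _ _ 0 h1 (by positivity) ?_
    rw [h2]; nlinarith [pow_pos hr 3, pow_pos hr 2, pow_pos hr 4]
  · intro r hr hr2
    obtain ⟨h1, h2⟩ := hN (-((r : ℂ) * Complex.I))
    have h3 : ‖-((r : ℂ) * Complex.I) - -((r : ℂ) * Complex.I) * -((r : ℂ) * Complex.I)‖ ≤
        r + r ^ 2 := by
      refine (norm_sub_le _ _).trans ?_
      simp [abs_of_pos hr]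
      nlinarith
    have h4 : ‖-((r : ℂ) * Complex.I)‖ = r := by simp [abs_of_pos hr]
    rw [h4] at h2
    have h5 : ∀ t, f t + -((r : ℂ) * Complex.I) * g t = f t - (r * Complex.I : ℂ) * g t :=
      fun t => by ring
    simp_rw [h5] at h1 h2
    refine key _ _ 0 h1 (by positivity) ?_
    rw [h2]; nlinarith [pow_pos hr 3, pow_pos hr 2, pow_pos hr 4]

/-- **The negative half**: the property forces `p ∈ {2, 4, 6}`. -/
theorem pair_imp {b : HilbertBasis ι ℂ H} {i j : ι} (hij : i ≠ j) {p : ℝ} (hp : 1 ≤ p)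
    (h : PairProperty b p) : p = 2 ∨ p = 4 ∨ p = 6 := by
  by_cases hnat : ∃ k : ℕ, (k : ℝ) = p / 2
  · obtain ⟨k, hk⟩ := hnat
    have hpk : p = 2 * (k : ℝ) := by rw [hk]; ring
    subst hpk
    rcases Nat.lt_or_ge k 6 with hk6 | hk6
    · interval_cases k
      · norm_num at hp
      · left; norm_num
      · right; left; norm_num
      · right; right; norm_num
      · exact (not_pair_four hij h).elim
      · exact (not_pair_five hij h).elim
    · exact (not_pair_ge_six hij hk6 h).elim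
  · push Not at hnat
    rcases hp.eq_or_lt with rfl | hp1
    · exact (not_pair_one hij h).elim
    · have h' : PairProperty b (2 * (p / 2)) := by
        rwa [show 2 * (p / 2) = p by ring]
      exact (not_pair_nonint hij (by linarith) hnat h').elim

end Pool.Agent.Lib.Helper34.SP
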