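import Mathlib
import Pool.Agent.Lib.Helper34.SP.Pair

/-!
# The cases `p = 2` and `p = 4`
-/

set_option autoImplicit false
set_option linter.unusedSectionVars false
set_option linter.unusedSimpArgs false

open Set Filter Topology MeasureTheory
open scoped ENNReal InnerProductSpace ComplexOrder Matrix

namespace Pool.Agent.Lib.Helper34.SP

/-- Hermitian form with coefficients `(x, z, y)` -/
noncomputable def hf (p : ℝ × ℝ × ℂ) (α β : ℂ) : ℝ :=
  p.1 * ‖α‖ ^ 2 + p.2.1 * ‖β‖ ^ 2 + 2 * (p.2.2 * ((starRingEnd ℂ) α * β)).re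

/-- its determinant -/
noncomputable def hdet (p : ℝ × ℝ × ℂ) : ℝ := p.1 * p.2.1 - ‖p.2.2‖ ^ 2

theorem hf_lin (c s : ℝ) (p q : ℝ × ℝ × ℂ) (α β : ℂ) :
    hf (c • p + s • q) α β = c * hf p α β + s * hf q α β := by
  unfold hf
  simp only [Prod.fst_add, Prod.snd_add, Prod.smul_fst, Prod.smul_snd, smul_eq_mul,
    Complex.real_smul, add_mul, Complex.add_re, mul_assoc, Complex.re_ofReal_mul]
  ring

theorem hdet_rot (c s : ℝ) (h : c ^ 2 + s ^ 2 = 1) (p q : ℝ × ℝ × ℂ) :
    hdet (c • p + s • q) + hdet ((-s) • p + c • q) = hdet p + hdet q := by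
  unfold hdet
  simp only [Prod.fst_add, Prod.snd_add, Prod.smul_fst, Prod.smul_snd, smul_eq_mul,
    ← Complex.normSq_eq_norm_sq, Complex.normSq_apply, Complex.real_smul, Complex.add_re,
    Complex.add_im, Complex.re_ofReal_mul, Complex.im_ofReal_mul]
  have : c ^ 2 = 1 - s ^ 2 := by linarith
  ring_nf
  simp only [this]
  ring

theorem hf_sq_rep {p : ℝ × ℝ × ℂ} (hp : hdet p = 0) : RepFin 2 (fun α β => hf p α β ^ 2) := by
  obtain ⟨x, z, y⟩ := p
  unfold hdet at hp
  simp only at hp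
  by_cases hx : x = 0
  · subst hx
    have hy : y = 0 := by
      have : ‖y‖ ^ 2 = 0 := by linarith
      simpa using this
    subst hy
    refine (RepFin.single 2 0 ((Real.sqrt |z| : ℝ) : ℂ)).congr fun α β => ?_
    have h1 : (Real.sqrt (|z|)) ^ (2 * 2) = z ^ 2 := by
      rw [pow_mul, Real.sq_sqrt (abs_nonneg z), sq_abs]
    have h2 : α * 0 + β * ((Real.sqrt |z| : ℝ) : ℂ) = ((Real.sqrt |z| : ℝ) : ℂ) * β := by ring
    rw [h2, norm_mul, Complex.norm_real, Real.norm_eq_abs, abs_of_nonneg (Real.sqrt_nonneg _),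
      mul_pow, h1]
    unfold hf
    simp only [mul_zero, zero_add, zero_mul, Complex.zero_re, add_zero]
    ring
  · set r : ℝ := Real.sqrt (1 / |x|) with hr
    have hr2 : r ^ 2 = 1 / |x| := Real.sq_sqrt (by positivity)
    have hr4 : r ^ 4 = 1 / x ^ 2 := by
      rw [show (4 : ℕ) = 2 * 2 from rfl, pow_mul, hr2, div_pow, sq_abs, one_pow]
    refine (RepFin.single 2 ((r * x : ℝ) : ℂ) ((r : ℂ) * y)).congr fun α β => ?_
    have h1 : α * ((r * x : ℝ) : ℂ) + β * ((r : ℂ) * y) = (r : ℂ) * ((x : ℂ) * α + y * β) := by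
      push_cast; ring
    have h2 : ‖(x : ℂ) * α + y * β‖ ^ 2 = x * hf (x, z, y) α β := by
      unfold hf
      simp only [← Complex.normSq_eq_norm_sq, Complex.normSq_apply, Complex.add_re,
        Complex.add_im, Complex.mul_re, Complex.mul_im, Complex.ofReal_re, Complex.ofReal_im,
        Complex.conj_re, Complex.conj_im] at hp ⊢
      have h3 : x * z = y.re * y.re + y.im * y.im := by linarith
      linear_combination (-(β.re * β.re + β.im * β.im)) * h3
    rw [h1, norm_mul, Complex.norm_real, Real.norm_eq_abs, mul_pow]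
    have h5 : |r| ^ (2 * 2) = r ^ 4 := by
      rw [abs_of_nonneg (Real.sqrt_nonneg _)]
    rw [h5, hr4, pow_mul, h2]
    field_simp

theorem exists_rot {p q : ℝ × ℝ × ℂ} (hp : 0 < hdet p) (hq : hdet q < 0) :
    ∃ c s : ℝ, c ^ 2 + s ^ 2 = 1 ∧ hdet (c • p + s • q) = 0 := by
  have hcont : Continuous fun θ : ℝ => hdet (Real.cos θ • p + Real.sin θ • q) := by
    unfold hdet
    fun_prop
  have h0 : hdet (Real.cos 0 • p + Real.sin 0 • q) = hdet p := by simp
  have h1 : hdet (Real.cos (Real.pi / 2) • p + Real.sin (Real.pi / 2) • q) = hdet q := by simp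
  have hmem : (0 : ℝ) ∈ Icc (hdet (Real.cos (Real.pi / 2) • p + Real.sin (Real.pi / 2) • q))
      (hdet (Real.cos 0 • p + Real.sin 0 • q)) := by
    rw [h0, h1]; exact ⟨hq.le, hp.le⟩
  obtain ⟨θ, _, hθ⟩ := intermediate_value_Icc' (by positivity : (0 : ℝ) ≤ Real.pi / 2)
    hcont.continuousOn hmem
  exact ⟨Real.cos θ, Real.sin θ, Real.cos_sq_add_sin_sq θ, hθ⟩

/-- Sturm–Zhang type rank one decomposition. -/
theorem sturm_zhang (n : ℕ) : ∀ s : Multiset (ℝ × ℝ × ℂ), Multiset.card s = n →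
    (s.map hdet).sum = 0 → RepFin 2 (fun α β => (s.map fun p => hf p α β ^ 2).sum) := by
  induction n with
  | zero =>
    intro s hs _
    rw [Multiset.card_eq_zero] at hs
    subst hs
    exact (RepFin.zero 2).congr fun α β => by simp
  | succ n ih =>
    intro s hs hdets
    by_cases hall : ∀ p ∈ s, hdet p = 0
    · clear hs hdets ih
      induction s using Multiset.induction_on with
      | empty => exact (RepFin.zero 2).congr fun α β => by simp
      | cons a s ih2 =>
        have h1 := hf_sq_rep (hall a (Multiset.mem_cons_self a s))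
        have h2 := ih2 fun p hp => hall p (Multiset.mem_cons_of_mem hp)
        exact (h1.add h2).congr fun α β => by simp
    · have hpos : ∃ a ∈ s, 0 < hdet a := by
        by_contra hc
        push Not at hc
        apply hall
        have h1 : (s.map fun p => -hdet p).sum = 0 := by
          rw [Multiset.sum_map_neg, hdets, neg_zero]
        intro p hp
        have h2 := (Multiset.all_zero_of_le_zero_le_of_sum_eq_zero (s := s.map fun p => -hdet p)
          (fun x hx => by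
            obtain ⟨q, hq, rfl⟩ := Multiset.mem_map.1 hx
            have := hc q hq
            linarith) h1)
        have h3 := h2 _ (Multiset.mem_map_of_mem (fun p => -hdet p) hp)
        simpa using h3
      have hneg : ∃ a ∈ s, hdet a < 0 := by
        by_contra hc
        push Not at hc
        apply hall
        intro p hp
        have h2 := (Multiset.all_zero_of_le_zero_le_of_sum_eq_zero (s := s.map fun p => hdet p)
          (fun x hx => by
            obtain ⟨q, hq, rfl⟩ := Multiset.mem_map.1 hx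
            exact hc q hq) hdets)
        exact h2 _ (Multiset.mem_map_of_mem (fun p => hdet p) hp)
      obtain ⟨a, ha, hapos⟩ := hpos
      obtain ⟨b, hb, hbneg⟩ := hneg
      obtain ⟨t, rfl⟩ := Multiset.exists_cons_of_mem ha
      have hab : b ≠ a := by rintro rfl; linarith
      have hbt : b ∈ t := by
        rcases Multiset.mem_cons.1 hb with h | h
        · exact absurd h hab
        · exact h
      obtain ⟨t', rfl⟩ := Multiset.exists_cons_of_mem hbt
      obtain ⟨c, s, hcs, hq⟩ := exists_rot hapos hbneg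
      set r : ℝ × ℝ × ℂ := (-s) • a + c • b with hr
      have hdr := hdet_rot c s hcs a b
      have h1 := ih (r ::ₘ t') (by simpa using hs) (by
        simp only [Multiset.map_cons, Multiset.sum_cons] at hdets ⊢
        rw [hq, zero_add] at hdr
        rw [← hr] at hdr
        rw [hdr]; linarith)
      have h2 := hf_sq_rep hq
      refine (h2.add h1).congr fun α β => ?_
      simp only [Multiset.map_cons, Multiset.sum_cons]
      rw [hr, hf_lin, hf_lin]
      have : c ^ 2 = 1 - s ^ 2 := by linarith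
      ring_nf
      simp only [this]
      ring

theorem rep_of_forms {ν : Type*} [Fintype ν] (p : ν → ℝ × ℝ × ℂ) (hdet0 : ∑ i, hdet (p i) = 0) :
    RepFin 2 (fun α β => ∑ i, hf (p i) α β ^ 2) := by
  have := sturm_zhang _ (Finset.univ.val.map p) rfl (by
    rw [Multiset.map_map]; exact hdet0)
  refine this.congr fun α β => ?_
  rw [Multiset.map_map]
  rfl

variable {κ : Type*} [Fintype κ] [DecidableEq κ]

theorem finTr_one (M : Matrix κ κ ℂ) : finTr 1 M = ∑ kl : κ × κ, ‖M kl.1 kl.2‖ ^ 2 := by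
  unfold finTr
  rw [pow_one, Matrix.trace, Complex.re_sum, Fintype.sum_prod_type_right]
  refine Finset.sum_congr rfl fun k _ => ?_
  rw [Matrix.diag_apply, Matrix.mul_apply, Complex.re_sum]
  refine Finset.sum_congr rfl fun l _ => ?_
  rw [Matrix.conjTranspose_apply, RCLike.star_def, mul_comm, Complex.mul_conj,
    Complex.ofReal_re, Complex.normSq_eq_norm_sq]

theorem rep_one (A B : Matrix κ κ ℂ) : RepFin 1 (fun α β => finTr 1 (α • A + β • B)) := by
  refine repFin_fintype (ν := κ × κ) (fun kl => A kl.1 kl.2) (fun kl => B kl.1 kl.2)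
    fun α β => ?_
  rw [finTr_one]
  rfl

/-- the two real parts of a sesquilinear form -/
noncomputable def prt (c : ℝ) (p11 p12 p21 p22 : ℂ) : Fin 2 → ℝ × ℝ × ℂ :=
  ![(c * p11.re, c * p22.re, (c : ℂ) * ((p12 + (starRingEnd ℂ) p21) / 2)),
    (c * p11.im, c * p22.im, (c : ℂ) * (-Complex.I * (p12 - (starRingEnd ℂ) p21) / 2))]

theorem prt_sum (c : ℝ) (p11 p12 p21 p22 α β : ℂ) :
    ∑ i, hf (prt c p11 p12 p21 p22 i) α β ^ 2 = c ^ 2 *
      ‖((starRingEnd ℂ) α * α) * p11 + ((starRingEnd ℂ) α * β) * p12 +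
        (α * (starRingEnd ℂ) β) * p21 + ((starRingEnd ℂ) β * β) * p22‖ ^ 2 := by
  rw [Fin.sum_univ_two]
  unfold hf prt
  simp only [Matrix.cons_val_zero, Matrix.cons_val_one, ← Complex.normSq_eq_norm_sq,
    Complex.normSq_apply, Complex.add_re, Complex.add_im, Complex.mul_re, Complex.mul_im,
    Complex.ofReal_re, Complex.ofReal_im, Complex.conj_re, Complex.conj_im, Complex.sub_re,
    Complex.sub_im, Complex.neg_re, Complex.neg_im, Complex.I_re, Complex.I_im,
    Complex.div_ofNat_re, Complex.div_ofNat_im]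
  ring

theorem prt_det (c : ℝ) (p11 p12 p21 p22 : ℂ) :
    ∑ i, hdet (prt c p11 p12 p21 p22 i) = c ^ 2 *
      ((p11 * (starRingEnd ℂ) p22).re - (‖p12‖ ^ 2 + ‖p21‖ ^ 2) / 2) := by
  rw [Fin.sum_univ_two]
  unfold hdet prt
  simp only [Matrix.cons_val_zero, Matrix.cons_val_one, ← Complex.normSq_eq_norm_sq,
    Complex.normSq_apply, Complex.add_re, Complex.add_im, Complex.mul_re, Complex.mul_im,
    Complex.ofReal_re, Complex.ofReal_im, Complex.conj_re, Complex.conj_im, Complex.sub_re,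
    Complex.sub_im, Complex.neg_re, Complex.neg_im, Complex.I_re, Complex.I_im,
    Complex.div_ofNat_re, Complex.div_ofNat_im]
  ring

theorem hs_sum (X Y : Matrix κ κ ℂ) :
    ∑ kl : κ × κ, (X kl.1 kl.2 * (starRingEnd ℂ) (Y kl.1 kl.2)).re = (X * Yᴴ).trace.re := by
  rw [Matrix.trace, Complex.re_sum, Fintype.sum_prod_type]
  refine Finset.sum_congr rfl fun k _ => ?_
  rw [Matrix.diag_apply, Matrix.mul_apply, Complex.re_sum]
  rfl

theorem hs_norm (X : Matrix κ κ ℂ) :
    ∑ kl : κ × κ, ‖X kl.1 kl.2‖ ^ 2 = (X * Xᴴ).trace.re := by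
  rw [← hs_sum]
  refine Finset.sum_congr rfl fun kl _ => ?_
  rw [Complex.mul_conj, Complex.ofReal_re, Complex.normSq_eq_norm_sq]

theorem sum_split (g : ((κ × κ) × Fin 2) ⊕ ((κ × κ) × Fin 2) → ℝ) :
    ∑ i, g i = ∑ kl : κ × κ, ∑ i, g (Sum.inl (kl, i)) + ∑ kl : κ × κ, ∑ i, g (Sum.inr (kl, i)) := by
  rw [Fintype.sum_sum_type]
  congr 1 <;> rw [Fintype.sum_prod_type]

theorem rep_two (A B : Matrix κ κ ℂ) : RepFin 2 (fun α β => finTr 2 (α • A + β • B)) := by
  set c : ℝ := Real.sqrt (1 / 2) with hc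
  have hc2 : c ^ 2 = 1 / 2 := Real.sq_sqrt (by norm_num)
  set P : κ × κ → Fin 2 → ℝ × ℝ × ℂ := fun kl => prt c ((Aᴴ * A) kl.1 kl.2)
    ((Aᴴ * B) kl.1 kl.2) ((Bᴴ * A) kl.1 kl.2) ((Bᴴ * B) kl.1 kl.2) with hP
  set Q : κ × κ → Fin 2 → ℝ × ℝ × ℂ := fun kl => prt c ((A * Aᴴ) kl.1 kl.2)
    ((B * Aᴴ) kl.1 kl.2) ((A * Bᴴ) kl.1 kl.2) ((B * Bᴴ) kl.1 kl.2) with hQ
  set p : ((κ × κ) × Fin 2) ⊕ ((κ × κ) × Fin 2) → ℝ × ℝ × ℂ :=
    Sum.elim (fun x => P x.1 x.2) (fun x => Q x.1 x.2) with hp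
  have hdet0 : ∑ i, hdet (p i) = 0 := by
    rw [sum_split, hp]
    simp only [Sum.elim_inl, Sum.elim_inr]
    simp only [hP, hQ, prt_det, ← Finset.mul_sum, Finset.sum_sub_distrib, ← Finset.sum_div,
      Finset.sum_add_distrib, hs_sum, hs_norm]
    simp only [Matrix.conjTranspose_mul, Matrix.conjTranspose_conjTranspose]
    have e1 : (Aᴴ * B * (Bᴴ * A)).trace = (A * Aᴴ * (B * Bᴴ)).trace := by
      calc (Aᴴ * B * (Bᴴ * A)).trace = ((Aᴴ * B * Bᴴ) * A).trace := by
            simp only [Matrix.mul_assoc]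
        _ = (A * (Aᴴ * B * Bᴴ)).trace := Matrix.trace_mul_comm _ _
        _ = _ := by simp only [Matrix.mul_assoc]
    have e2 : (Bᴴ * A * (Aᴴ * B)).trace = (A * Aᴴ * (B * Bᴴ)).trace := by
      calc (Bᴴ * A * (Aᴴ * B)).trace = (Bᴴ * (A * Aᴴ * B)).trace := by
            simp only [Matrix.mul_assoc]
        _ = ((A * Aᴴ * B) * Bᴴ).trace := Matrix.trace_mul_comm _ _
        _ = _ := by simp only [Matrix.mul_assoc]
    have e3 : (B * Aᴴ * (A * Bᴴ)).trace = (Aᴴ * A * (Bᴴ * B)).trace := by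
      calc (B * Aᴴ * (A * Bᴴ)).trace = (B * (Aᴴ * A * Bᴴ)).trace := by
            simp only [Matrix.mul_assoc]
        _ = ((Aᴴ * A * Bᴴ) * B).trace := Matrix.trace_mul_comm _ _
        _ = _ := by simp only [Matrix.mul_assoc]
    have e4 : (A * Bᴴ * (B * Aᴴ)).trace = (Aᴴ * A * (Bᴴ * B)).trace := by
      calc (A * Bᴴ * (B * Aᴴ)).trace = ((A * Bᴴ * B) * Aᴴ).trace := by
            simp only [Matrix.mul_assoc]
        _ = (Aᴴ * (A * Bᴴ * B)).trace := Matrix.trace_mul_comm _ _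
        _ = _ := by simp only [Matrix.mul_assoc]
    rw [e1, e2, e3, e4]
    ring
  refine (rep_of_forms p hdet0).congr fun α β => ?_
  rw [sum_split, hp]
  simp only [Sum.elim_inl, Sum.elim_inr]
  simp only [hP, hQ, prt_sum]
  set M := α • A + β • B with hM
  have h1 : ∀ kl : κ × κ, ((starRingEnd ℂ) α * α) * (Aᴴ * A) kl.1 kl.2 +
      ((starRingEnd ℂ) α * β) * (Aᴴ * B) kl.1 kl.2 +
        (α * (starRingEnd ℂ) β) * (Bᴴ * A) kl.1 kl.2 +
        ((starRingEnd ℂ) β * β) * (Bᴴ * B) kl.1 kl.2 = (Mᴴ * M) kl.1 kl.2 := by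
    intro kl
    have : Mᴴ * M = ((starRingEnd ℂ) α * α) • (Aᴴ * A) + ((starRingEnd ℂ) α * β) • (Aᴴ * B) +
        (α * (starRingEnd ℂ) β) • (Bᴴ * A) + ((starRingEnd ℂ) β * β) • (Bᴴ * B) := by
      rw [hM]
      simp only [Matrix.conjTranspose_add, Matrix.conjTranspose_smul, Matrix.add_mul,
        Matrix.mul_add, Matrix.smul_mul, Matrix.mul_smul, smul_smul, RCLike.star_def]
      module
    rw [this]; rfl
  have h2 : ∀ kl : κ × κ, ((starRingEnd ℂ) α * α) * (A * Aᴴ) kl.1 kl.2 +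
      ((starRingEnd ℂ) α * β) * (B * Aᴴ) kl.1 kl.2 +
        (α * (starRingEnd ℂ) β) * (A * Bᴴ) kl.1 kl.2 +
        ((starRingEnd ℂ) β * β) * (B * Bᴴ) kl.1 kl.2 = (M * Mᴴ) kl.1 kl.2 := by
    intro kl
    have : M * Mᴴ = ((starRingEnd ℂ) α * α) • (A * Aᴴ) + ((starRingEnd ℂ) α * β) • (B * Aᴴ) +
        (α * (starRingEnd ℂ) β) • (A * Bᴴ) + ((starRingEnd ℂ) β * β) • (B * Bᴴ) := by
      rw [hM]
      simp only [Matrix.conjTranspose_add, Matrix.conjTranspose_smul, Matrix.add_mul,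
        Matrix.mul_add, Matrix.smul_mul, Matrix.mul_smul, smul_smul, RCLike.star_def]
      module
    rw [this]; rfl
  simp only [h1, h2, ← Finset.mul_sum, hs_norm, hc2]
  unfold finTr
  simp only [Matrix.conjTranspose_mul, Matrix.conjTranspose_conjTranspose, pow_two]
  have e5 : (M * Mᴴ * (M * Mᴴ)).trace = (Mᴴ * M * (Mᴴ * M)).trace := by
    calc (M * Mᴴ * (M * Mᴴ)).trace = (M * (Mᴴ * M * Mᴴ)).trace := by
          simp only [Matrix.mul_assoc]
      _ = ((Mᴴ * M * Mᴴ) * M).trace := Matrix.trace_mul_comm _ _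
      _ = _ := by simp only [Matrix.mul_assoc]
  rw [e5]
  ring

end Pool.Agent.Lib.Helper34.SP
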