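import Mathlib
import Pool.Agent.Lib.Helper34.SP.Coef

/-!
# Nonnegative `(3,3)`-forms with six zeros, part 1
-/

set_option autoImplicit false
set_option linter.unusedSectionVars false
set_option linter.unusedSimpArgs false

open Set Filter Topology Complex

namespace Pool.Agent.Lib.Helper34.SP

/-- the value `P(z, conj z)` -/
noncomputable def Pv (p : Arr 3) (z : ℂ) : ℂ :=
  ∑ a : Fin 4, ∑ b : Fin 4, p a b * (z ^ (a : ℕ) * (starRingEnd ℂ) z ^ (b : ℕ))

/-- First order conditions at a zero of a nonnegative form. -/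
theorem first_order {p : Arr 3} (hp : Herm p) (hpos : ∀ z, 0 ≤ (Pv p z).re) {z0 : ℂ}
    (hz : Pv p z0 = 0) :
    (∑ a : Fin 4, ∑ b : Fin 4, p a b * (((a : ℕ) : ℂ) * z0 ^ ((a : ℕ) - 1) * (starRingEnd ℂ) z0 ^ (b : ℕ))) = 0 ∧
    (∑ a : Fin 4, ∑ b : Fin 4, p a b * (z0 ^ (a : ℕ) * (((b : ℕ) : ℂ) * (starRingEnd ℂ) z0 ^ ((b : ℕ) - 1)))) = 0 := by
  set Pz := ∑ a : Fin 4, ∑ b : Fin 4, p a b * (((a : ℕ) : ℂ) * z0 ^ ((a : ℕ) - 1) * (starRingEnd ℂ) z0 ^ (b : ℕ))
    with hPz
  set Pw := ∑ a : Fin 4, ∑ b : Fin 4, p a b * (z0 ^ (a : ℕ) * (((b : ℕ) : ℂ) * (starRingEnd ℂ) z0 ^ ((b : ℕ) - 1)))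
    with hPw
  have hconj : (starRingEnd ℂ) Pz = Pw := by
    rw [hPz, hPw, Finset.sum_comm]
    simp only [map_sum]
    refine Finset.sum_congr rfl fun b _ => Finset.sum_congr rfl fun a _ => ?_
    rw [map_mul, ← hp a b]
    simp only [map_mul, map_pow, Complex.conj_conj, map_natCast]
    ring
  have hder : ∀ u : ℂ, (Pz * u + Pw * (starRingEnd ℂ) u).re = 0 := by
    intro u
    have h1 : HasDerivAt (fun t : ℝ => z0 + (t : ℂ) * u) u 0 := by
      have h := ((hasDerivAt_id (0 : ℝ)).ofReal_comp.mul_const u).const_add z0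
      simpa using h
    have h2 : HasDerivAt (fun t : ℝ => (starRingEnd ℂ) z0 + (t : ℂ) * (starRingEnd ℂ) u)
        ((starRingEnd ℂ) u) 0 := by
      have h := ((hasDerivAt_id (0 : ℝ)).ofReal_comp.mul_const ((starRingEnd ℂ) u)).const_add
        ((starRingEnd ℂ) z0)
      simpa using h
    have h3 : ∀ a b : Fin 4, HasDerivAt (fun t : ℝ => p a b * ((z0 + (t : ℂ) * u) ^ (a : ℕ) *
        ((starRingEnd ℂ) z0 + (t : ℂ) * (starRingEnd ℂ) u) ^ (b : ℕ)))
        (p a b * ((((a : ℕ) : ℂ) * z0 ^ ((a : ℕ) - 1) * u) * (starRingEnd ℂ) z0 ^ (b : ℕ) +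
          z0 ^ (a : ℕ) * (((b : ℕ) : ℂ) * (starRingEnd ℂ) z0 ^ ((b : ℕ) - 1) * (starRingEnd ℂ) u)))
        0 := by
      intro a b
      have h := ((h1.fun_pow (a : ℕ)).mul (h2.fun_pow (b : ℕ))).const_mul (p a b)
      simpa using h
    have h4 : HasDerivAt (fun t : ℝ => ∑ a : Fin 4, ∑ b : Fin 4, p a b *
        ((z0 + (t : ℂ) * u) ^ (a : ℕ) *
        ((starRingEnd ℂ) z0 + (t : ℂ) * (starRingEnd ℂ) u) ^ (b : ℕ)))
        (∑ a : Fin 4, ∑ b : Fin 4,
        (p a b * ((((a : ℕ) : ℂ) * z0 ^ ((a : ℕ) - 1) * u) * (starRingEnd ℂ) z0 ^ (b : ℕ) +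
          z0 ^ (a : ℕ) * (((b : ℕ) : ℂ) * (starRingEnd ℂ) z0 ^ ((b : ℕ) - 1) * (starRingEnd ℂ) u))))
        0 := HasDerivAt.fun_sum fun a _ => HasDerivAt.fun_sum fun b _ => h3 a b
    have h5 := Complex.reCLM.hasFDerivAt.comp_hasDerivAt (0 : ℝ) h4
    have hval : ∀ t : ℝ, (Complex.reCLM ∘ fun t : ℝ => ∑ a : Fin 4, ∑ b : Fin 4, p a b *
        ((z0 + (t : ℂ) * u) ^ (a : ℕ) *
        ((starRingEnd ℂ) z0 + (t : ℂ) * (starRingEnd ℂ) u) ^ (b : ℕ))) t =
        (Pv p (z0 + (t : ℂ) * u)).re := by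
      intro t
      simp only [Function.comp_apply, Complex.reCLM_apply, Pv, map_add, map_mul,
        Complex.conj_ofReal]
    have hmin : IsLocalMin (Complex.reCLM ∘ fun t : ℝ => ∑ a : Fin 4, ∑ b : Fin 4, p a b *
        ((z0 + (t : ℂ) * u) ^ (a : ℕ) *
        ((starRingEnd ℂ) z0 + (t : ℂ) * (starRingEnd ℂ) u) ^ (b : ℕ))) 0 := by
      refine Eventually.of_forall fun t => ?_
      rw [hval, hval]
      have h6 : z0 + ((0 : ℝ) : ℂ) * u = z0 := by simp
      rw [h6, hz, Complex.zero_re]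
      exact hpos _
    have h7 := hmin.hasDerivAt_eq_zero h5
    rw [Complex.reCLM_apply] at h7
    rw [← h7]
    congr 1
    rw [hPz, hPw, Finset.sum_mul, Finset.sum_mul, ← Finset.sum_add_distrib]
    refine Finset.sum_congr rfl fun a _ => ?_
    rw [Finset.sum_mul, Finset.sum_mul, ← Finset.sum_add_distrib]
    refine Finset.sum_congr rfl fun b _ => ?_
    ring
  have e1 := hder 1
  have e2 := hder Complex.I
  rw [← hconj] at e1 e2 ⊢
  simp only [map_one, mul_one, Complex.add_re, Complex.conj_re, Complex.mul_re, Complex.conj_I,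
    Complex.I_re, Complex.I_im, Complex.neg_re, Complex.neg_im, Complex.conj_im, mul_zero,
    zero_sub, neg_zero] at e1 e2
  have h0 : Pz = 0 := by
    apply Complex.ext
    · simp only [Complex.zero_re]; linarith
    · simp only [Complex.zero_im]; linarith
  rw [h0]
  exact ⟨rfl, map_zero _⟩

open Polynomial in
/-- coefficient polynomials in the first variable -/
noncomputable def Pb (p : Arr 3) (b : Fin 4) : ℂ[X] :=
  C (p 0 b) + C (p 1 b) * X + C (p 2 b) * X ^ 2 + C (p 3 b) * X ^ 3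

open Polynomial in
noncomputable def alP (x : Fin 6 → ℂ) : ℂ[X] := C (x 0) + C (x 1) * X + C (x 2) * X ^ 2

open Polynomial in
noncomputable def beP (x : Fin 6 → ℂ) : ℂ[X] := C (x 3) + C (x 4) * X + C (x 5) * X ^ 2

open Polynomial in
/-- the resultant -/
noncomputable def resP (p : Arr 3) (x : Fin 6 → ℂ) : ℂ[X] :=
  Pb p 0 * beP x ^ 3 - Pb p 1 * alP x * beP x ^ 2 + Pb p 2 * alP x ^ 2 * beP x -
    Pb p 3 * alP x ^ 3

open Polynomial in
theorem natDegree_resP (p : Arr 3) (x : Fin 6 → ℂ) : (resP p x).natDegree ≤ 9 := by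
  have hP : ∀ b, (Pb p b).natDegree ≤ 3 := by
    intro b; unfold Pb; compute_degree
  have hA : (alP x).natDegree ≤ 2 := by unfold alP; compute_degree
  have hB : (beP x).natDegree ≤ 2 := by unfold beP; compute_degree
  have hAn : ∀ n, (alP x ^ n).natDegree ≤ n * 2 := fun n => natDegree_pow_le_of_le n hA
  have hBn : ∀ n, (beP x ^ n).natDegree ≤ n * 2 := fun n => natDegree_pow_le_of_le n hB
  unfold resP
  refine (natDegree_sub_le_of_le (natDegree_add_le_of_le (natDegree_sub_le_of_le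
    (natDegree_mul_le_of_le (hP 0) (hBn 3))
    (natDegree_mul_le_of_le (natDegree_mul_le_of_le (hP 1) hA) (hBn 2)))
    (natDegree_mul_le_of_le (natDegree_mul_le_of_le (hP 2) (hAn 2)) hB))
    (natDegree_mul_le_of_le (hP 3) (hAn 3))).trans ?_
  norm_num

section evals

open Polynomial

theorem eval_Pb (p : Arr 3) (b : Fin 4) (c : ℂ) :
    eval c (Pb p b) = p 0 b + p 1 b * c + p 2 b * c ^ 2 + p 3 b * c ^ 3 := by
  simp only [Pb, eval_add, eval_mul, eval_pow, eval_C, eval_X]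

theorem eval_alP (x : Fin 6 → ℂ) (c : ℂ) : eval c (alP x) = x 0 + x 1 * c + x 2 * c ^ 2 := by
  simp only [alP, eval_add, eval_mul, eval_pow, eval_C, eval_X]

theorem eval_beP (x : Fin 6 → ℂ) (c : ℂ) : eval c (beP x) = x 3 + x 4 * c + x 5 * c ^ 2 := by
  simp only [beP, eval_add, eval_mul, eval_pow, eval_C, eval_X]

theorem eval_dPb (p : Arr 3) (b : Fin 4) (c : ℂ) :
    eval c (derivative (Pb p b)) = p 1 b + 2 * p 2 b * c + 3 * p 3 b * c ^ 2 := by
  simp only [Pb, derivative_add, derivative_mul,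
        derivative_pow, derivative_C, derivative_X, eval_add, eval_mul, eval_pow,
        eval_C, eval_X, eval_one, eval_zero]
  norm_num
  ring

theorem eval_dalP (x : Fin 6 → ℂ) (c : ℂ) : eval c (derivative (alP x)) = x 1 + 2 * x 2 * c := by
  simp only [alP, derivative_add, derivative_mul,
        derivative_pow, derivative_C, derivative_X, eval_add, eval_mul, eval_pow,
        eval_C, eval_X, eval_one, eval_zero]
  norm_num
  ring

theorem eval_dbeP (x : Fin 6 → ℂ) (c : ℂ) : eval c (derivative (beP x)) = x 4 + 2 * x 5 * c := by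
  simp only [beP, derivative_add, derivative_mul,
        derivative_pow, derivative_C, derivative_X, eval_add, eval_mul, eval_pow,
        eval_C, eval_X, eval_one, eval_zero]
  norm_num
  ring

theorem derivative_resP (p : Arr 3) (x : Fin 6 → ℂ) : derivative (resP p x) =
    (derivative (Pb p 0) * beP x ^ 3 + Pb p 0 * (3 * beP x ^ 2 * derivative (beP x))) -
    (derivative (Pb p 1) * alP x * beP x ^ 2 + Pb p 1 * derivative (alP x) * beP x ^ 2 +
      Pb p 1 * alP x * (2 * beP x * derivative (beP x))) +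
    (derivative (Pb p 2) * alP x ^ 2 * beP x + Pb p 2 * (2 * alP x * derivative (alP x)) * beP x +
      Pb p 2 * alP x ^ 2 * derivative (beP x)) -
    (derivative (Pb p 3) * alP x ^ 3 + Pb p 3 * (3 * alP x ^ 2 * derivative (alP x))) := by
  have h2 : ∀ q : ℂ[X], derivative (q ^ 2) = 2 * q * derivative q := by
    intro q; rw [pow_two, derivative_mul]; ring
  have h3 : ∀ q : ℂ[X], derivative (q ^ 3) = 3 * q ^ 2 * derivative q := by
    intro q; rw [pow_succ, derivative_mul, h2]; ring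
  unfold resP
  rw [derivative_sub, derivative_add, derivative_sub, derivative_mul, derivative_mul,
    derivative_mul, derivative_mul, derivative_mul, derivative_mul, h2, h2, h3, h3]
  ring

end evals

open Polynomial in
theorem sq_dvd_resP {p : Arr 3} (hp : Herm p) (hpos : ∀ z, 0 ≤ (Pv p z).re) {c : ℂ}
    (hc : Pv p c = 0) {x : Fin 6 → ℂ} (hx : h21 x 1 c = 0) : (X - C c) ^ 2 ∣ resP p x := by
  by_cases hR : resP p x = 0
  · rw [hR]; exact dvd_zero _
  rw [← le_rootMultiplicity_iff hR]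
  have h1 : 1 < (resP p x).rootMultiplicity c := by
    rw [one_lt_rootMultiplicity_iff_isRoot hR]
    obtain ⟨hPz, hPw⟩ := first_order hp hpos hc
    obtain ⟨w, hw⟩ : ∃ w, (starRingEnd ℂ) c = w := ⟨_, rfl⟩
    have hα : x 0 + x 1 * c + x 2 * c ^ 2 = -(w * (x 3 + x 4 * c + x 5 * c ^ 2)) := by
      unfold h21 at hx
      simp only [map_one, mul_one, one_pow, one_mul, hw] at hx
      linear_combination hx
    unfold Pv at hc
    simp only [Fin.sum_univ_four, Fin.isValue, Fin.coe_ofNat_eq_mod, Nat.reduceMod, hw,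
      Nat.reduceSub, pow_zero, pow_one, mul_one, one_mul, Nat.cast_zero, Nat.cast_one, zero_mul,
      mul_zero, Nat.cast_ofNat, zero_add] at hc hPz hPw
    obtain ⟨B, hB⟩ : ∃ B, x 3 + x 4 * c + x 5 * c ^ 2 = B := ⟨_, rfl⟩
    obtain ⟨B', hB'⟩ : ∃ B', x 4 + 2 * x 5 * c = B' := ⟨_, rfl⟩
    obtain ⟨A', hA'⟩ : ∃ A', x 1 + 2 * x 2 * c = A' := ⟨_, rfl⟩
    rw [hB] at hα
    constructor
    · rw [IsRoot.def, resP, eval_sub, eval_add, eval_sub, eval_mul, eval_mul, eval_mul, eval_mul,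
        eval_mul, eval_mul, eval_pow, eval_pow, eval_pow, eval_pow, eval_Pb, eval_Pb, eval_Pb,
        eval_Pb, eval_alP, eval_beP, hα, hB]
      clear hPz hPw hx hpos hp hR hB hB' hA' hα hw
      linear_combination (exp := 1) (B ^ 3) * hc
    · rw [IsRoot.def, derivative_resP]
      simp only [eval_sub, eval_add, eval_mul, eval_pow, eval_ofNat]
      simp only [eval_Pb, eval_alP, eval_beP, eval_dPb, eval_dalP, eval_dbeP]
      rw [hα, hB, hB', hA']
      clear hx hpos hp hR hB hB' hA' hα hw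
      linear_combination (B ^ 3) * hPz + (B' * B ^ 2) * (3 * hc - w * hPw) - (A' * B ^ 2) * hPw
  exact h1

end Pool.Agent.Lib.Helper34.SP
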