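import Mathlib
import Pool.Agent.Lib.Helper34.SP.Six1

/-!
# Nonnegative `(3,3)`-forms with six zeros, part 2
-/

set_option autoImplicit false
set_option linter.unusedSectionVars false
set_option linter.unusedSimpArgs false

open Set Filter Topology Complex

namespace Pool.Agent.Lib.Helper34.SP

open Polynomial in
theorem resP_eq_zero {p : Arr 3} (hp : Herm p) (hpos : ∀ z, 0 ≤ (Pv p z).re) {z : Fin 6 → ℂ}
    (hz : ∀ i, Pv p (z i) = 0) (hinj : Function.Injective z) {x : Fin 6 → ℂ} (i : Fin 6)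
    (hx : ∀ j, j ≠ i → h21 x 1 (z j) = 0) : resP p x = 0 := by
  by_contra hR
  have hdvd : (∏ j ∈ Finset.univ.erase i, (X - C (z j)) ^ 2) ∣ resP p x := by
    refine Finset.prod_dvd_of_coprime ?_ fun j hj => ?_
    · intro j _ k _ hjk
      refine IsCoprime.pow ?_
      exact isCoprime_X_sub_C_of_isUnit_sub (sub_ne_zero.2 fun h => hjk (hinj h)).isUnit
    · exact sq_dvd_resP hp hpos (hz j) (hx j (Finset.ne_of_mem_erase hj))
  have h1 := natDegree_le_of_dvd hdvd hR
  have h2 : (∏ j ∈ Finset.univ.erase i, (X - C (z j)) ^ 2).natDegree = 10 := by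
    rw [natDegree_prod_of_monic _ _ fun j _ => (monic_X_sub_C (z j)).pow 2]
    have : ∀ j ∈ Finset.univ.erase i, ((X - C (z j)) ^ 2 : ℂ[X]).natDegree = 2 := by
      intro j _
      rw [natDegree_pow, natDegree_X_sub_C]
    rw [Finset.sum_congr rfl this, Finset.sum_const, Finset.card_erase_of_mem (Finset.mem_univ i),
      Finset.card_univ, Fintype.card_fin]
    norm_num
  have h3 := natDegree_resP p x
  omega

theorem eval_Pb_coef {p : Arr 3} (h : ∀ b, Pb p b = 0) : p = 0 := by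
  funext a b
  have h1 : ∀ s : ℂ, ∑ a : Fin 4, (fun a => p a b) a * s ^ (a : ℕ) = 0 := by
    intro s
    have h2 := congrArg (Polynomial.eval s) (h b)
    rw [eval_Pb, Polynomial.eval_zero] at h2
    simp only [Fin.sum_univ_four, Fin.isValue, Fin.coe_ofNat_eq_mod, Nat.reduceMod, pow_zero,
      pow_one, mul_one]
    exact h2
  exact quartic_coef h1 a

open Polynomial in
theorem alternative {p : Arr 3} (x : Fin 4 → Fin 6 → ℂ) (hR : ∀ i, resP p (x i) = 0) :
    p = 0 ∨ ∃ i k, i ≠ k ∧ alP (x i) * beP (x k) = alP (x k) * beP (x i) := by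
  by_cases h : ∃ i k, i ≠ k ∧ alP (x i) * beP (x k) = alP (x k) * beP (x i)
  · exact Or.inr h
  left
  push Not at h
  set M : Matrix (Fin 4) (Fin 4) ℂ[X] :=
    Matrix.projVandermonde (fun i => -alP (x i)) (fun i => beP (x i)) with hM
  have hdet : M.det ≠ 0 := by
    rw [hM, Matrix.det_projVandermonde]
    refine Finset.prod_ne_zero_iff.2 fun i _ => Finset.prod_ne_zero_iff.2 fun j hj => ?_
    have hij : i ≠ j := (Finset.mem_Ioi.1 hj).ne
    have := h i j hij
    intro h0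
    apply this
    linear_combination h0
  have hmul : M.mulVec (Pb p) = 0 := by
    funext i
    have h1 := hR i
    rw [Matrix.mulVec, dotProduct, Fin.sum_univ_four]
    simp only [hM, Matrix.projVandermonde_apply, Pi.zero_apply]
    have r0 : ((0 : Fin 4).rev : ℕ) = 3 := rfl
    have r1 : ((1 : Fin 4).rev : ℕ) = 2 := rfl
    have r2 : ((2 : Fin 4).rev : ℕ) = 1 := rfl
    have r3 : ((3 : Fin 4).rev : ℕ) = 0 := rfl
    have s0 : ((0 : Fin 4) : ℕ) = 0 := rfl
    have s1 : ((1 : Fin 4) : ℕ) = 1 := rfl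
    have s2 : ((2 : Fin 4) : ℕ) = 2 := rfl
    have s3 : ((3 : Fin 4) : ℕ) = 3 := rfl
    rw [r0, r1, r2, r3, s0, s1, s2, s3]
    unfold resP at h1
    linear_combination h1
  have := Matrix.eq_zero_of_mulVec_eq_zero hdet hmul
  exact eval_Pb_coef fun b => congrFun this b

/-- `(1,1)`-forms -/
noncomputable def G11 (g : Fin 4 → ℂ) (v w : ℂ) : ℂ :=
  (g 0 * v + g 1 * w) * (starRingEnd ℂ) v + (g 2 * v + g 3 * w) * (starRingEnd ℂ) w

theorem pair_case {z : Fin 6 → ℂ} (hinj : Function.Injective z)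
    {x : Fin 6 → Fin 6 → ℂ} (hdiag : ∀ i, h21 (x i) 1 (z i) ≠ 0)
    (hoff : ∀ i j, j ≠ i → h21 (x i) 1 (z j) = 0) {i k : Fin 6} (hik : i ≠ k)
    (h : alP (x i) * beP (x k) = alP (x k) * beP (x i)) :
    ∃ g : Fin 4 → ℂ, G11 g 1 (z k) ≠ 0 ∧ ∀ j, j ≠ i → j ≠ k → G11 g 1 (z j) = 0 := by
  have e := congrArg (Polynomial.eval (z i)) h
  rw [Polynomial.eval_mul, Polynomial.eval_mul, eval_alP, eval_alP, eval_beP, eval_beP] at e
  have hi := hdiag i
  have hk := hoff k i hik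
  unfold h21 at hi hk
  simp only [map_one, mul_one, one_pow, one_mul] at hi hk
  set y := x k with hy
  have hb : y 3 + y 4 * z i + y 5 * z i ^ 2 = 0 := by
    have : (y 3 + y 4 * z i + y 5 * z i ^ 2) * (x i 0 + x i 1 * z i + x i 2 * z i ^ 2 +
      (x i 3 + x i 4 * z i + x i 5 * z i ^ 2) * (starRingEnd ℂ) (z i)) = 0 := by
      linear_combination e + (x i 3 + x i 4 * z i + x i 5 * z i ^ 2) * hk
    exact (mul_eq_zero.1 this).resolve_right hi
  have ha : y 0 + y 1 * z i + y 2 * z i ^ 2 = 0 := by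
    rw [hb, zero_mul, add_zero] at hk
    exact hk
  have hfac : ∀ w : ℂ, h21 y 1 w = (w - z i) *
      G11 ![y 1 + y 2 * z i, y 2, y 4 + y 5 * z i, y 5] 1 w := by
    intro w
    unfold h21 G11
    simp only [map_one, mul_one, one_pow, one_mul, Matrix.cons_val]
    linear_combination ha + (starRingEnd ℂ) w * hb
  refine ⟨![y 1 + y 2 * z i, y 2, y 4 + y 5 * z i, y 5], ?_, fun j hji hjk => ?_⟩
  · have h1 := hdiag k
    rw [← hy, hfac] at h1
    exact right_ne_zero_of_mul h1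
  · have h1 := hoff k j hjk
    rw [← hy, hfac] at h1
    exact (mul_eq_zero.1 h1).resolve_left (sub_ne_zero.2 fun h => hji (hinj h))

/-- Main alternative in affine coordinates. -/
theorem six_affine {p : Arr 3} (hp : Herm p) (hpos : ∀ z, 0 ≤ (Pv p z).re) {z : Fin 6 → ℂ}
    (hz : ∀ i, Pv p (z i) = 0) (hinj : Function.Injective z)
    {x : Fin 6 → Fin 6 → ℂ} (hdiag : ∀ i, h21 (x i) 1 (z i) ≠ 0)
    (hoff : ∀ i j, j ≠ i → h21 (x i) 1 (z j) = 0) :
    p = 0 ∨ ∃ (i k : Fin 6) (g : Fin 4 → ℂ), i ≠ k ∧ G11 g 1 (z k) ≠ 0 ∧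
      ∀ j, j ≠ i → j ≠ k → G11 g 1 (z j) = 0 := by
  have hR : ∀ i : Fin 6, resP p (x i) = 0 := fun i =>
    resP_eq_zero hp hpos hz hinj i (hoff i)
  rcases alternative (fun i : Fin 4 => x (Fin.castLE (by norm_num) i)) (fun i => hR _) with h | h
  · exact Or.inl h
  · obtain ⟨i, k, hik, h⟩ := h
    have hik' : (Fin.castLE (by norm_num : 4 ≤ 6) i) ≠ Fin.castLE (by norm_num : 4 ≤ 6) k := by
      intro h; exact hik (Fin.castLE_injective _ h)
    obtain ⟨g, h1, h2⟩ := pair_case hinj hdiag hoff hik' h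
    exact Or.inr ⟨_, _, g, hik', h1, h2⟩

end Pool.Agent.Lib.Helper34.SP
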