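import Mathlib
import Pool.Agent.Lib.Helper34.SP.Six2

/-!
# Nonnegative `(3,3)`-forms with six zeros, part 3: the normalised concyclic case
-/

set_option autoImplicit false
set_option linter.unusedSectionVars false
set_option linter.unusedSimpArgs false

open Set Filter Topology Complex

namespace Pool.Agent.Lib.Helper34.SP

/-- explicit form of the value -/
theorem Pv_explicit (p : Arr 3) {z w : ℂ} (hw : (starRingEnd ℂ) z = w) : Pv p z =
    p 0 0 + p 0 1 * w + p 0 2 * w ^ 2 + p 0 3 * w ^ 3 +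
    (p 1 0 + p 1 1 * w + p 1 2 * w ^ 2 + p 1 3 * w ^ 3) * z +
    (p 2 0 + p 2 1 * w + p 2 2 * w ^ 2 + p 2 3 * w ^ 3) * z ^ 2 +
    (p 3 0 + p 3 1 * w + p 3 2 * w ^ 2 + p 3 3 * w ^ 3) * z ^ 3 := by
  unfold Pv
  simp only [Fin.sum_univ_four, Fin.isValue, Fin.coe_ofNat_eq_mod, Nat.reduceMod, hw,
      Nat.reduceSub, pow_zero, pow_one, mul_one, one_mul, Nat.cast_zero, Nat.cast_one, zero_mul,
      mul_zero, Nat.cast_ofNat, zero_add]
  ring

theorem first_explicit {p : Arr 3} (hp : Herm p) (hpos : ∀ z, 0 ≤ (Pv p z).re) {z w : ℂ}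
    (hw : (starRingEnd ℂ) z = w) (hz : Pv p z = 0) :
    (p 1 0 + p 1 1 * w + p 1 2 * w ^ 2 + p 1 3 * w ^ 3) +
    2 * (p 2 0 + p 2 1 * w + p 2 2 * w ^ 2 + p 2 3 * w ^ 3) * z +
    3 * (p 3 0 + p 3 1 * w + p 3 2 * w ^ 2 + p 3 3 * w ^ 3) * z ^ 2 = 0 ∧
    (p 0 1 + p 1 1 * z + p 2 1 * z ^ 2 + p 3 1 * z ^ 3) +
    2 * (p 0 2 + p 1 2 * z + p 2 2 * z ^ 2 + p 3 2 * z ^ 3) * w +
    3 * (p 0 3 + p 1 3 * z + p 2 3 * z ^ 2 + p 3 3 * z ^ 3) * w ^ 2 = 0 := by
  obtain ⟨h1, h2⟩ := first_order hp hpos hz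
  simp only [Fin.sum_univ_four, Fin.isValue, Fin.coe_ofNat_eq_mod, Nat.reduceMod, hw,
      Nat.reduceSub, pow_zero, pow_one, mul_one, one_mul, Nat.cast_zero, Nat.cast_one, zero_mul,
      mul_zero, Nat.cast_ofNat, zero_add] at h1 h2
  constructor
  · linear_combination h1
  · linear_combination h2

/-- the array in the reversed coordinates -/
noncomputable def revA (p : Arr 3) : Arr 3 := fun a b => p a.rev b.rev

theorem real_line_core {p : Arr 3} (hp : Herm p) (hpos : ∀ z, 0 ≤ (Pv p z).re)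
    (hpos' : ∀ z, 0 ≤ (Pv (revA p) z).re) {r e f : ℂ} (hr : (starRingEnd ℂ) r = r) (hr0 : r ≠ 0)
    (hr1 : r ≠ 1) (he : (starRingEnd ℂ) e ≠ e) (hf : (starRingEnd ℂ) f ≠ f) (hef : e ≠ f)
    (z0 : Pv p 0 = 0) (zi : Pv (revA p) 0 = 0) (z1 : Pv p 1 = 0) (zr : Pv p r = 0)
    (ze : Pv p e = 0) (zf : Pv p f = 0) : p = 0 := by
  have c0 : (starRingEnd ℂ) (0 : ℂ) = 0 := map_zero _
  have c1 : (starRingEnd ℂ) (1 : ℂ) = 1 := map_one _
  obtain ⟨f0, g0⟩ := first_explicit hp hpos c0 z0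
  have hp' : Herm (revA p) := fun a b => hp _ _
  obtain ⟨fi, gi⟩ := first_explicit hp' hpos' c0 zi
  obtain ⟨f1, g1⟩ := first_explicit hp hpos c1 z1
  rw [Pv_explicit p c0] at z0
  rw [Pv_explicit _ c0] at zi
  rw [Pv_explicit p c1] at z1
  have zr' := zr
  rw [Pv_explicit p hr] at zr'
  have a00 : p 0 0 = 0 := by linear_combination z0
  have a10 : p 1 0 = 0 := by linear_combination f0
  have a01 : p 0 1 = 0 := by linear_combination g0
  have r33 : revA p 0 0 = p 3 3 := rfl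
  have r23 : revA p 1 0 = p 2 3 := rfl
  have r32 : revA p 0 1 = p 3 2 := rfl
  have a33 : p 3 3 = 0 := by rw [← r33]; linear_combination zi
  have a23 : p 2 3 = 0 := by rw [← r23]; linear_combination fi
  have a32 : p 3 2 = 0 := by rw [← r32]; linear_combination gi
  obtain ⟨C2, hC2⟩ : ∃ C2, p 0 2 + p 1 1 + p 2 0 = C2 := ⟨_, rfl⟩
  obtain ⟨C3, hC3⟩ : ∃ C3, p 0 3 + p 1 2 + p 2 1 + p 3 0 = C3 := ⟨_, rfl⟩
  obtain ⟨C4, hC4⟩ : ∃ C4, p 1 3 + p 2 2 + p 3 1 = C4 := ⟨_, rfl⟩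
  rw [a00, a10, a01, a33, a23, a32] at z1 zr'
  rw [a10, a33, a23, a32] at f1
  rw [a01, a33, a23, a32] at g1
  have k1 : C2 + C3 + C4 = 0 := by rw [← hC2, ← hC3, ← hC4]; linear_combination z1
  have k2 : 2 * C2 + 3 * C3 + 4 * C4 = 0 := by
    rw [← hC2, ← hC3, ← hC4]; linear_combination f1 + g1
  have k3 : C2 + C3 * r + C4 * r ^ 2 = 0 := by
    have : r ^ 2 * (C2 + C3 * r + C4 * r ^ 2) = 0 := by
      rw [← hC2, ← hC3, ← hC4]; linear_combination zr'
    exact (mul_eq_zero.1 this).resolve_left (pow_ne_zero 2 hr0)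
  have k4 : C4 = 0 := by
    have : (r - 1) ^ 2 * C4 = 0 := by
      linear_combination k3 + (2 * r - 3) * k1 + (1 - r) * k2
    exact (mul_eq_zero.1 this).resolve_left (pow_ne_zero 2 (sub_ne_zero.2 hr1))
  have k5 : C3 = 0 := by linear_combination k2 - 2 * k1 - 2 * k4
  have k6 : C2 = 0 := by linear_combination k1 - k4 - k5
  -- vanishing on the real line
  have hline : ∀ t : ℂ, (starRingEnd ℂ) t = t → Pv p t = 0 := by
    intro t ht
    rw [Pv_explicit p ht, a00, a10, a01, a33, a23, a32]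
    rw [← hC2] at k6
    rw [← hC3] at k5
    rw [← hC4] at k4
    linear_combination t ^ 2 * k6 + t ^ 3 * k5 + t ^ 4 * k4
  have hd : ∀ t : ℂ, (starRingEnd ℂ) t = t →
      (p 1 1 + 2 * p 2 0) * t + (p 1 2 + 2 * p 2 1 + 3 * p 3 0) * t ^ 2 +
      (p 1 3 + 2 * p 2 2 + 3 * p 3 1) * t ^ 3 = 0 := by
    intro t ht
    have h := (first_explicit hp hpos ht (hline t ht)).1
    rw [a10, a33, a23, a32] at h
    linear_combination h
  have d1 := hd 1 c1
  have d2 := hd (-1) (by rw [map_neg, map_one])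
  have d3 := hd 2 (map_ofNat _ 2)
  have b3 : p 1 2 + 2 * p 2 1 + 3 * p 3 0 = 0 := by linear_combination (1 / 2) * d1 + (1 / 2) * d2
  have b4 : p 1 3 + 2 * p 2 2 + 3 * p 3 1 = 0 := by
    linear_combination (1 / 6) * d3 - (1 / 3) * d1 - (1 / 3) * b3
  have b2 : p 1 1 + 2 * p 2 0 = 0 := by linear_combination d1 - b3 - b4
  rw [← hC2] at k6
  rw [← hC3] at k5
  rw [← hC4] at k4
  have r11 : p 1 1 = -2 * p 2 0 := by linear_combination b2
  have r02 : p 0 2 = p 2 0 := by linear_combination k6 - b2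
  have r12 : p 1 2 = -2 * p 2 1 - 3 * p 3 0 := by linear_combination b3
  have r03 : p 0 3 = p 2 1 + 2 * p 3 0 := by linear_combination k5 - b3
  have r22 : p 2 2 = -2 * p 3 1 := by linear_combination b4 - k4
  have r13 : p 1 3 = p 3 1 := by linear_combination 2 * k4 - b4
  -- the off-line zeros
  have hoff : ∀ z : ℂ, (starRingEnd ℂ) z ≠ z → Pv p z = 0 →
      p 2 0 + p 3 0 * z + (2 * p 3 0 + p 2 1) * (starRingEnd ℂ) z +
        p 3 1 * z * (starRingEnd ℂ) z = 0 ∧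
      p 3 0 + p 3 1 * (starRingEnd ℂ) z = 0 ∧ (2 * p 3 0 + p 2 1) + p 3 1 * z = 0 := by
    intro z hz hPz
    obtain ⟨w, hw⟩ : ∃ w, (starRingEnd ℂ) z = w := ⟨_, rfl⟩
    obtain ⟨h1, h2⟩ := first_explicit hp hpos hw hPz
    rw [Pv_explicit p hw] at hPz
    rw [hw] at hz ⊢
    have hzw : z - w ≠ 0 := sub_ne_zero.2 (Ne.symm hz)
    rw [a00, a10, a01, a33, a23, a32, r11, r02, r12, r03, r22, r13] at hPz
    rw [a10, a33, a23, a32, r11, r12, r22, r13] at h1
    rw [a01, a33, a23, a32, r11, r02, r12, r03, r22, r13] at h2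
    have q1 : p 2 0 + p 3 0 * z + (2 * p 3 0 + p 2 1) * w + p 3 1 * z * w = 0 := by
      have : (z - w) ^ 2 * (p 2 0 + p 3 0 * z + (2 * p 3 0 + p 2 1) * w + p 3 1 * z * w) = 0 := by
        linear_combination hPz
      exact (mul_eq_zero.1 this).resolve_left (pow_ne_zero 2 hzw)
    have q2 : p 3 0 + p 3 1 * w = 0 := by
      have : (z - w) ^ 2 * (p 3 0 + p 3 1 * w) = 0 := by
        linear_combination h1 - 2 * (z - w) * q1
      exact (mul_eq_zero.1 this).resolve_left (pow_ne_zero 2 hzw)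
    have q3 : (2 * p 3 0 + p 2 1) + p 3 1 * z = 0 := by
      have : (z - w) ^ 2 * ((2 * p 3 0 + p 2 1) + p 3 1 * z) = 0 := by
        linear_combination h2 + 2 * (z - w) * q1
      exact (mul_eq_zero.1 this).resolve_left (pow_ne_zero 2 hzw)
    exact ⟨q1, q2, q3⟩
  obtain ⟨_, _, s3⟩ := hoff e he ze
  obtain ⟨t1, t2, t3⟩ := hoff f hf zf
  have m31 : p 3 1 = 0 := by
    have : (e - f) * p 3 1 = 0 := by linear_combination s3 - t3
    exact (mul_eq_zero.1 this).resolve_left (sub_ne_zero.2 hef)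
  have m30 : p 3 0 = 0 := by rw [m31] at t2; linear_combination t2
  have m21 : p 2 1 = 0 := by rw [m31, m30] at t3; linear_combination t3
  have m20 : p 2 0 = 0 := by rw [m31, m30, m21] at t1; linear_combination t1
  have m02 : p 0 2 = 0 := r02.trans m20
  have m03 : p 0 3 = 0 := by rw [r03, m21, m30]; ring
  have m11 : p 1 1 = 0 := by rw [r11, m20]; ring
  have m12 : p 1 2 = 0 := by rw [r12, m21, m30]; ring
  have m13 : p 1 3 = 0 := r13.trans m31
  have m22 : p 2 2 = 0 := by rw [r22, m31]; ring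
  funext a b
  fin_cases a <;> fin_cases b
  exacts [a00, a01, m02, m03, a10, m11, m12, m13, m20, m21, m22, a23, m30, m31, a32, a33]

end Pool.Agent.Lib.Helper34.SP
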