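import Mathlib
import Pool.Agent.Lib.Helper34.SP.Six3

/-!
# Nonnegative `(3,3)`-forms with six zeros, part 4
-/

set_option autoImplicit false
set_option linter.unusedSectionVars false
set_option linter.unusedSimpArgs false

open Set Filter Topology Complex

namespace Pool.Agent.Lib.Helper34.SP

/-- real `(3,3)`-forms -/
def Is33 (X : ℂ → ℂ → ℝ) : Prop := ∃ F : Arr 3 →ₗ[ℝ] ℝ, ∀ v w, X v w = F (dl 3 v w)

/-- coefficients of the substituted cubic monomials -/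
noncomputable def Sm (a b c d : ℂ) : Fin 4 → Fin 4 → ℂ :=
  ![![a ^ 3, 3 * a ^ 2 * b, 3 * a * b ^ 2, b ^ 3],
    ![c * a ^ 2, d * a ^ 2 + 2 * a * b * c, 2 * a * b * d + c * b ^ 2, d * b ^ 2],
    ![c ^ 2 * a, 2 * c * d * a + c ^ 2 * b, d ^ 2 * a + 2 * c * d * b, d ^ 2 * b],
    ![c ^ 3, 3 * c ^ 2 * d, 3 * c * d ^ 2, d ^ 3]]

theorem Sm_spec (a b c d v w : ℂ) (i : Fin 4) :
    (c * v + d * w) ^ (i : ℕ) * (a * v + b * w) ^ (3 - i : ℕ) =
      ∑ k : Fin 4, Sm a b c d i k * (w ^ (k : ℕ) * v ^ (3 - k : ℕ)) := by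
  have s0 : ((0 : Fin 4) : ℕ) = 0 := rfl
  have s1 : ((1 : Fin 4) : ℕ) = 1 := rfl
  have s2 : ((2 : Fin 4) : ℕ) = 2 := rfl
  have s3 : ((3 : Fin 4) : ℕ) = 3 := rfl
  rw [Fin.sum_univ_four, s0, s1, s2, s3]
  fin_cases i <;>
    simp only [Sm, Fin.zero_eta, Fin.mk_one, Fin.reduceFinMk, Matrix.cons_val, Nat.reduceSub, s0, s1, s2, s3] <;> ring

/-- the induced map on arrays -/
noncomputable def subA (a b c d : ℂ) : Arr 3 →ₗ[ℝ] Arr 3 where
  toFun τ := fun i j => ∑ k : Fin 4, ∑ l : Fin 4,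
    Sm a b c d i k * (starRingEnd ℂ) (Sm a b c d j l) * τ k l
  map_add' x y := by
    funext i j
    simp only [Pi.add_apply, mul_add, Finset.sum_add_distrib]
  map_smul' r x := by
    funext i j
    simp only [Pi.smul_apply, Complex.real_smul, RingHom.id_apply]
    rw [Finset.mul_sum]
    refine Finset.sum_congr rfl fun k _ => ?_
    rw [Finset.mul_sum]
    refine Finset.sum_congr rfl fun l _ => ?_
    ring

theorem subA_dl (a b c d v w : ℂ) :
    subA a b c d (dl 3 v w) = dl 3 (a * v + b * w) (c * v + d * w) := by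
  funext i j
  have h1 : dl 3 (a * v + b * w) (c * v + d * w) i j =
      ((c * v + d * w) ^ (i : ℕ) * (a * v + b * w) ^ (3 - i : ℕ)) * (starRingEnd ℂ)
        ((c * v + d * w) ^ (j : ℕ) * (a * v + b * w) ^ (3 - j : ℕ)) := rfl
  have h2 : subA a b c d (dl 3 v w) i j = ∑ k : Fin 4, ∑ l : Fin 4,
    Sm a b c d i k * (starRingEnd ℂ) (Sm a b c d j l) * dl 3 v w k l := rfl
  rw [h1, h2, Sm_spec, Sm_spec, map_sum, Finset.sum_mul_sum]
  refine Finset.sum_congr rfl fun k _ => Finset.sum_congr rfl fun l _ => ?_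
  rw [map_mul]
  unfold dl
  ring

theorem Is33.subst {X : ℂ → ℂ → ℝ} (hX : Is33 X) (a b c d : ℂ) :
    Is33 (fun v w => X (a * v + b * w) (c * v + d * w)) := by
  obtain ⟨F, hF⟩ := hX
  refine ⟨F.comp (subA a b c d), fun v w => ?_⟩
  rw [LinearMap.comp_apply, subA_dl]
  exact hF _ _

theorem Is33.exists_p {X : ℂ → ℂ → ℝ} (hX : Is33 X) : ∃ p : Arr 3, Herm p ∧
    ∀ v w, ((X v w : ℝ) : ℂ) = ∑ a : Fin 4, ∑ b : Fin 4, p a b * dl 3 v w a b := by
  obtain ⟨F, hF⟩ := hX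
  obtain ⟨p, hp, h⟩ := exists_coef F
  refine ⟨p, hp, fun v w => ?_⟩
  rw [hF]
  exact h _ (herm_dl v w)

theorem Is33.scale {X : ℂ → ℂ → ℝ} (hX : Is33 X) (t v w : ℂ) :
    X (t * v) (t * w) = ‖t‖ ^ 6 * X v w := by
  obtain ⟨p, hp, h⟩ := hX.exists_p
  have h1 : ((X (t * v) (t * w) : ℝ) : ℂ) = ((‖t‖ ^ 6 * X v w : ℝ) : ℂ) := by
    rw [h, Complex.ofReal_mul, h]
    have h2 : ((‖t‖ ^ 6 : ℝ) : ℂ) = t ^ 3 * (starRingEnd ℂ) t ^ 3 := by
      rw [← mul_pow, Complex.mul_conj, Complex.normSq_eq_norm_sq]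
      push_cast; ring
    rw [h2, Finset.mul_sum]
    refine Finset.sum_congr rfl fun a _ => ?_
    rw [Finset.mul_sum]
    refine Finset.sum_congr rfl fun b _ => ?_
    unfold dl
    have ha : t ^ 3 = t ^ (a : ℕ) * t ^ (3 - a : ℕ) := by
      rw [← pow_add]; congr 1; omega
    have hb : (starRingEnd ℂ) t ^ 3 = (starRingEnd ℂ) t ^ (b : ℕ) *
        (starRingEnd ℂ) t ^ (3 - b : ℕ) := by
      rw [← pow_add]; congr 1; omega
    rw [ha, hb]
    simp only [map_mul, map_pow, mul_pow]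
    ring
  exact_mod_cast h1

theorem Is33.scale_zero {X : ℂ → ℂ → ℝ} (hX : Is33 X) {t v w : ℂ} (ht : t ≠ 0)
    (h : X (t * v) (t * w) = 0) : X v w = 0 := by
  rw [hX.scale] at h
  exact (mul_eq_zero.1 h).resolve_left (pow_ne_zero 6 (norm_ne_zero_iff.2 ht))

theorem Pv_eq {X : ℂ → ℂ → ℝ} {p : Arr 3}
    (h : ∀ v w, ((X v w : ℝ) : ℂ) = ∑ a : Fin 4, ∑ b : Fin 4, p a b * dl 3 v w a b) (z : ℂ) :
    Pv p z = ((X 1 z : ℝ) : ℂ) := by
  rw [h]
  unfold Pv dl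
  refine Finset.sum_congr rfl fun a _ => Finset.sum_congr rfl fun b _ => ?_
  simp only [one_pow, mul_one, map_pow]

theorem Pv_rev {X : ℂ → ℂ → ℝ} {p : Arr 3}
    (h : ∀ v w, ((X v w : ℝ) : ℂ) = ∑ a : Fin 4, ∑ b : Fin 4, p a b * dl 3 v w a b) (z : ℂ) :
    Pv (revA p) z = ((X z 1 : ℝ) : ℂ) := by
  rw [h, Pv_explicit _ rfl]
  have s0 : ((0 : Fin 4) : ℕ) = 0 := rfl
  have s1 : ((1 : Fin 4) : ℕ) = 1 := rfl
  have s2 : ((2 : Fin 4) : ℕ) = 2 := rfl
  have s3 : ((3 : Fin 4) : ℕ) = 3 := rfl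
  have e : ∀ a b : Fin 4, revA p a b = p a.rev b.rev := fun _ _ => rfl
  have r0 : (0 : Fin 4).rev = 3 := rfl
  have r1 : (1 : Fin 4).rev = 2 := rfl
  have r2 : (2 : Fin 4).rev = 1 := rfl
  have r3 : (3 : Fin 4).rev = 0 := rfl
  simp only [e, r0, r1, r2, r3, Fin.sum_univ_four]
  unfold dl
  simp only [s0, s1, s2, s3, one_pow, one_mul, map_pow, Nat.reduceSub, pow_zero, pow_one,
    map_one, mul_one]
  ring

theorem Is33.eq_zero_of_p {X : ℂ → ℂ → ℝ} {p : Arr 3}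
    (h : ∀ v w, ((X v w : ℝ) : ℂ) = ∑ a : Fin 4, ∑ b : Fin 4, p a b * dl 3 v w a b)
    (hp : p = 0) (v w : ℂ) : X v w = 0 := by
  have := h v w
  rw [hp] at this
  simpa using this

/-- substituted `(1,1)`-form -/
noncomputable def sub11 (g : Fin 4 → ℂ) (a b c d : ℂ) : Fin 4 → ℂ :=
  ![(g 0 * a + g 1 * c) * (starRingEnd ℂ) a + (g 2 * a + g 3 * c) * (starRingEnd ℂ) c,
    (g 0 * b + g 1 * d) * (starRingEnd ℂ) a + (g 2 * b + g 3 * d) * (starRingEnd ℂ) c,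
    (g 0 * a + g 1 * c) * (starRingEnd ℂ) b + (g 2 * a + g 3 * c) * (starRingEnd ℂ) d,
    (g 0 * b + g 1 * d) * (starRingEnd ℂ) b + (g 2 * b + g 3 * d) * (starRingEnd ℂ) d]

theorem G11_sub (g : Fin 4 → ℂ) (a b c d v w : ℂ) :
    G11 (sub11 g a b c d) v w = G11 g (a * v + b * w) (c * v + d * w) := by
  simp only [G11, sub11, Matrix.cons_val, map_add, map_mul]
  ring

theorem G11_scale (g : Fin 4 → ℂ) (t v w : ℂ) :
    G11 g (t * v) (t * w) = t * (starRingEnd ℂ) t * G11 g v w := by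
  simp only [G11, map_mul]
  ring

/-- The concyclic case. -/
theorem concyclic {X : ℂ → ℂ → ℝ} (hX : Is33 X) (hpos : ∀ v w, 0 ≤ X v w) {ζ : Fin 6 → ℂ}
    (hinj : Function.Injective ζ) (hz : ∀ j, X 1 (ζ j) = 0) {g : Fin 4 → ℂ}
    (hg : ∀ j, j ≠ 4 → j ≠ 5 → G11 g 1 (ζ j) = 0) (hg0 : G11 g 1 (ζ 5) ≠ 0)
    {x4 x5 : Fin 6 → ℂ} (h4 : ∀ j, j ≠ 4 → h21 x4 1 (ζ j) = 0) (h4' : h21 x4 1 (ζ 4) ≠ 0)
    (h5 : ∀ j, j ≠ 5 → h21 x5 1 (ζ j) = 0) (h5' : h21 x5 1 (ζ 5) ≠ 0) : ∀ v w, X v w = 0 := by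
  have hne : ∀ i j : Fin 6, i ≠ j → ζ i - ζ j ≠ 0 := fun i j hij =>
    sub_ne_zero.2 fun h => hij (hinj h)
  have h10 := hne 1 0 (by decide)
  set t : ℂ := (ζ 2 - ζ 0) / (ζ 1 - ζ 0) with ht
  set s : ℂ := (ζ 1 - ζ 2) / (ζ 1 - ζ 0) with hs
  have hst : s + t = 1 := by rw [hs, ht]; field_simp; ring
  have hst2 : s * ζ 0 + t * ζ 1 = ζ 2 := by rw [hs, ht]; field_simp; ring
  have ht0 : t ≠ 0 := div_ne_zero (hne 2 0 (by decide)) h10
  have hs0 : s ≠ 0 := div_ne_zero (hne 1 2 (by decide)) h10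
  set a := s with ha
  set b := t with hb
  obtain ⟨c, hc⟩ : ∃ c, c = s * ζ 0 := ⟨_, rfl⟩
  obtain ⟨d, hd⟩ : ∃ d, d = t * ζ 1 := ⟨_, rfl⟩
  have hdet : a * d - b * c ≠ 0 := by
    have : a * d - b * c = s * t * (ζ 1 - ζ 0) := by rw [hc, hd]; ring
    rw [this]
    exact mul_ne_zero (mul_ne_zero hs0 ht0) h10
  -- the transformed form
  set Y : ℂ → ℂ → ℝ := fun v w => X (a * v + b * w) (c * v + d * w) with hY
  have hY33 : Is33 Y := hX.subst a b c d
  have hYpos : ∀ v w, 0 ≤ Y v w := fun v w => hpos _ _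
  -- coordinates of the remaining points
  have hco : ∀ j : Fin 6, j ≠ 0 → j ≠ 1 → ∃ x y : ℂ, x ≠ 0 ∧ y ≠ 0 ∧ 1 = a * x + b * y ∧
      ζ j = c * x + d * y := by
    intro j hj0 hj1
    obtain ⟨e1, e2⟩ := cramer hdet 1 (ζ j)
    refine ⟨_, _, div_ne_zero ?_ hdet, div_ne_zero ?_ hdet, e1.symm, e2.symm⟩
    · have : 1 * d - b * ζ j = t * (ζ 1 - ζ j) := by rw [hd]; ring
      rw [this]
      exact mul_ne_zero ht0 (hne 1 j (Ne.symm hj1))
    · have : a * ζ j - 1 * c = s * (ζ j - ζ 0) := by rw [hc]; ring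
      rw [this]
      exact mul_ne_zero hs0 (hne j 0 hj0)
  have hYz : ∀ (j : Fin 6) (x y : ℂ), x ≠ 0 → 1 = a * x + b * y → ζ j = c * x + d * y →
      Y 1 (y / x) = 0 := by
    intro j x y hx e1 e2
    apply hY33.scale_zero hx
    rw [mul_one, mul_div_cancel₀ _ hx]
    have : Y x y = X 1 (ζ j) := by rw [hY]; simp only; rw [← e1, ← e2]
    rw [this]; exact hz j
  have hGz : ∀ (j : Fin 6) (x y : ℂ), x ≠ 0 → 1 = a * x + b * y → ζ j = c * x + d * y →
      x * (starRingEnd ℂ) x * G11 (sub11 g a b c d) 1 (y / x) = G11 g 1 (ζ j) := by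
    intro j x y hx e1 e2
    rw [← G11_scale, mul_one, mul_div_cancel₀ _ hx, G11_sub, ← e1, ← e2]
  have hHz : ∀ (q : Fin 6 → ℂ) (j : Fin 6) (x y : ℂ), x ≠ 0 → 1 = a * x + b * y →
      ζ j = c * x + d * y →
      x ^ 2 * (starRingEnd ℂ) x * h21 (sub21 q a b c d) 1 (y / x) = h21 q 1 (ζ j) := by
    intro q j x y hx e1 e2
    rw [← h21_scale, mul_one, mul_div_cancel₀ _ hx, h21_sub, ← e1, ← e2]
  have hconj : ∀ x : ℂ, x ≠ 0 → (starRingEnd ℂ) x ≠ 0 := fun x hx => by simpa using hx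
  obtain ⟨x2, y2, hx2, hy2, e21, e22⟩ := hco 2 (by decide) (by decide)
  obtain ⟨x3, y3, hx3, hy3, e31, e32⟩ := hco 3 (by decide) (by decide)
  obtain ⟨x4', y4, hx4, hy4, e41, e42⟩ := hco 4 (by decide) (by decide)
  obtain ⟨x5', y5, hx5, hy5, e51, e52⟩ := hco 5 (by decide) (by decide)
  -- distinctness
  have hdist : ∀ (i j : Fin 6) (x y x' y' : ℂ), i ≠ j → x ≠ 0 → x' ≠ 0 → 1 = a * x + b * y →
      ζ i = c * x + d * y → 1 = a * x' + b * y' → ζ j = c * x' + d * y' → y / x ≠ y' / x' := by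
    intro i j x y x' y' hij hx hx' e1 e2 e1' e2' heq
    rw [div_eq_div_iff hx hx'] at heq
    apply hne i j hij
    have : ζ i - ζ j = (a * d - b * c) * (y * x' - y' * x) := by
      calc ζ i - ζ j = ζ i * 1 - ζ j * 1 := by ring
        _ = (c * x + d * y) * (a * x' + b * y') - (c * x' + d * y') * (a * x + b * y) := by
            rw [← e1, ← e1', ← e2, ← e2']
        _ = _ := by ring
    rw [this, heq]; ring
  -- values at the base points
  have hY10 : Y 1 0 = 0 := by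
    have h1 : Y 1 0 = X (s * 1) (s * ζ 0) := by
      rw [hY]; simp only [mul_one, mul_zero, add_zero]; rw [hc]
    rw [h1, hX.scale, hz 0, mul_zero]
  have hY01 : Y 0 1 = 0 := by
    have h1 : Y 0 1 = X (t * 1) (t * ζ 1) := by
      rw [hY]; simp only [mul_one, mul_zero, zero_add]; rw [hd]
    rw [h1, hX.scale, hz 1, mul_zero]
  have hY11 : Y 1 1 = 0 := by
    have h1 : Y 1 1 = X 1 (ζ 2) := by
      rw [hY]; simp only [mul_one]; rw [hst, hc, hd, hst2]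
    rw [h1]; exact hz 2
  -- the (1,1)-form in the new coordinates
  set G := sub11 g a b c d with hG
  have hG0 : G 0 = 0 := by
    have h1 : G11 G 1 0 = s * (starRingEnd ℂ) s * G11 g 1 (ζ 0) := by
      rw [hG, G11_sub, ← G11_scale]; simp only [mul_one, mul_zero, add_zero]; rw [hc]
    rw [hg 0 (by decide) (by decide), mul_zero] at h1
    unfold G11 at h1
    simpa using h1
  have hG3 : G 3 = 0 := by
    have h1 : G11 G 0 1 = t * (starRingEnd ℂ) t * G11 g 1 (ζ 1) := by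
      rw [hG, G11_sub, ← G11_scale]; simp only [mul_one, mul_zero, zero_add]; rw [hd]
    rw [hg 1 (by decide) (by decide), mul_zero] at h1
    unfold G11 at h1
    simpa using h1
  have hG12 : G 2 = -G 1 := by
    have h1 : G11 G 1 1 = G11 g 1 (ζ 2) := by
      rw [hG, G11_sub]; simp only [mul_one]; rw [hst, hc, hd, hst2]
    rw [hg 2 (by decide) (by decide)] at h1
    unfold G11 at h1
    rw [hG0, hG3] at h1
    simp only [map_one, mul_one] at h1
    linear_combination h1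
  have hGval : ∀ η : ℂ, G11 G 1 η = G 1 * (η - (starRingEnd ℂ) η) := by
    intro η
    unfold G11
    rw [hG0, hG3, hG12, map_one]
    ring
  have hG1 : G 1 ≠ 0 := by
    intro h0
    apply hg0
    rw [← hGz 5 x5' y5 hx5 e51 e52, hGval, h0]
    ring
  -- the fourth point is real
  set r := y3 / x3 with hr
  have hrr : (starRingEnd ℂ) r = r := by
    have h1 := hGz 3 x3 y3 hx3 e31 e32
    rw [hg 3 (by decide) (by decide), ← hr, hGval] at h1
    have h2 : r - (starRingEnd ℂ) r = 0 := by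
      rcases mul_eq_zero.1 h1 with h | h
      · exact absurd h (mul_ne_zero hx3 (hconj _ hx3))
      · exact (mul_eq_zero.1 h).resolve_left hG1
    exact (sub_eq_zero.1 h2).symm
  have hr0 : r ≠ 0 := div_ne_zero hy3 hx3
  have hr1 : r ≠ 1 := by
    have h1 := hdist 3 2 x3 y3 1 1 (by decide) hx3 one_ne_zero e31 e32
      (by rw [mul_one, mul_one]; exact hst.symm)
      (by rw [mul_one, mul_one, hc, hd]; exact hst2.symm)
    rwa [div_one] at h1
  -- the last two points are not real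
  have hnr : ∀ (q : Fin 6 → ℂ) (k : Fin 6), (k = 4 ∨ k = 5) → (∀ j, j ≠ k → h21 q 1 (ζ j) = 0) →
      h21 q 1 (ζ k) ≠ 0 → ∀ x y : ℂ, x ≠ 0 → 1 = a * x + b * y → ζ k = c * x + d * y →
      (starRingEnd ℂ) (y / x) ≠ y / x := by
    intro q k hk hq hqk x y hx e1 e2 hreal
    have k0 : (0 : Fin 6) ≠ k := by rcases hk with h | h <;> rw [h] <;> decide
    have k1 : (1 : Fin 6) ≠ k := by rcases hk with h | h <;> rw [h] <;> decide
    have k2 : (2 : Fin 6) ≠ k := by rcases hk with h | h <;> rw [h] <;> decide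
    have k3 : (3 : Fin 6) ≠ k := by rcases hk with h | h <;> rw [h] <;> decide
    set Q := sub21 q a b c d with hQ
    have hQ0 : Q 0 = 0 := by
      have h1 : h21 Q 1 0 = s ^ 2 * (starRingEnd ℂ) s * h21 q 1 (ζ 0) := by
        rw [hQ, h21_sub, ← h21_scale]; simp only [mul_one, mul_zero, add_zero]; rw [hc]
      rw [hq 0 k0, mul_zero] at h1
      unfold h21 at h1
      simpa using h1
    have hQ5 : Q 5 = 0 := by
      have h1 : h21 Q 0 1 = t ^ 2 * (starRingEnd ℂ) t * h21 q 1 (ζ 1) := by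
        rw [hQ, h21_sub, ← h21_scale]; simp only [mul_one, mul_zero, zero_add]; rw [hd]
      rw [hq 1 k1, mul_zero] at h1
      unfold h21 at h1
      simpa using h1
    have hQv : ∀ η : ℂ, (starRingEnd ℂ) η = η →
        h21 Q 1 η = (Q 1 + Q 3) * η + (Q 2 + Q 4) * η ^ 2 := by
      intro η hη
      unfold h21
      rw [hQ0, hQ5, map_one, hη]
      ring
    have f1 : (Q 1 + Q 3) + (Q 2 + Q 4) = 0 := by
      have h1 : h21 Q 1 1 = h21 q 1 (ζ 2) := by
        rw [hQ, h21_sub]; simp only [mul_one]; rw [hst, hc, hd, hst2]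
      rw [hq 2 k2, hQv 1 (map_one _)] at h1
      linear_combination h1
    have f2 : (Q 1 + Q 3) + (Q 2 + Q 4) * r = 0 := by
      have h1 := hHz q 3 x3 y3 hx3 e31 e32
      rw [hq 3 k3, ← hr, ← hQ, hQv r hrr] at h1
      have h2 : (Q 1 + Q 3) * r + (Q 2 + Q 4) * r ^ 2 = 0 := by
        rcases mul_eq_zero.1 h1 with h | h
        · exact absurd h (mul_ne_zero (pow_ne_zero 2 hx3) (hconj _ hx3))
        · exact h
      have h3 : r * ((Q 1 + Q 3) + (Q 2 + Q 4) * r) = 0 := by linear_combination h2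
      exact (mul_eq_zero.1 h3).resolve_left hr0
    have f3 : Q 2 + Q 4 = 0 := by
      have : (r - 1) * (Q 2 + Q 4) = 0 := by linear_combination f2 - f1
      exact (mul_eq_zero.1 this).resolve_left (sub_ne_zero.2 hr1)
    have f4 : Q 1 + Q 3 = 0 := by linear_combination f1 - f3
    apply hqk
    rw [← hHz q k x y hx e1 e2, ← hQ, hQv _ hreal, f3, f4]
    ring
  have he := hnr x4 4 (Or.inl rfl) h4 h4' x4' y4 hx4 e41 e42
  have hf := hnr x5 5 (Or.inr rfl) h5 h5' x5' y5 hx5 e51 e52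
  have hef := hdist 4 5 x4' y4 x5' y5 (by decide) hx4 hx5 e41 e42 e51 e52
  -- apply the core
  obtain ⟨p, hp, hpX⟩ := hY33.exists_p
  have hp0 : p = 0 := by
    refine real_line_core hp (fun z => ?_) (fun z => ?_) hrr hr0 hr1 he hf hef ?_ ?_ ?_ ?_ ?_ ?_
    · rw [Pv_eq hpX, Complex.ofReal_re]; exact hYpos _ _
    · rw [Pv_rev hpX, Complex.ofReal_re]; exact hYpos _ _
    · rw [Pv_eq hpX, hY10, Complex.ofReal_zero]
    · rw [Pv_rev hpX, hY01, Complex.ofReal_zero]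
    · rw [Pv_eq hpX, hY11, Complex.ofReal_zero]
    · rw [Pv_eq hpX, hYz 3 x3 y3 hx3 e31 e32, Complex.ofReal_zero]
    · rw [Pv_eq hpX, hYz 4 x4' y4 hx4 e41 e42, Complex.ofReal_zero]
    · rw [Pv_eq hpX, hYz 5 x5' y5 hx5 e51 e52, Complex.ofReal_zero]
  intro v w
  obtain ⟨e1, e2⟩ := cramer hdet v w
  have h1 := Is33.eq_zero_of_p hpX hp0 ((v * d - b * w) / (a * d - b * c))
    ((a * w - v * c) / (a * d - b * c))
  have h2 : Y ((v * d - b * w) / (a * d - b * c)) ((a * w - v * c) / (a * d - b * c)) = X v w := by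
    rw [hY]; simp only; rw [e1, e2]
  rw [← h2]; exact h1

end Pool.Agent.Lib.Helper34.SP
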