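import Mathlib
import Pool.Agent.Lib.Helper34.SP.Six4

/-!
# Nonnegative `(3,3)`-forms with six zeros, part 5: conclusion
-/

set_option autoImplicit false
set_option linter.unusedSectionVars false
set_option linter.unusedSimpArgs false

open Set Filter Topology Complex

namespace Pool.Agent.Lib.Helper34.SP

theorem exists_perm {i k : Fin 6} (hik : i ≠ k) :
    ∃ σ : Equiv.Perm (Fin 6), σ 4 = i ∧ σ 5 = k := by
  refine ⟨Equiv.swap 4 i * Equiv.swap 5 (Equiv.swap 4 i k), ?_, ?_⟩
  · have hy : Equiv.swap 4 i k ≠ 4 := by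
      intro h
      have h2 : Equiv.swap 4 i i = 4 := Equiv.swap_apply_right 4 i
      exact hik ((Equiv.swap 4 i).injective (h2.trans h.symm))
    rw [Equiv.Perm.mul_apply, Equiv.swap_apply_of_ne_of_ne (by decide) (Ne.symm hy),
      Equiv.swap_apply_left]
  · rw [Equiv.Perm.mul_apply, Equiv.swap_apply_left]
    exact Equiv.swap_apply_self 4 i k

theorem h21_zero (x : Fin 6 → ℂ) : h21 x 0 0 = 0 := by
  unfold h21; simp

/-- A nonzero nonnegative `(3,3)`-form cannot have six zeros at which the `(2,1)`-forms separate. -/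
theorem six_zeros {X : ℂ → ℂ → ℝ} (hX : Is33 X) (hpos : ∀ v w, 0 ≤ X v w) {v w : Fin 6 → ℂ}
    (hz : ∀ i, X (v i) (w i) = 0) {x : Fin 6 → Fin 6 → ℂ}
    (hdual : ∀ i j, h21 (x i) (v j) (w j) = if i = j then 1 else 0) : ∀ v w, X v w = 0 := by
  -- choose a shear making all first coordinates nonzero
  obtain ⟨t, ht⟩ : ∃ t : ℂ, t ∉ Set.range fun i => -(v i) / w i := by
    have hfin : (Set.range fun i => -(v i) / w i).Finite := Set.finite_range _
    exact hfin.infinite_compl.nonempty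
  have hl : ∀ i, v i + t * w i ≠ 0 := by
    intro i h0
    by_cases hw : w i = 0
    · rw [hw, mul_zero, add_zero] at h0
      have := hdual i i
      rw [if_pos rfl, hw, h0, h21_zero] at this
      exact zero_ne_one this
    · apply ht
      refine ⟨i, ?_⟩
      simp only
      rw [div_eq_iff hw]
      linear_combination -h0
  set X1 : ℂ → ℂ → ℝ := fun v w => X (1 * v + (-t) * w) (0 * v + 1 * w) with hX1
  have h33 : Is33 X1 := hX.subst 1 (-t) 0 1
  have hpos1 : ∀ v w, 0 ≤ X1 v w := fun v w => hpos _ _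
  set z : Fin 6 → ℂ := fun i => w i / (v i + t * w i) with hzdef
  set y : Fin 6 → Fin 6 → ℂ := fun i => sub21 (x i) 1 (-t) 0 1 with hy
  have hXz : ∀ i, X1 1 (z i) = 0 := by
    intro i
    apply h33.scale_zero (hl i)
    rw [mul_one, hzdef]
    simp only
    rw [mul_div_cancel₀ _ (hl i)]
    have : X1 (v i + t * w i) (w i) = X (v i) (w i) := by
      rw [hX1]; simp only; congr 1 <;> ring
    rw [this]; exact hz i
  have hyz : ∀ i j, (v j + t * w j) ^ 2 * (starRingEnd ℂ) (v j + t * w j) * h21 (y i) 1 (z j) =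
      if i = j then 1 else 0 := by
    intro i j
    rw [← h21_scale, mul_one, hzdef]
    simp only
    rw [mul_div_cancel₀ _ (hl j), hy]
    simp only
    rw [h21_sub, ← hdual i j]
    congr 1 <;> ring
  have hlam : ∀ j, (v j + t * w j) ^ 2 * (starRingEnd ℂ) (v j + t * w j) ≠ 0 := fun j =>
    mul_ne_zero (pow_ne_zero 2 (hl j)) ((map_ne_zero (starRingEnd ℂ)).2 (hl j))
  have hdiag : ∀ i, h21 (y i) 1 (z i) ≠ 0 := by
    intro i h0
    have := hyz i i
    rw [h0, mul_zero, if_pos rfl] at this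
    exact zero_ne_one this
  have hoff : ∀ i j, j ≠ i → h21 (y i) 1 (z j) = 0 := by
    intro i j hji
    have := hyz i j
    rw [if_neg (Ne.symm hji)] at this
    exact (mul_eq_zero.1 this).resolve_left (hlam j)
  have hinj : Function.Injective z := by
    intro i j hij
    by_contra hne
    apply hdiag i
    rw [hij]
    exact hoff i j (Ne.symm hne)
  have hX1zero : ∀ v w, X1 v w = 0 := by
    obtain ⟨p, hp, hpX⟩ := h33.exists_p
    have hposp : ∀ z, 0 ≤ (Pv p z).re := by
      intro z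
      rw [Pv_eq hpX, Complex.ofReal_re]; exact hpos1 _ _
    have hzp : ∀ i, Pv p (z i) = 0 := by
      intro i
      rw [Pv_eq hpX, hXz, Complex.ofReal_zero]
    rcases six_affine hp hposp hzp hinj hdiag hoff with h0 | ⟨i, k, g, hik, hgk, hg⟩
    · exact Is33.eq_zero_of_p hpX h0
    · obtain ⟨σ, hσ4, hσ5⟩ := exists_perm hik
      refine concyclic h33 hpos1 (ζ := fun j => z (σ j)) (fun a b hab => σ.injective (hinj hab))
        (fun j => hXz _) (g := g) (fun j hj4 hj5 => hg _ ?_ ?_) ?_ (x4 := y i) (x5 := y k)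
        (fun j hj => hoff _ _ ?_) ?_ (fun j hj => hoff _ _ ?_) ?_
      · intro h; exact hj4 (σ.injective (h.trans hσ4.symm))
      · intro h; exact hj5 (σ.injective (h.trans hσ5.symm))
      · rw [hσ5]; exact hgk
      · intro h; exact hj (σ.injective (h.trans hσ4.symm))
      · rw [hσ4]; exact hdiag i
      · intro h; exact hj (σ.injective (h.trans hσ5.symm))
      · rw [hσ5]; exact hdiag k
  intro a b
  have h1 := hX1zero (a + t * b) b
  have h2 : X1 (a + t * b) b = X a b := by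
    rw [hX1]; simp only; congr 1 <;> ring
  rw [← h2]; exact h1

/-- dual families -/
def DualF (n : ℕ) (v w : Fin n → ℂ) : Prop :=
  ∃ x : Fin n → Fin 6 → ℂ, ∀ i j, h21 (x i) (v j) (w j) = if i = j then 1 else 0

theorem h21_lin (c : ℂ) (x y : Fin 6 → ℂ) (v w : ℂ) :
    h21 (x + c • y) v w = h21 x v w + c * h21 y v w := by
  unfold h21
  simp only [Pi.add_apply, Pi.smul_apply, smul_eq_mul]
  ring

theorem h21_smul (c : ℂ) (y : Fin 6 → ℂ) (v w : ℂ) : h21 (c • y) v w = c * h21 y v w := by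
  unfold h21
  simp only [Pi.smul_apply, smul_eq_mul]
  ring

theorem DualF.extend {n : ℕ} {v w : Fin n → ℂ} (h : DualF n v w) {x : Fin 6 → ℂ}
    (hx : ∀ j, h21 x (v j) (w j) = 0) {a b : ℂ} (hab : h21 x a b ≠ 0) :
    DualF (n + 1) (Fin.snoc v a : Fin (n + 1) → ℂ) (Fin.snoc w b : Fin (n + 1) → ℂ) := by
  obtain ⟨y, hy⟩ := h
  set x' : Fin 6 → ℂ := (h21 x a b)⁻¹ • x with hx'
  have hx'ab : h21 x' a b = 1 := by rw [hx', h21_smul, inv_mul_cancel₀ hab]
  have hx'0 : ∀ j, h21 x' (v j) (w j) = 0 := by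
    intro j; rw [hx', h21_smul, hx, mul_zero]
  refine ⟨(Fin.snoc (fun i => y i + (-(h21 (y i) a b)) • x') x' : Fin (n + 1) → Fin 6 → ℂ), ?_⟩
  intro i j
  refine Fin.lastCases ?_ (fun i => ?_) i <;> refine Fin.lastCases ?_ (fun j => ?_) j
  · rw [Fin.snoc_last, Fin.snoc_last, Fin.snoc_last, if_pos rfl]; exact hx'ab
  · rw [Fin.snoc_last, Fin.snoc_castSucc, Fin.snoc_castSucc, hx'0,
      if_neg (Fin.castSucc_lt_last j).ne']
  · rw [Fin.snoc_last, Fin.snoc_last, Fin.snoc_castSucc, if_neg (Fin.castSucc_lt_last i).ne,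
      h21_lin, hx'ab]
    ring
  · rw [Fin.snoc_castSucc, Fin.snoc_castSucc, Fin.snoc_castSucc, h21_lin, hx'0, hy, mul_zero,
      add_zero]
    by_cases hij : i = j
    · rw [if_pos hij, if_pos (congrArg _ hij)]
    · rw [if_neg hij, if_neg fun h => hij (Fin.castSucc_injective _ h)]

theorem exists_vanish {n : ℕ} (hn : n < 6) (v w : Fin n → ℂ) :
    ∃ x : Fin 6 → ℂ, x ≠ 0 ∧ ∀ j, h21 x (v j) (w j) = 0 := by
  set L : (Fin 6 → ℂ) →ₗ[ℂ] (Fin n → ℂ) :=
    { toFun := fun x j => h21 x (v j) (w j)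
      map_add' := fun x y => by
        funext j
        have := h21_lin 1 x y (v j) (w j)
        rw [one_smul, one_mul] at this
        exact this
      map_smul' := fun c x => by
        funext j
        exact h21_smul c x (v j) (w j) } with hL
  have hker : L.ker ≠ ⊥ := LinearMap.ker_ne_bot_of_finrank_lt (by simpa using hn)
  obtain ⟨x, hx, hx0⟩ := Submodule.exists_mem_ne_zero_of_ne_bot hker
  exact ⟨x, hx0, fun j => congrFun hx j⟩

theorem exists_ne_zero {x : Fin 6 → ℂ} (hx : x ≠ 0) : ∃ v w, h21 x v w ≠ 0 := by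
  by_contra hc
  push Not at hc
  apply hx
  have h0 := hc 1 0
  have h1 := hc 1 1
  have h2 := hc 1 (-1)
  have h3 := hc 1 Complex.I
  have h4 := hc 1 (-Complex.I)
  have h5 := hc 1 2
  unfold h21 at h0 h1 h2 h3 h4 h5
  simp only [map_one, map_neg, map_zero, Complex.conj_I, map_ofNat] at h0 h1 h2 h3 h4 h5
  have I2 : Complex.I ^ 2 = -1 := Complex.I_sq
  have e0 : x 0 = 0 := by linear_combination h0
  have f1 : x 2 + x 4 = 0 := by linear_combination (1 / 2) * h1 + (1 / 2) * h2 - e0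
  have f2 : x 1 + x 3 + x 5 = 0 := by linear_combination (1 / 2) * h1 - (1 / 2) * h2
  have f3 : x 4 - x 2 = 0 := by
    linear_combination (1 / 2) * h3 + (1 / 2) * h4 - e0 - (x 2 - x 4) * I2
  have f4 : x 1 + x 5 - x 3 = 0 := by
    have : Complex.I * (x 1 + x 5 - x 3) = 0 := by
      linear_combination (1 / 2) * h3 - (1 / 2) * h4 + Complex.I * x 5 * I2
    exact (mul_eq_zero.1 this).resolve_left Complex.I_ne_zero
  have e2 : x 2 = 0 := by linear_combination (1 / 2) * f1 - (1 / 2) * f3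
  have e4 : x 4 = 0 := by linear_combination (1 / 2) * f1 + (1 / 2) * f3
  have e3 : x 3 = 0 := by linear_combination (1 / 2) * f2 - (1 / 2) * f4
  have e5 : x 5 = 0 := by
    linear_combination (1 / 6) * h5 - (1 / 3) * f2 - (1 / 6) * e0 - (2 / 3) * e2 - (2 / 3) * e4
  have e1 : x 1 = 0 := by linear_combination f2 - e3 - e5
  funext i
  fin_cases i
  exacts [e0, e1, e2, e3, e4, e5]

end Pool.Agent.Lib.Helper34.SP
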