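import Mathlib
import Pool.Agent.Lib.Helper34.SP.Six5
import Pool.Agent.Lib.Helper34.SP.Pos24

/-!
# The case `p = 6`
-/

set_option autoImplicit false
set_option linter.unusedSectionVars false
set_option linter.unusedSimpArgs false

open Set Filter Topology Complex
open scoped Matrix

namespace Pool.Agent.Lib.Helper34.SP

/-- Selection of five points. -/
theorem five_points {Z : ℂ → ℂ → Prop}
    (hZ : ∀ v w : Fin 6 → ℂ, (∀ i, Z (v i) (w i)) → ¬ DualF 6 v w) :
    ∃ v w : Fin 5 → ℂ, DualF 5 v w ∧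
      ∀ x : Fin 6 → ℂ, (∀ j, h21 x (v j) (w j) = 0) → ∀ a b, Z a b → h21 x a b = 0 := by
  have key : ∀ n : ℕ, n ≤ 5 → ∃ v w : Fin n → ℂ, DualF n v w ∧ ((∀ i, Z (v i) (w i)) ∨
      ∀ x : Fin 6 → ℂ, (∀ j, h21 x (v j) (w j) = 0) → ∀ a b, Z a b → h21 x a b = 0) := by
    intro n
    induction n with
    | zero =>
      intro _
      exact ⟨Fin.elim0, Fin.elim0, ⟨Fin.elim0, fun i => Fin.elim0 i⟩, Or.inl fun i => Fin.elim0 i⟩
    | succ n ih =>
      intro hn
      obtain ⟨v, w, hd, halt⟩ := ih (by omega)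
      by_cases h2 : ∀ x : Fin 6 → ℂ, (∀ j, h21 x (v j) (w j) = 0) → ∀ a b, Z a b → h21 x a b = 0
      · obtain ⟨x, hx0, hx⟩ := exists_vanish (by omega : n < 6) v w
        obtain ⟨a, b, hab⟩ := exists_ne_zero hx0
        refine ⟨_, _, hd.extend hx hab, Or.inr fun x' hx' => h2 x' fun j => ?_⟩
        have := hx' j.castSucc
        rwa [Fin.snoc_castSucc, Fin.snoc_castSucc] at this
      · have h1 := halt.resolve_right h2
        push Not at h2
        obtain ⟨x, hx, a, b, hZab, hab⟩ := h2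
        refine ⟨_, _, hd.extend hx hab, Or.inl fun i => ?_⟩
        refine Fin.lastCases ?_ (fun i => ?_) i
        · rw [Fin.snoc_last, Fin.snoc_last]; exact hZab
        · rw [Fin.snoc_castSucc, Fin.snoc_castSucc]; exact h1 i
  obtain ⟨v, w, hd, halt⟩ := key 5 le_rfl
  refine ⟨v, w, hd, ?_⟩
  by_contra h2
  have h1 := halt.resolve_right h2
  push Not at h2
  obtain ⟨x, hx, a, b, hZab, hab⟩ := h2
  refine hZ _ _ (fun i => ?_) (hd.extend hx hab)
  refine Fin.lastCases ?_ (fun i => ?_) i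
  · rw [Fin.snoc_last, Fin.snoc_last]; exact hZab
  · rw [Fin.snoc_castSucc, Fin.snoc_castSucc]; exact h1 i

theorem DualF.np {n : ℕ} {v w : Fin n → ℂ} (h : DualF n v w) {i j : Fin n} (hij : i ≠ j) :
    NP (v i) (w i) (v j) (w j) := by
  obtain ⟨x, hx⟩ := h
  intro h0
  have hi := hx i i
  have hj := hx i j
  rw [if_pos rfl] at hi
  rw [if_neg hij] at hj
  have hex : ∃ l : ℂ, v i = l * v j ∧ w i = l * w j := by
    by_cases hv : v j = 0
    · by_cases hw : w j = 0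
      · exfalso
        have := hx j j
        rw [if_pos rfl, hv, hw, h21_zero] at this
        exact zero_ne_one this
      · refine ⟨w i / w j, ?_, ?_⟩
        · rw [div_mul_eq_mul_div, eq_div_iff hw]
          linear_combination h0
        · rw [div_mul_cancel₀ _ hw]
    · refine ⟨v i / v j, ?_, ?_⟩
      · rw [div_mul_cancel₀ _ hv]
      · rw [div_mul_eq_mul_div, eq_div_iff hv]
        linear_combination -h0
  obtain ⟨l, hv, hw⟩ := hex
  rw [hv, hw, h21_scale, hj, mul_zero] at hi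
  exact zero_ne_one hi

/-- pairing with `|h|²` as a real-linear functional -/
noncomputable def Lr (x : Fin 6 → ℂ) : Arr 3 →ₗ[ℝ] ℝ where
  toFun τ := (Lc x τ).re
  map_add' σ τ := by
    rw [← Complex.add_re]
    congr 1
    unfold Lc
    simp only [Pi.add_apply]
    ring
  map_smul' r τ := by
    simp only [RingHom.id_apply, smul_eq_mul]
    rw [← Complex.re_ofReal_mul]
    congr 1
    unfold Lc
    simp only [Pi.smul_apply, Complex.real_smul]
    ring

theorem Lc_dl (x : Fin 6 → ℂ) (v w : ℂ) :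
    Lc x (dl 3 v w) = ((‖h21 x v w‖ ^ 2 : ℝ) : ℂ) := by
  have h1 : ((‖h21 x v w‖ ^ 2 : ℝ) : ℂ) = h21 x v w * (starRingEnd ℂ) (h21 x v w) := by
    rw [Complex.mul_conj, Complex.normSq_eq_norm_sq]
  rw [h1]
  have s0 : ((0 : Fin 4) : ℕ) = 0 := rfl
  have s1 : ((1 : Fin 4) : ℕ) = 1 := rfl
  have s2 : ((2 : Fin 4) : ℕ) = 2 := rfl
  have s3 : ((3 : Fin 4) : ℕ) = 3 := rfl
  unfold Lc dl h21
  simp only [s0, s1, s2, s3, pow_zero, pow_one, one_mul, mul_one, map_mul, map_add, map_pow,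
    Complex.conj_conj, Nat.reduceSub, tsub_zero, tsub_self, map_one]
  ring

theorem Lr_dl (x : Fin 6 → ℂ) (v w : ℂ) : Lr x (dl 3 v w) = ‖h21 x v w‖ ^ 2 := by
  have h : Lr x (dl 3 v w) = (Lc x (dl 3 v w)).re := rfl
  rw [h, Lc_dl, Complex.ofReal_re]

variable {κ : Type*} [Fintype κ] [DecidableEq κ]

/-- The array of a pair of matrices is in the cone. -/
theorem tau_mem (A : Fin 2 → Matrix κ κ ℂ) : tauW (Wd A) ∈ coneS 3 := by
  by_contra hC
  obtain ⟨X, s, l, v, w, hs, hl, hXpos, hXne, hdec, hXz⟩ :=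
    exists_dual (by norm_num : 1 ≤ 3) (tau_mem_spanV A) hC
  have h33 : Is33 (fun a b => X (dl 3 a b)) := ⟨X, fun _ _ => rfl⟩
  have hno6 : ∀ v w : Fin 6 → ℂ, (∀ i, X (dl 3 (v i) (w i)) = 0) → ¬ DualF 6 v w := by
    rintro v w hz ⟨x, hx⟩
    obtain ⟨a, b, hab⟩ := hXne
    exact hab (six_zeros h33 hXpos hz hx a b)
  obtain ⟨v5, w5, hd5, hker⟩ := five_points (Z := fun a b => X (dl 3 a b) = 0) hno6
  obtain ⟨x, hx0, hx⟩ := exists_vanish (by norm_num : 5 < 6) v5 w5
  have hkap : ∀ c0 c1, 0 ≤ kapQ x c0 c1 := kapQ_nonneg v5 w5 (fun i j hij => hd5.np hij) hx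
  have hLpos : ∀ σ ∈ coneS 3, 0 ≤ Lr x σ := by
    rintro σ ⟨v', w', rfl⟩
    rw [map_sum]
    refine Finset.sum_nonneg fun i _ => ?_
    rw [Lr_dl]; positivity
  have h1 : Lr x (tauW (Wd A) + s • (l : Arr 3)) = 0 := by
    rw [hdec, map_sum]
    refine Finset.sum_eq_zero fun i _ => ?_
    rw [Lr_dl, hker x hx _ _ (hXz i), norm_zero]
    norm_num
  have h2 : 0 ≤ Lr x (tauW (Wd A)) := Lc_tau_nonneg hkap A
  have hlC : (l : Arr 3) ∈ coneS 3 := by
    have : l ∈ coneV 3 := interior_subset hl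
    exact this
  have h3 : 0 ≤ Lr x (l : Arr 3) := hLpos _ hlC
  have h4 : Lr x (l : Arr 3) = 0 := by
    rw [map_add, map_smul, smul_eq_mul] at h1
    have h5 : s * Lr x (l : Arr 3) = 0 := by
      have : 0 ≤ s * Lr x (l : Arr 3) := mul_nonneg hs.le h3
      linarith
    exact (mul_eq_zero.1 h5).resolve_left hs.ne'
  have h5 : (Lr x).comp (spanV 3).subtype = 0 :=
    eq_zero_of_interior hl (fun σ hσ => hLpos _ hσ) h4
  obtain ⟨a, b, hab⟩ := exists_ne_zero hx0
  have h6 := LinearMap.congr_fun h5 (dlV 3 a b)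
  have h7 : Lr x (dl 3 a b) = 0 := h6
  rw [Lr_dl] at h7
  exact hab (by simpa using h7)

theorem rep_three (A B : Matrix κ κ ℂ) : RepFin 3 (fun α β => finTr 3 (α • A + β • B)) := by
  obtain ⟨v, w, h⟩ := tau_mem ![A, B]
  refine ⟨_, v, w, fun α β => ?_⟩
  have h1 := evA_tau ![A, B] α β
  rw [h, map_sum] at h1
  simp only [evA_dl, Matrix.cons_val_zero, Matrix.cons_val_one] at h1
  exact h1.symm

end Pool.Agent.Lib.Helper34.SP
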